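import Pool.Agent.H.MP_43e44c_ag.MD.NumD

/-!
Numerical part, second range.
-/

set_option autoImplicit false

open Finset

namespace Pool.MP43e44c.MD

/-- Powers of the logarithm are small. -/
theorem NumB_large (K : ℝ) {r : ℝ} (hr : 0 < r) : ∃ n₀ : ℕ, ∀ n : ℕ, n₀ ≤ n →
    K * Real.log n ^ 3 ≤ (n : ℝ) ^ r := by
  have h1 : (fun x : ℝ => K * Real.log x ^ (3 : ℝ)) =o[Filter.atTop] fun x : ℝ => x ^ r := by
    apply Asymptotics.IsLittleO.const_mul_left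
    exact isLittleO_log_rpow_rpow_atTop 3 hr
  have h5 := h1.bound (show (0 : ℝ) < 1 by norm_num)
  have h6 := (tendsto_natCast_atTop_atTop (R := ℝ)).eventually (h5.and
    (Filter.eventually_ge_atTop 1))
  obtain ⟨n₀, hn₀⟩ := Filter.eventually_atTop.1 h6
  refine ⟨n₀, fun n hn => ?_⟩
  obtain ⟨h7, h8⟩ := hn₀ n hn
  have h9 : (0 : ℝ) < n := by linarith
  rw [one_mul, Real.norm_eq_abs, Real.norm_eq_abs, abs_of_nonneg (Real.rpow_nonneg h9.le _)] at h7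
  have h10 := (le_abs_self _).trans h7
  have h11 : Real.log n ^ (3 : ℝ) = Real.log n ^ 3 := by norm_cast
  rwa [h11] at h10

/-- The estimate of the base. -/
theorem NumB_base {C n L D ℓ A T : ℝ} (hn : 0 < n) (hL : 1 ≤ L) (hD : 1 ≤ D) (hℓ : 3 ≤ ℓ)
    (hℓC : ℓ ≤ C * L) (hA : 0 < A) (hT : 0 < T)
    (hC : (32 * Real.exp 1 * C) ^ 2 * 72 * L ^ 3 ≤ n ^ (1 / 5 : ℝ))
    (hDn : D ≤ 2 * n ^ (2 / 5 : ℝ))
    (hAn : A * (600 * ℓ * D ^ (3 / 2 : ℝ) * L) ≤ n)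
    (hTn : n / (9 * D * (2 * D * L)) < (ℓ * T) ^ 2) :
    8 * Real.exp 1 * (1 + A * Real.sqrt (2 * D * L / n)) / T ≤ 1 / 2 := by
  have he := Real.exp_pos 1
  have he1 := Real.exp_one_lt_d9
  set v : ℝ := Real.sqrt (2 * D * L / n) with hv
  have hv2 : v ^ 2 = 2 * D * L / n := Real.sq_sqrt (by positivity)
  have hv0 : 0 < v := Real.sqrt_pos.2 (by positivity)
  set u : ℝ := 3 * Real.sqrt D * v with hu
  have hD0 : (0 : ℝ) < D := by linarith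
  have hu0 : 0 < u := by positivity
  have hsD : Real.sqrt D ^ 2 = D := Real.sq_sqrt hD0.le
  have hu2 : u ^ 2 = 18 * D ^ 2 * L / n := by
    rw [hu, mul_pow, mul_pow, hsD, hv2]
    ring
  have hT1 : 1 < ℓ * T * u := by
    have h1 : 1 < (ℓ * T * u) ^ 2 := by
      rw [mul_pow, hu2]
      rw [div_lt_iff₀ (by positivity)] at hTn
      rw [mul_div_assoc', lt_div_iff₀ hn]
      linarith
    nlinarith [mul_pos (mul_pos (show (0 : ℝ) < ℓ by linarith) hT) hu0]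
  have hT2 : 1 / T ≤ ℓ * u := by
    rw [div_le_iff₀ hT]
    linarith
  have h1 : 8 * Real.exp 1 * (1 + A * v) / T ≤ 8 * Real.exp 1 * (1 + A * v) * (ℓ * u) := by
    rw [div_eq_mul_one_div]
    gcongr
  refine h1.trans ?_
  have h2 : 8 * Real.exp 1 * (ℓ * u) ≤ 1 / 4 := by
    have h3 : (32 * Real.exp 1 * (C * L) * u) ^ 2 ≤ 1 := by
      have h4 : (32 * Real.exp 1 * (C * L) * u) ^ 2 =
          (32 * Real.exp 1 * C) ^ 2 * 18 * L ^ 3 * D ^ 2 / n := by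
        rw [mul_pow, hu2]
        ring
      rw [h4, div_le_one hn]
      have h5 : D ^ 2 ≤ 4 * n ^ (4 / 5 : ℝ) := by
        calc D ^ 2 ≤ (2 * n ^ (2 / 5 : ℝ)) ^ 2 := by gcongr
          _ = 4 * n ^ (4 / 5 : ℝ) := by
            rw [mul_pow, ← Real.rpow_natCast (n ^ (2 / 5 : ℝ)), ← Real.rpow_mul hn.le]
            norm_num
      calc (32 * Real.exp 1 * C) ^ 2 * 18 * L ^ 3 * D ^ 2
          ≤ (32 * Real.exp 1 * C) ^ 2 * 18 * L ^ 3 * (4 * n ^ (4 / 5 : ℝ)) := by gcongr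
        _ = ((32 * Real.exp 1 * C) ^ 2 * 72 * L ^ 3) * n ^ (4 / 5 : ℝ) := by ring
        _ ≤ n ^ (1 / 5 : ℝ) * n ^ (4 / 5 : ℝ) := by gcongr
        _ = n := by
          rw [← Real.rpow_add hn]
          norm_num
    have h6 : 32 * Real.exp 1 * (C * L) * u ≤ 1 := by
      have h7 := abs_le_of_sq_le_sq' (a := 32 * Real.exp 1 * (C * L) * u) (b := 1) (by simpa using h3)
        (by norm_num)
      exact h7.2
    have h8 : 32 * Real.exp 1 * ℓ * u ≤ 32 * Real.exp 1 * (C * L) * u := by gcongr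
    linarith
  have h9 : 8 * Real.exp 1 * (A * v) * (ℓ * u) ≤ 1 / 4 := by
    have h10 : D ^ (3 / 2 : ℝ) = D * Real.sqrt D := by
      rw [Real.sqrt_eq_rpow, show (3 / 2 : ℝ) = 1 + 1 / 2 by norm_num, Real.rpow_add hD0,
        Real.rpow_one]
    have h11 : 8 * Real.exp 1 * (A * v) * (ℓ * u) =
        (48 * Real.exp 1 / 600) * (A * (600 * ℓ * D ^ (3 / 2 : ℝ) * L) / n) := by
      have h12 : (A * v) * (ℓ * u) = A * ℓ * (3 * Real.sqrt D) * v ^ 2 := by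
        rw [hu]
        ring
      rw [mul_assoc, h12, hv2, h10]
      field_simp
      ring
    rw [h11]
    have h13 : A * (600 * ℓ * D ^ (3 / 2 : ℝ) * L) / n ≤ 1 := by
      rwa [div_le_one hn]
    calc (48 * Real.exp 1 / 600) * (A * (600 * ℓ * D ^ (3 / 2 : ℝ) * L) / n)
        ≤ (48 * Real.exp 1 / 600) * 1 := by gcongr
      _ ≤ 1 / 4 := by linarith
  nlinarith

theorem numB_level {c C : ℝ} (hc : 0 < c) (hC : 0 < C) : ∃ n₀ : ℕ,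
    ∀ {n ℓ m N f i : ℕ} {NN : ℕ → ℝ → ℝ}, n₀ ≤ n →
    NumH ℓ m N f n NN → 3 ≤ ℓ → (ℓ : ℝ) ≤ C * Real.log n → 1 ≤ f → f ≤ 2 → 1 ≤ N →
    (n : ℝ) ^ c ≤ 2 * (N : ℝ) ^ 2 → (N : ℝ) ≤ (n : ℝ) ^ (2 / 5 : ℝ) →
    (ℓ : ℝ) ^ i * (600 * ℓ * (f * N : ℝ) ^ (3 / 2 : ℝ) * Real.log n) ≤ n → 1 ≤ i → i ≤ m →
    NN i (2 * (f * N : ℝ) * Real.log n) / ((ℓ : ℝ) ^ (f * N)) ^ i
      ≤ 2 * (n : ℝ) ^ (-(2) : ℝ) := by
  obtain ⟨n₁, hn₁⟩ := NumB_large 72 (show (0 : ℝ) < 1 / 5 by norm_num)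
  obtain ⟨n₂, hn₂⟩ := NumB_large ((32 * Real.exp 1 * C) ^ 2 * 72) (show (0 : ℝ) < 1 / 5 by norm_num)
  obtain ⟨n₃, hn₃⟩ := NumB_large 72 hc
  refine ⟨max 3 (max n₁ (max n₂ n₃)), ?_⟩
  intro n ℓ m N f i NN hn hNN hℓ hℓC hf1 hf2 hN hnc hNn hi hi1 him
  have hn3 : 3 ≤ n := le_trans (le_max_left _ _) hn
  have hnr : (3 : ℝ) ≤ n := by exact_mod_cast hn3
  have hn0 : (0 : ℝ) < n := by linarith
  replace hn₁ := hn₁ n (by omega)
  replace hn₂ := hn₂ n (by omega)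
  replace hn₃ := hn₃ n (by omega)
  have hL1 : 1 ≤ Real.log n := by
    rw [Real.le_log_iff_exp_le hn0]
    have := Real.exp_one_lt_d9
    linarith
  generalize hL : Real.log n = L at *
  have hL13 : L ≤ L ^ 3 := by nlinarith [sq_nonneg L]
  have hL23 : L ^ 2 ≤ L ^ 3 := by nlinarith [sq_nonneg L]
  have hℓr : (3 : ℝ) ≤ ℓ := by exact_mod_cast hℓ
  have hℓ0 : (0 : ℝ) < ℓ := by linarith
  have hf1' : (1 : ℝ) ≤ f := by exact_mod_cast hf1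
  have hf2' : (f : ℝ) ≤ 2 := by exact_mod_cast hf2
  have hN' : (1 : ℝ) ≤ N := by exact_mod_cast hN
  set D : ℝ := (f : ℝ) * N with hDdef
  have hD1 : 1 ≤ D := one_le_mul_of_one_le_of_one_le hf1' hN'
  have hDN : (N : ℝ) ≤ D := le_mul_of_one_le_left (by linarith) hf1'
  have hD0 : 0 < D := by linarith
  have hDn : D ≤ 2 * (n : ℝ) ^ (2 / 5 : ℝ) := by
    rw [hDdef]
    exact mul_le_mul hf2' hNn (by linarith) (by norm_num)
  have hDD : D ^ 2 ≤ 4 * (n : ℝ) ^ (4 / 5 : ℝ) := by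
    calc D ^ 2 ≤ (2 * (n : ℝ) ^ (2 / 5 : ℝ)) ^ 2 := by gcongr
      _ = 4 * (n : ℝ) ^ (4 / 5 : ℝ) := by
        rw [mul_pow, ← Real.rpow_natCast ((n : ℝ) ^ (2 / 5 : ℝ)), ← Real.rpow_mul hn0.le]
        norm_num
  have hDL : 9 * D * (2 * D * L) ≤ n := by
    calc 9 * D * (2 * D * L) = 18 * L * D ^ 2 := by ring
      _ ≤ 18 * L ^ 3 * (4 * (n : ℝ) ^ (4 / 5 : ℝ)) := by gcongr
      _ = (72 * L ^ 3) * (n : ℝ) ^ (4 / 5 : ℝ) := by ring
      _ ≤ (n : ℝ) ^ (1 / 5 : ℝ) * (n : ℝ) ^ (4 / 5 : ℝ) := by gcongr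
      _ = n := by
        rw [← Real.rpow_add hn0]
        norm_num
  have hE0 : 0 < 2 * D * L := by positivity
  have hR0 : (0 : ℝ) ≤ 2 * (n : ℝ) ^ (-(2) : ℝ) := by positivity
  by_cases hsm : D * (ℓ : ℝ) ^ (2 * i) * (2 * D * L) < n
  · rw [hNN.vanish i _ hi1 him hE0.le hsm, zero_div]
    exact hR0
  rw [not_lt] at hsm
  obtain ⟨t, ht1, ht2⟩ := exists_nat_pow_near (x := (n : ℝ) / (9 * D * (2 * D * L)))
    (y := (ℓ : ℝ) ^ 2) (by rwa [one_le_div (by positivity)]) (by nlinarith)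
  rw [← pow_mul, le_div_iff₀ (by positivity)] at ht1
  have hti : t < i := by
    by_contra h
    rw [not_lt] at h
    have h1 : (ℓ : ℝ) ^ (2 * i) ≤ (ℓ : ℝ) ^ (2 * t) :=
      pow_le_pow_right₀ (by linarith) (by omega)
    have h2 : D * (ℓ : ℝ) ^ (2 * i) * (2 * D * L) ≤ D * (ℓ : ℝ) ^ (2 * t) * (2 * D * L) := by
      gcongr
    nlinarith
  have hit := hNN.iter i t (2 * D * L) hti him hE0.le (by
    rw [← hDdef]
    nlinarith)
  set κ : ℝ := (ℓ : ℝ) ^ (2 * t) * (2 * D * L) / n with hκ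
  have hκ0 : 0 < κ := by positivity
  have hb := hNN.baseB (i - t) κ (by omega) (by omega) hκ0
  have hκn : κ * n = (ℓ : ℝ) ^ (2 * t) * (2 * D * L) := by
    rw [hκ]
    field_simp
  rw [hκn] at hb
  have hT0 : (0 : ℝ) < (ℓ : ℝ) ^ t := by positivity
  have hsq : (ℓ : ℝ) ^ (i - t) * Real.sqrt κ = (ℓ : ℝ) ^ i * Real.sqrt (2 * D * L / n) := by
    have h1 : κ = ((ℓ : ℝ) ^ t) ^ 2 * (2 * D * L / n) := by
      rw [hκ, pow_mul']
      ring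
    rw [h1, Real.sqrt_mul (by positivity), Real.sqrt_sq hT0.le, ← mul_assoc, ← pow_add,
      Nat.sub_add_cancel hti.le]
  rw [hsq] at hb
  have hbase := NumB_base (C := C) (A := (ℓ : ℝ) ^ i) (T := (ℓ : ℝ) ^ t) hn0 hL1 hD1 hℓr hℓC
    (by positivity) hT0 hn₂ hDn hi (by
      refine ht2.trans_le (le_of_eq ?_)
      rw [← pow_mul, ← pow_succ', ← pow_mul, mul_comm])
  set X : ℝ := 8 * Real.exp 1 * (1 + (ℓ : ℝ) ^ i * Real.sqrt (2 * D * L / n)) with hX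
  have hX0 : 0 ≤ X := by positivity
  have hft : ((ℓ : ℝ) ^ f) ^ t ≤ n := by
    calc ((ℓ : ℝ) ^ f) ^ t ≤ ((ℓ : ℝ) ^ 2) ^ t := by
          apply pow_le_pow_left₀ (by positivity)
          exact pow_le_pow_right₀ (by linarith) hf2
      _ = (ℓ : ℝ) ^ (2 * t) * 1 := by rw [← pow_mul, mul_one]
      _ ≤ (ℓ : ℝ) ^ (2 * t) * (9 * D * (2 * D * L)) := by
          gcongr
          nlinarith
      _ ≤ n := ht1
  have hhalf : (1 / 2 : ℝ) ^ (f * N) ≤ (n : ℝ) ^ (-4 : ℝ) := by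
    have h1 : 6 * L ≤ N := by
      have h2 : (6 * L) ^ 2 ≤ (N : ℝ) ^ 2 := by nlinarith
      exact (abs_le_of_sq_le_sq' h2 (by linarith)).2
    have h3 := Real.log_two_gt_d9
    rw [Real.rpow_def_of_pos hn0, ← Real.exp_log (show (0 : ℝ) < (1 / 2) ^ (f * N) by positivity),
      Real.exp_le_exp, Real.log_pow, one_div, Real.log_inv, hL]
    push_cast
    rw [← hDdef]
    nlinarith
  have hqt : ((ℓ : ℝ) ^ (f * N)) ^ i = ((ℓ : ℝ) ^ t) ^ (f * N) * ((ℓ : ℝ) ^ (f * N)) ^ (i - t) := by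
    rw [← pow_mul (ℓ : ℝ) t, mul_comm t, pow_mul (ℓ : ℝ) (f * N) t, ← pow_add]
    congr 1
    omega
  have hq0 : (0 : ℝ) < ((ℓ : ℝ) ^ (f * N)) ^ (i - t) := by positivity
  have hT1 : (0 : ℝ) < ((ℓ : ℝ) ^ t) ^ (f * N) := by positivity
  calc NN i (2 * D * L) / ((ℓ : ℝ) ^ (f * N)) ^ i
      ≤ (((ℓ : ℝ) ^ f) ^ t * (((ℓ : ℝ) ^ (f * N)) ^ (i - t) * (2 * n * X ^ (f * N)))) /
          ((ℓ : ℝ) ^ (f * N)) ^ i := by
        gcongr
        exact hit.trans (by gcongr)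
    _ = ((ℓ : ℝ) ^ f) ^ t * (2 * n) * (X / (ℓ : ℝ) ^ t) ^ (f * N) := by
        rw [hqt, div_pow]
        field_simp
    _ ≤ n * (2 * n) * (1 / 2) ^ (f * N) := by
        gcongr
    _ ≤ n * (2 * n) * (n : ℝ) ^ (-4 : ℝ) := by gcongr
    _ = 2 * (n : ℝ) ^ (-(2) : ℝ) := by
        have h1 : (n : ℝ) * (2 * n) = 2 * (n : ℝ) ^ (2 : ℝ) := by
          rw [Real.rpow_two]
          ring
        rw [h1, mul_assoc, ← Real.rpow_add hn0]
        norm_num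

end Pool.MP43e44c.MD
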