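import Pool.Agent.H.MP_43e44c_ag.MD.NumA
import Pool.Agent.H.MP_43e44c_ag.MD.NumB

/-!
Numerical part, sums over the levels.
-/

set_option autoImplicit false

open Finset

namespace Pool.MP43e44c.MD

theorem NumS_exp {n ℓ k f N : ℕ} {a : ℝ} (hn : 1 ≤ n) (hf : 1 ≤ f) (hN : 1 ≤ N)
    (h : (ℓ : ℝ) ^ k ≤ (n : ℝ) ^ a) (ha : a ≤ 8) :
    ((ℓ : ℝ) ^ (f * N)) ^ k * Real.exp (-4 * (2 * (f * N : ℝ) * Real.log n))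
      ≤ (n : ℝ) ^ (a - 8) := by
  have hn1 : (1 : ℝ) ≤ n := by exact_mod_cast hn
  have hn0 : (0 : ℝ) < n := by linarith
  have h1 : ((ℓ : ℝ) ^ (f * N)) ^ k = ((ℓ : ℝ) ^ k) ^ (f * N) := by
    rw [← pow_mul, ← pow_mul, mul_comm]
  have h2 : Real.exp (-4 * (2 * (f * N : ℝ) * Real.log n)) = ((n : ℝ) ^ (-8 : ℝ)) ^ (f * N) := by
    rw [Real.rpow_def_of_pos hn0, ← Real.exp_nat_mul]
    congr 1
    push_cast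
    ring
  have h3 : ((ℓ : ℝ) ^ k) ^ (f * N) ≤ ((n : ℝ) ^ a) ^ (f * N) :=
    pow_le_pow_left₀ (by positivity) h _
  have h4 : (n : ℝ) ^ (a - 8) ≤ 1 := Real.rpow_le_one_of_one_le_of_nonpos hn1 (by linarith)
  have h5 : f * N ≠ 0 := by positivity
  rw [h1, h2]
  calc ((ℓ : ℝ) ^ k) ^ (f * N) * ((n : ℝ) ^ (-8 : ℝ)) ^ (f * N)
      ≤ ((n : ℝ) ^ a) ^ (f * N) * ((n : ℝ) ^ (-8 : ℝ)) ^ (f * N) :=
        mul_le_mul_of_nonneg_right h3 (by positivity)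
    _ = ((n : ℝ) ^ (a - 8)) ^ (f * N) := by
        rw [← mul_pow, ← Real.rpow_add hn0]
        congr 2
    _ ≤ (n : ℝ) ^ (a - 8) := pow_le_of_le_one (by positivity) h4 h5

theorem NumS_m {ℓ m : ℕ} (hℓ : 3 ≤ ℓ) : (m : ℝ) ≤ (ℓ : ℝ) ^ m := by
  have h1 : m < 2 ^ m := Nat.lt_two_pow_self
  have h2 : 2 ^ m ≤ ℓ ^ m := Nat.pow_le_pow_left (by omega) m
  have h3 : m ≤ ℓ ^ m := by omega
  exact_mod_cast h3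

/-- PROOF. `m < 2 ^ m ≤ ℓ ^ m ≤ n ^ (41/40)`; each level contributes at most `6 n ^ (- 3/2)` (`numA_level`) plus
`(ℓ ^ i) ^ d exp (- 8 d log n) ≤ n ^ ((41/40 - 8) d) ≤ n ^ (- 6)`, `d = f N ≥ 1`; the total tends to `0`. -/
theorem numA : ∃ n₀ : ℕ, ∀ {n ℓ m N f : ℕ} {NN : ℕ → ℝ → ℝ}, n₀ ≤ n →
    NumH ℓ m N f n NN → 3 ≤ ℓ → 1 ≤ f → f ≤ 2 → 100 ≤ N → (N : ℝ) ≤ (n : ℝ) ^ (3 / 1000 : ℝ) →
    (n : ℝ) ^ (3 / 20 : ℝ) ≤ (ℓ : ℝ) ^ N → (ℓ : ℝ) ≤ (n : ℝ) ^ (1 / 600 : ℝ) →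
    (ℓ : ℝ) ^ m ≤ (n : ℝ) ^ (41 / 40 : ℝ) →
    ∑ k ∈ Icc 1 m, (NN k (2 * (f * N : ℝ) * Real.log n) / ((ℓ : ℝ) ^ (f * N)) ^ k
      + ((ℓ : ℝ) ^ (f * N)) ^ k * Real.exp (-4 * (2 * (f * N : ℝ) * Real.log n))) ≤ 1 := by
  obtain ⟨n₁, h₁⟩ := numA_level
  refine ⟨max n₁ 343, ?_⟩
  intro n ℓ m N f NN hn hH hℓ hf hf2 hN hN2 hlow hℓ2 hm
  have hn₁ : n₁ ≤ n := (le_max_left _ _).trans hn
  have hn2 : 343 ≤ n := (le_max_right _ _).trans hn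
  have hnR : (343 : ℝ) ≤ n := by exact_mod_cast hn2
  have hn0 : (0 : ℝ) < n := by linarith
  have hn1 : (1 : ℝ) ≤ n := by linarith
  have hℓR : (1 : ℝ) ≤ ℓ := by exact_mod_cast (by omega : 1 ≤ ℓ)
  have key : ∀ k ∈ Icc 1 m, (NN k (2 * (f * N : ℝ) * Real.log n) / ((ℓ : ℝ) ^ (f * N)) ^ k
      + ((ℓ : ℝ) ^ (f * N)) ^ k * Real.exp (-4 * (2 * (f * N : ℝ) * Real.log n))) ≤
      7 * (n : ℝ) ^ (-(3 / 2) : ℝ) := by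
    intro k hk
    rw [mem_Icc] at hk
    have hk2 : (ℓ : ℝ) ^ k ≤ (n : ℝ) ^ (41 / 40 : ℝ) :=
      (pow_le_pow_right₀ hℓR hk.2).trans hm
    have e1 := h₁ hn₁ hH hℓ hf hf2 hN hN2 hlow hℓ2 hk2 hk.1 hk.2
    have e2 := NumS_exp (by omega : 1 ≤ n) hf (by omega : 1 ≤ N) hk2 (by norm_num)
    have e3 : (n : ℝ) ^ ((41 / 40 : ℝ) - 8) ≤ (n : ℝ) ^ (-(3 / 2) : ℝ) :=
      Real.rpow_le_rpow_of_exponent_le hn1 (by norm_num)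
    linarith
  have h2 := sum_le_sum key
  rw [sum_const, Nat.card_Icc, nsmul_eq_mul, Nat.add_sub_cancel] at h2
  refine h2.trans ?_
  have h3 : (m : ℝ) ≤ (n : ℝ) ^ (41 / 40 : ℝ) := (NumS_m hℓ).trans hm
  have h4 : (m : ℝ) * (7 * (n : ℝ) ^ (-(3 / 2) : ℝ)) ≤
      (n : ℝ) ^ (41 / 40 : ℝ) * (7 * (n : ℝ) ^ (-(3 / 2) : ℝ)) :=
    mul_le_mul_of_nonneg_right h3 (by positivity)
  refine h4.trans ?_
  have h5 : (n : ℝ) ^ (41 / 40 : ℝ) * (7 * (n : ℝ) ^ (-(3 / 2) : ℝ)) =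
      7 * (n : ℝ) ^ (-(19 / 40) : ℝ) := by
    rw [mul_left_comm, ← Real.rpow_add hn0]
    norm_num
  rw [h5]
  have h6 : (n : ℝ) ^ (-(19 / 40) : ℝ) ≤ (343 : ℝ) ^ (-(19 / 40) : ℝ) :=
    Real.rpow_le_rpow_of_nonpos (by norm_num) hnR (by norm_num)
  have h7 : (343 : ℝ) ^ (-(19 / 40) : ℝ) ≤ (343 : ℝ) ^ (-(1 / 3) : ℝ) :=
    Real.rpow_le_rpow_of_exponent_le (by norm_num) (by norm_num)
  have h8 : (343 : ℝ) ^ (-(1 / 3) : ℝ) = 1 / 7 := by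
    have e : (343 : ℝ) = 7 ^ (3 : ℝ) := by norm_num
    rw [e, ← Real.rpow_mul (by norm_num)]
    norm_num
  linarith

/-- PROOF. As `numA`: `m < 2 ^ m ≤ ℓ ^ m ≤ n` and each level contributes at most `2 n ^ (- 2) + n ^ (- 7)`. -/
theorem numB {c C : ℝ} (hc : 0 < c) (hC : 0 < C) : ∃ n₀ : ℕ,
    ∀ {n ℓ m N f : ℕ} {NN : ℕ → ℝ → ℝ}, n₀ ≤ n →
    NumH ℓ m N f n NN → 3 ≤ ℓ → (ℓ : ℝ) ≤ C * Real.log n → 1 ≤ f → f ≤ 2 → 1 ≤ N →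
    (n : ℝ) ^ c ≤ 2 * (N : ℝ) ^ 2 → (N : ℝ) ≤ (n : ℝ) ^ (2 / 5 : ℝ) →
    (ℓ : ℝ) ^ m * (600 * ℓ * (f * N : ℝ) ^ (3 / 2 : ℝ) * Real.log n) ≤ n →
    ∑ k ∈ Icc 1 m, (NN k (2 * (f * N : ℝ) * Real.log n) / ((ℓ : ℝ) ^ (f * N)) ^ k
      + ((ℓ : ℝ) ^ (f * N)) ^ k * Real.exp (-4 * (2 * (f * N : ℝ) * Real.log n))) ≤ 1 := by
  obtain ⟨n₁, h₁⟩ := numB_level hc hC
  refine ⟨max n₁ 3, ?_⟩
  intro n ℓ m N f NN hn hH hℓ hℓC hf hf2 hN hlow hN2 hm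
  have hn₁ : n₁ ≤ n := (le_max_left _ _).trans hn
  have hn2 : 3 ≤ n := (le_max_right _ _).trans hn
  have hnR : (3 : ℝ) ≤ n := by exact_mod_cast hn2
  have hn0 : (0 : ℝ) < n := by linarith
  have hn1 : (1 : ℝ) ≤ n := by linarith
  have hℓR : (1 : ℝ) ≤ ℓ := by exact_mod_cast (by omega : 1 ≤ ℓ)
  have hfN : (1 : ℝ) ≤ (f * N : ℝ) := by
    have : 1 ≤ f * N := Nat.one_le_iff_ne_zero.2 (by positivity)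
    exact_mod_cast this
  have hfN2 : (1 : ℝ) ≤ (f * N : ℝ) ^ (3 / 2 : ℝ) := Real.one_le_rpow hfN (by norm_num)
  have hlog : (1 / 2 : ℝ) ≤ Real.log n := by
    have e1 := Real.log_two_gt_d9
    have e2 : Real.log 2 ≤ Real.log n := Real.log_le_log (by norm_num) (by linarith)
    linarith
  have hfac : (1 : ℝ) ≤ 600 * ℓ * (f * N : ℝ) ^ (3 / 2 : ℝ) * Real.log n := by
    have e1 : (600 : ℝ) ≤ 600 * ℓ := by linarith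
    have e2 : (600 : ℝ) ≤ 600 * ℓ * (f * N : ℝ) ^ (3 / 2 : ℝ) := by nlinarith
    nlinarith
  have hmn : (ℓ : ℝ) ^ m ≤ n := by
    have e1 : (ℓ : ℝ) ^ m * 1 ≤ (ℓ : ℝ) ^ m *
        (600 * ℓ * (f * N : ℝ) ^ (3 / 2 : ℝ) * Real.log n) :=
      mul_le_mul_of_nonneg_left hfac (by positivity)
    linarith
  have key : ∀ k ∈ Icc 1 m, (NN k (2 * (f * N : ℝ) * Real.log n) / ((ℓ : ℝ) ^ (f * N)) ^ k
      + ((ℓ : ℝ) ^ (f * N)) ^ k * Real.exp (-4 * (2 * (f * N : ℝ) * Real.log n))) ≤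
      3 * (n : ℝ) ^ (-(2) : ℝ) := by
    intro k hk
    rw [mem_Icc] at hk
    have hkm : (ℓ : ℝ) ^ k ≤ (ℓ : ℝ) ^ m := pow_le_pow_right₀ hℓR hk.2
    have hk2 : (ℓ : ℝ) ^ k ≤ (n : ℝ) ^ (1 : ℝ) := by
      rw [Real.rpow_one]
      exact hkm.trans hmn
    have hk3 : (ℓ : ℝ) ^ k * (600 * ℓ * (f * N : ℝ) ^ (3 / 2 : ℝ) * Real.log n) ≤ n :=
      (mul_le_mul_of_nonneg_right hkm (by linarith)).trans hm
    have e1 := h₁ hn₁ hH hℓ hℓC hf hf2 hN hlow hN2 hk3 hk.1 hk.2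
    have e2 := NumS_exp (by omega : 1 ≤ n) hf hN hk2 (by norm_num)
    have e3 : (n : ℝ) ^ ((1 : ℝ) - 8) ≤ (n : ℝ) ^ (-(2) : ℝ) :=
      Real.rpow_le_rpow_of_exponent_le hn1 (by norm_num)
    linarith
  have h2 := sum_le_sum key
  rw [sum_const, Nat.card_Icc, nsmul_eq_mul, Nat.add_sub_cancel] at h2
  refine h2.trans ?_
  have h3 : (m : ℝ) ≤ n := (NumS_m hℓ).trans hmn
  have h4 : (m : ℝ) * (3 * (n : ℝ) ^ (-(2) : ℝ)) ≤ n * (3 * (n : ℝ) ^ (-(2) : ℝ)) :=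
    mul_le_mul_of_nonneg_right h3 (by positivity)
  refine h4.trans ?_
  have h5 : (n : ℝ) ^ (-(2) : ℝ) = ((n : ℝ) ^ 2)⁻¹ := by
    rw [Real.rpow_neg hn0.le]
    norm_num
  rw [h5]
  have h6 : (n : ℝ) * (3 * ((n : ℝ) ^ 2)⁻¹) = 3 / n := by
    field_simp
  rw [h6, div_le_one hn0]
  exact hnR

end Pool.MP43e44c.MD
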