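import Mathlib

/-!
Primes which do not divide `n`.
-/

set_option autoImplicit false

open Finset

namespace Pool.MP43e44c.MD

theorem PrimeL_lower : ∃ Y : ℝ, 2 ≤ Y ∧ ∀ y : ℝ, Y ≤ y → y / 4 ≤ Chebyshev.theta y := by
  have h1 := (isLittleO_log_rpow_atTop (r := 1 / 2) (by norm_num)).def
    (c := 1 / 100) (by norm_num)
  obtain ⟨Y, hY⟩ := Filter.eventually_atTop.1 h1
  refine ⟨max Y 100, le_trans (by norm_num) (le_max_right _ _), fun y hy => ?_⟩
  have hy1 : Y ≤ y := (le_max_left _ _).trans hy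
  have hy2 : (100 : ℝ) ≤ y := (le_max_right _ _).trans hy
  have hy0 : 0 < y := by linarith
  have h2 := hY y hy1
  rw [Real.norm_eq_abs, Real.norm_eq_abs, ← Real.sqrt_eq_rpow,
    abs_of_nonneg (Real.log_nonneg (by linarith)), abs_of_nonneg (Real.sqrt_nonneg y)] at h2
  have h3 := Chebyshev.theta_ge' (x := y) (by linarith)
  have hs : Real.sqrt y * Real.sqrt y = y := Real.mul_self_sqrt hy0.le
  have h4 : 2 * Real.sqrt y * Real.log y ≤ y / 50 := by
    have := mul_le_mul_of_nonneg_left h2 (mul_nonneg zero_le_two (Real.sqrt_nonneg y))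
    nlinarith
  have hsq : Real.sqrt y ≤ y := by
    nlinarith [Real.sqrt_nonneg y, Real.one_le_sqrt.2 (by linarith : (1 : ℝ) ≤ y)]
  have h5 : Real.log (y + 2) ≤ Real.log y + Real.log 2 := by
    rw [← Real.log_mul hy0.ne' (by norm_num)]
    exact Real.log_le_log (by linarith) (by linarith)
  have h6 := Real.log_two_gt_d9
  have h7 := Real.log_two_lt_d9
  have h8 : (y - 1) * 0.69 ≤ (y - 1) * Real.log 2 :=
    mul_le_mul_of_nonneg_left (by linarith) (by linarith)
  linarith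

/-- PROOF. Let `y = C (x + log n)`.  If all primes in `(x, y]` divide `n`, then their product divides `n`, so
`θ y - θ x ≤ log n`.  But `θ x ≤ x log 4` (`Chebyshev.theta_le_log4_mul_x`) and `θ y ≥ y / 4` for `y ≥ C`
(`Chebyshev.theta_ge'`), `C` large, a contradiction for `C > 4 (log 4 + 1)`. -/
theorem exists_prime_ab : ∃ C : ℝ, 0 < C ∧ ∀ n : ℕ, 1 ≤ n → ∀ x : ℝ, 2 ≤ x →
    ∃ ℓ : ℕ, ℓ.Prime ∧ x < ℓ ∧ (ℓ : ℝ) ≤ C * (x + Real.log n) ∧ ¬ ℓ ∣ n := by
  classical
  obtain ⟨Y, hY2, hY⟩ := PrimeL_lower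
  have hl4 : 0 < Real.log 4 := Real.log_pos (by norm_num)
  obtain ⟨C, hC⟩ : ∃ C : ℝ, C = max Y (4 * (Real.log 4 + 1) + 1) := ⟨_, rfl⟩
  have hC1 : Y ≤ C := by rw [hC]; exact le_max_left _ _
  have hC2 : 4 * (Real.log 4 + 1) + 1 ≤ C := by rw [hC]; exact le_max_right _ _
  have hC0 : 0 < C := by linarith
  refine ⟨C, hC0, ?_⟩
  intro n hn x hx
  by_contra hcon
  push Not at hcon
  have hn1 : (1 : ℝ) ≤ n := by exact_mod_cast hn
  have hln : 0 ≤ Real.log n := Real.log_nonneg hn1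
  obtain ⟨y, hy⟩ : ∃ y, y = C * (x + Real.log n) := ⟨_, rfl⟩
  rw [← hy] at hcon
  have hyY : Y ≤ y := by
    rw [hy]
    nlinarith
  have hy0 : 0 ≤ y := by linarith
  have hlow := hY y hyY
  obtain ⟨S, hS⟩ : ∃ S : Finset ℕ, S = (Ioc ⌊x⌋₊ ⌊y⌋₊).filter Nat.Prime := ⟨_, rfl⟩
  have hSd : ∀ p ∈ S, p ∣ n := by
    intro p hp
    rw [hS, mem_filter, mem_Ioc] at hp
    by_contra hpn
    refine hpn (hcon p hp.2 ?_ ?_)
    · exact (Nat.floor_lt (by linarith)).1 hp.1.1
    · exact (Nat.le_floor_iff hy0).1 hp.1.2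
  have hSp : ∀ p ∈ S, Nat.Prime p := by
    intro p hp
    rw [hS, mem_filter] at hp
    exact hp.2
  have hprod : ∏ p ∈ S, p ∣ n := Finset.prod_primes_dvd n (fun p hp => (hSp p hp).prime) hSd
  have hlogS : ∑ p ∈ S, Real.log p ≤ Real.log n := by
    rw [← Real.log_prod (fun p hp => by
      have := (hSp p hp).pos
      positivity)]
    have h1 : ∏ p ∈ S, p ≤ n := Nat.le_of_dvd hn hprod
    have h2 : 0 < ∏ p ∈ S, p := Finset.prod_pos fun p hp => (hSp p hp).pos
    have h3 : (∏ p ∈ S, (p : ℝ)) = ((∏ p ∈ S, p : ℕ) : ℝ) := by push_cast; rfl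
    rw [h3]
    exact Real.log_le_log (by exact_mod_cast h2) (by exact_mod_cast h1)
  have hth : Chebyshev.theta y ≤ Chebyshev.theta x + ∑ p ∈ S, Real.log p := by
    unfold Chebyshev.theta
    have hdis : Disjoint ((Ioc 0 ⌊x⌋₊).filter Nat.Prime) S := by
      rw [Finset.disjoint_left]
      intro p hp hp'
      rw [mem_filter, mem_Ioc] at hp
      rw [hS, mem_filter, mem_Ioc] at hp'
      omega
    rw [← sum_union hdis]
    refine sum_le_sum_of_subset_of_nonneg ?_ ?_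
    · intro p hp
      rw [mem_filter, mem_Ioc] at hp
      rw [mem_union, mem_filter, mem_Ioc, hS, mem_filter, mem_Ioc]
      by_cases h : p ≤ ⌊x⌋₊
      · left
        exact ⟨⟨hp.1.1, h⟩, hp.2⟩
      · right
        exact ⟨⟨by omega, hp.1.2⟩, hp.2⟩
    · intro p _ _
      exact Real.log_natCast_nonneg p
  have hx4 := Chebyshev.theta_le_log4_mul_x (x := x) (by linarith)
  have h1 : y / 4 ≤ (Real.log 4 + 1) * (x + Real.log n) := by nlinarith
  have h2 : C * (x + Real.log n) ≤ 4 * (Real.log 4 + 1) * (x + Real.log n) := by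
    rw [← hy]
    linarith
  have h3 : 0 < x + Real.log n := by linarith
  have h4 := le_of_mul_le_mul_right h2 h3
  linarith

end Pool.MP43e44c.MD
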