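import Pool.Agent.H.MP_43e44c_ag.MD.AsmM
import Pool.Agent.H.MP_43e44c_ag.MD.NumS
import Pool.Agent.H.MP_43e44c_ag.MD.PrimeL

/-!
Components of middle dimension, power saving (HypA of GA/FinG.lean).
-/

set_option autoImplicit false

open Finset Module

namespace Pool.MP43e44c.MD

open Pool.MP43e44c.OD Pool.MP43e44c.GA

universe u v

/-- The bound for the prime. -/
theorem AsmA_large (C : ℝ) : ∃ n₀ : ℕ, ∀ n : ℕ, n₀ ≤ n →
    C * (2 + (n : ℝ) ^ (3 / 2000 : ℝ) + Real.log (2 * n)) ≤ (n : ℝ) ^ (1 / 600 : ℝ) := by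
  have h1 : (fun x : ℝ => C * 2) =o[Filter.atTop] fun x : ℝ => x ^ (1 / 600 : ℝ) := by
    rw [Asymptotics.isLittleO_const_left]
    right
    exact tendsto_norm_atTop_atTop.comp (tendsto_rpow_atTop (by norm_num))
  have h2 : (fun x : ℝ => C * x ^ (3 / 2000 : ℝ)) =o[Filter.atTop]
      fun x : ℝ => x ^ (1 / 600 : ℝ) := by
    apply Asymptotics.IsLittleO.const_mul_left
    rw [Asymptotics.isLittleO_iff_tendsto']
    · have h := tendsto_rpow_neg_atTop (show (0 : ℝ) < 1 / 600 - 3 / 2000 by norm_num)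
      refine h.congr' ?_
      filter_upwards [Filter.eventually_gt_atTop 0] with x hx
      rw [← Real.rpow_sub hx]
      norm_num
    · filter_upwards [Filter.eventually_gt_atTop 0] with x hx h
      exact absurd h (Real.rpow_pos_of_pos hx _).ne'
  have h3 : (fun x : ℝ => C * Real.log x) =o[Filter.atTop] fun x : ℝ => x ^ (1 / 600 : ℝ) := by
    apply Asymptotics.IsLittleO.const_mul_left
    exact isLittleO_log_rpow_atTop (by norm_num)
  have h4 : (fun x : ℝ => C * Real.log 2) =o[Filter.atTop] fun x : ℝ => x ^ (1 / 600 : ℝ) := by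
    rw [Asymptotics.isLittleO_const_left]
    right
    exact tendsto_norm_atTop_atTop.comp (tendsto_rpow_atTop (by norm_num))
  have h5 := ((h1.add h2).add (h3.add h4)).bound (show (0 : ℝ) < 1 by norm_num)
  have h6 := (tendsto_natCast_atTop_atTop (R := ℝ)).eventually (h5.and
    (Filter.eventually_ge_atTop 1))
  obtain ⟨n₀, hn₀⟩ := Filter.eventually_atTop.1 h6
  refine ⟨n₀, fun n hn => ?_⟩
  obtain ⟨h7, h8⟩ := hn₀ n hn
  have h9 : (0 : ℝ) < n := by linarith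
  rw [one_mul, Real.norm_eq_abs, Real.norm_eq_abs, abs_of_nonneg (Real.rpow_nonneg h9.le _)] at h7
  have h10 := (le_abs_self _).trans h7
  rw [Real.log_mul (by norm_num) h9.ne']
  linarith

theorem thmA : ∃ (Δ₀ : ℕ) (c₁ c₀ C : ℝ), 0 < c₁ ∧ 0 < c₀ ∧ 0 < C ∧
  ∀ {G : Type} [Group G] {ι : Type} (H : Half G ι) [Fintype G] [Fintype ι] (W : WD ℚ G)
    (i : Fin W.m), H.Odd W i → W.f i ≤ 2 → Δ₀ ≤ W.a i →
    (W.a i : ℝ) ≤ (Fintype.card ι : ℝ) ^ c₁ →
    (((H.badI W i).ncard : ℕ) : ℝ) ≤ C * (Fintype.card ι : ℝ) ^ (-(1 + c₀)) *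
      2 ^ Fintype.card ι := by
  obtain ⟨n₁, hn₁⟩ := numA
  obtain ⟨C₁, hC₁, hpr⟩ := exists_prime_ab
  obtain ⟨n₂, hn₂⟩ := AsmA_large C₁
  set n₀ : ℕ := max n₁ n₂ with hn₀
  refine ⟨20000, 6 / 1000, 1 / 80, 3 + (n₀ : ℝ) ^ 2, by norm_num, by norm_num, by positivity, ?_⟩
  intro G _ ι H _ _ W i hi hf ha han
  have hcard : Fintype.card G = 2 * Fintype.card ι := H.card_eq
  have hnpos : 1 ≤ Fintype.card ι := by
    have : 0 < Fintype.card G := Fintype.card_pos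
    omega
  generalize hn : Fintype.card ι = n at *
  have hnr : (1 : ℝ) ≤ n := by exact_mod_cast hnpos
  have hn0 : (0 : ℝ) < n := by linarith
  rcases Nat.lt_or_ge n n₀ with hlt | hge
  · have h0 : (H.badI W i).ncard ≤ 2 ^ n := by
      classical
      refine (Set.ncard_le_card _).trans (le_of_eq ?_)
      rw [Nat.card_eq_fintype_card, Fintype.card_fun, Fintype.card_bool, hn]
    have h1 : (((H.badI W i).ncard : ℕ) : ℝ) ≤ 2 ^ n := by exact_mod_cast h0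
    refine h1.trans ?_
    have h2 : (1 : ℝ) ≤ (3 + (n₀ : ℝ) ^ 2) * (n : ℝ) ^ (-(1 + 1 / 80 : ℝ)) := by
      have h3 : ((n : ℝ) ^ 2)⁻¹ ≤ (n : ℝ) ^ (-(1 + 1 / 80 : ℝ)) := by
        have h4 : ((n : ℝ) ^ 2)⁻¹ = (n : ℝ) ^ (-2 : ℝ) := by
          rw [Real.rpow_neg hn0.le]
          norm_cast
        rw [h4]
        exact Real.rpow_le_rpow_of_exponent_le hnr (by norm_num)
      have h5 : (n : ℝ) ^ 2 ≤ (n₀ : ℝ) ^ 2 := by
        have : (n : ℝ) ≤ n₀ := by exact_mod_cast hlt.le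
        gcongr
      calc (1 : ℝ) = (n : ℝ) ^ 2 * ((n : ℝ) ^ 2)⁻¹ := by field_simp
        _ ≤ (3 + (n₀ : ℝ) ^ 2) * (n : ℝ) ^ (-(1 + 1 / 80 : ℝ)) := by
          apply mul_le_mul _ h3 (by positivity) (by positivity)
          linarith
    calc (2 : ℝ) ^ n = 1 * 2 ^ n := by ring
      _ ≤ _ := by gcongr
  · have hge1 : n₁ ≤ n := le_trans (le_max_left _ _) hge
    have hge2 : n₂ ≤ n := le_trans (le_max_right _ _) hge
    have ha' : (20000 : ℝ) ≤ W.a i := by exact_mod_cast ha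
    set s : ℝ := Real.sqrt ((W.a i : ℝ) / 2) with hs
    have hs100 : 100 ≤ s := by
      apply Real.le_sqrt_of_sq_le
      linarith
    have hssq : s ^ 2 = (W.a i : ℝ) / 2 := Real.sq_sqrt (by linarith)
    set δ : ℝ := (3 / 20) / s with hδ
    have hδ0 : 0 ≤ δ := by positivity
    have hδ1 : δ ≤ 3 / 2000 := by
      rw [hδ, div_le_iff₀ (by linarith)]
      linarith
    obtain ⟨ℓ, hℓp, hxℓ, hℓC, hℓn⟩ := hpr (2 * n) (by omega) (2 + (n : ℝ) ^ δ)
      (by linarith [Real.rpow_nonneg hn0.le δ])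
    have : Fact ℓ.Prime := ⟨hℓp⟩
    have hℓG : ¬ ℓ ∣ Fintype.card G := by rw [hcard]; exact hℓn
    have hnδ : (n : ℝ) ^ δ ≤ (n : ℝ) ^ (3 / 2000 : ℝ) :=
      Real.rpow_le_rpow_of_exponent_le hnr hδ1
    have hℓle : (ℓ : ℝ) ≤ (n : ℝ) ^ (1 / 600 : ℝ) := by
      refine hℓC.trans (le_trans ?_ (hn₂ n hge2))
      push_cast
      gcongr
    have hℓ2 : (2 : ℝ) < ℓ := by linarith [Real.rpow_nonneg hn0.le δ]
    have hℓ3 : 3 ≤ ℓ := by
      have : 2 < ℓ := by exact_mod_cast hℓ2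
      omega
    have hℓne : ℓ ≠ 2 := by omega
    obtain ⟨P⟩ := exists_wd (ZMod ℓ) G (by
      rw [Ne, ZMod.natCast_eq_zero_iff]
      exact hℓG)
    obtain ⟨j, hj, hf1, hf2, hN1, hN2⟩ := exists_j hℓG W P (i := i) hf
    have hN1' : (W.a i : ℝ) ≤ 2 * (P.r j : ℝ) ^ 2 := by exact_mod_cast hN1
    have hN2' : (P.r j : ℝ) ^ 2 ≤ W.a i := by exact_mod_cast hN2
    have hsN : s ≤ P.r j := by
      refine (abs_le_of_sq_le_sq' ?_ (Nat.cast_nonneg _)).2
      nlinarith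
    have hN100 : 100 ≤ P.r j := by
      have : (100 : ℝ) ≤ P.r j := hs100.trans hsN
      exact_mod_cast this
    have hNle : (P.r j : ℝ) ≤ (n : ℝ) ^ (3 / 1000 : ℝ) := by
      refine (abs_le_of_sq_le_sq' ?_ (Real.rpow_nonneg hn0.le _)).2
      rw [← Real.rpow_natCast ((n : ℝ) ^ (3 / 1000 : ℝ)), ← Real.rpow_mul hn0.le]
      refine hN2'.trans (han.trans (le_of_eq ?_))
      norm_num
    have hℓN : (n : ℝ) ^ (3 / 20 : ℝ) ≤ (ℓ : ℝ) ^ P.r j := by
      have h1 : (n : ℝ) ^ δ ≤ ℓ := by linarith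
      calc (n : ℝ) ^ (3 / 20 : ℝ) ≤ (n : ℝ) ^ (δ * (P.r j : ℝ)) := by
            apply Real.rpow_le_rpow_of_exponent_le hnr
            rw [hδ, div_mul_eq_mul_div, le_div_iff₀ (by linarith)]
            nlinarith
        _ = ((n : ℝ) ^ δ) ^ P.r j := by
            rw [Real.rpow_mul hn0.le, Real.rpow_natCast]
        _ ≤ (ℓ : ℝ) ^ P.r j := pow_le_pow_left₀ (Real.rpow_nonneg hn0.le _) h1 _
    obtain ⟨m, hm1, hm2⟩ := exists_nat_pow_near
      (x := (n : ℝ) ^ (41 / 40 : ℝ)) (y := (ℓ : ℝ))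
      (Real.one_le_rpow hnr (by norm_num)) (by linarith)
    have hm0 : 1 ≤ m := by
      by_contra h
      have h1 : m = 0 := by omega
      rw [h1, zero_add, pow_one] at hm2
      have h2 : (n : ℝ) ^ (1 / 600 : ℝ) ≤ (n : ℝ) ^ (41 / 40 : ℝ) :=
        Real.rpow_le_rpow_of_exponent_le hnr (by norm_num)
      linarith
    have hmain := badI_le_num hℓne hℓG W P hi hj hm0 (by
      intro NN hNN
      rw [hn] at hNN ⊢
      exact hn₁ hge1 hNN hℓ3 hf1 hf2 hN100 hNle hℓN hℓle hm1)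
    rw [hn] at hmain
    refine hmain.trans ?_
    apply mul_le_mul_of_nonneg_right _ (by positivity)
    have hℓpos : (0 : ℝ) < ℓ := by linarith
    have h1 : (3 : ℝ) / (ℓ : ℝ) ^ m ≤ 3 * (n : ℝ) ^ (-(1 + 1 / 80 : ℝ)) := by
      have h2 : (1 : ℝ) / (ℓ : ℝ) ^ m = ℓ / (ℓ : ℝ) ^ (m + 1) := by
        rw [pow_succ]
        field_simp
      have h3 : (ℓ : ℝ) / (ℓ : ℝ) ^ (m + 1) ≤ (n : ℝ) ^ (1 / 600 : ℝ) / (n : ℝ) ^ (41 / 40 : ℝ) :=
        div_le_div₀ (Real.rpow_nonneg hn0.le _) hℓle (Real.rpow_pos_of_pos hn0 _) hm2.le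
      have h4 : (n : ℝ) ^ (1 / 600 : ℝ) / (n : ℝ) ^ (41 / 40 : ℝ) ≤
          (n : ℝ) ^ (-(1 + 1 / 80 : ℝ)) := by
        rw [← Real.rpow_sub hn0]
        exact Real.rpow_le_rpow_of_exponent_le hnr (by norm_num)
      calc (3 : ℝ) / (ℓ : ℝ) ^ m = 3 * (1 / (ℓ : ℝ) ^ m) := by ring
        _ ≤ 3 * (n : ℝ) ^ (-(1 + 1 / 80 : ℝ)) := by
          rw [h2]
          linarith [h3.trans h4]
    refine h1.trans ?_
    apply mul_le_mul_of_nonneg_right _ (Real.rpow_nonneg hn0.le _)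
    have : (0 : ℝ) ≤ (n₀ : ℝ) ^ 2 := by positivity
    linarith

end Pool.MP43e44c.MD
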