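import Pool.Agent.H.MP_43e44c_ag.MD.AsmM
import Pool.Agent.H.MP_43e44c_ag.MD.NumS
import Pool.Agent.H.MP_43e44c_ag.MD.PrimeL

/-!
Components of middle dimension (HypB of GA/FinG.lean).
-/

set_option autoImplicit false

open Finset Module

namespace Pool.MP43e44c.MD

open Pool.MP43e44c.OD Pool.MP43e44c.GA

universe u v

theorem AsmB_ncard {G : Type} [Group G] {ι : Type} (H : Half G ι) [Fintype G] [Fintype ι]
    (W : WD ℚ G) (i : Fin W.m) :
    (((H.badI W i).ncard : ℕ) : ℝ) ≤ 2 ^ Fintype.card ι := by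
  classical
  have h1 : (H.badI W i).ncard ≤ (Set.univ : Set (ι → Bool)).ncard :=
    Set.ncard_le_ncard (Set.subset_univ _) Set.finite_univ
  have h2 : (Set.univ : Set (ι → Bool)).ncard = 2 ^ Fintype.card ι := by
    rw [Set.ncard_univ, Nat.card_eq_fintype_card, Fintype.card_fun, Fintype.card_bool]
  rw [h2] at h1
  exact_mod_cast h1

theorem AsmB_one {G : Type} [Group G] {ι : Type} (H : Half G ι) [Fintype G] [Fintype ι]
    (W : WD ℚ G) (i : Fin W.m) (h1 : Fintype.card ι = 1) : H.badI W i = ∅ := by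
  classical
  apply Set.eq_empty_of_forall_notMem
  rintro v ⟨X, hX0, hX⟩
  obtain ⟨k, hk⟩ := Fintype.card_eq_one_iff.1 h1
  have hel : H.el ℚ v = MonoidAlgebra.single (H.t k) (if v k then (1 : ℚ) else -1) := by
    unfold Half.el
    rw [sum_eq_single k]
    · intro b _ hb
      exact absurd (hk b) hb
    · intro h
      exact absurd (mem_univ k) h
  set s : ℚ := if v k then (1 : ℚ) else -1 with hs
  have hss : s * s = 1 := by
    rw [hs]
    by_cases hv : v k <;> simp [hv]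
  have hu : H.el ℚ v * MonoidAlgebra.single (H.t k)⁻¹ s = 1 := by
    rw [hel, MonoidAlgebra.single_mul_single, mul_inv_cancel, hss]
    rfl
  apply hX0
  calc X = X * W.comp i (H.el ℚ v * MonoidAlgebra.single (H.t k)⁻¹ s) := by
        rw [hu, map_one, mul_one]
    _ = 0 := by rw [map_mul, ← mul_assoc, hX, zero_mul]

/-- `(log n) ^ 3 n ^ (3/5)` is small. -/
theorem AsmB_num {K : ℝ} (hK : 0 < K) : ∃ n₁ : ℕ, ∀ n : ℕ, n₁ ≤ n →
    K * Real.log n ^ 3 * (n : ℝ) ^ (3 / 5 : ℝ) ≤ n := by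
  refine ⟨⌈(1000 * K) ^ 10⌉₊ + 1, fun n hn => ?_⟩
  have hn1 : 1 ≤ n := by omega
  have hnp : (0 : ℝ) < n := by exact_mod_cast hn1
  have hn1' : (1 : ℝ) ≤ n := by exact_mod_cast hn1
  have h1 : (1000 * K) ^ 10 ≤ n := by
    have h2 := Nat.le_ceil ((1000 * K) ^ 10)
    have h3 : ((⌈(1000 * K) ^ 10⌉₊ : ℕ) : ℝ) ≤ n := by
      have : ⌈(1000 * K) ^ 10⌉₊ ≤ n := by omega
      exact_mod_cast this
    exact h2.trans h3
  have h4 : 1000 * K ≤ (n : ℝ) ^ (1 / 10 : ℝ) := by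
    have h5 : ((n : ℝ) ^ (1 / 10 : ℝ)) ^ 10 = n := by
      rw [← Real.rpow_natCast, ← Real.rpow_mul hnp.le]
      norm_num
    rw [← h5] at h1
    exact le_of_pow_le_pow_left₀ (by norm_num) (by positivity) h1
  have h6 : Real.log n ≤ 10 * (n : ℝ) ^ (1 / 10 : ℝ) := by
    have := Real.log_le_rpow_div hnp.le (show (0 : ℝ) < 1 / 10 by norm_num)
    calc Real.log n ≤ (n : ℝ) ^ (1 / 10 : ℝ) / (1 / 10) := this
      _ = 10 * (n : ℝ) ^ (1 / 10 : ℝ) := by ring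
  have h7 : Real.log n ^ 3 ≤ 1000 * (n : ℝ) ^ (3 / 10 : ℝ) := by
    have h8 : Real.log n ^ 3 ≤ (10 * (n : ℝ) ^ (1 / 10 : ℝ)) ^ 3 :=
      pow_le_pow_left₀ (Real.log_nonneg hn1') h6 3
    refine h8.trans (le_of_eq ?_)
    rw [mul_pow, ← Real.rpow_natCast ((n : ℝ) ^ (1 / 10 : ℝ)), ← Real.rpow_mul hnp.le]
    norm_num
  calc K * Real.log n ^ 3 * (n : ℝ) ^ (3 / 5 : ℝ)
      ≤ K * (1000 * (n : ℝ) ^ (3 / 10 : ℝ)) * (n : ℝ) ^ (3 / 5 : ℝ) := by gcongr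
    _ = (1000 * K) * ((n : ℝ) ^ (3 / 10 : ℝ) * (n : ℝ) ^ (3 / 5 : ℝ)) := by ring
    _ ≤ (n : ℝ) ^ (1 / 10 : ℝ) * ((n : ℝ) ^ (3 / 10 : ℝ) * (n : ℝ) ^ (3 / 5 : ℝ)) := by gcongr
    _ = n := by
      rw [← Real.rpow_add hnp, ← Real.rpow_add hnp]
      norm_num

/-- The final computation. -/
theorem AsmB_fin {n a l N f m b : ℝ} {C' : ℝ} (hn : 0 < n) (ha : 1 ≤ a) (hL : 1 ≤ Real.log n)
    (hl : 0 < l) (hlC : l ≤ C' * Real.log n) (hN : 0 < N) (hNa : N ^ 2 ≤ a) (hf : 0 < f)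
    (hf2 : f ≤ 2) (hb : b < l * m) (hm : 0 < m)
    (hbn : b = n / (600 * l * (f * N) ^ (3 / 2 : ℝ) * Real.log n)) :
    3 / m ≤ 5400 * C' ^ 2 * a ^ (3 / 4 : ℝ) * Real.log n ^ 4 / n := by
  have hfN : 0 < f * N := mul_pos hf hN
  have hfN' : 0 < (f * N) ^ (3 / 2 : ℝ) := Real.rpow_pos_of_pos hfN _
  have hL0 : 0 < Real.log n := by linarith
  set A : ℝ := 600 * l * (f * N) ^ (3 / 2 : ℝ) * Real.log n with hA
  have hA0 : 0 < A := by positivity
  have h1 : n < l * m * A := by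
    rw [hbn, div_lt_iff₀ hA0] at hb
    exact hb
  have h2 : 3 / m ≤ 3 * l * A / n := by
    rw [div_le_div_iff₀ hm hn]
    nlinarith
  have h3 : (f * N) ^ (3 / 2 : ℝ) ≤ 3 * a ^ (3 / 4 : ℝ) := by
    have h4 : N ≤ a ^ (1 / 2 : ℝ) := by
      rw [← Real.sqrt_eq_rpow]
      exact Real.le_sqrt_of_sq_le hNa
    have h5 : f * N ≤ 2 * a ^ (1 / 2 : ℝ) := by
      have : 0 ≤ a ^ (1 / 2 : ℝ) := by positivity
      nlinarith
    calc (f * N) ^ (3 / 2 : ℝ) ≤ (2 * a ^ (1 / 2 : ℝ)) ^ (3 / 2 : ℝ) :=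
          Real.rpow_le_rpow hfN.le h5 (by norm_num)
      _ = 2 ^ (3 / 2 : ℝ) * a ^ (3 / 4 : ℝ) := by
          rw [Real.mul_rpow (by norm_num) (by positivity), ← Real.rpow_mul (by linarith)]
          norm_num
      _ ≤ 3 * a ^ (3 / 4 : ℝ) := by
          have h6 : (2 : ℝ) ^ (3 / 2 : ℝ) ≤ 3 := by
            have h7 : ((2 : ℝ) ^ (3 / 2 : ℝ)) ^ 2 = 8 := by
              rw [← Real.rpow_natCast, ← Real.rpow_mul (by norm_num)]
              norm_num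
            nlinarith [Real.rpow_pos_of_pos (show (0 : ℝ) < 2 by norm_num) (3 / 2 : ℝ)]
          exact mul_le_mul_of_nonneg_right h6 (by positivity)
  refine h2.trans ?_
  rw [div_le_div_iff_of_pos_right hn, hA]
  have h8 : l * l ≤ (C' * Real.log n) * (C' * Real.log n) :=
    mul_le_mul hlC hlC hl.le (hl.le.trans hlC)
  have h9 : 0 ≤ a ^ (3 / 4 : ℝ) := by positivity
  calc 3 * l * (600 * l * (f * N) ^ (3 / 2 : ℝ) * Real.log n)
      = 1800 * (l * l) * (f * N) ^ (3 / 2 : ℝ) * Real.log n := by ring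
    _ ≤ 1800 * ((C' * Real.log n) * (C' * Real.log n)) * (3 * a ^ (3 / 4 : ℝ)) *
        Real.log n := by
        have h10 : 0 ≤ (C' * Real.log n) * (C' * Real.log n) := mul_self_nonneg _
        gcongr
    _ = 5400 * C' ^ 2 * a ^ (3 / 4 : ℝ) * Real.log n ^ 3 := by ring
    _ ≤ 5400 * C' ^ 2 * a ^ (3 / 4 : ℝ) * Real.log n ^ 4 := by
        have h11 : Real.log n ^ 3 ≤ Real.log n ^ 4 := pow_le_pow_right₀ hL (by norm_num)
        have h12 : 0 ≤ 5400 * C' ^ 2 * a ^ (3 / 4 : ℝ) := by positivity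
        exact mul_le_mul_of_nonneg_left h11 h12

/-- Small `n`. -/
theorem AsmB_small {n a K B C : ℝ} (hn : 2 ≤ n) (ha : 1 ≤ a) (hnK : n ≤ K) (hC : 5 * K ≤ C)
    (hB : 0 ≤ B) : B ≤ C * a ^ (3 / 4 : ℝ) * Real.log n ^ 4 / n * B := by
  have h1 : (1 : ℝ) ≤ C * a ^ (3 / 4 : ℝ) * Real.log n ^ 4 / n := by
    rw [le_div_iff₀ (by linarith), one_mul]
    have h2 : (1 : ℝ) ≤ a ^ (3 / 4 : ℝ) := Real.one_le_rpow ha (by norm_num)
    have h3 : (0.69 : ℝ) ≤ Real.log n := by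
      have h4 : Real.log 2 ≤ Real.log n := Real.log_le_log (by norm_num) hn
      have h5 := Real.log_two_gt_d9
      linarith
    have h6 : (0.69 : ℝ) ^ 4 ≤ Real.log n ^ 4 := pow_le_pow_left₀ (by norm_num) h3 4
    have h7 : (1 / 5 : ℝ) ≤ Real.log n ^ 4 := by
      refine le_trans ?_ h6
      norm_num
    have hC0 : 0 ≤ C := by linarith
    calc n ≤ K := hnK
      _ ≤ C * 1 * (1 / 5) := by linarith
      _ ≤ C * a ^ (3 / 4 : ℝ) * Real.log n ^ 4 := by gcongr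
  exact le_mul_of_one_le_left hB h1

/-- PROOF. Let `n = card ι`, `a = W.a i`, `ℓ` the prime of `exists_prime_ab` for `2 n` and `x = 2`:
`ℓ ≤ C (2 + log (2 n)) ≤ C' log n`.  `P`, `j` as in `thmA`, `N = P.r j`, `f = P.f j`: `n ^ c₁ ≤ a ≤ 2 N ^ 2`,
`N ≤ √a ≤ n ^ (2/5)`.  Let `A = 600 ℓ (f N) ^ (3/2) log n`; for large `n`, `ℓ A ≤ n`; let `m ≥ 1` be maximal with
`ℓ ^ m A ≤ n`.  `badI_le_num` with `numB`: `3 / ℓ ^ m ≤ 3 ℓ A / n ≤ 1800 C' ^ 2 (log n) ^ 3 (2 √a) ^ (3/2) / n`.  Small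
`n ≥ 2`: `ncard ≤ 2 ^ n`, `a ≥ 1` and `log n ≥ log 2`.  `n = 1`: `H.el ℚ v = single (t i) (± 1)` is a unit, so
`badI = ∅` and the left side is `0`. -/
theorem thmB : ∀ c₁ : ℝ, 0 < c₁ → ∃ C : ℝ, 0 < C ∧
  ∀ {G : Type} [Group G] {ι : Type} (H : Half G ι) [Fintype G] [Fintype ι] (W : WD ℚ G)
    (i : Fin W.m), H.Odd W i → W.f i ≤ 2 →
    (Fintype.card ι : ℝ) ^ c₁ ≤ W.a i →
    (W.a i : ℝ) ≤ (Fintype.card ι : ℝ) ^ (4 / 5 : ℝ) →
    (((H.badI W i).ncard : ℕ) : ℝ) ≤ C * (W.a i : ℝ) ^ (3 / 4 : ℝ) *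
      (Real.log (Fintype.card ι)) ^ 4 / Fintype.card ι * 2 ^ Fintype.card ι := by
  intro c₁ hc₁
  obtain ⟨C₀, hC₀, hpr⟩ := exists_prime_ab
  set C' : ℝ := 4 * C₀ with hC'
  have hC'0 : 0 < C' := by positivity
  obtain ⟨n₀, hn₀⟩ := numB hc₁ hC'0
  obtain ⟨n₁, hn₁⟩ := AsmB_num (show 0 < 1800 * C' ^ 2 by positivity)
  set K : ℕ := max (max n₀ n₁) 3 with hK
  refine ⟨5400 * C' ^ 2 + 5 * K, by positivity, ?_⟩
  intro G _ ι H _ _ W i hi hf hc ha
  set n : ℕ := Fintype.card ι with hn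
  have hn1 : 1 ≤ n := by
    have : Nonempty ι := ⟨H.π 1⟩
    exact Fintype.card_pos
  have hn1' : (1 : ℝ) ≤ n := by exact_mod_cast hn1
  have ha1 : (1 : ℝ) ≤ W.a i := (Real.one_le_rpow hn1' hc₁.le).trans hc
  rcases Nat.eq_or_lt_of_le hn1 with h1 | h2
  · rw [AsmB_one H W i (by rw [← hn]; exact h1.symm), Set.ncard_empty, ← h1]
    simp
  have hn2 : (2 : ℝ) ≤ n := by exact_mod_cast h2
  by_cases hs : n < K
  · refine (AsmB_ncard H W i).trans ?_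
    rw [← hn]
    refine AsmB_small hn2 ha1 (K := K) (by exact_mod_cast hs.le) ?_ (by positivity)
    have : 0 ≤ 5400 * C' ^ 2 := by positivity
    linarith
  rw [not_lt] at hs
  have hnn0 : n₀ ≤ n := ((le_max_left _ _).trans (le_max_left _ _)).trans hs
  have hnn1 : n₁ ≤ n := ((le_max_right _ _).trans (le_max_left _ _)).trans hs
  have hn3 : 3 ≤ n := (le_max_right _ _).trans hs
  have hn3' : (3 : ℝ) ≤ n := by exact_mod_cast hn3
  have hnp : (0 : ℝ) < n := by linarith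
  have hL : 1 ≤ Real.log n := by
    rw [Real.le_log_iff_exp_le hnp]
    have := Real.exp_one_lt_d9
    linarith
  obtain ⟨l, hlP, hl2, hlC, hld⟩ := hpr (2 * n) (by omega) 2 le_rfl
  have : Fact l.Prime := ⟨hlP⟩
  have hcard : Fintype.card G = 2 * n := H.card_eq
  have hl2' : 2 < l := by exact_mod_cast hl2
  have hlC' : (l : ℝ) ≤ C' * Real.log n := by
    have h3 : Real.log ((2 * n : ℕ) : ℝ) = Real.log 2 + Real.log n := by
      push_cast
      rw [Real.log_mul (by norm_num) (by linarith)]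
    have h4 := Real.log_two_lt_d9
    rw [h3] at hlC
    refine hlC.trans ?_
    rw [hC']
    nlinarith
  have hl : ¬ l ∣ Fintype.card G := by rw [hcard]; exact hld
  obtain ⟨P⟩ := exists_wd (ZMod l) G (by
    rw [Ne, ZMod.natCast_eq_zero_iff]
    exact hl)
  obtain ⟨j, hj, hf1, hf2, hja, haj⟩ := exists_j hl W P hf
  have hNpos : 1 ≤ P.r j := Nat.pos_of_ne_zero (NeZero.ne (P.r j))
  have hNpos' : (0 : ℝ) < P.r j := by exact_mod_cast hNpos
  have hf1' : (0 : ℝ) < P.f j := by exact_mod_cast hf1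
  have hf2' : (P.f j : ℝ) ≤ 2 := by exact_mod_cast hf2
  have hja' : (W.a i : ℝ) ≤ 2 * (P.r j : ℝ) ^ 2 := by exact_mod_cast hja
  have haj' : (P.r j : ℝ) ^ 2 ≤ W.a i := by exact_mod_cast haj
  have hN25 : (P.r j : ℝ) ≤ (n : ℝ) ^ (2 / 5 : ℝ) := by
    have h5 : ((n : ℝ) ^ (2 / 5 : ℝ)) ^ 2 = (n : ℝ) ^ (4 / 5 : ℝ) := by
      rw [← Real.rpow_natCast, ← Real.rpow_mul hnp.le]
      norm_num
    refine le_of_sq_le_sq ?_ (by positivity)
    rw [h5]
    exact haj'.trans ha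
  have hl0 : (0 : ℝ) < l := by linarith
  set A : ℝ := 600 * l * (P.f j * P.r j : ℝ) ^ (3 / 2 : ℝ) * Real.log n with hA
  have hfN : (0 : ℝ) < P.f j * P.r j := mul_pos hf1' hNpos'
  have hA0 : 0 < A := by
    have : 0 < (P.f j * P.r j : ℝ) ^ (3 / 2 : ℝ) := Real.rpow_pos_of_pos hfN _
    positivity
  have hlA : (l : ℝ) * A ≤ n := by
    have h6 : (P.f j * P.r j : ℝ) ^ (3 / 2 : ℝ) ≤ 3 * (n : ℝ) ^ (3 / 5 : ℝ) := by
      calc (P.f j * P.r j : ℝ) ^ (3 / 2 : ℝ) ≤ (2 * (n : ℝ) ^ (2 / 5 : ℝ)) ^ (3 / 2 : ℝ) := by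
            refine Real.rpow_le_rpow hfN.le ?_ (by norm_num)
            gcongr
        _ = 2 ^ (3 / 2 : ℝ) * (n : ℝ) ^ (3 / 5 : ℝ) := by
            rw [Real.mul_rpow (by norm_num) (by positivity), ← Real.rpow_mul hnp.le]
            norm_num
        _ ≤ 3 * (n : ℝ) ^ (3 / 5 : ℝ) := by
            have h6 : (2 : ℝ) ^ (3 / 2 : ℝ) ≤ 3 := by
              have h7 : ((2 : ℝ) ^ (3 / 2 : ℝ)) ^ 2 = 8 := by
                rw [← Real.rpow_natCast, ← Real.rpow_mul (by norm_num)]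
                norm_num
              nlinarith [Real.rpow_pos_of_pos (show (0 : ℝ) < 2 by norm_num) (3 / 2 : ℝ)]
            exact mul_le_mul_of_nonneg_right h6 (by positivity)
    have h8 : (l : ℝ) * l ≤ (C' * Real.log n) * (C' * Real.log n) :=
      mul_le_mul hlC' hlC' hl0.le (hl0.le.trans hlC')
    refine le_trans ?_ (hn₁ n hnn1)
    calc (l : ℝ) * A = 600 * (l * l) * (P.f j * P.r j : ℝ) ^ (3 / 2 : ℝ) * Real.log n := by
          rw [hA]; ring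
      _ ≤ 600 * ((C' * Real.log n) * (C' * Real.log n)) * (3 * (n : ℝ) ^ (3 / 5 : ℝ)) *
          Real.log n := by
          have h10 : 0 ≤ (C' * Real.log n) * (C' * Real.log n) := mul_self_nonneg _
          gcongr
      _ = 1800 * C' ^ 2 * Real.log n ^ 3 * (n : ℝ) ^ (3 / 5 : ℝ) := by ring
  have hl1 : (1 : ℝ) < l := by linarith
  obtain ⟨m, hm1, hm2⟩ := exists_nat_pow_near (x := (n : ℝ) / A) (y := (l : ℝ)) (by
    rw [le_div_iff₀ hA0, one_mul]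
    nlinarith) hl1
  have hm : 1 ≤ m := by
    by_contra hcon
    have h0 : m = 0 := by omega
    rw [h0, zero_add, pow_one, div_lt_iff₀ hA0] at hm2
    linarith
  have hmA : (l : ℝ) ^ m * A ≤ n := by
    rwa [le_div_iff₀ hA0] at hm1
  have hmain := badI_le_num (by omega : l ≠ 2) hl W P hi hj hm (by
    intro NN hNN
    exact hn₀ hnn0 hNN (by omega) hlC' hf1 hf2 hNpos (hc.trans hja') hN25 (by
      rw [← hn]; exact hmA))
  refine hmain.trans ?_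
  rw [← hn]
  refine mul_le_mul_of_nonneg_right ?_ (by positivity)
  have h11 := AsmB_fin (n := n) (a := W.a i) (l := l) (N := P.r j) (f := P.f j)
    (m := (l : ℝ) ^ m) (b := (n : ℝ) / A) (C' := C') hnp ha1 hL hl0 hlC' hNpos' haj' hf1' hf2'
    (by rw [mul_comm, ← pow_succ]; exact hm2) (by positivity) rfl
  refine h11.trans ?_
  rw [div_le_div_iff_of_pos_right hnp]
  have h12 : (0 : ℝ) ≤ 5 * K := by positivity
  have h13 : 0 ≤ (W.a i : ℝ) ^ (3 / 4 : ℝ) := by positivity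
  gcongr
  linarith

end Pool.MP43e44c.MD
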