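import Pool.Agent.H.MP_43e44c_ag.MD.Def

/-!
The distance to the nearest integer.
-/

set_option autoImplicit false

open Finset Module

namespace Pool.MP43e44c.MD

open Pool.MP43e44c.OD Pool.MP43e44c.GA

universe u v

variable {M : ℕ} [NeZero M]

theorem Nz_Mpos : (0 : ℝ) < M := by
  have := Nat.pos_of_ne_zero (NeZero.ne M)
  exact_mod_cast this

theorem nz_nonneg (a : ZMod M) : 0 ≤ nz a := by
  unfold nz
  positivity

/-- `ZMod.natAbs_valMinAbs_le`. -/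
theorem nz_le_half (a : ZMod M) : nz a ≤ 1 / 2 := by
  unfold nz
  have hM := Nz_Mpos (M := M)
  have h1 := ZMod.valMinAbs_mem_Ioc a
  rw [Set.mem_Ioc] at h1
  have h2 : |a.valMinAbs| * 2 ≤ (M : ℤ) := by
    rcases abs_cases a.valMinAbs with h | h <;> omega
  have h3 : |(a.valMinAbs : ℝ)| * 2 ≤ M := by
    have h4 : ((|a.valMinAbs| * 2 : ℤ) : ℝ) ≤ ((M : ℤ) : ℝ) := by exact_mod_cast h2
    push_cast at h4
    exact h4
  rw [div_le_iff₀ hM]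
  linarith

/-- PROOF. `valMinAbs` has the smallest absolute value among the integers in the class
(`ZMod.valMinAbs_natAbs_eq_min`, or: if `|b| ≤ M / 2` then `valMinAbs b = b` up to sign, otherwise
`|valMinAbs| ≤ M / 2 < |b|`). -/
theorem nz_int_le (b : ℤ) : nz ((b : ℤ) : ZMod M) ≤ |(b : ℝ)| / M := by
  unfold nz
  have hM := Nz_Mpos (M := M)
  have h1 := ZMod.valMinAbs_mem_Ioc ((b : ℤ) : ZMod M)
  rw [Set.mem_Ioc] at h1
  have h5 : |((b : ℤ) : ZMod M).valMinAbs| ≤ |b| := by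
    by_cases h : b * 2 ∈ Set.Ioc (-M : ℤ) M
    · rw [(ZMod.valMinAbs_spec ((b : ℤ) : ZMod M) b).2 ⟨rfl, h⟩]
    · rw [Set.mem_Ioc] at h
      have h3 : (M : ℤ) ≤ |b| * 2 := by
        rcases abs_cases b with h4 | h4 <;> omega
      rcases abs_cases ((b : ℤ) : ZMod M).valMinAbs with h4 | h4 <;> omega
  have h6 : |((((b : ℤ) : ZMod M).valMinAbs : ℤ) : ℝ)| ≤ |(b : ℝ)| := by exact_mod_cast h5
  exact div_le_div_of_nonneg_right h6 hM.le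

theorem exists_int (a : ZMod M) : ∃ b : ℤ, ((b : ℤ) : ZMod M) = a ∧ nz a = |(b : ℝ)| / M :=
  ⟨a.valMinAbs, ZMod.coe_valMinAbs a, rfl⟩

/-- `exists_int` for `a` and `b`, `nz_int_le`. -/
theorem nz_add_le (a b : ZMod M) : nz (a + b) ≤ nz a + nz b := by
  obtain ⟨x, hx, hx2⟩ := exists_int a
  obtain ⟨y, hy, hy2⟩ := exists_int b
  have hM := Nz_Mpos (M := M)
  have h1 := nz_int_le (M := M) (x + y)
  rw [Int.cast_add, hx, hy] at h1
  refine h1.trans ?_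
  rw [hx2, hy2, ← add_div]
  refine div_le_div_of_nonneg_right ?_ hM.le
  push_cast
  exact abs_add_le _ _

theorem nz_neg (a : ZMod M) : nz (-a) = nz a := by
  have key : ∀ c : ZMod M, nz (-c) ≤ nz c := by
    intro c
    obtain ⟨x, hx, hx2⟩ := exists_int c
    have h1 := nz_int_le (M := M) (-x)
    rw [Int.cast_neg, hx] at h1
    rw [hx2]
    refine h1.trans (le_of_eq ?_)
    push_cast
    rw [abs_neg]
  apply le_antisymm (key a)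
  have h := key (-a)
  rwa [neg_neg] at h

/-- `(x + y) ^ 2 ≤ 2 x ^ 2 + 2 y ^ 2`. -/
theorem nz_sub_sq_le (a b : ZMod M) : nz (a - b) ^ 2 ≤ 2 * nz a ^ 2 + 2 * nz b ^ 2 := by
  have h1 := nz_add_le a (-b)
  rw [nz_neg, ← sub_eq_add_neg] at h1
  have h2 := nz_nonneg (a - b)
  have h3 : nz (a - b) ^ 2 ≤ (nz a + nz b) ^ 2 := pow_le_pow_left₀ h2 h1 2
  nlinarith [sq_nonneg (nz a - nz b)]

theorem nz_ge {a : ZMod M} (ha : a ≠ 0) : 1 / (M : ℝ) ≤ nz a := by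
  unfold nz
  have hM := Nz_Mpos (M := M)
  refine div_le_div_of_nonneg_right ?_ hM.le
  have h1 : a.valMinAbs ≠ 0 := fun h => ha ((ZMod.valMinAbs_eq_zero a).1 h)
  have h2 : 1 ≤ |a.valMinAbs| := Int.one_le_abs h1
  exact_mod_cast h2

/-- PROOF. Let `b'` be congruent to `b` modulo `ℓ ^ (i + 1)` with `nz = |b'| / ℓ ^ (i + 1)`; then `b'` is
congruent to `b` modulo `ℓ ^ i` and `nz_int_le`. -/
theorem nz_red {ℓ : ℕ} [Fact ℓ.Prime] (i : ℕ) (b : ℤ) :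
    nz ((b : ℤ) : ZMod (ℓ ^ i)) ≤ ℓ * nz ((b : ℤ) : ZMod (ℓ ^ (i + 1))) := by
  have hl : 0 < ℓ := (Fact.out : ℓ.Prime).pos
  haveI : NeZero (ℓ ^ i) := ⟨(pow_pos hl i).ne'⟩
  haveI : NeZero (ℓ ^ (i + 1)) := ⟨(pow_pos hl (i + 1)).ne'⟩
  obtain ⟨c, hc, hc2⟩ := exists_int (((b : ℤ) : ZMod (ℓ ^ (i + 1))))
  have h1 : ((c : ℤ) : ZMod (ℓ ^ i)) = ((b : ℤ) : ZMod (ℓ ^ i)) := by
    rw [ZMod.intCast_eq_intCast_iff_dvd_sub] at hc ⊢
    refine dvd_trans ?_ hc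
    exact_mod_cast pow_dvd_pow ℓ (Nat.le_succ i)
  have h2 := nz_int_le (M := ℓ ^ i) c
  rw [h1] at h2
  refine h2.trans (le_of_eq ?_)
  rw [hc2]
  have hl' : (ℓ : ℝ) ≠ 0 := by exact_mod_cast hl.ne'
  push_cast
  rw [pow_succ]
  field_simp

/-- PROOF. The integers congruent to `ℓ ^ i * b` modulo `ℓ ^ (i + 1)` are the `ℓ ^ i * b'`, `b'` congruent to
`b` modulo `ℓ`. -/
theorem nz_smul {ℓ : ℕ} [Fact ℓ.Prime] (i : ℕ) (b : ℤ) :
    nz ((((ℓ : ℤ) ^ i * b : ℤ)) : ZMod (ℓ ^ (i + 1))) = nz ((b : ℤ) : ZMod ℓ) := by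
  have hl : 0 < ℓ := (Fact.out : ℓ.Prime).pos
  haveI : NeZero ℓ := ⟨hl.ne'⟩
  haveI : NeZero (ℓ ^ (i + 1)) := ⟨(pow_pos hl (i + 1)).ne'⟩
  have hl' : (ℓ : ℝ) ≠ 0 := by exact_mod_cast hl.ne'
  have hli : (0 : ℤ) < (ℓ : ℤ) ^ i := by positivity
  have hlr : (0 : ℝ) < (ℓ : ℝ) ^ i := by positivity
  apply le_antisymm
  · obtain ⟨c, hc, hc2⟩ := exists_int ((b : ℤ) : ZMod ℓ)
    have h1 : (((ℓ : ℤ) ^ i * c : ℤ) : ZMod (ℓ ^ (i + 1))) =
        (((ℓ : ℤ) ^ i * b : ℤ) : ZMod (ℓ ^ (i + 1))) := by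
      rw [ZMod.intCast_eq_intCast_iff_dvd_sub] at hc ⊢
      obtain ⟨k, hk⟩ := hc
      refine ⟨k, ?_⟩
      rw [← mul_sub, hk]
      push_cast
      ring
    have h2 := nz_int_le (M := ℓ ^ (i + 1)) ((ℓ : ℤ) ^ i * c)
    rw [h1] at h2
    refine h2.trans (le_of_eq ?_)
    rw [hc2]
    push_cast
    rw [abs_mul, abs_of_pos hlr, pow_succ]
    field_simp
  · obtain ⟨c, hc, hc2⟩ := exists_int (((ℓ : ℤ) ^ i * b : ℤ) : ZMod (ℓ ^ (i + 1)))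
    have h0 := hc
    rw [ZMod.intCast_eq_intCast_iff_dvd_sub] at h0
    have h3 : (ℓ : ℤ) ^ i ∣ c := by
      have h4 : (ℓ : ℤ) ^ i ∣ (ℓ : ℤ) ^ i * b - c := by
        refine dvd_trans ?_ h0
        push_cast
        exact pow_dvd_pow _ (Nat.le_succ i)
      have h5 := (dvd_sub_right (Dvd.intro b rfl : (ℓ : ℤ) ^ i ∣ (ℓ : ℤ) ^ i * b)).1 h4
      exact h5
    obtain ⟨d, rfl⟩ := h3
    have h1 : ((d : ℤ) : ZMod ℓ) = ((b : ℤ) : ZMod ℓ) := by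
      rw [ZMod.intCast_eq_intCast_iff_dvd_sub]
      obtain ⟨k, hk⟩ := h0
      refine ⟨k, ?_⟩
      have h6 : (ℓ : ℤ) ^ i * (b - d) = (ℓ : ℤ) ^ i * ((ℓ : ℤ) * k) := by
        rw [mul_sub, hk]
        push_cast
        ring
      exact mul_left_cancel₀ hli.ne' h6
    have h2 := nz_int_le (M := ℓ) d
    rw [h1] at h2
    refine h2.trans (le_of_eq ?_)
    rw [hc2]
    push_cast
    rw [abs_mul, abs_of_pos hlr, pow_succ]
    field_simp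

end Pool.MP43e44c.MD
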