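import Pool.Agent.H.MP_43e44c_ag.MD.Lvl

/-!
Numbers of elements of the ideals at the different levels.
-/

set_option autoImplicit false

open Finset Module

namespace Pool.MP43e44c.MD

open Pool.MP43e44c.OD Pool.MP43e44c.GA

universe u v

variable {G : Type u} [Group G] [Fintype G] {ℓ m : ℕ} [Fact ℓ.Prime]

/-- PROOF. Let `i ≤ m`, `Im_i = Im (toP (ℓ ^ i) α) (toP (ℓ ^ i) β)`.  Let `b' = lft b` and
`a₀ = toP (ℓ ^ (i + 1)) (α * b' * β)`; it is in `Im_{i+1}` by idempotence (`toP_of_le`) and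
`red (ℓ ^ i) a₀ = α b β = b`.  The map `c ↦ a₀ + toP (ℓ ^ (i + 1)) (ℓ ^ i • lft c)` is a bijection of
`Im_1` (modulus `ℓ`) onto the fibre: `α (ℓ ^ i • lft c) β ≡ ℓ ^ i • lft c` as `α c β = c` modulo `ℓ`
(`toP_smul_iff_one`); conversely for `a` in the fibre `a = a₀ + toP (ℓ ^ i • d)` (`exists_sub`, applied to
lifts) and `α (a - a₀) β = a - a₀` gives `toP ℓ (α d β) = toP ℓ d` (`toP_smul_iff_one`), so
`c = toP ℓ d ∈ Im_1`; injectivity is `toP_smul_iff_one`. -/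
theorem card_fib {α β : MonoidAlgebra ℤ G}
    (hα : toP (ℓ ^ m) α * toP (ℓ ^ m) α = toP (ℓ ^ m) α)
    (hβ : toP (ℓ ^ m) β * toP (ℓ ^ m) β = toP (ℓ ^ m) β) {i : ℕ} (hi : 1 ≤ i) (him : i + 1 ≤ m)
    {b : MonoidAlgebra (ZMod (ℓ ^ i)) G} (hb : b ∈ Im (toP (ℓ ^ i) α) (toP (ℓ ^ i) β)) :
    {a : MonoidAlgebra (ZMod (ℓ ^ (i + 1))) G |
      a ∈ Im (toP (ℓ ^ (i + 1)) α) (toP (ℓ ^ (i + 1)) β) ∧ red (ℓ ^ i) a = b}.ncard
      = (Im (toP ℓ α) (toP ℓ β)).card := by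
  have hα' : toP (ℓ ^ (i + 1)) (α * α) = toP (ℓ ^ (i + 1)) α :=
    toP_of_le him (by rw [map_mul]; exact hα)
  have hβ' : toP (ℓ ^ (i + 1)) (β * β) = toP (ℓ ^ (i + 1)) β :=
    toP_of_le him (by rw [map_mul]; exact hβ)
  have hdvd : ℓ ^ i ∣ ℓ ^ (i + 1) := pow_dvd_pow ℓ (Nat.le_succ i)
  rw [mem_Im] at hb
  have hbl : toP (ℓ ^ i) (lft b) = b := toP_lft b
  have hab : toP (ℓ ^ i) (α * lft b * β) = b := by
    rw [map_mul, map_mul, hbl, hb]
  have hconj : ∀ x : MonoidAlgebra ℤ G, α * ((ℓ : ℤ) ^ i • x) * β = (ℓ : ℤ) ^ i • (α * x * β) := by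
    intro x
    rw [mul_smul_comm, smul_mul_assoc]
  have hsq : toP (ℓ ^ (i + 1)) α * toP (ℓ ^ (i + 1)) (α * lft b * β) * toP (ℓ ^ (i + 1)) β =
      toP (ℓ ^ (i + 1)) (α * lft b * β) := by
    have e : toP (ℓ ^ (i + 1)) α * toP (ℓ ^ (i + 1)) (α * lft b * β) * toP (ℓ ^ (i + 1)) β =
        toP (ℓ ^ (i + 1)) (α * α) * toP (ℓ ^ (i + 1)) (lft b) * toP (ℓ ^ (i + 1)) (β * β) := by
      simp only [map_mul, mul_assoc]
    rw [e, hα', hβ', ← map_mul, ← map_mul]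
  let f : MonoidAlgebra (ZMod ℓ) G → MonoidAlgebra (ZMod (ℓ ^ (i + 1))) G := fun c =>
    toP (ℓ ^ (i + 1)) (α * lft b * β) + toP (ℓ ^ (i + 1)) ((ℓ : ℤ) ^ i • lft c)
  have hf : ∀ c, f c = toP (ℓ ^ (i + 1)) (α * lft b * β) +
      toP (ℓ ^ (i + 1)) ((ℓ : ℤ) ^ i • lft c) := fun _ => rfl
  have hset : {a : MonoidAlgebra (ZMod (ℓ ^ (i + 1))) G |
      a ∈ Im (toP (ℓ ^ (i + 1)) α) (toP (ℓ ^ (i + 1)) β) ∧ red (ℓ ^ i) a = b} =
      f '' (Im (toP ℓ α) (toP ℓ β) : Finset (MonoidAlgebra (ZMod ℓ) G)) := by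
    ext a
    constructor
    · rintro ⟨ha, hr⟩
      rw [mem_Im] at ha
      have ha' : toP (ℓ ^ (i + 1)) (lft a) = a := toP_lft a
      obtain ⟨d, hd⟩ := exists_sub (k := i) (M := ℓ ^ (i + 1)) (a := lft a) (b := α * lft b * β)
        (by rw [hab]; exact hr)
      rw [ha'] at hd
      have hc : toP (ℓ ^ (i + 1)) ((ℓ : ℤ) ^ i • (α * d * β)) =
          toP (ℓ ^ (i + 1)) ((ℓ : ℤ) ^ i • d) := by
        have h1 := ha
        rw [hd, mul_add, add_mul, hsq] at h1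
        have h2 := add_left_cancel h1
        rw [← map_mul, ← map_mul, hconj] at h2
        exact h2
      rw [toP_smul_iff_one] at hc
      refine ⟨toP ℓ d, ?_, ?_⟩
      · rw [Finset.mem_coe, mem_Im, ← map_mul, ← map_mul]
        exact hc
      · rw [hf, hd]
        congr 1
        rw [toP_smul_iff_one]
        exact toP_lft _
    · rintro ⟨c, hc, rfl⟩
      rw [Finset.mem_coe, mem_Im] at hc
      refine ⟨?_, ?_⟩
      · rw [mem_Im, hf, mul_add, add_mul, hsq]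
        congr 1
        rw [← map_mul, ← map_mul, hconj, toP_smul_iff_one, map_mul, map_mul, toP_lft, hc]
      · have h1 : f c = toP (ℓ ^ (i + 1)) (α * lft b * β + (ℓ : ℤ) ^ i • lft c) := by
          rw [hf, map_add]
        rw [h1, red_toP hdvd, map_add, hab]
        have h2 : toP (ℓ ^ i) ((ℓ : ℤ) ^ i • lft c) = toP (ℓ ^ i) 0 := by
          rw [toP_eq_iff]
          intro g
          rw [MonoidAlgebra.coeff_smul, MonoidAlgebra.coeff_zero]
          simp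
        rw [h2, map_zero, add_zero]
  rw [hset, Set.ncard_image_of_injOn, Set.ncard_coe_finset]
  intro c _ c' _ h
  rw [hf, hf] at h
  have h1 := add_left_cancel h
  rw [toP_smul_iff_one, toP_lft, toP_lft] at h1
  exact h1

theorem card_pow_one (α β : MonoidAlgebra ℤ G) (M : ℕ) [NeZero M] (hM : M = ℓ) :
    (Im (toP M α) (toP M β)).card = (Im (toP ℓ α) (toP ℓ β)).card := by
  subst hM
  rfl

theorem card_smul_zero (a : MonoidAlgebra ℤ G) : toP ℓ ((ℓ : ℤ) • a) = 0 := by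
  have h1 : toP ℓ ((ℓ : ℤ) • a) = toP ℓ 0 := by
    rw [toP_eq_iff]
    intro g
    rw [MonoidAlgebra.coeff_smul, MonoidAlgebra.coeff_zero]
    simp
  rw [h1, map_zero]

/-- PROOF. Induction on `i` with `card_fib` (`i = 1`: `pow_one`; `red` maps `Im_{i+1}` to `Im_i`;
`Finset.card_eq_sum_card_fiberwise`). -/
theorem card_lvl {α β : MonoidAlgebra ℤ G}
    (hα : toP (ℓ ^ m) α * toP (ℓ ^ m) α = toP (ℓ ^ m) α)
    (hβ : toP (ℓ ^ m) β * toP (ℓ ^ m) β = toP (ℓ ^ m) β) {i : ℕ} (hi : 1 ≤ i) (him : i ≤ m) :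
    (Im (toP (ℓ ^ i) α) (toP (ℓ ^ i) β)).card = (Im (toP ℓ α) (toP ℓ β)).card ^ i := by
  classical
  induction i, hi using Nat.le_induction with
  | base =>
    exact (card_pow_one α β _ (pow_one ℓ)).trans (pow_one _).symm
  | succ i hi ih =>
    have hmap : ∀ a ∈ Im (toP (ℓ ^ (i + 1)) α) (toP (ℓ ^ (i + 1)) β),
        red (ℓ ^ i) a ∈ Im (toP (ℓ ^ i) α) (toP (ℓ ^ i) β) := by
      intro a ha
      rw [mem_Im] at ha ⊢
      have ha' : toP (ℓ ^ (i + 1)) (lft a) = a := toP_lft a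
      have h1 : toP (ℓ ^ (i + 1)) (α * lft a * β) = toP (ℓ ^ (i + 1)) (lft a) := by
        rw [map_mul, map_mul, ha', ha]
      have h2 := toP_of_le (Nat.le_succ i) h1
      unfold red
      rw [← map_mul, ← map_mul]
      exact h2
    rw [Finset.card_eq_sum_card_fiberwise (f := fun a => red (ℓ ^ i) a) hmap]
    have h3 : ∀ b ∈ Im (toP (ℓ ^ i) α) (toP (ℓ ^ i) β),
        ((Im (toP (ℓ ^ (i + 1)) α) (toP (ℓ ^ (i + 1)) β)).filter
          fun a => red (ℓ ^ i) a = b).card = (Im (toP ℓ α) (toP ℓ β)).card := by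
      intro b hb
      rw [← card_fib hα hβ hi him hb, ← Set.ncard_coe_finset]
      congr 1
      ext a
      simp
    rw [Finset.sum_congr rfl h3, Finset.sum_const, smul_eq_mul, ih (by omega), pow_succ]

open Classical in
/-- PROOF. The map `x ↦ toP (ℓ ^ (i + 1)) (ℓ • lft x)` is a bijection of `Im_i` onto the set of the not
primitive elements of `Im_{i+1}` (`exists_smul_of_not_prm`, `toP_smul_iff` with `k = 1`, `prm_toP`). -/
theorem sum_nonprm {α β : MonoidAlgebra ℤ G} {i : ℕ} (hi : 1 ≤ i)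
    (F : MonoidAlgebra (ZMod (ℓ ^ (i + 1))) G → ℝ) :
    ∑ x ∈ (Im (toP (ℓ ^ (i + 1)) α) (toP (ℓ ^ (i + 1)) β)).filter (fun x => ¬ Prm x), F x
      = ∑ x ∈ Im (toP (ℓ ^ i) α) (toP (ℓ ^ i) β), F (toP (ℓ ^ (i + 1)) ((ℓ : ℤ) • lft x)) := by
  have hiff : ∀ a b : MonoidAlgebra ℤ G, toP (ℓ ^ (i + 1)) ((ℓ : ℤ) • a) =
      toP (ℓ ^ (i + 1)) ((ℓ : ℤ) • b) ↔ toP (ℓ ^ i) a = toP (ℓ ^ i) b := by
    intro a b
    have h := toP_smul_iff (ℓ := ℓ) (i := i) (k := 1) (a := a) (b := b)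
    rwa [pow_one] at h
  have hconj : ∀ x : MonoidAlgebra ℤ G, α * ((ℓ : ℤ) • x) * β = (ℓ : ℤ) • (α * x * β) := by
    intro x
    rw [mul_smul_comm, smul_mul_assoc]
  symm
  refine Finset.sum_bij (fun x _ => toP (ℓ ^ (i + 1)) ((ℓ : ℤ) • lft x)) ?_ ?_ ?_ ?_
  · intro x hx
    rw [mem_Im] at hx
    rw [Finset.mem_filter, mem_Im]
    refine ⟨?_, ?_⟩
    · rw [← map_mul, ← map_mul, hconj, hiff, map_mul, map_mul, toP_lft, hx]
    · rw [prm_toP (Nat.succ_le_succ (Nat.zero_le i)), not_not]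
      exact card_smul_zero _
  · intro x _ y _ h
    rw [hiff, toP_lft, toP_lft] at h
    exact h
  · intro y hy
    rw [Finset.mem_filter, mem_Im] at hy
    obtain ⟨a, rfl⟩ := exists_smul_of_not_prm (Nat.succ_le_succ (Nat.zero_le i)) y hy.2
    have h1 := hy.1
    rw [← map_mul, ← map_mul, hconj, hiff] at h1
    refine ⟨toP (ℓ ^ i) a, ?_, ?_⟩
    · rw [mem_Im, ← map_mul, ← map_mul]
      exact h1
    · rw [hiff, toP_lft]
  · intro x _
    rfl

open Classical in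
/-- PROOF. `m = 1`: an element which is not primitive is `0` (`prm_iff`, `pow_one`).  Otherwise
`sum_nonprm` with `F = 1` and `card_lvl`. -/
theorem card_nonprm {α β : MonoidAlgebra ℤ G}
    (hα : toP (ℓ ^ m) α * toP (ℓ ^ m) α = toP (ℓ ^ m) α)
    (hβ : toP (ℓ ^ m) β * toP (ℓ ^ m) β = toP (ℓ ^ m) β) (hm : 1 ≤ m) :
    ((Im (toP (ℓ ^ m) α) (toP (ℓ ^ m) β)).filter (fun x => ¬ Prm x)).card
      = (Im (toP ℓ α) (toP ℓ β)).card ^ (m - 1) := by
  obtain ⟨i, rfl⟩ : ∃ i, m = i + 1 := ⟨m - 1, by omega⟩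
  rw [Nat.add_sub_cancel]
  rcases Nat.eq_zero_or_pos i with rfl | hi
  · rw [pow_zero, Finset.card_eq_one]
    refine ⟨0, ?_⟩
    ext x
    rw [Finset.mem_filter, Finset.mem_singleton]
    constructor
    · rintro ⟨_, hx⟩
      obtain ⟨a, rfl⟩ := exists_smul_of_not_prm le_rfl x hx
      have h1 : toP (ℓ ^ (0 + 1)) ((ℓ : ℤ) • a) = toP (ℓ ^ (0 + 1)) 0 := by
        rw [toP_eq_iff]
        intro g
        rw [MonoidAlgebra.coeff_smul, MonoidAlgebra.coeff_zero]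
        simp
      rw [h1, map_zero]
    · rintro rfl
      refine ⟨?_, ?_⟩
      · rw [mem_Im, mul_zero, zero_mul]
      · have h1 := (prm_toP (ℓ := ℓ) (i := 0 + 1) le_rfl (0 : MonoidAlgebra ℤ G)).not
        rw [map_zero, map_zero] at h1
        rw [h1]
        simp
  · have h1 := sum_nonprm (ℓ := ℓ) (α := α) (β := β) hi (fun _ => (1 : ℝ))
    rw [Finset.sum_const, Finset.sum_const, nsmul_eq_mul, nsmul_eq_mul, mul_one, mul_one] at h1
    have h2 : ((Im (toP (ℓ ^ (i + 1)) α) (toP (ℓ ^ (i + 1)) β)).filter (fun x => ¬ Prm x)).card =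
        (Im (toP (ℓ ^ i) α) (toP (ℓ ^ i) β)).card := by exact_mod_cast h1
    rw [h2]
    exact card_lvl hα hβ hi (Nat.le_succ i)

end Pool.MP43e44c.MD
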