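import Pool.Agent.H.MP_43e44c_ag.MD.LvlC
import Pool.Agent.H.MP_43e44c_ag.MD.Card

/-!
Kernels at the different levels.
-/

set_option autoImplicit false

open Finset Module

namespace Pool.MP43e44c.MD

open Pool.MP43e44c.OD Pool.MP43e44c.GA

universe u v

variable {G : Type u} [Group G] [Fintype G] {ι : Type v} {H : Half G ι} [Fintype ι]
  {ℓ m N f : ℕ} [Fact ℓ.Prime] {ε : MonoidAlgebra ℤ G} {e : MonoidAlgebra (ZMod ℓ) G}

/-- The number of the `y` at level `M` with `y * ρ = 0`. -/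
noncomputable def kr (ε : MonoidAlgebra ℤ G) (M : ℕ) (ρ : MonoidAlgebra ℤ G) : ℕ :=
  {y : MonoidAlgebra (ZMod M) G | toP M ε * y = y ∧ y * toP M ρ = 0}.ncard

/-- One step: the kernel of level `i + 1`. -/
theorem KerP_step (ε : MonoidAlgebra ℤ G) {i : ℕ} (_hi : 1 ≤ i) (ρ : MonoidAlgebra ℤ G) :
    kr ε (ℓ ^ (i + 1)) ρ ≤ kr ε (ℓ ^ i) ρ * kr ε ℓ ρ := by
  classical
  set K' : Set (MonoidAlgebra (ZMod (ℓ ^ (i + 1))) G) :=
    {y | toP (ℓ ^ (i + 1)) ε * y = y ∧ y * toP (ℓ ^ (i + 1)) ρ = 0} with hK'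
  set K : Set (MonoidAlgebra (ZMod (ℓ ^ i)) G) :=
    {y | toP (ℓ ^ i) ε * y = y ∧ y * toP (ℓ ^ i) ρ = 0} with hK
  set K1 : Set (MonoidAlgebra (ZMod ℓ) G) :=
    {y | toP ℓ ε * y = y ∧ y * toP ℓ ρ = 0} with hK1
  -- the reduction of an element of the kernel
  have hred : ∀ y ∈ K', red (ℓ ^ i) y ∈ K := by
    rintro y ⟨h1, h2⟩
    have hy : toP (ℓ ^ (i + 1)) (lft y) = y := toP_lft y
    constructor
    · have h3 : toP (ℓ ^ (i + 1)) (ε * lft y) = toP (ℓ ^ (i + 1)) (lft y) := by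
        rw [map_mul, hy, h1]
      have h4 := toP_of_le (Nat.le_succ i) h3
      rw [map_mul] at h4
      exact h4
    · have h3 : toP (ℓ ^ (i + 1)) (lft y * ρ) = toP (ℓ ^ (i + 1)) 0 := by
        rw [map_mul, hy, h2, map_zero]
      have h4 := toP_of_le (Nat.le_succ i) h3
      rw [map_mul, map_zero] at h4
      exact h4
  -- representatives of the fibres
  let rep : MonoidAlgebra (ZMod (ℓ ^ i)) G → MonoidAlgebra (ZMod (ℓ ^ (i + 1))) G := fun b =>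
    if h : ∃ y, y ∈ K' ∧ red (ℓ ^ i) y = b then h.choose else 0
  have hrep : ∀ y ∈ K', rep (red (ℓ ^ i) y) ∈ K' ∧
      red (ℓ ^ i) (rep (red (ℓ ^ i) y)) = red (ℓ ^ i) y := by
    intro y hy
    have h : ∃ y', y' ∈ K' ∧ red (ℓ ^ i) y' = red (ℓ ^ i) y := ⟨y, hy, rfl⟩
    have h1 : rep (red (ℓ ^ i) y) = h.choose := dif_pos h
    rw [h1]
    exact h.choose_spec
  have hex : ∀ y ∈ K', ∃ d : MonoidAlgebra ℤ G,
      y = rep (red (ℓ ^ i) y) + toP (ℓ ^ (i + 1)) ((ℓ : ℤ) ^ i • d) := by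
    intro y hy
    have h1 : toP (ℓ ^ i) (lft y) = toP (ℓ ^ i) (lft (rep (red (ℓ ^ i) y))) :=
      (hrep y hy).2.symm
    obtain ⟨d, hd⟩ := exists_sub (M := ℓ ^ (i + 1)) h1
    rw [toP_lft, toP_lft] at hd
    exact ⟨d, hd⟩
  let dd : MonoidAlgebra (ZMod (ℓ ^ (i + 1))) G → MonoidAlgebra ℤ G := fun y =>
    if h : ∃ d : MonoidAlgebra ℤ G,
      y = rep (red (ℓ ^ i) y) + toP (ℓ ^ (i + 1)) ((ℓ : ℤ) ^ i • d) then h.choose else 0
  have hdd : ∀ y ∈ K', y = rep (red (ℓ ^ i) y) + toP (ℓ ^ (i + 1)) ((ℓ : ℤ) ^ i • dd y) := by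
    intro y hy
    have h := hex y hy
    have h1 : dd y = h.choose := dif_pos h
    rw [h1]
    exact h.choose_spec
  have hdK : ∀ y ∈ K', toP ℓ (dd y) ∈ K1 := by
    intro y hy
    have h1 := hdd y hy
    obtain ⟨h2, h3⟩ := hy
    obtain ⟨h4, h5⟩ := (hrep y ⟨h2, h3⟩).1
    set z : MonoidAlgebra (ZMod (ℓ ^ (i + 1))) G := toP (ℓ ^ (i + 1)) ((ℓ : ℤ) ^ i • dd y) with hz
    have h6 : z = y - rep (red (ℓ ^ i) y) := by
      rw [eq_sub_iff_add_eq]
      exact (add_comm _ _).trans h1.symm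
    have h7 : toP (ℓ ^ (i + 1)) ε * z = z := by rw [h6, mul_sub, h2, h4]
    have h8 : z * toP (ℓ ^ (i + 1)) ρ = 0 := by rw [h6, sub_mul, h3, h5, sub_zero]
    constructor
    · have h9 : toP (ℓ ^ (i + 1)) ((ℓ : ℤ) ^ i • (ε * dd y)) =
          toP (ℓ ^ (i + 1)) ((ℓ : ℤ) ^ i • dd y) := by
        rw [← mul_smul_comm, map_mul]
        exact h7
      have h10 := toP_smul_iff_one.1 h9
      rw [map_mul] at h10
      exact h10
    · have h9 : toP (ℓ ^ (i + 1)) ((ℓ : ℤ) ^ i • (dd y * ρ)) =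
          toP (ℓ ^ (i + 1)) ((ℓ : ℤ) ^ i • (0 : MonoidAlgebra ℤ G)) := by
        rw [← smul_mul_assoc, map_mul, smul_zero, map_zero]
        exact h8
      have h10 := toP_smul_iff_one.1 h9
      rw [map_mul, map_zero] at h10
      exact h10
  have hmain : K'.ncard ≤ (K ×ˢ K1).ncard := by
    refine Set.ncard_le_ncard_of_injOn (fun y => (red (ℓ ^ i) y, toP ℓ (dd y))) ?_ ?_
      (Set.toFinite _)
    · intro y hy
      exact ⟨hred y hy, hdK y hy⟩
    · intro y hy y' hy' hyy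
      have h1 : red (ℓ ^ i) y = red (ℓ ^ i) y' := congrArg Prod.fst hyy
      have h2 : toP ℓ (dd y) = toP ℓ (dd y') := congrArg Prod.snd hyy
      have h3 := (toP_smul_iff_one (k := i)).2 h2
      rw [hdd y hy, hdd y' hy', h1, h3]
  rw [Set.ncard_prod] at hmain
  exact hmain

/-- PROOF. Induction on `i`.  The reduction maps the kernel `K_{i+1}` of level `i + 1` to `K_i`; two
elements with the same reduction differ by `toP (ℓ ^ i • η)` (`exists_sub`), where `toP ℓ η` lies in the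
kernel modulo `ℓ` (`toP_smul_iff_one`), so the fibres have at most `kr ε ℓ ρ` elements. -/
theorem kr_pow (B : Blk H ℓ m N f ε e) {i : ℕ} (hi : 1 ≤ i) (him : i ≤ m)
    (ρ : MonoidAlgebra ℤ G) : kr ε (ℓ ^ i) ρ ≤ (kr ε ℓ ρ) ^ i := by
  induction i, hi using Nat.le_induction with
  | base => rw [pow_one, pow_one]
  | succ i hi ih => exact (KerP_step ε hi ρ).trans (by
      rw [pow_succ]
      exact Nat.mul_le_mul_right _ (ih (by omega)))

/-- `kr ε ℓ ρ` depends only on `e * ρ`: `y * ρ = y * (e * ρ)` for `y = ε * y`, as `e` is central and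
`e * ε = ε`. -/
theorem kr_eq (B : Blk H ℓ m N f ε e) (ρ : MonoidAlgebra ℤ G) :
    kr ε ℓ ρ = {y : MonoidAlgebra (ZMod ℓ) G | toP ℓ ε * y = y ∧
      y * (e * toP ℓ ρ) = 0}.ncard := by
  unfold kr
  congr 1
  ext y
  have h1 : toP ℓ ε * y = y → y * (e * toP ℓ ρ) = y * toP ℓ ρ := by
    intro h
    have h2 : y * e = y := by
      rw [← B.e_cen]
      nth_rewrite 1 [← h]
      rw [← mul_assoc, B.e_ε, h]
    rw [← mul_assoc, h2]
  constructor
  · rintro ⟨h2, h3⟩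
    exact ⟨h2, by rw [h1 h2]; exact h3⟩
  · rintro ⟨h2, h3⟩
    exact ⟨h2, by rw [← h1 h2]; exact h3⟩

theorem kr_le (B : Blk H ℓ m N f ε e) (ρ : MonoidAlgebra ℤ G) : kr ε ℓ ρ ≤ ℓ ^ (f * N) := by
  rw [← B.cY, ← Set.ncard_coe_finset]
  unfold kr
  refine Set.ncard_le_ncard ?_ (Set.toFinite _)
  rintro y ⟨h1, _⟩
  rw [Finset.mem_coe, mem_lY]
  exact h1

end Pool.MP43e44c.MD
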