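import Pool.Agent.H.MP_43e44c_ag.MD.Def

/-!
Orthogonality relations and the number of the sign vectors annihilated by `y`.
-/

set_option autoImplicit false

open Finset Module

namespace Pool.MP43e44c.MD

open Pool.MP43e44c.OD Pool.MP43e44c.GA

universe u v

variable {G : Type u} [Group G] [Fintype G] {M : ℕ} [NeZero M]

open Classical in
/-- PROOF. If `w = 0` all terms are `1`.  Otherwise `w.coeff g ≠ 0` for some `g`; `x₀ = single g⁻¹ 1 * ε`
is in `rX ε` and `(x₀ * w).coeff 1 = (single g⁻¹ 1 * w).coeff 1 = w.coeff g ≠ 0`, so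
`ζ = stdAddChar (w.coeff g) ≠ 1` (`ZMod.injective_stdAddChar`).  The translation by `x₀` is a bijection of
`rX ε`, so the sum `S` satisfies `S = ζ S` and vanishes. -/
theorem orth {ε w : MonoidAlgebra (ZMod M) G} (hε : ε * ε = ε) (hw : ε * w = w) :
    ∑ x ∈ rX ε, (ZMod.stdAddChar ((x * w).coeff 1) : ℂ)
      = if w = 0 then ((rX ε).card : ℂ) else 0 := by
  classical
  by_cases h0 : w = 0
  · subst h0
    simp
  rw [if_neg h0]
  have h1 : ∃ g, w.coeff g ≠ 0 := by
    by_contra h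
    push Not at h
    exact h0 (ma_ext fun g => by rw [h g]; rfl)
  obtain ⟨g, hg⟩ := h1
  set x₀ : MonoidAlgebra (ZMod M) G := MonoidAlgebra.single g⁻¹ (1 : ZMod M) * ε with hx₀
  have h2 : x₀ * ε = x₀ := by rw [hx₀, mul_assoc, hε]
  have h3 : (x₀ * w).coeff 1 = w.coeff g := by
    rw [hx₀, mul_assoc, hw, MonoidAlgebra.coeff_single_mul_apply, one_mul, inv_inv, mul_one]
  have h4 : (ZMod.stdAddChar (w.coeff g) : ℂ) ≠ 1 := by
    intro h
    apply hg
    apply ZMod.injective_stdAddChar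
    rw [h, AddChar.map_zero_eq_one]
  have h5 : ∑ x ∈ rX ε, (ZMod.stdAddChar (((x + x₀) * w).coeff 1) : ℂ)
      = ∑ x ∈ rX ε, (ZMod.stdAddChar ((x * w).coeff 1) : ℂ) := by
    refine Finset.sum_equiv (Equiv.addRight x₀) (fun x => ?_) (fun x _ => rfl)
    rw [mem_rX, mem_rX, Equiv.coe_addRight, add_mul, h2, add_left_inj]
  have h6 : ∑ x ∈ rX ε, (ZMod.stdAddChar (((x + x₀) * w).coeff 1) : ℂ)
      = (∑ x ∈ rX ε, (ZMod.stdAddChar ((x * w).coeff 1) : ℂ)) * ZMod.stdAddChar (w.coeff g) := by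
    rw [sum_mul]
    refine sum_congr rfl fun x _ => ?_
    have h7 : ((x + x₀) * w).coeff 1 = (x * w).coeff 1 + w.coeff g := by
      rw [add_mul, ← h3]
      rfl
    rw [h7, AddChar.map_add_eq_mul]
  rw [h5] at h6
  have h8 : (∑ x ∈ rX ε, (ZMod.stdAddChar ((x * w).coeff 1) : ℂ)) *
      (1 - ZMod.stdAddChar (w.coeff g)) = 0 := by
    rw [mul_sub, mul_one, ← h6, sub_self]
  rcases mul_eq_zero.1 h8 with h9 | h9
  · exact h9
  · exact absurd (sub_eq_zero.1 h9).symm h4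

/-- PROOF. `ZMod.stdAddChar_apply`/`ZMod.toCircle_intCast` for the integer `valMinAbs a`;
`exp (i x) + exp (- i x) = 2 cos x`. -/
theorem char_add (a : ZMod M) :
    (ZMod.stdAddChar a : ℂ) + ZMod.stdAddChar (-a) = ((2 * cz a : ℝ) : ℂ) := by
  have h1 : ((a.valMinAbs : ℤ) : ZMod M) = a := ZMod.coe_valMinAbs a
  have h2 : (((-a.valMinAbs : ℤ)) : ZMod M) = -a := by rw [Int.cast_neg, h1]
  have h3 : (ZMod.stdAddChar a : ℂ) = Complex.exp (2 * Real.pi * Complex.I * a.valMinAbs / M) := by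
    conv_lhs => rw [← h1]
    rw [ZMod.stdAddChar_coe]
  have h4 : (ZMod.stdAddChar (-a) : ℂ) =
      Complex.exp (2 * Real.pi * Complex.I * ((-a.valMinAbs : ℤ) : ℂ) / M) := by
    conv_lhs => rw [← h2]
    rw [ZMod.stdAddChar_coe]
  rw [h3, h4]
  unfold cz
  push_cast
  rw [Complex.two_cos]
  congr 1
  · congr 1
    ring
  · congr 1
    ring

theorem Orth_map_sum {A : Type*} [AddCommMonoid A] {κ : Type*} (ψ : AddChar A ℂ)
    (s : Finset κ) (f : κ → A) : ψ (∑ i ∈ s, f i) = ∏ i ∈ s, ψ (f i) := by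
  classical
  induction s using Finset.induction_on with
  | empty => simp
  | insert a s ha ih => rw [sum_insert ha, prod_insert ha, AddChar.map_add_eq_mul, ih]

variable {ι : Type v} (H : Half G ι) [Fintype ι]

omit [Fintype G] [NeZero M] in
/-- PROOF. `(z * single t a).coeff 1 = z.coeff t⁻¹ * a`. -/
theorem coeff_mul_el (z : MonoidAlgebra (ZMod M) G) (v : ι → Bool) :
    (z * H.el (ZMod M) v).coeff 1
      = ∑ k, if v k then z.coeff (H.t k)⁻¹ else -z.coeff (H.t k)⁻¹ := by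
  unfold Half.el
  rw [mul_sum, coeff_sum']
  refine sum_congr rfl fun k _ => ?_
  rw [MonoidAlgebra.coeff_mul_single_apply, one_mul]
  by_cases h : v k <;> simp [h]

/-- PROOF. By `orth` for `w = y * el v` (`ε * w = w`) the left side is
`∑ v, ∑ x ∈ rX ε, stdAddChar ((x * y * el v).coeff 1)`.  Interchange the sums; by `coeff_mul_el`
`∑ v, ∏ k stdAddChar (± z_k) = ∏ k (stdAddChar z_k + stdAddChar (- z_k)) = ∏ k (2 cz z_k)`
(`Finset.prod_univ_sum`, `Fintype.piFinset_univ`, with `Bool` as index type), `z = x * y`. -/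
theorem four {ε y : MonoidAlgebra (ZMod M) G} (hε : ε * ε = ε) (hy : ε * y = y) :
    ({v : ι → Bool | y * H.el (ZMod M) v = 0}.ncard : ℝ) * (rX ε).card
      = 2 ^ Fintype.card ι * ∑ x ∈ rX ε, ∏ k, cz ((x * y).coeff (H.t k)⁻¹) := by
  classical
  have hcard : {v : ι → Bool | y * H.el (ZMod M) v = 0}.ncard =
      (univ.filter fun v : ι → Bool => y * H.el (ZMod M) v = 0).card := by
    rw [← Set.ncard_coe_finset]
    congr 1
    ext v
    simp
  have h1 : ∑ v : ι → Bool, ∑ x ∈ rX ε,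
      (ZMod.stdAddChar ((x * (y * H.el (ZMod M) v)).coeff 1) : ℂ) =
      ({v : ι → Bool | y * H.el (ZMod M) v = 0}.ncard : ℂ) * (rX ε).card := by
    have h2 : ∀ v : ι → Bool, ∑ x ∈ rX ε,
        (ZMod.stdAddChar ((x * (y * H.el (ZMod M) v)).coeff 1) : ℂ) =
        if y * H.el (ZMod M) v = 0 then ((rX ε).card : ℂ) else 0 := by
      intro v
      rw [orth hε (by rw [← mul_assoc, hy])]
    rw [sum_congr rfl fun v _ => h2 v, ← sum_filter, sum_const, nsmul_eq_mul, hcard]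
  have h3 : ∀ x : MonoidAlgebra (ZMod M) G, ∑ v : ι → Bool,
      (ZMod.stdAddChar ((x * (y * H.el (ZMod M) v)).coeff 1) : ℂ) =
      ((2 ^ Fintype.card ι * ∏ k, cz ((x * y).coeff (H.t k)⁻¹) : ℝ) : ℂ) := by
    intro x
    have h4 : ∀ v : ι → Bool, (ZMod.stdAddChar ((x * (y * H.el (ZMod M) v)).coeff 1) : ℂ) =
        ∏ k, (ZMod.stdAddChar (if v k then (x * y).coeff (H.t k)⁻¹ else
          -(x * y).coeff (H.t k)⁻¹) : ℂ) := by
      intro v
      rw [← mul_assoc, coeff_mul_el, Orth_map_sum]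
    rw [sum_congr rfl fun v _ => h4 v]
    have h5 := Finset.prod_univ_sum (fun _ : ι => (univ : Finset Bool))
      (fun k b => (ZMod.stdAddChar (if b then (x * y).coeff (H.t k)⁻¹ else
          -(x * y).coeff (H.t k)⁻¹) : ℂ))
    rw [Fintype.piFinset_univ] at h5
    rw [← h5]
    have h6 : ∀ k : ι, ∑ b : Bool, (ZMod.stdAddChar (if b then (x * y).coeff (H.t k)⁻¹ else
          -(x * y).coeff (H.t k)⁻¹) : ℂ) = ((2 * cz ((x * y).coeff (H.t k)⁻¹) : ℝ) : ℂ) := by
      intro k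
      rw [Fintype.sum_bool, ← char_add]
      simp
    rw [prod_congr rfl fun k _ => h6 k, ← Complex.ofReal_prod, prod_mul_distrib, prod_const,
      card_univ]
  rw [sum_comm, sum_congr rfl fun x _ => h3 x, ← Complex.ofReal_sum, ← mul_sum] at h1
  have h7 : ((({v : ι → Bool | y * H.el (ZMod M) v = 0}.ncard : ℝ) * (rX ε).card : ℝ) : ℂ) =
      ((2 ^ Fintype.card ι * ∑ x ∈ rX ε, ∏ k, cz ((x * y).coeff (H.t k)⁻¹) : ℝ) : ℂ) := by
    rw [h1]
    push_cast
    rfl
  exact Complex.ofReal_injective h7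

theorem four_le {ε y : MonoidAlgebra (ZMod M) G} (hε : ε * ε = ε) (hy : ε * y = y) :
    ({v : ι → Bool | y * H.el (ZMod M) v = 0}.ncard : ℝ) * (rX ε).card
      ≤ 2 ^ Fintype.card ι * ∑ x ∈ rX ε, cw H (x * y) := by
  rw [four H hε hy]
  refine mul_le_mul_of_nonneg_left (sum_le_sum fun x _ => ?_) (by positivity)
  unfold cw
  rw [← Finset.abs_prod]
  exact le_abs_self _

end Pool.MP43e44c.MD
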