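import Pool.Agent.H.MP_43e44c_ag.MD.Phi
import Pool.Agent.H.MP_43e44c_ag.MD.Orth

/-!
The moments.
-/

set_option autoImplicit false

open Finset Module

namespace Pool.MP43e44c.MD

open Pool.MP43e44c.OD Pool.MP43e44c.GA

universe u v

variable {G : Type u} [Group G] [Fintype G] {ι : Type v} (H : Half G ι) [Fintype ι]

/-- PROOF. `phi_pow_eq` for `z = x * y`, interchange the sums, `orth` with `w = y * toP M (rho s)`. -/
theorem moment {ℓ : ℕ} [Fact ℓ.Prime] {M : ℕ} [NeZero M] (k₀ : ℕ) (hn : 0 < Fintype.card ι)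
    {ε y : MonoidAlgebra (ZMod M) G} (hε : ε * ε = ε) (hy : ε * y = y) :
    ∑ x ∈ rX ε, (Fintype.card ι * ℓ * phi H ℓ (x * y)) ^ k₀
      = (rX ε).card * ({s : Fin k₀ → ι × Rl ℓ | y * toP M (rho H s) = 0}.ncard : ℝ) := by
  classical
  apply Complex.ofReal_injective
  rw [Complex.ofReal_sum]
  have h1 : ∀ x ∈ rX ε, (((Fintype.card ι * ℓ * phi H ℓ (x * y)) ^ k₀ : ℝ) : ℂ)
      = ∑ s : Fin k₀ → ι × Rl ℓ,
          (ZMod.stdAddChar ((x * (y * toP M (rho H s))).coeff 1) : ℂ) := by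
    intro x _
    rw [phi_pow_eq H k₀ hn (x * y)]
    refine Finset.sum_congr rfl fun s _ => ?_
    rw [mul_assoc]
  rw [Finset.sum_congr rfl h1, Finset.sum_comm]
  have h2 : ∀ s ∈ (Finset.univ : Finset (Fin k₀ → ι × Rl ℓ)),
      ∑ x ∈ rX ε, (ZMod.stdAddChar ((x * (y * toP M (rho H s))).coeff 1) : ℂ)
        = if y * toP M (rho H s) = 0 then ((rX ε).card : ℂ) else 0 := by
    intro s _
    have hw : ε * (y * toP M (rho H s)) = y * toP M (rho H s) := by
      rw [← mul_assoc, hy]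
    rw [orth hε hw]
  rw [Finset.sum_congr rfl h2, ← Finset.sum_filter, Finset.sum_const, nsmul_eq_mul]
  have h3 : {s : Fin k₀ → ι × Rl ℓ | y * toP M (rho H s) = 0}.ncard
      = (Finset.univ.filter fun s : Fin k₀ → ι × Rl ℓ => y * toP M (rho H s) = 0).card := by
    rw [← Set.ncard_coe_finset]
    congr 1
    ext s
    simp
  rw [h3]
  push_cast
  ring

end Pool.MP43e44c.MD
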