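import Pool.Agent.H.MP_43e44c_ag.MD.Unif
import Pool.Agent.H.MP_43e44c_ag.MD.Mom
import Pool.Agent.H.MP_43e44c_ag.MD.KerP

/-!
The number of pairs of small energy: bound with a power saving.
-/

set_option autoImplicit false

open Finset Module

namespace Pool.MP43e44c.MD

open Pool.MP43e44c.OD Pool.MP43e44c.GA

universe u v

variable {G : Type u} [Group G] [Fintype G] {ι : Type v} {H : Half G ι} [Fintype ι]
  {ℓ m N f : ℕ} [Fact ℓ.Prime] {ε : MonoidAlgebra ℤ G} {e : MonoidAlgebra (ZMod ℓ) G}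

/-- PROOF. Split the tuples `s` according to whether `kr ε ℓ (rho s) ≤ ℓ ^ (f (N - r))`.  Those contribute at
most `(n ℓ) ^ k₀ ℓ ^ (f (N - r) i)`.  For the others `β = e * rho s` is in the set of `B.low` (`kr_eq`), which has
at most `ℓ ^ (2 f N r)` elements, each is taken by at most `2 (n ℓ) ^ k₀ / ℓ ^ (f N N)` tuples (`unif`), and
`kr ^ i ≤ ℓ ^ (f N i)` (`kr_le`). -/
theorem sum_kr (B : Blk H ℓ m N f ε e) {i : ℕ} {k₀ : ℕ}
    (hk : (f : ℝ) ^ 2 * (N : ℝ) ^ 4 * Real.log ℓ ≤ k₀) {r : ℕ} (hr : 4 * r ≤ N) :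
    ∑ s : Fin k₀ → ι × Rl ℓ, ((kr ε ℓ (rho H s) : ℝ)) ^ i ≤
      (Fintype.card ι * ℓ : ℝ) ^ k₀ * ((ℓ : ℝ) ^ (f * N * i)) *
        (1 / (ℓ : ℝ) ^ (f * r * i) + 2 / (ℓ : ℝ) ^ (f * (N * N - 2 * N * r))) := by
  classical
  have hl0 : (0 : ℝ) < ℓ := by exact_mod_cast (Fact.out : ℓ.Prime).pos
  have hl1 : (1 : ℝ) ≤ ℓ := by exact_mod_cast (Fact.out : ℓ.Prime).one_lt.le
  have hrN : r ≤ N := by omega
  have hNN : 2 * N * r ≤ N * N := by nlinarith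
  have hcardS : (Finset.univ : Finset (Fin k₀ → ι × Rl ℓ)).card = (Fintype.card ι * ℓ) ^ k₀ := by
    rw [Finset.card_univ, Fintype.card_fun, Fintype.card_prod, Fintype.card_coe, card_Rl B.ne2,
      Fintype.card_fin]
  set Q : ℝ := (Fintype.card ι * ℓ : ℝ) ^ k₀ with hQ
  have hQ0 : 0 ≤ Q := by positivity
  set T : Finset (Fin k₀ → ι × Rl ℓ) :=
    Finset.univ.filter fun s => ℓ ^ (f * (N - r)) < kr ε ℓ (rho H s) with hT
  -- the number of bad tuples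
  set L : Set (MonoidAlgebra (ZMod ℓ) G) := {β | e * β = β ∧
    ℓ ^ (f * (N - r)) < {y : MonoidAlgebra (ZMod ℓ) G | toP ℓ ε * y = y ∧ y * β = 0}.ncard} with hL
  have hLc : L.ncard ≤ ℓ ^ (2 * f * N * r) := B.low r hrN
  have hLf : L.Finite := Set.toFinite L
  have hmaps : ∀ s ∈ T, e * toP ℓ (rho H s) ∈ hLf.toFinset := by
    intro s hs
    rw [hT, Finset.mem_filter] at hs
    rw [Set.Finite.mem_toFinset, hL]
    refine ⟨by rw [← mul_assoc, B.e_idem], ?_⟩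
    rw [← kr_eq B]
    exact hs.2
  have hfib : ∀ β ∈ hLf.toFinset, ((T.filter fun s => e * toP ℓ (rho H s) = β).card : ℝ) *
      (ℓ : ℝ) ^ (f * N * N) ≤ 2 * Q := by
    intro β hβ
    rw [Set.Finite.mem_toFinset, hL] at hβ
    have h1 := unif (H := H) B hk hβ.1
    refine le_trans ?_ h1
    apply mul_le_mul_of_nonneg_right _ (by positivity)
    have h2 : (T.filter fun s => e * toP ℓ (rho H s) = β).card ≤
        {s : Fin k₀ → ι × Rl ℓ | e * toP ℓ (rho H s) = β}.ncard := by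
      rw [← Set.ncard_coe_finset]
      apply Set.ncard_le_ncard _ (Set.toFinite _)
      intro s hs
      rw [Finset.mem_coe, Finset.mem_filter] at hs
      exact hs.2
    exact_mod_cast h2
  have hTc : (T.card : ℝ) * (ℓ : ℝ) ^ (f * (N * N - 2 * N * r)) ≤ 2 * Q := by
    have h1 : (T.card : ℝ) * (ℓ : ℝ) ^ (f * N * N) ≤ (ℓ : ℝ) ^ (2 * f * N * r) * (2 * Q) := by
      rw [Finset.card_eq_sum_card_fiberwise (f := fun s => e * toP ℓ (rho H s)) hmaps]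
      rw [Nat.cast_sum, Finset.sum_mul]
      refine (Finset.sum_le_sum hfib).trans ?_
      rw [Finset.sum_const, nsmul_eq_mul]
      apply mul_le_mul_of_nonneg_right _ (by positivity)
      rw [← Set.ncard_eq_toFinset_card L hLf]
      exact_mod_cast hLc
    have h2 : (ℓ : ℝ) ^ (f * N * N) =
        (ℓ : ℝ) ^ (2 * f * N * r) * (ℓ : ℝ) ^ (f * (N * N - 2 * N * r)) := by
      rw [← pow_add]
      congr 1
      obtain ⟨d, hd⟩ := Nat.exists_eq_add_of_le hNN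
      rw [hd, Nat.add_sub_cancel_left, mul_assoc f N N, hd]
      ring
    rw [h2] at h1
    have h3 : (0 : ℝ) < (ℓ : ℝ) ^ (2 * f * N * r) := by positivity
    have h4 : (ℓ : ℝ) ^ (2 * f * N * r) * ((T.card : ℝ) * (ℓ : ℝ) ^ (f * (N * N - 2 * N * r))) ≤
        (ℓ : ℝ) ^ (2 * f * N * r) * (2 * Q) := by
      calc _ = (T.card : ℝ) * ((ℓ : ℝ) ^ (2 * f * N * r) * (ℓ : ℝ) ^ (f * (N * N - 2 * N * r))) := by
            ring
        _ ≤ _ := h1
    exact le_of_mul_le_mul_left h4 h3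
  -- pointwise bound
  have hpt : ∀ s : Fin k₀ → ι × Rl ℓ, ((kr ε ℓ (rho H s) : ℝ)) ^ i ≤
      ((ℓ : ℝ) ^ (f * (N - r))) ^ i + (if s ∈ T then ((ℓ : ℝ) ^ (f * N)) ^ i else 0) := by
    intro s
    by_cases hs : s ∈ T
    · rw [if_pos hs]
      have h1 : ((kr ε ℓ (rho H s) : ℝ)) ^ i ≤ ((ℓ : ℝ) ^ (f * N)) ^ i := by
        apply pow_le_pow_left₀ (by positivity)
        exact_mod_cast kr_le B (rho H s)
      have h2 : (0 : ℝ) ≤ ((ℓ : ℝ) ^ (f * (N - r))) ^ i := by positivity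
      linarith
    · rw [if_neg hs, add_zero]
      apply pow_le_pow_left₀ (by positivity)
      have h1 : ¬ ℓ ^ (f * (N - r)) < kr ε ℓ (rho H s) := by
        intro h
        exact hs (Finset.mem_filter.2 ⟨Finset.mem_univ _, h⟩)
      exact_mod_cast not_lt.1 h1
  refine (Finset.sum_le_sum fun s _ => hpt s).trans ?_
  rw [Finset.sum_add_distrib, Finset.sum_const, nsmul_eq_mul, hcardS, ← Finset.sum_filter,
    Finset.sum_const, nsmul_eq_mul]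
  have hTf : (Finset.univ.filter fun s => s ∈ T).card = T.card := by
    congr 1
    ext s
    simp
  rw [hTf]
  have hcast : (((Fintype.card ι * ℓ) ^ k₀ : ℕ) : ℝ) = Q := by
    rw [hQ]; push_cast; rfl
  rw [hcast]
  have e1 : ((ℓ : ℝ) ^ (f * (N - r))) ^ i = (ℓ : ℝ) ^ (f * N * i) * (1 / (ℓ : ℝ) ^ (f * r * i)) := by
    rw [mul_one_div, eq_div_iff (by positivity), ← pow_mul, ← pow_add]
    congr 1
    obtain ⟨d, hd⟩ := Nat.exists_eq_add_of_le hrN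
    rw [hd, Nat.add_sub_cancel_left]
    ring
  have e2 : (T.card : ℝ) ≤ Q * (2 / (ℓ : ℝ) ^ (f * (N * N - 2 * N * r))) := by
    rw [mul_div_assoc', le_div_iff₀ (by positivity)]
    linarith [hTc]
  have e3 : ((ℓ : ℝ) ^ (f * N)) ^ i = (ℓ : ℝ) ^ (f * N * i) := by rw [← pow_mul]
  rw [e1, e3]
  have h5 : (0 : ℝ) ≤ (ℓ : ℝ) ^ (f * N * i) := by positivity
  calc Q * ((ℓ : ℝ) ^ (f * N * i) * (1 / (ℓ : ℝ) ^ (f * r * i))) + (T.card : ℝ) * (ℓ : ℝ) ^ (f * N * i)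
      ≤ Q * ((ℓ : ℝ) ^ (f * N * i) * (1 / (ℓ : ℝ) ^ (f * r * i))) +
        Q * (2 / (ℓ : ℝ) ^ (f * (N * N - 2 * N * r))) * (ℓ : ℝ) ^ (f * N * i) := by
        have := mul_le_mul_of_nonneg_right e2 h5
        linarith
    _ = _ := by ring

/-- PROOF. `phi ^ k₀ ≥ 1 / 2` for the pairs counted (`phi_pow_ge`) and `phi ^ k₀ ≥ 0` always (`k₀` even), so
`(n ℓ) ^ k₀ NN / 2 ≤ ∑_{y ∈ lY} ∑_{x ∈ rX} (n ℓ phi (x y)) ^ k₀ = card rX * ∑_s kr ε (ℓ ^ i) (rho s)` (`moment`,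
interchange), then `kr_pow`, `sum_kr` and `card rX = ℓ ^ (f N i)` (`card_lvl`). -/
theorem baseA (B : Blk H ℓ m N f ε e) {i : ℕ} (hi : 1 ≤ i) (him : i ≤ m) {k₀ : ℕ} (hev : Even k₀)
    (hk1 : 1 ≤ k₀) (hk : (f : ℝ) ^ 2 * (N : ℝ) ^ 4 * Real.log ℓ ≤ k₀) {κ : ℝ} (hκ : 0 ≤ κ)
    (h : 10 * (ℓ : ℝ) ^ 2 * κ * k₀ ≤ 1) {r : ℕ} (hr : 4 * r ≤ N) :
    (NN H ε (ℓ ^ i) (κ * Fintype.card ι) : ℝ) ≤ 2 * ((ℓ : ℝ) ^ (f * N * i)) ^ 2 *
        (1 / (ℓ : ℝ) ^ (f * r * i) + 2 / (ℓ : ℝ) ^ (f * (N * N - 2 * N * r))) := by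
  classical
  have hl0 : (0 : ℝ) < ℓ := by exact_mod_cast (Fact.out : ℓ.Prime).pos
  have hn : 0 < Fintype.card ι := by
    have h1 := H.card_eq
    have h2 : 0 < Fintype.card G := Fintype.card_pos
    omega
  have hn' : (0 : ℝ) < Fintype.card ι := by exact_mod_cast hn
  set Q : ℝ := (Fintype.card ι * ℓ : ℝ) ^ k₀ with hQ
  have hQ0 : 0 < Q := by positivity
  set E : ℝ := 1 / (ℓ : ℝ) ^ (f * r * i) + 2 / (ℓ : ℝ) ^ (f * (N * N - 2 * N * r)) with hE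
  have hidem : toP (ℓ ^ i) ε * toP (ℓ ^ i) ε = toP (ℓ ^ i) ε := by
    rw [← map_mul]
    exact toP_of_le him (by rw [map_mul]; exact B.idem)
  have hX : ((rX (toP (ℓ ^ i) ε)).card : ℝ) = (ℓ : ℝ) ^ (f * N * i) := by
    have h1 := card_lvl (ℓ := ℓ) (m := m) (α := 1) (β := ε) (by rw [map_one, mul_one]) B.idem hi him
    rw [map_one, map_one] at h1
    have h2 : (rX (toP (ℓ ^ i) ε)).card = (rX (toP ℓ ε)).card ^ i := h1
    rw [h2, B.cX, ← pow_mul]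
    push_cast
    rfl
  let F : MonoidAlgebra (ZMod (ℓ ^ i)) G × MonoidAlgebra (ZMod (ℓ ^ i)) G → ℝ := fun p =>
    (Fintype.card ι * ℓ * phi H ℓ (p.2 * p.1)) ^ k₀
  have hF0 : ∀ p, 0 ≤ F p := fun p => hev.pow_nonneg _
  have hF1 : ∀ p, en H (p.2 * p.1) ≤ κ * Fintype.card ι → Q / 2 ≤ F p := by
    intro p hp
    have h1 := phi_pow_ge (H := H) (ℓ := ℓ) B.ne2 hn hκ hk1 h hp
    have h2 : F p = Q * phi H ℓ (p.2 * p.1) ^ k₀ := by
      show (Fintype.card ι * ℓ * phi H ℓ (p.2 * p.1)) ^ k₀ = _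
      rw [mul_pow]
    rw [h2]
    calc Q / 2 = Q * (1 / 2) := by ring
      _ ≤ _ := mul_le_mul_of_nonneg_left h1 hQ0.le
  have hsum : (NN H ε (ℓ ^ i) (κ * Fintype.card ι) : ℝ) * (Q / 2) ≤
      ∑ p ∈ lY (toP (ℓ ^ i) ε) ×ˢ rX (toP (ℓ ^ i) ε), F p := by
    unfold NN PP
    rw [← nsmul_eq_mul, ← Finset.sum_const]
    refine (Finset.sum_le_sum (fun p hp => hF1 p (Finset.mem_filter.1 hp).2)).trans ?_
    apply Finset.sum_le_sum_of_subset_of_nonneg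
    · intro p hp
      exact (Finset.mem_filter.1 (Finset.mem_filter.1 hp).1).1
    · intro p _ _
      exact hF0 p
  have hint : ∑ p ∈ lY (toP (ℓ ^ i) ε) ×ˢ rX (toP (ℓ ^ i) ε), F p =
      (rX (toP (ℓ ^ i) ε)).card * ∑ s : Fin k₀ → ι × Rl ℓ, (kr ε (ℓ ^ i) (rho H s) : ℝ) := by
    rw [Finset.sum_product]
    have h1 : ∀ y ∈ lY (toP (ℓ ^ i) ε), ∑ x ∈ rX (toP (ℓ ^ i) ε), F (y, x) =
        (rX (toP (ℓ ^ i) ε)).card *
          ∑ s : Fin k₀ → ι × Rl ℓ, (if y * toP (ℓ ^ i) (rho H s) = 0 then (1 : ℝ) else 0) := by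
      intro y hy
      rw [mem_lY] at hy
      have h2 := moment (H := H) (ℓ := ℓ) k₀ hn hidem hy
      refine h2.trans ?_
      congr 1
      rw [Finset.sum_boole, ← Set.ncard_coe_finset]
      congr 2
      ext s
      simp
    rw [Finset.sum_congr rfl h1, ← Finset.mul_sum, Finset.sum_comm]
    congr 1
    refine Finset.sum_congr rfl fun s _ => ?_
    rw [Finset.sum_boole]
    unfold kr
    rw [← Set.ncard_coe_finset]
    congr 2
    ext y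
    simp [mem_lY]
  have hkr : ∑ s : Fin k₀ → ι × Rl ℓ, (kr ε (ℓ ^ i) (rho H s) : ℝ) ≤
      Q * (ℓ : ℝ) ^ (f * N * i) * E := by
    refine le_trans ?_ (sum_kr (H := H) B (i := i) hk hr)
    refine Finset.sum_le_sum fun s _ => ?_
    exact_mod_cast kr_pow B hi him (rho H s)
  have hfin : (NN H ε (ℓ ^ i) (κ * Fintype.card ι) : ℝ) * (Q / 2) ≤
      (2 * ((ℓ : ℝ) ^ (f * N * i)) ^ 2 * E) * (Q / 2) := by
    refine hsum.trans ?_
    rw [hint, hX]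
    refine (mul_le_mul_of_nonneg_left hkr (by positivity)).trans (le_of_eq ?_)
    ring
  exact le_of_mul_le_mul_right hfin (by positivity)

end Pool.MP43e44c.MD
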