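import Pool.Agent.H.MP_43e44c_ag.MD.Nz

/-!
Vectors of small length in a torus.
-/

set_option autoImplicit false

open Finset Module

namespace Pool.MP43e44c.MD

open Pool.MP43e44c.OD Pool.MP43e44c.GA

universe u v

theorem gau_series {A : ℝ} (hA : 0 < A) (n : ℕ) :
    ∑ j ∈ range (n + 1), Real.exp (-((j : ℝ) ^ 2 / A ^ 2))
      ≤ 1 + 2 * A - 2 * A ^ 2 / (A + n) := by
  induction n with
  | zero =>
    have h : 2 * A ^ 2 / (A + ((0 : ℕ) : ℝ)) = 2 * A := by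
      rw [Nat.cast_zero, add_zero]
      field_simp
    rw [h]
    simp
  | succ n ih =>
    rw [sum_range_succ]
    have hn : (0 : ℝ) ≤ n := Nat.cast_nonneg n
    have h1 : Real.exp (-(((n + 1 : ℕ) : ℝ) ^ 2 / A ^ 2))
        ≤ 2 * A ^ 2 / (A + n) - 2 * A ^ 2 / (A + ((n + 1 : ℕ) : ℝ)) := by
      rw [Real.exp_neg]
      have h2 : 1 + (((n + 1 : ℕ) : ℝ) ^ 2 / A ^ 2) ≤ Real.exp (((n + 1 : ℕ) : ℝ) ^ 2 / A ^ 2) := by
        rw [add_comm]
        exact Real.add_one_le_exp _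
      have h3 : 0 < 1 + (((n + 1 : ℕ) : ℝ) ^ 2 / A ^ 2) := by positivity
      refine (inv_anti₀ h3 h2).trans ?_
      push_cast
      have e1 : 2 * A ^ 2 / (A + n) - 2 * A ^ 2 / (A + (n + 1))
          = 2 * A ^ 2 / ((A + n) * (A + (n + 1))) := by
        field_simp
        ring
      have e2 : (1 + ((n : ℝ) + 1) ^ 2 / A ^ 2)⁻¹ = A ^ 2 / (A ^ 2 + (n + 1) ^ 2) := by
        field_simp
      rw [e1, e2, div_le_div_iff₀ (by positivity) (by positivity)]
      nlinarith [sq_nonneg (A - (n + 1)), mul_pos hA hA, mul_nonneg (mul_pos hA hA).le hA.le,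
        mul_nonneg (mul_pos hA hA).le hn, mul_nonneg (mul_pos hA hA).le (sq_nonneg (A - (n + 1)))]
    linarith

theorem gau_series' {A : ℝ} (hA : 0 < A) (n : ℕ) :
    ∑ j ∈ range (n + 1), Real.exp (-((j : ℝ) ^ 2 / A ^ 2)) ≤ 1 + 2 * A := by
  have h := gau_series hA n
  have h1 : 0 ≤ 2 * A ^ 2 / (A + n) := by positivity
  linarith

theorem gau_val {M : ℕ} [NeZero M] (g : ℕ → ℝ) :
    ∑ a : ZMod M, g a.val = ∑ i ∈ range M, g i := by
  obtain ⟨n, rfl⟩ : ∃ n, M = n + 1 := ⟨M - 1, by have := NeZero.pos M; omega⟩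
  exact Fin.sum_univ_eq_sum_range g (n + 1)

theorem gau_two {M : ℕ} [NeZero M] (g : ℕ → ℝ) (hg : ∀ i, 0 ≤ g i) :
    ∑ a : ZMod M, g a.valMinAbs.natAbs ≤ 2 * ∑ i ∈ range (M + 1), g i := by
  have h1 : ∀ a : ZMod M, g a.valMinAbs.natAbs ≤ g a.val + g (M - a.val) := by
    intro a
    rw [ZMod.valMinAbs_natAbs_eq_min]
    rcases min_choice a.val (M - a.val) with h | h
    · rw [h]
      have := hg (M - a.val)
      linarith
    · rw [h]
      have := hg a.val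
      linarith
  have h2 : ∑ i ∈ range M, g i ≤ ∑ i ∈ range (M + 1), g i := by
    rw [sum_range_succ]
    have := hg M
    linarith
  have h3 : ∑ i ∈ range M, g (M - i) ≤ ∑ i ∈ range (M + 1), g i := by
    have e : ∑ i ∈ range (M + 1), g i = ∑ i ∈ range (M + 1), g (M - i) := by
      rw [← sum_range_reflect]
      refine sum_congr rfl fun i _ => ?_
      congr 1
    rw [e, sum_range_succ]
    have := hg (M - M)
    linarith
  calc ∑ a : ZMod M, g a.valMinAbs.natAbs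
      ≤ ∑ a : ZMod M, (g a.val + g (M - a.val)) := sum_le_sum fun a _ => h1 a
    _ = ∑ i ∈ range M, g i + ∑ i ∈ range M, g (M - i) := by
        rw [sum_add_distrib, gau_val g, gau_val fun i => g (M - i)]
    _ ≤ 2 * ∑ i ∈ range (M + 1), g i := by linarith

/-- PROOF. At most two elements `a` have a given value `|valMinAbs a| = j ≥ 1`, and one has `j = 0`, so
the sum is at most `1 + 2 ∑_{j = 1}^{M} exp (- j ^ 2 / A ^ 2)`, `A = M √κ`.  The terms with `j ≤ A` contribute at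
most `A`; for `j > A` use `exp (- u) ≤ 1 / u` and `∑_{j > A} A ^ 2 / j ^ 2 ≤ 2 A` (`1 / j ^ 2 ≤ 2 / (j (j + 1))`, telescoping:
the sum over `j ≥ J` is at most `2 / J`, and `J > A`).  Total at most `1 + 6 A`. -/
theorem gau {M : ℕ} [NeZero M] {κ : ℝ} (hκ : 0 < κ) :
    ∑ a : ZMod M, Real.exp (-(nz a ^ 2) / κ) ≤ 8 * (1 + M * Real.sqrt κ) := by
  have hM : (0 : ℝ) < M := Nat.cast_pos.2 (NeZero.pos M)
  have hA : 0 < (M : ℝ) * Real.sqrt κ := mul_pos hM (Real.sqrt_pos.2 hκ)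
  have h1 : ∀ a : ZMod M, Real.exp (-(nz a ^ 2) / κ)
      = Real.exp (-(((a.valMinAbs.natAbs : ℕ) : ℝ) ^ 2 / ((M : ℝ) * Real.sqrt κ) ^ 2)) := by
    intro a
    congr 1
    unfold nz
    rw [mul_pow, Real.sq_sqrt hκ.le, neg_div, div_pow, sq_abs]
    have e : (((a.valMinAbs.natAbs : ℕ) : ℝ)) ^ 2 = ((a.valMinAbs : ℤ) : ℝ) ^ 2 := by
      rw [← sq_abs ((a.valMinAbs : ℤ) : ℝ), ← Int.cast_abs, Int.abs_eq_natAbs, Int.cast_natCast]
    rw [e, div_div]
  have h2 := gau_two (M := M)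
    (fun j => Real.exp (-((j : ℝ) ^ 2 / ((M : ℝ) * Real.sqrt κ) ^ 2)))
    fun _ => (Real.exp_pos _).le
  have h3 := gau_series' hA M
  rw [sum_congr rfl fun a _ => h1 a]
  refine h2.trans ?_
  linarith

/-- PROOF. For a vector `a` in the set `1 ≤ exp (card S - ∑ s, nz (a s) ^ 2 / κ)`.  Sum over all vectors:
`exp (card S) * ∏ s, ∑ a, exp (- nz a ^ 2 / κ)` (`Finset.prod_univ_sum`), and `gau`. -/
theorem box {S : Type*} [Fintype S] {M : ℕ} [NeZero M] {κ : ℝ} (hκ : 0 < κ) :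
    ({a : S → ZMod M | ∑ s, nz (a s) ^ 2 ≤ κ * Fintype.card S}.ncard : ℝ)
      ≤ (8 * Real.exp 1 * (1 + M * Real.sqrt κ)) ^ Fintype.card S := by
  classical
  have h0 : {a : S → ZMod M | ∑ s, nz (a s) ^ 2 ≤ κ * Fintype.card S}
      = ((univ.filter fun a : S → ZMod M => ∑ s, nz (a s) ^ 2 ≤ κ * Fintype.card S :
        Finset (S → ZMod M)) : Set (S → ZMod M)) := by
    ext a
    simp
  rw [h0, Set.ncard_coe_finset, card_eq_sum_ones, Nat.cast_sum]
  have h1 : ∀ a ∈ (univ.filter fun a : S → ZMod M => ∑ s, nz (a s) ^ 2 ≤ κ * Fintype.card S),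
      ((1 : ℕ) : ℝ) ≤ Real.exp 1 ^ Fintype.card S * ∏ s, Real.exp (-(nz (a s) ^ 2) / κ) := by
    intro a ha
    have ha := (mem_filter.1 ha).2
    rw [← Real.exp_sum, ← Real.exp_nat_mul, ← Real.exp_add, Nat.cast_one, mul_one]
    refine Real.one_le_exp ?_
    have e : ∑ s, -(nz (a s) ^ 2) / κ = -((∑ s, nz (a s) ^ 2) / κ) := by
      rw [← sum_div, sum_neg_distrib, neg_div]
    rw [e]
    have h2 : (∑ s, nz (a s) ^ 2) / κ ≤ Fintype.card S := by
      rw [div_le_iff₀ hκ, mul_comm]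
      exact ha
    linarith
  have h2 : ∀ a ∈ (univ : Finset (S → ZMod M)),
      a ∉ (univ.filter fun a : S → ZMod M => ∑ s, nz (a s) ^ 2 ≤ κ * Fintype.card S) →
      0 ≤ Real.exp 1 ^ Fintype.card S * ∏ s, Real.exp (-(nz (a s) ^ 2) / κ) := by
    intro a _ _
    exact mul_nonneg (by positivity) (prod_nonneg fun _ _ => (Real.exp_pos _).le)
  refine (sum_le_sum h1).trans ((sum_le_sum_of_subset_of_nonneg (filter_subset _ _) h2).trans ?_)
  rw [← mul_sum]
  have h3 : ∑ a : S → ZMod M, ∏ s, Real.exp (-(nz (a s) ^ 2) / κ)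
      = (∑ b : ZMod M, Real.exp (-(nz b ^ 2) / κ)) ^ Fintype.card S := by
    have h4 := Finset.prod_univ_sum (fun _ : S => (univ : Finset (ZMod M)))
      fun _ b => Real.exp (-(nz b ^ 2) / κ)
    rw [Fintype.piFinset_univ] at h4
    rw [← h4, prod_const, card_univ]
  rw [h3, ← mul_pow]
  have h5 : 0 ≤ ∑ b : ZMod M, Real.exp (-(nz b ^ 2) / κ) :=
    sum_nonneg fun _ _ => (Real.exp_pos _).le
  refine pow_le_pow_left₀ (mul_nonneg (Real.exp_pos _).le h5) ?_ _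
  have h6 := mul_le_mul_of_nonneg_left (gau (M := M) hκ) (Real.exp_pos 1).le
  refine h6.trans (le_of_eq ?_)
  ring

end Pool.MP43e44c.MD
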