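import Pool.Agent.H.MP_43e44c_ag.MD.SepB
import Pool.Agent.H.MP_43e44c_ag.MD.Gau

/-!
The number of pairs of small energy: direct bound.
-/

set_option autoImplicit false

open Finset Module

namespace Pool.MP43e44c.MD

open Pool.MP43e44c.OD Pool.MP43e44c.GA

universe u v

variable {G : Type u} [Group G] [Fintype G] {ι : Type v} {H : Half G ι} [Fintype ι]
  {ℓ m N f : ℕ} [Fact ℓ.Prime] {ε : MonoidAlgebra ℤ G} {e : MonoidAlgebra (ZMod ℓ) G}

theorem baseB_nz_neg {M : ℕ} (a : ZMod M) : nz (-a) = nz a := by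
  rcases Nat.eq_zero_or_pos M with h | h
  · subst h
    unfold nz
    simp
  · have : NeZero M := ⟨h.ne'⟩
    exact nz_neg a

/-- The sums of the energies over the translates of `S`. -/
theorem baseB_exists {M : ℕ} {z : MonoidAlgebra (ZMod M) G} (hz : z * H.cc _ = -z) (S : Finset G)
    {κ : ℝ} (h : en H z ≤ κ * Fintype.card ι) :
    ∃ h : G, ∑ s ∈ S, nz (2 * z.coeff (h * s)) ^ 2 ≤ κ * S.card := by
  by_contra hcon
  push Not at hcon
  have h1 : ∑ _h : G, κ * (S.card : ℝ) < ∑ h : G, ∑ s ∈ S, nz (2 * z.coeff (h * s)) ^ 2 :=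
    sum_lt_sum_of_nonempty univ_nonempty fun h _ => hcon h
  have h2 : ∑ h : G, ∑ s ∈ S, nz (2 * z.coeff (h * s)) ^ 2 = S.card * (2 * en H z) := by
    rw [sum_comm]
    have h3 : ∀ s ∈ S, ∑ h : G, nz (2 * z.coeff (h * s)) ^ 2 = 2 * en H z := by
      intro s _
      have h6 : ∑ h : G, nz (2 * z.coeff (h * s)) ^ 2 = ∑ g : G, nz (2 * z.coeff g) ^ 2 :=
        Equiv.sum_comp (Equiv.mulRight s) fun g => nz (2 * z.coeff g) ^ 2
      rw [h6]
      have h4 := sum_odd H hz (fun a => nz (2 * a) ^ 2) (fun a => by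
        show nz (2 * -a) ^ 2 = nz (2 * a) ^ 2
        rw [mul_neg, baseB_nz_neg])
      exact h4
    rw [sum_congr rfl h3, sum_const, nsmul_eq_mul]
  rw [h2, sum_const, nsmul_eq_mul, card_univ, H.card_eq] at h1
  push_cast at h1
  have h5 : (S.card : ℝ) * (2 * en H z) ≤ S.card * (2 * (κ * Fintype.card ι)) := by
    refine mul_le_mul_of_nonneg_left ?_ (Nat.cast_nonneg _)
    linarith
  linarith

/-- PROOF. Let `S` be as in `exists_sep`.  For `x` in the set and `z = x * y`,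
`∑ h, ∑ s ∈ S, nz (2 z.coeff (h * s)) ^ 2 = S.card * ∑ g, nz (2 z.coeff g) ^ 2 = 2 * S.card * en z` (`sum_odd`,
`odd_of_lY`, `nz_neg`) `≤ 2 * S.card * κ * n = S.card * κ * card G`, so there is `h` with
`∑ s ∈ S, nz (2 z.coeff (h * s)) ^ 2 ≤ κ * S.card`.  For given `h` the map
`x ↦ (2 (x y).coeff (h * s))_{s ∈ S} = (2 ((single h⁻¹ 1 * x) * y).coeff s)_s` is injective on `rX`, so there
are at most `#box ≤ (8 exp 1 (1 + ℓ ^ i √κ)) ^ S.card` such `x` (`box` with the type of the elements of `S`;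
the basis is at least `1`, so the exponent may be increased to `f N`).  Sum over the `2 n` elements `h`. -/
theorem baseB_fix (B : Blk H ℓ m N f ε e) {i : ℕ} (hi : 1 ≤ i) (him : i ≤ m)
    {y : MonoidAlgebra (ZMod (ℓ ^ i)) G} (hy : toP (ℓ ^ i) ε * y = y) (hp : Prm y)
    {κ : ℝ} (hκ : 0 < κ) :
    ({x : MonoidAlgebra (ZMod (ℓ ^ i)) G | x * toP (ℓ ^ i) ε = x ∧
      en H (x * y) ≤ κ * Fintype.card ι}.ncard : ℝ) ≤
      2 * Fintype.card ι * (8 * Real.exp 1 * (1 + (ℓ : ℝ) ^ i * Real.sqrt κ)) ^ (f * N) := by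
  classical
  have hM : NeZero (ℓ ^ i) := ⟨pow_ne_zero _ (Fact.out : ℓ.Prime).ne_zero⟩
  obtain ⟨S, hS, hinj⟩ := exists_sep B hi him hy hp
  set bd : ℝ := 8 * Real.exp 1 * (1 + (ℓ : ℝ) ^ i * Real.sqrt κ) with hbd
  have hbd1 : 1 ≤ bd := by
    have e1 : 1 ≤ Real.exp 1 := Real.one_le_exp (by norm_num)
    have e2 : 0 ≤ (ℓ : ℝ) ^ i * Real.sqrt κ := by positivity
    have e3 : 1 * 1 ≤ 8 * Real.exp 1 * (1 + (ℓ : ℝ) ^ i * Real.sqrt κ) :=
      mul_le_mul (by linarith) (by linarith) (by norm_num) (by linarith)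
    rw [hbd]; linarith
  let X : G → Set (MonoidAlgebra (ZMod (ℓ ^ i)) G) := fun h =>
    {x | x * toP (ℓ ^ i) ε = x ∧ ∑ s ∈ S, nz (2 * (x * y).coeff (h * s)) ^ 2 ≤ κ * S.card}
  have hyodd : y * H.cc _ = -y := odd_of_lY (B.odd_i him) hy
  have hsub : {x : MonoidAlgebra (ZMod (ℓ ^ i)) G | x * toP (ℓ ^ i) ε = x ∧
      en H (x * y) ≤ κ * Fintype.card ι} ⊆ ⋃ h ∈ (univ : Finset G), X h := by
    rintro x ⟨hx1, hx2⟩
    obtain ⟨h, hh⟩ := baseB_exists (H := H) (z := x * y) (by rw [mul_assoc, hyodd, mul_neg]) S hx2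
    simp only [Set.mem_iUnion, mem_univ, exists_prop, true_and]
    exact ⟨h, hx1, hh⟩
  have hX : ∀ h : G, ((X h).ncard : ℝ) ≤ bd ^ (f * N) := by
    intro h
    let Φ : MonoidAlgebra (ZMod (ℓ ^ i)) G → (S → ZMod (ℓ ^ i)) := fun x s =>
      2 * (x * y).coeff (h * (s : G))
    have h1 : Φ '' (X h) ⊆ {a : S → ZMod (ℓ ^ i) | ∑ s, nz (a s) ^ 2 ≤ κ * Fintype.card S} := by
      rintro _ ⟨x, ⟨_, hx2⟩, rfl⟩
      show ∑ s : S, nz (2 * (x * y).coeff (h * (s : G))) ^ 2 ≤ κ * Fintype.card S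
      rw [sum_coe_sort S fun s => nz (2 * (x * y).coeff (h * s)) ^ 2, Fintype.card_coe]
      exact hx2
    have h2 : Set.InjOn Φ (X h) := by
      intro x hx x' hx' hxx
      have key : ∀ x : MonoidAlgebra (ZMod (ℓ ^ i)) G, ∀ s : G,
          (MonoidAlgebra.single h⁻¹ 1 * x * y).coeff s = (x * y).coeff (h * s) := by
        intro x s
        rw [mul_assoc, coeff_mul_single, inv_inv]
      have h3 : MonoidAlgebra.single h⁻¹ 1 * x = MonoidAlgebra.single h⁻¹ 1 * x' := by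
        refine hinj _ _ (by rw [mul_assoc, hx.1]) (by rw [mul_assoc, hx'.1]) fun s hs => ?_
        rw [key, key]
        exact congrFun hxx ⟨s, hs⟩
      have h4 := congrArg (fun w => MonoidAlgebra.single h (1 : ZMod (ℓ ^ i)) * w) h3
      simp only [← mul_assoc, MonoidAlgebra.single_mul_single, mul_inv_cancel, mul_one] at h4
      have h5 : (MonoidAlgebra.single (1 : G) (1 : ZMod (ℓ ^ i))) = 1 := rfl
      rw [h5, one_mul, one_mul] at h4
      exact h4
    have h3 : (X h).ncard ≤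
        {a : S → ZMod (ℓ ^ i) | ∑ s, nz (a s) ^ 2 ≤ κ * Fintype.card S}.ncard := by
      rw [← h2.ncard_image]
      exact Set.ncard_le_ncard h1 (Set.toFinite _)
    have h4 := box (S := S) (M := ℓ ^ i) hκ
    have h5 : ((X h).ncard : ℝ) ≤
        ({a : S → ZMod (ℓ ^ i) | ∑ s, nz (a s) ^ 2 ≤ κ * Fintype.card S}.ncard : ℝ) := by
      exact_mod_cast h3
    have h6 := h5.trans h4
    rw [Fintype.card_coe] at h6
    push_cast at h6
    exact h6.trans (pow_le_pow_right₀ hbd1 hS)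
  have hfin : ∀ A : Set (MonoidAlgebra (ZMod (ℓ ^ i)) G), A.Finite := fun A => Set.toFinite A
  calc _ ≤ ((⋃ h ∈ (univ : Finset G), X h).ncard : ℝ) := by
        exact_mod_cast Set.ncard_le_ncard hsub (hfin _)
    _ ≤ ∑ h : G, ((X h).ncard : ℝ) := by
        exact_mod_cast Finset.set_ncard_biUnion_le univ X
    _ ≤ ∑ _h : G, bd ^ (f * N) := sum_le_sum fun h _ => hX h
    _ = 2 * Fintype.card ι * bd ^ (f * N) := by
        rw [sum_const, nsmul_eq_mul, card_univ, H.card_eq]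
        push_cast
        ring

/-- PROOF. Sum `baseB_fix` over the primitive `y` (at most `card lY = (ℓ ^ (f * N)) ^ i`, `card_lvl`). -/
theorem baseB (B : Blk H ℓ m N f ε e) {i : ℕ} (hi : 1 ≤ i) (him : i ≤ m) {κ : ℝ} (hκ : 0 < κ) :
    (NN H ε (ℓ ^ i) (κ * Fintype.card ι) : ℝ) ≤ ((ℓ : ℝ) ^ (f * N)) ^ i *
      (2 * Fintype.card ι * (8 * Real.exp 1 * (1 + (ℓ : ℝ) ^ i * Real.sqrt κ)) ^ (f * N)) := by
  classical
  have hM : NeZero (ℓ ^ i) := ⟨pow_ne_zero _ (Fact.out : ℓ.Prime).ne_zero⟩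
  set bd : ℝ := 2 * Fintype.card ι * (8 * Real.exp 1 * (1 + (ℓ : ℝ) ^ i * Real.sqrt κ)) ^ (f * N)
    with hbd
  have hbd0 : 0 ≤ bd := by rw [hbd]; positivity
  have hcard : (lY (toP (ℓ ^ i) ε)).card = (ℓ ^ (f * N)) ^ i := by
    have h1 := card_lvl (α := ε) (β := 1) B.idem (by rw [map_one, mul_one]) hi him
    rw [map_one, map_one] at h1
    have h2 : (Im (toP ℓ ε) 1).card = ℓ ^ (f * N) := B.cY
    rw [h2] at h1
    exact h1
  unfold NN
  set T := (PP ε (ℓ ^ i)).filter fun p => en H (p.2 * p.1) ≤ κ * Fintype.card ι with hT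
  have hmap : ∀ p ∈ T, p.1 ∈ lY (toP (ℓ ^ i) ε) := by
    intro p hp
    rw [hT, mem_filter, mem_PP] at hp
    exact mem_lY.2 hp.1.1
  rw [card_eq_sum_card_fiberwise hmap]
  push_cast
  have hfib : ∀ y ∈ lY (toP (ℓ ^ i) ε), ((T.filter fun p => p.1 = y).card : ℝ) ≤ bd := by
    intro y hy
    by_cases hp : Prm y
    · refine le_trans ?_ (baseB_fix B hi him (mem_lY.1 hy) hp hκ)
      have h1 : (T.filter fun p => p.1 = y).card ≤
          {x : MonoidAlgebra (ZMod (ℓ ^ i)) G | x * toP (ℓ ^ i) ε = x ∧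
            en H (x * y) ≤ κ * Fintype.card ι}.ncard := by
        rw [← Set.ncard_coe_finset]
        refine Set.ncard_le_ncard_of_injOn (fun p => p.2) ?_ ?_ (Set.toFinite _)
        · intro p hp
          rw [mem_coe, mem_filter, hT, mem_filter, mem_PP] at hp
          obtain ⟨⟨⟨_, h2, _⟩, h3⟩, h4⟩ := hp
          rw [h4] at h3
          exact ⟨h2, h3⟩
        · intro p hp p' hp' hpp
          rw [mem_coe, mem_filter] at hp hp'
          exact Prod.ext (hp.2.trans hp'.2.symm) hpp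
      exact_mod_cast h1
    · have h1 : (T.filter fun p => p.1 = y) = ∅ := by
        rw [filter_eq_empty_iff]
        intro p hpT hpy
        rw [hT, mem_filter, mem_PP] at hpT
        exact hp (hpy ▸ hpT.1.2.2.1)
      rw [h1]
      simpa using hbd0
  calc ∑ y ∈ lY (toP (ℓ ^ i) ε), ((T.filter fun p => p.1 = y).card : ℝ)
      ≤ ∑ _y ∈ lY (toP (ℓ ^ i) ε), bd := sum_le_sum hfib
    _ = ((ℓ : ℝ) ^ (f * N)) ^ i * bd := by
        rw [sum_const, nsmul_eq_mul, hcard]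
        push_cast
        ring

end Pool.MP43e44c.MD
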