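import Pool.Agent.H.MP_43e44c_ag.MD.LiftA

/-!
Iteration of the lifting.
-/

set_option autoImplicit false

open Finset Module

namespace Pool.MP43e44c.MD

open Pool.MP43e44c.OD Pool.MP43e44c.GA

universe u v

variable {G : Type u} [Group G] [Fintype G] {ι : Type v} {H : Half G ι} [Fintype ι]
  {ℓ m N f : ℕ} [Fact ℓ.Prime] {ε : MonoidAlgebra ℤ G} {e : MonoidAlgebra (ZMod ℓ) G}

theorem NN_mono {M : ℕ} [NeZero M] {E E' : ℝ} (h : E ≤ E') : NN H ε M E ≤ NN H ε M E' := by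
  classical
  unfold NN
  refine Finset.card_le_card fun p hp => ?_
  rw [mem_filter] at hp ⊢
  exact ⟨hp.1, hp.2.trans h⟩

theorem Iter_base_zero (B : Blk H ℓ m N f ε e) {M : ℕ} [NeZero M] (hM : M = ℓ) {E : ℝ}
    (hE : (f * N : ℝ) * (ℓ : ℝ) ^ 2 * E < Fintype.card ι) : NN H ε M E = 0 := by
  classical
  subst hM
  by_contra hne
  unfold NN at hne
  obtain ⟨⟨y, x⟩, hp⟩ := Finset.card_pos.1 (Nat.pos_of_ne_zero hne)
  rw [mem_filter, mem_PP] at hp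
  obtain ⟨⟨hy, hx, py, px⟩, hen⟩ := hp
  simp only at hy hx py px hen
  have hy0 : y ≠ 0 := (prm_iff y).1 py
  have hx0 : x ≠ 0 := (prm_iff x).1 px
  have hz0 : x * y ≠ 0 := B.xy x (mem_rX.2 hx) y (mem_lY.2 hy) hx0 hy0
  have hyodd : y * H.cc _ = -y := odd_of_lY B.odd_one hy
  have hzodd : (x * y) * H.cc _ = -(x * y) := by rw [mul_assoc, hyodd, mul_neg]
  have hzV : x * y ∈ VV (toP M ε) y 0 := ⟨x, 0, hx, by rw [zero_mul], by rw [zero_mul, add_zero]⟩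
  have hV : ∀ g : G, ∀ w ∈ VV (toP M ε) y 0, MonoidAlgebra.single g 1 * w ∈ VV (toP M ε) y 0 := by
    rintro g w ⟨x1, x2, h1, h2, h3⟩
    refine ⟨MonoidAlgebra.single g 1 * x1, MonoidAlgebra.single g 1 * x2, ?_, ?_, ?_⟩
    · rw [mul_assoc, h1]
    · rw [mul_assoc, h2]
    · rw [h3, mul_add, mul_assoc, mul_assoc]
  have h1 := supp H (VV (toP M ε) y 0) hV hzV hzodd hz0
  have h2 := finrank_VV_zero B y
  have h3 : Fintype.card ι ≤ f * N * {k : ι | (x * y).coeff (H.t k)⁻¹ ≠ 0}.ncard :=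
    h1.trans (Nat.mul_le_mul_right _ h2)
  have hℓ : (0 : ℝ) < M := by
    have := (Fact.out : M.Prime).pos
    exact_mod_cast this
  have hset : {k : ι | (x * y).coeff (H.t k)⁻¹ ≠ 0}.ncard =
      (univ.filter fun k : ι => (x * y).coeff (H.t k)⁻¹ ≠ 0).card := by
    rw [← Set.ncard_coe_finset]
    congr 1
    ext k
    simp
  have h4 : ((univ.filter fun k : ι => (x * y).coeff (H.t k)⁻¹ ≠ 0).card : ℝ) * (1 / (M : ℝ)) ^ 2 ≤
      en H (x * y) := by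
    unfold en
    rw [← nsmul_eq_mul, ← Finset.sum_const]
    refine (Finset.sum_le_sum (f := fun _ => (1 / (M : ℝ)) ^ 2)
      (g := fun k => nz (2 * (x * y).coeff (H.t k)⁻¹) ^ 2) ?_).trans ?_
    · intro k hk
      have hk' := (mem_filter.1 hk).2
      have h5 : (2 : ZMod M) * (x * y).coeff (H.t k)⁻¹ ≠ 0 := by
        refine mul_ne_zero ?_ hk'
        intro h6
        have h7 : ((2 : ℕ) : ZMod M) = 0 := by exact_mod_cast h6
        rw [ZMod.natCast_eq_zero_iff] at h7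
        have h8 := (Nat.prime_dvd_prime_iff_eq (Fact.out : M.Prime) Nat.prime_two).1 h7
        exact B.ne2 h8
      exact pow_le_pow_left₀ (by positivity) (nz_ge h5) 2
    · exact Finset.sum_le_sum_of_subset_of_nonneg (Finset.filter_subset _ _)
        fun k _ _ => sq_nonneg _
  rw [hset] at h3
  have h5 : (Fintype.card ι : ℝ) ≤ (f * N : ℝ) *
      ((univ.filter fun k : ι => (x * y).coeff (H.t k)⁻¹ ≠ 0).card : ℝ) := by
    exact_mod_cast h3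
  have h6 : ((univ.filter fun k : ι => (x * y).coeff (H.t k)⁻¹ ≠ 0).card : ℝ) ≤
      (M : ℝ) ^ 2 * E := by
    have h7 := h4.trans hen
    rw [one_div, inv_pow, ← div_eq_mul_inv, div_le_iff₀ (by positivity)] at h7
    linarith
  have h7 : (f * N : ℝ) * ((univ.filter fun k : ι => (x * y).coeff (H.t k)⁻¹ ≠ 0).card : ℝ) ≤
      (f * N : ℝ) * ((M : ℝ) ^ 2 * E) := mul_le_mul_of_nonneg_left h6 (by positivity)
  linarith

/-- PROOF. For a pair `(y, x)` of primitive (nonzero) elements at level `1` (`pow_one`), `z = x * y ≠ 0`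
(`B.xy`) lies in `VV (toP ℓ ε) y 0`, which has dimension at most `f N`, and is odd, so
`n ≤ f N #{k | z_k ≠ 0}` (`supp`) and `en z ≥ #{k | z_k ≠ 0} / ℓ ^ 2` (`nz_ge` for `2 z_k ≠ 0`). -/
theorem base_zero (B : Blk H ℓ m N f ε e) {E : ℝ}
    (hE : (f * N : ℝ) * (ℓ : ℝ) ^ 2 * E < Fintype.card ι) : NN H ε (ℓ ^ 1) E = 0 := by
  exact Iter_base_zero B (pow_one ℓ) hE

/-- PROOF. Induction on `t` with `lift_step`. -/
theorem iter (B : Blk H ℓ m N f ε e) {i t : ℕ} (hti : t < i) (him : i ≤ m) {E : ℝ} (hE0 : 0 ≤ E)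
    (hE : 8 * (f * N : ℝ) * (ℓ : ℝ) ^ (2 * t) * E < Fintype.card ι) :
    NN H ε (ℓ ^ i) E ≤ (ℓ ^ f) ^ t * NN H ε (ℓ ^ (i - t)) ((ℓ : ℝ) ^ (2 * t) * E) := by
  induction t with
  | zero => simp
  | succ t ih =>
    have hℓ1 : (1 : ℝ) ≤ (ℓ : ℝ) ^ 2 := by
      have : 1 ≤ ℓ := (Fact.out : ℓ.Prime).one_lt.le
      exact one_le_pow₀ (by exact_mod_cast this)
    have hfN : (0 : ℝ) ≤ (f * N : ℝ) := by positivity
    have hpow : (ℓ : ℝ) ^ (2 * (t + 1)) = (ℓ : ℝ) ^ 2 * (ℓ : ℝ) ^ (2 * t) := by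
      rw [← pow_add]; congr 1; ring
    have h0 : (0 : ℝ) ≤ 8 * (f * N : ℝ) * (ℓ : ℝ) ^ (2 * t) * E := by positivity
    have hE1 : 8 * (f * N : ℝ) * (ℓ : ℝ) ^ (2 * t) * E < Fintype.card ι := by
      refine lt_of_le_of_lt ?_ hE
      rw [hpow]
      calc 8 * (f * N : ℝ) * (ℓ : ℝ) ^ (2 * t) * E
          = 1 * (8 * (f * N : ℝ) * (ℓ : ℝ) ^ (2 * t) * E) := by ring
        _ ≤ (ℓ : ℝ) ^ 2 * (8 * (f * N : ℝ) * (ℓ : ℝ) ^ (2 * t) * E) :=
          mul_le_mul_of_nonneg_right hℓ1 h0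
        _ = _ := by ring
    have h1 := ih (by omega) hE1
    obtain ⟨j, hj⟩ : ∃ j, i - t = j + 1 := ⟨i - t - 1, by omega⟩
    have hj' : i - (t + 1) = j := by omega
    have hE2 : 8 * (f * N : ℝ) * (ℓ : ℝ) ^ 2 * ((ℓ : ℝ) ^ (2 * t) * E) < Fintype.card ι := by
      refine lt_of_eq_of_lt ?_ hE
      rw [hpow]
      ring
    have h2 := lift_step B (i := j) (by omega) (by omega) hE2
    rw [hj] at h1
    rw [hj']
    have h3 : (ℓ : ℝ) ^ (2 * (t + 1)) * E = (ℓ : ℝ) ^ 2 * ((ℓ : ℝ) ^ (2 * t) * E) := by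
      rw [hpow]; ring
    rw [h3]
    refine h1.trans ((Nat.mul_le_mul_left _ h2).trans (le_of_eq ?_))
    rw [pow_succ (ℓ ^ f) t, mul_assoc]

/-- PROOF. `iter` with `t = i - 1` (`8 ≤ ℓ ^ 2`) and `base_zero`. -/
theorem vanish (B : Blk H ℓ m N f ε e) {i : ℕ} (hi : 1 ≤ i) (him : i ≤ m) {E : ℝ} (hE0 : 0 ≤ E)
    (hE : (f * N : ℝ) * (ℓ : ℝ) ^ (2 * i) * E < Fintype.card ι) : NN H ε (ℓ ^ i) E = 0 := by
  have hℓ3 : 3 ≤ ℓ := by
    have h1 := (Fact.out : ℓ.Prime).two_le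
    have h2 := B.ne2
    omega
  have hℓ8 : (8 : ℝ) ≤ (ℓ : ℝ) ^ 2 := by
    have h1 : (3 : ℝ) ≤ ℓ := by exact_mod_cast hℓ3
    nlinarith
  have hpow : (ℓ : ℝ) ^ (2 * i) = (ℓ : ℝ) ^ 2 * (ℓ : ℝ) ^ (2 * (i - 1)) := by
    rw [← pow_add]; congr 1; omega
  have h0 : (0 : ℝ) ≤ (f * N : ℝ) * (ℓ : ℝ) ^ (2 * (i - 1)) * E := by positivity
  have hE1 : 8 * (f * N : ℝ) * (ℓ : ℝ) ^ (2 * (i - 1)) * E < Fintype.card ι := by
    refine lt_of_le_of_lt ?_ hE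
    rw [hpow]
    calc 8 * (f * N : ℝ) * (ℓ : ℝ) ^ (2 * (i - 1)) * E
        = 8 * ((f * N : ℝ) * (ℓ : ℝ) ^ (2 * (i - 1)) * E) := by ring
      _ ≤ (ℓ : ℝ) ^ 2 * ((f * N : ℝ) * (ℓ : ℝ) ^ (2 * (i - 1)) * E) :=
        mul_le_mul_of_nonneg_right hℓ8 h0
      _ = _ := by ring
  have h1 := iter B (i := i) (t := i - 1) (by omega) him hE0 hE1
  have h2 : i - (i - 1) = 1 := by omega
  rw [h2] at h1
  have hE2 : (f * N : ℝ) * (ℓ : ℝ) ^ 2 * ((ℓ : ℝ) ^ (2 * (i - 1)) * E) < Fintype.card ι := by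
    refine lt_of_eq_of_lt ?_ hE
    rw [hpow]
    ring
  have h3 := base_zero B hE2
  rw [h3, mul_zero] at h1
  exact Nat.le_zero.1 h1

end Pool.MP43e44c.MD
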