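import Pool.Agent.H.MP_43e44c_ag.MD.LvlC
import Pool.Agent.H.MP_43e44c_ag.MD.Card

/-!
The orbit of a vector annihilated by a bad sign vector.
-/

set_option autoImplicit false

open Finset Module

namespace Pool.MP43e44c.MD

open Pool.MP43e44c.OD Pool.MP43e44c.GA

universe u v

variable {G : Type u} [Group G] [Fintype G] {ι : Type v} {H : Half G ι} [Fintype ι]
  {ℓ m N f : ℕ} [Fact ℓ.Prime] {ε : MonoidAlgebra ℤ G} {e : MonoidAlgebra (ZMod ℓ) G}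

theorem Orb_one_of_pow {k : ℕ} (hk : k < m) {a b : MonoidAlgebra ℤ G}
    (h : toP (ℓ ^ m) ((ℓ : ℤ) ^ k • a) = toP (ℓ ^ m) ((ℓ : ℤ) ^ k • b)) :
    toP ℓ a = toP ℓ b := by
  obtain ⟨i, hi⟩ : ∃ i, m = i + k := ⟨m - k, by omega⟩
  subst hi
  exact toP_one_of_le (by omega) (toP_smul_iff.1 h)

/-- PROOF. Let `x` be as in `BZ`, `y₀ = toP (ℓ ^ m) (ε * x)`: `ε y₀ = y₀` (`B.idem`), `y₀ * el v = 0`
(`map_mul`, `toP_el'`).  Consider the primitive elements `r` of the corner `cR_m = cR (toP (ℓ ^ m) ε)`;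
there are `q ^ m - q ^ (m - 1)` of them, `q = ℓ ^ f` (`card_lvl`, `card_nonprm` with `α = β = ε`, `B.cR`).  The map
`r ↦ r * y₀` goes to the set: with `r = toP (ℓ ^ m) ρ`, `toP ℓ ρ ∈ cR (toP ℓ ε)`, `toP ℓ ρ ≠ 0`, so
`toP ℓ ρ * toP ℓ (ε * x) ≠ 0` by `B.ry` and `r * y₀` is primitive (`prm_toP`).  It is injective: if
`s = r - r' ≠ 0` and `s * y₀ = 0`, write `s = toP (ℓ ^ m) (ℓ ^ k • ρ)`, `k < m`, `toP ℓ ρ ≠ 0` (`exists_pow`).
From `ε s ε = s` one gets `toP ℓ (ε ρ ε) = toP ℓ ρ` (`toP_smul_iff` with `i = m - k`, `toP_one_of_le`) and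
from `s y₀ = 0` `toP ℓ (ρ * (ε * x)) = 0`, a contradiction to `B.ry`. -/
theorem orb (B : Blk H ℓ m N f ε e) {v : ι → Bool} (hv : v ∈ BZ H ℓ ε) :
    ((ℓ : ℝ) ^ f - 1) * ((ℓ : ℝ) ^ f) ^ (m - 1) ≤
      ({y : MonoidAlgebra (ZMod (ℓ ^ m)) G | toP (ℓ ^ m) ε * y = y ∧ Prm y ∧
        y * H.el (ZMod (ℓ ^ m)) v = 0}.ncard : ℝ) := by
  classical
  obtain ⟨x, hx0, hx1⟩ := hv
  set α : MonoidAlgebra (ZMod (ℓ ^ m)) G := toP (ℓ ^ m) ε with hα
  set y₀ : MonoidAlgebra (ZMod (ℓ ^ m)) G := toP (ℓ ^ m) (ε * x) with hy₀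
  have hαα : α * α = α := B.idem
  have hy1 : α * y₀ = y₀ := by
    rw [hy₀, map_mul, ← mul_assoc, ← hα, hαα]
  have hy2 : y₀ * H.el (ZMod (ℓ ^ m)) v = 0 := by
    rw [hy₀, ← toP_el' (H := H), ← map_mul, mul_assoc, hx0, mul_zero, map_zero]
  have hYmem : toP ℓ (ε * x) ∈ lY (toP ℓ ε) := by
    rw [mem_lY, map_mul, ← mul_assoc, B.idem_one]
  have hcorner : ∀ ρ : MonoidAlgebra ℤ G, toP ℓ (ε * ρ * ε) = toP ℓ ρ → toP ℓ ρ ≠ 0 →
      toP ℓ (ρ * (ε * x)) ≠ 0 := by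
    intro ρ h1 h2
    rw [map_mul]
    refine B.ry _ ?_ _ hYmem h2 hx1
    rw [mem_cR, ← map_mul, ← map_mul]
    exact h1
  set C : Finset (MonoidAlgebra (ZMod (ℓ ^ m)) G) := Im α α with hC
  have hCmem : ∀ r ∈ C, α * r * α = r := fun r hr => mem_Im.1 hr
  have hleft : ∀ r ∈ C, α * r = r := by
    intro r hr
    calc α * r = α * (α * r * α) := by rw [hCmem r hr]
      _ = α * α * r * α := by simp only [mul_assoc]
      _ = r := by rw [hαα, hCmem r hr]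
  have hcard1 : C.card = (ℓ ^ f) ^ m := by
    have h := card_lvl (α := ε) (β := ε) B.idem B.idem B.m_pos le_rfl
    have h2 : (Im (toP ℓ ε) (toP ℓ ε)).card = ℓ ^ f := B.cR
    rw [h2] at h
    exact h
  have hcard2 : (C.filter fun r => ¬ Prm r).card = (ℓ ^ f) ^ (m - 1) := by
    have h := card_nonprm (α := ε) (β := ε) B.idem B.idem B.m_pos
    have h2 : (Im (toP ℓ ε) (toP ℓ ε)).card = ℓ ^ f := B.cR
    rw [h2] at h
    exact h
  have hcard3 : (C.filter fun r => Prm r).card + (ℓ ^ f) ^ (m - 1) = (ℓ ^ f) ^ m := by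
    rw [← hcard2, ← hcard1]
    exact Finset.card_filter_add_card_filter_not _
  have hmaps : ∀ r ∈ (↑(C.filter fun r => Prm r) : Set (MonoidAlgebra (ZMod (ℓ ^ m)) G)),
      r * y₀ ∈ {y : MonoidAlgebra (ZMod (ℓ ^ m)) G | α * y = y ∧ Prm y ∧
        y * H.el (ZMod (ℓ ^ m)) v = 0} := by
    intro r hr
    rw [Finset.mem_coe, Finset.mem_filter] at hr
    obtain ⟨hr1, hr2⟩ := hr
    refine ⟨?_, ?_, ?_⟩
    · rw [← mul_assoc, hleft r hr1]
    · have h1 : toP (ℓ ^ m) (lft r) = r := toP_lft r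
      have h2 : toP ℓ (lft r) ≠ 0 := by
        rw [← prm_toP B.m_pos, h1]
        exact hr2
      have h3 : toP ℓ (ε * lft r * ε) = toP ℓ (lft r) := by
        refine toP_one_of_le B.m_pos ?_
        rw [map_mul, map_mul, h1]
        exact hCmem r hr1
      have h4 := hcorner (lft r) h3 h2
      rw [← prm_toP B.m_pos, map_mul, h1] at h4
      exact h4
    · rw [mul_assoc, hy2, mul_zero]
  have hinj : Set.InjOn (fun r => r * y₀)
      (↑(C.filter fun r => Prm r) : Set (MonoidAlgebra (ZMod (ℓ ^ m)) G)) := by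
    intro r hr r' hr' hrr
    rw [Finset.mem_coe, Finset.mem_filter] at hr hr'
    by_contra hne
    have hs : r - r' ≠ 0 := sub_ne_zero.2 hne
    obtain ⟨k, hk, ρ, hρ, hρ0⟩ := exists_pow (r - r') hs
    have h1 : α * (r - r') * α = r - r' := by
      rw [mul_sub, sub_mul, hCmem r hr.1, hCmem r' hr'.1]
    have h2 : toP ℓ (ε * ρ * ε) = toP ℓ ρ := by
      refine Orb_one_of_pow hk ?_
      rw [← hρ]
      have h3 : (ℓ : ℤ) ^ k • (ε * ρ * ε) = ε * ((ℓ : ℤ) ^ k • ρ) * ε := by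
        rw [mul_smul_comm, smul_mul_assoc]
      rw [h3, map_mul, map_mul, ← hρ]
      exact h1
    have h4 : toP ℓ (ρ * (ε * x)) = toP ℓ 0 := by
      refine Orb_one_of_pow hk ?_
      have h5 : (ℓ : ℤ) ^ k • (ρ * (ε * x)) = ((ℓ : ℤ) ^ k • ρ) * (ε * x) := by
        rw [smul_mul_assoc]
      rw [h5, map_mul, ← hρ, smul_zero, map_zero, ← hy₀, sub_mul]
      exact sub_eq_zero.2 hrr
    exact hcorner ρ h2 hρ0 (by rw [h4, map_zero])
  have hfin : {y : MonoidAlgebra (ZMod (ℓ ^ m)) G | α * y = y ∧ Prm y ∧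
      y * H.el (ZMod (ℓ ^ m)) v = 0}.Finite := Set.toFinite _
  have hle := Set.ncard_le_ncard_of_injOn (fun r => r * y₀) hmaps hinj hfin
  rw [Set.ncard_coe_finset] at hle
  have hq : ((ℓ : ℝ) ^ f - 1) * ((ℓ : ℝ) ^ f) ^ (m - 1) = ((C.filter fun r => Prm r).card : ℝ) := by
    have h6 : ((C.filter fun r => Prm r).card : ℝ) + ((ℓ : ℝ) ^ f) ^ (m - 1) = ((ℓ : ℝ) ^ f) ^ m := by
      exact_mod_cast hcard3
    have h7 : ((ℓ : ℝ) ^ f) ^ m = (ℓ : ℝ) ^ f * ((ℓ : ℝ) ^ f) ^ (m - 1) := by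
      rw [← pow_succ', Nat.sub_add_cancel B.m_pos]
    rw [h7] at h6
    linarith
  rw [hq]
  exact_mod_cast hle

end Pool.MP43e44c.MD
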