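import Pool.Agent.H.MP_43e44c_ag.MD.LvlA
import Pool.Agent.H.MP_43e44c_ag.MD.Orb

/-!
The sum over the levels.
-/

set_option autoImplicit false

open Finset Module

namespace Pool.MP43e44c.MD

open Pool.MP43e44c.OD Pool.MP43e44c.GA

universe u v

variable {G : Type u} [Group G] [Fintype G] {ι : Type v} {H : Half G ι} [Fintype ι]
  {ℓ m N f : ℕ} [Fact ℓ.Prime] {ε : MonoidAlgebra ℤ G} {e : MonoidAlgebra (ZMod ℓ) G}

theorem lvlSum_pos (ℓ f N : ℕ) [hl : Fact ℓ.Prime] : 0 < (ℓ : ℝ) ^ (f * N) := by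
  have h1 : 0 < (ℓ : ℝ) := by exact_mod_cast hl.out.pos
  positivity

/-- PROOF. Induction on `i` from `phi_one` and `phi_step`. -/
theorem phi_le (B : Blk H ℓ m N f ε e) {i : ℕ} (hi : 1 ≤ i) (him : i ≤ m) :
    Phi H ε (ℓ ^ i) ≤ ((ℓ : ℝ) ^ (f * N)) ^ i *
      (1 + ∑ k ∈ Icc 1 i, Ps H ε (ℓ ^ k) / ((ℓ : ℝ) ^ (f * N)) ^ k) := by
  have hQ := lvlSum_pos ℓ f N
  induction i, hi using Nat.le_induction with
  | base =>
    have h1 := phi_one B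
    rw [Icc_self, sum_singleton]
    have h2 : ((ℓ : ℝ) ^ (f * N)) ^ 1 * (1 + Ps H ε (ℓ ^ 1) / ((ℓ : ℝ) ^ (f * N)) ^ 1)
        = Ps H ε (ℓ ^ 1) + (ℓ : ℝ) ^ (f * N) := by
      field_simp
      ring
    rw [h2]
    exact h1
  | succ i hi ih =>
    have h1 := phi_step B hi him
    have h2 := ih (by omega)
    have h3 : (ℓ : ℝ) ^ (f * N) * Phi H ε (ℓ ^ i) ≤ (ℓ : ℝ) ^ (f * N) *
        (((ℓ : ℝ) ^ (f * N)) ^ i *
          (1 + ∑ k ∈ Icc 1 i, Ps H ε (ℓ ^ k) / ((ℓ : ℝ) ^ (f * N)) ^ k)) :=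
      mul_le_mul_of_nonneg_left h2 hQ.le
    rw [sum_Icc_succ_top (by omega)]
    have h4 : ((ℓ : ℝ) ^ (f * N)) ^ (i + 1) *
        (1 + (∑ k ∈ Icc 1 i, Ps H ε (ℓ ^ k) / ((ℓ : ℝ) ^ (f * N)) ^ k +
          Ps H ε (ℓ ^ (i + 1)) / ((ℓ : ℝ) ^ (f * N)) ^ (i + 1)))
        = Ps H ε (ℓ ^ (i + 1)) + (ℓ : ℝ) ^ (f * N) * (((ℓ : ℝ) ^ (f * N)) ^ i *
          (1 + ∑ k ∈ Icc 1 i, Ps H ε (ℓ ^ k) / ((ℓ : ℝ) ^ (f * N)) ^ k)) := by
      have h5 : ((ℓ : ℝ) ^ (f * N)) ^ (i + 1) *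
          (Ps H ε (ℓ ^ (i + 1)) / ((ℓ : ℝ) ^ (f * N)) ^ (i + 1)) = Ps H ε (ℓ ^ (i + 1)) := by
        have : ((ℓ : ℝ) ^ (f * N)) ^ (i + 1) ≠ 0 := by positivity
        field_simp
      rw [mul_add, mul_add, h5, pow_succ]
      ring
    rw [h4]
    linarith

theorem lvlSum_card_rX (B : Blk H ℓ m N f ε e) {i : ℕ} (hi : 1 ≤ i) (him : i ≤ m) :
    (rX (toP (ℓ ^ i) ε)).card = (ℓ ^ (f * N)) ^ i := by
  have h1 := card_lvl (ℓ := ℓ) (m := m) (α := (1 : MonoidAlgebra ℤ G)) (β := ε)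
    (by rw [map_one, mul_one]) B.idem hi him
  rw [map_one, map_one] at h1
  unfold rX
  rw [h1]
  have h2 := B.cX
  unfold rX at h2
  rw [h2]

theorem lvlSum_card_lY (B : Blk H ℓ m N f ε e) {i : ℕ} (hi : 1 ≤ i) (him : i ≤ m) :
    (lY (toP (ℓ ^ i) ε)).card = (ℓ ^ (f * N)) ^ i := by
  have h1 := card_lvl (ℓ := ℓ) (m := m) (α := ε) (β := (1 : MonoidAlgebra ℤ G))
    B.idem (by rw [map_one, mul_one]) hi him
  rw [map_one, map_one] at h1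
  unfold lY
  rw [h1]
  have h2 := B.cY
  unfold lY at h2
  rw [h2]

/-- PROOF. Sum `orb` over `v ∈ BZ` and interchange: `∑_{v ∈ BZ} #{y …} ≤ ∑_{y primitive} #{v | y * el v = 0}`;
multiply by `card (rX) = (ℓ ^ (f * N)) ^ m` (`card_lvl`, `B.cX`) and use `four_le`; then `phi_le`. -/
theorem bz_le_ps (B : Blk H ℓ m N f ε e) :
    ((BZ H ℓ ε).ncard : ℝ) * (((ℓ : ℝ) ^ f - 1) * ((ℓ : ℝ) ^ f) ^ (m - 1)) ≤
      2 ^ Fintype.card ι * (1 + ∑ k ∈ Icc 1 m, Ps H ε (ℓ ^ k) / ((ℓ : ℝ) ^ (f * N)) ^ k) := by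
  classical
  have hQ := lvlSum_pos ℓ f N
  set c1 : ℝ := ((ℓ : ℝ) ^ f - 1) * ((ℓ : ℝ) ^ f) ^ (m - 1) with hc1
  set Y := (lY (toP (ℓ ^ m) ε)).filter Prm with hY
  have hfin : (BZ H ℓ ε).Finite := Set.toFinite _
  set Z := hfin.toFinset with hZ
  have hZc : (BZ H ℓ ε).ncard = Z.card := Set.ncard_eq_toFinset_card _ hfin
  -- the set of the pairs
  have h1 : ∀ v ∈ Z, c1 ≤ ∑ y ∈ Y, if y * H.el (ZMod (ℓ ^ m)) v = 0 then (1 : ℝ) else 0 := by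
    intro v hv
    have hv' : v ∈ BZ H ℓ ε := hfin.mem_toFinset.1 hv
    have h2 := orb B hv'
    have h3 : {y : MonoidAlgebra (ZMod (ℓ ^ m)) G | toP (ℓ ^ m) ε * y = y ∧ Prm y ∧
        y * H.el (ZMod (ℓ ^ m)) v = 0}
        = ((Y.filter fun y => y * H.el (ZMod (ℓ ^ m)) v = 0 :
          Finset (MonoidAlgebra (ZMod (ℓ ^ m)) G)) : Set (MonoidAlgebra (ZMod (ℓ ^ m)) G)) := by
      ext y
      rw [Set.mem_ofPred_eq, Finset.mem_coe, mem_filter, hY, mem_filter, mem_lY]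
      tauto
    rw [h3, Set.ncard_coe_finset] at h2
    rw [sum_ite, sum_const_zero, add_zero, sum_const, nsmul_eq_mul, mul_one]
    exact h2
  have h2 : (Z.card : ℝ) * c1 ≤ ∑ y ∈ Y,
      ({v : ι → Bool | y * H.el (ZMod (ℓ ^ m)) v = 0}.ncard : ℝ) := by
    calc (Z.card : ℝ) * c1 = ∑ v ∈ Z, c1 := by rw [sum_const, nsmul_eq_mul]
      _ ≤ ∑ v ∈ Z, ∑ y ∈ Y, (if y * H.el (ZMod (ℓ ^ m)) v = 0 then (1 : ℝ) else 0) :=
          sum_le_sum h1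
      _ ≤ ∑ v : ι → Bool, ∑ y ∈ Y,
          (if y * H.el (ZMod (ℓ ^ m)) v = 0 then (1 : ℝ) else 0) := by
          apply sum_le_sum_of_subset_of_nonneg (subset_univ _)
          intro v _ _
          apply sum_nonneg
          intro y _
          split_ifs
          · exact zero_le_one
          · exact le_refl _
      _ = ∑ y ∈ Y, ∑ v : ι → Bool,
          (if y * H.el (ZMod (ℓ ^ m)) v = 0 then (1 : ℝ) else 0) := sum_comm
      _ = ∑ y ∈ Y, ({v : ι → Bool | y * H.el (ZMod (ℓ ^ m)) v = 0}.ncard : ℝ) := by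
          apply sum_congr rfl
          intro y _
          have h3 : {v : ι → Bool | y * H.el (ZMod (ℓ ^ m)) v = 0}
              = ((univ.filter fun v : ι → Bool => y * H.el (ZMod (ℓ ^ m)) v = 0 :
                Finset (ι → Bool)) : Set (ι → Bool)) := by
            ext v
            simp
          rw [h3, Set.ncard_coe_finset, sum_ite, sum_const_zero, add_zero, sum_const,
            nsmul_eq_mul, mul_one]
  have h3 : ((rX (toP (ℓ ^ m) ε)).card : ℝ) = ((ℓ : ℝ) ^ (f * N)) ^ m := by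
    rw [lvlSum_card_rX B B.m_pos le_rfl]
    push_cast
    rfl
  have h4 : (∑ y ∈ Y, ({v : ι → Bool | y * H.el (ZMod (ℓ ^ m)) v = 0}.ncard : ℝ)) *
      ((ℓ : ℝ) ^ (f * N)) ^ m ≤ 2 ^ Fintype.card ι * Phi H ε (ℓ ^ m) := by
    rw [← h3, sum_mul]
    unfold Phi
    rw [mul_sum]
    apply sum_le_sum
    intro y hy
    rw [hY, mem_filter, mem_lY] at hy
    exact four_le H B.idem hy.1
  have h5 := phi_le B B.m_pos le_rfl
  have h6 : ((Z.card : ℝ) * c1) * ((ℓ : ℝ) ^ (f * N)) ^ m ≤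
      (2 ^ Fintype.card ι * (1 + ∑ k ∈ Icc 1 m, Ps H ε (ℓ ^ k) / ((ℓ : ℝ) ^ (f * N)) ^ k)) *
        ((ℓ : ℝ) ^ (f * N)) ^ m := by
    calc ((Z.card : ℝ) * c1) * ((ℓ : ℝ) ^ (f * N)) ^ m
        ≤ (∑ y ∈ Y, ({v : ι → Bool | y * H.el (ZMod (ℓ ^ m)) v = 0}.ncard : ℝ)) *
          ((ℓ : ℝ) ^ (f * N)) ^ m := mul_le_mul_of_nonneg_right h2 (by positivity)
      _ ≤ 2 ^ Fintype.card ι * Phi H ε (ℓ ^ m) := h4
      _ ≤ 2 ^ Fintype.card ι * (((ℓ : ℝ) ^ (f * N)) ^ m *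
          (1 + ∑ k ∈ Icc 1 m, Ps H ε (ℓ ^ k) / ((ℓ : ℝ) ^ (f * N)) ^ k)) :=
          mul_le_mul_of_nonneg_left h5 (by positivity)
      _ = _ := by ring
  rw [hZc]
  exact le_of_mul_le_mul_right h6 (by positivity)

/-- PROOF. `cw_le`: the pairs with `en ≤ E` contribute at most `1` each, the others at most
`exp (- 4 E)` each; `card PP ≤ card lY * card rX = ((ℓ ^ (f * N)) ^ i) ^ 2` (`card_lvl`). -/
theorem ps_le (B : Blk H ℓ m N f ε e) {i : ℕ} (hi : 1 ≤ i) (him : i ≤ m) (E : ℝ) :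
    Ps H ε (ℓ ^ i) ≤ NN H ε (ℓ ^ i) E + (((ℓ : ℝ) ^ (f * N)) ^ i) ^ 2 * Real.exp (-4 * E) := by
  classical
  have h1 : Ps H ε (ℓ ^ i) ≤ ∑ p ∈ PP ε (ℓ ^ i),
      ((if en H (p.2 * p.1) ≤ E then (1 : ℝ) else 0) + Real.exp (-4 * E)) := by
    unfold Ps
    apply sum_le_sum
    intro p _
    have h2 := cw_le H (p.2 * p.1)
    have h3 := en_nonneg H (p.2 * p.1)
    have h4 := Real.exp_pos (-4 * E)
    by_cases h : en H (p.2 * p.1) ≤ E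
    · rw [if_pos h]
      have h5 : Real.exp (-4 * en H (p.2 * p.1)) ≤ 1 := by
        rw [← Real.exp_zero]
        apply Real.exp_le_exp.2
        linarith
      linarith
    · rw [if_neg h]
      have h5 : Real.exp (-4 * en H (p.2 * p.1)) ≤ Real.exp (-4 * E) := by
        apply Real.exp_le_exp.2
        push Not at h
        linarith
      linarith
  rw [sum_add_distrib, sum_const, nsmul_eq_mul] at h1
  have h2 : ∑ p ∈ PP ε (ℓ ^ i), (if en H (p.2 * p.1) ≤ E then (1 : ℝ) else 0)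
      = NN H ε (ℓ ^ i) E := by
    unfold NN
    rw [sum_ite, sum_const_zero, add_zero, sum_const, nsmul_eq_mul, mul_one]
  rw [h2] at h1
  have h3 : ((PP ε (ℓ ^ i)).card : ℝ) ≤ (((ℓ : ℝ) ^ (f * N)) ^ i) ^ 2 := by
    have h4 : (PP ε (ℓ ^ i)).card ≤ (lY (toP (ℓ ^ i) ε)).card * (rX (toP (ℓ ^ i) ε)).card := by
      unfold PP
      refine (card_filter_le _ _).trans ?_
      rw [card_product]
    rw [lvlSum_card_lY B hi him, lvlSum_card_rX B hi him] at h4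
    have h5 : ((PP ε (ℓ ^ i)).card : ℝ) ≤ (((ℓ ^ (f * N)) ^ i * (ℓ ^ (f * N)) ^ i : ℕ) : ℝ) := by
      exact_mod_cast h4
    refine h5.trans (le_of_eq ?_)
    push_cast
    ring
  have h4 : ((PP ε (ℓ ^ i)).card : ℝ) * Real.exp (-4 * E) ≤
      (((ℓ : ℝ) ^ (f * N)) ^ i) ^ 2 * Real.exp (-4 * E) :=
    mul_le_mul_of_nonneg_right h3 (Real.exp_pos _).le
  linarith

/-- The bound for the number of bad vectors in terms of the numbers of pairs of small energy. -/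
theorem bz_le (B : Blk H ℓ m N f ε e) (E : ℝ) :
    ((BZ H ℓ ε).ncard : ℝ) * (((ℓ : ℝ) ^ f - 1) * ((ℓ : ℝ) ^ f) ^ (m - 1)) ≤
      2 ^ Fintype.card ι * (1 + ∑ k ∈ Icc 1 m, (NN H ε (ℓ ^ k) E / ((ℓ : ℝ) ^ (f * N)) ^ k
        + ((ℓ : ℝ) ^ (f * N)) ^ k * Real.exp (-4 * E))) := by
  have hQ := lvlSum_pos ℓ f N
  refine (bz_le_ps B).trans ?_
  apply mul_le_mul_of_nonneg_left _ (by positivity)
  have h1 : ∑ k ∈ Icc 1 m, Ps H ε (ℓ ^ k) / ((ℓ : ℝ) ^ (f * N)) ^ k ≤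
      ∑ k ∈ Icc 1 m, (NN H ε (ℓ ^ k) E / ((ℓ : ℝ) ^ (f * N)) ^ k
        + ((ℓ : ℝ) ^ (f * N)) ^ k * Real.exp (-4 * E)) := by
    apply sum_le_sum
    intro k hk
    rw [mem_Icc] at hk
    have h2 := ps_le B hk.1 hk.2 E
    have h3 : 0 < ((ℓ : ℝ) ^ (f * N)) ^ k := by positivity
    rw [div_le_iff₀ h3]
    refine h2.trans (le_of_eq ?_)
    field_simp
  linarith

end Pool.MP43e44c.MD
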