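import Mathlib

/-!
The properties of the numbers of pairs used in the numerical part.
-/

set_option autoImplicit false

open Finset

namespace Pool.MP43e44c.MD

/-- The properties of the numbers `NN i E` of the pairs of level `i` and energy `≤ E`. -/
structure NumH (ℓ m N f n : ℕ) (NN : ℕ → ℝ → ℝ) : Prop where
  nonneg : ∀ i E, 0 ≤ NN i E
  mono : ∀ i E E', E ≤ E' → NN i E ≤ NN i E'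
  iter : ∀ i t E, t < i → i ≤ m → 0 ≤ E → 8 * (f * N : ℝ) * (ℓ : ℝ) ^ (2 * t) * E < n →
    NN i E ≤ ((ℓ : ℝ) ^ f) ^ t * NN (i - t) ((ℓ : ℝ) ^ (2 * t) * E)
  vanish : ∀ i E, 1 ≤ i → i ≤ m → 0 ≤ E → (f * N : ℝ) * (ℓ : ℝ) ^ (2 * i) * E < n → NN i E = 0
  baseA : ∀ i k₀ r : ℕ, ∀ κ : ℝ, 1 ≤ i → i ≤ m → Even k₀ → 1 ≤ k₀ →
    (f : ℝ) ^ 2 * (N : ℝ) ^ 4 * Real.log ℓ ≤ k₀ → 0 ≤ κ → 10 * (ℓ : ℝ) ^ 2 * κ * k₀ ≤ 1 →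
    4 * r ≤ N → NN i (κ * n) ≤ 2 * ((ℓ : ℝ) ^ (f * N * i)) ^ 2 *
        (1 / (ℓ : ℝ) ^ (f * r * i) + 2 / (ℓ : ℝ) ^ (f * (N * N - 2 * N * r)))
  baseB : ∀ i : ℕ, ∀ κ : ℝ, 1 ≤ i → i ≤ m → 0 < κ → NN i (κ * n) ≤ ((ℓ : ℝ) ^ (f * N)) ^ i *
      (2 * n * (8 * Real.exp 1 * (1 + (ℓ : ℝ) ^ i * Real.sqrt κ)) ^ (f * N))

end Pool.MP43e44c.MD
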