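import Pool.Agent.H.MP_43e44c_ag.MD.BlkOf
import Pool.Agent.H.MP_43e44c_ag.MD.LvlSum
import Pool.Agent.H.MP_43e44c_ag.MD.BaseA
import Pool.Agent.H.MP_43e44c_ag.MD.BaseB
import Pool.Agent.H.MP_43e44c_ag.MD.Iter
import Pool.Agent.H.MP_43e44c_ag.MD.NumD

/-!
Assembly for one component.
-/

set_option autoImplicit false

open Finset Module

namespace Pool.MP43e44c.MD

open Pool.MP43e44c.OD Pool.MP43e44c.GA

universe u v

variable {G : Type u} [Group G] [Fintype G] {ι : Type v} {H : Half G ι} [Fintype ι]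
  {ℓ : ℕ} [Fact ℓ.Prime]

/-- PROOF. `NN_mono`, `iter`, `vanish`, `baseA`, `baseB` (with casts). -/
theorem numH {m N f : ℕ} {ε : MonoidAlgebra ℤ G} {e : MonoidAlgebra (ZMod ℓ) G}
    (B : Blk H ℓ m N f ε e) :
    NumH ℓ m N f (Fintype.card ι) fun i E => (NN H ε (ℓ ^ i) E : ℝ) := by
  constructor
  · intro i E
    exact Nat.cast_nonneg _
  · intro i E E' h
    exact_mod_cast NN_mono h
  · intro i t E hti him hE0 hE
    exact_mod_cast iter B hti him hE0 hE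
  · intro i E hi him hE0 hE
    exact_mod_cast vanish B hi him hE0 hE
  · intro i k₀ r κ hi him hev hk1 hk hκ h hr
    exact baseA B hi him hev hk1 hk hκ h hr
  · intro i κ hi him hκ
    exact baseB B hi him hκ

/-- PROOF. `exists_blk` (for `j`, which is odd by `odd_of_mem_J`), `badI_subset`, `bz_le` with
`E = 2 (f N) log n`, `numH`: `badI.ncard * ((q - 1) q ^ (m - 1)) ≤ 2 * 2 ^ n` with `q = ℓ ^ f ≥ 3`, and
`(q - 1) q ^ (m - 1) ≥ (2/3) q ^ m ≥ (2/3) ℓ ^ m`. -/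
theorem badI_le_num (h2 : ℓ ≠ 2) (hℓ : ¬ ℓ ∣ Fintype.card G) (W : WD ℚ G) (P : WD (ZMod ℓ) G)
    {i : Fin W.m} (hi : H.Odd W i) {j : Fin P.m} (hj : j ∈ J W P i) {m : ℕ} (hm : 1 ≤ m)
    (hs : ∀ NN : ℕ → ℝ → ℝ, NumH ℓ m (P.r j) (P.f j) (Fintype.card ι) NN →
      ∑ k ∈ Icc 1 m, (NN k (2 * (P.f j * P.r j : ℝ) * Real.log (Fintype.card ι)) /
        ((ℓ : ℝ) ^ (P.f j * P.r j)) ^ k + ((ℓ : ℝ) ^ (P.f j * P.r j)) ^ k *
        Real.exp (-4 * (2 * (P.f j * P.r j : ℝ) * Real.log (Fintype.card ι)))) ≤ 1) :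
    ((H.badI W i).ncard : ℝ) ≤ 3 / (ℓ : ℝ) ^ m * 2 ^ Fintype.card ι := by
  obtain ⟨ε, hε, B⟩ := exists_blk P h2 (H.odd_of_mem_J h2 W P hi hj) hm
  have hsub := badI_subset (H := H) hℓ W P hj hε
  have hcard : ((H.badI W i).ncard : ℝ) ≤ ((BZ H ℓ ε).ncard : ℝ) := by
    exact_mod_cast Set.ncard_le_ncard hsub (Set.toFinite _)
  have h1 := bz_le B (2 * (P.f j * P.r j : ℝ) * Real.log (Fintype.card ι))
  have h3 := hs _ (numH B)
  have h4 : (1 : ℝ) + ∑ k ∈ Icc 1 m,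
      ((NN H ε (ℓ ^ k) (2 * (P.f j * P.r j : ℝ) * Real.log (Fintype.card ι)) : ℝ) /
        ((ℓ : ℝ) ^ (P.f j * P.r j)) ^ k + ((ℓ : ℝ) ^ (P.f j * P.r j)) ^ k *
        Real.exp (-4 * (2 * (P.f j * P.r j : ℝ) * Real.log (Fintype.card ι)))) ≤ 2 := by
    linarith
  have hl3 : (3 : ℝ) ≤ ℓ := by
    have hp : ℓ.Prime := Fact.out
    have : 3 ≤ ℓ := by
      have := hp.two_le
      omega
    exact_mod_cast this
  have hf1 : 1 ≤ P.f j := B.f_pos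
  set q : ℝ := (ℓ : ℝ) ^ P.f j with hq
  have hql : (ℓ : ℝ) ≤ q := by
    rw [hq]
    exact le_self_pow₀ (by linarith) (by omega)
  have hq0 : 0 < q := by linarith
  have hqm : q ^ m = q * q ^ (m - 1) := by
    rw [← pow_succ']
    congr 1
    omega
  have h5 : 2 / 3 * (ℓ : ℝ) ^ m ≤ (q - 1) * q ^ (m - 1) := by
    have h6 : (ℓ : ℝ) ^ m ≤ q ^ m := pow_le_pow_left₀ (by linarith) hql m
    have h7 : 0 < q ^ (m - 1) := pow_pos hq0 _
    rw [hqm] at h6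
    nlinarith
  have h8 : ((BZ H ℓ ε).ncard : ℝ) * ((q - 1) * q ^ (m - 1)) ≤ 2 ^ Fintype.card ι * 2 :=
    h1.trans (mul_le_mul_of_nonneg_left h4 (by positivity))
  have h9 : ((H.badI W i).ncard : ℝ) * (2 / 3 * (ℓ : ℝ) ^ m) ≤ 2 ^ Fintype.card ι * 2 :=
    (mul_le_mul hcard h5 (by positivity) (Nat.cast_nonneg _)).trans h8
  have hlm : (0 : ℝ) < (ℓ : ℝ) ^ m := pow_pos (by linarith) _
  rw [div_mul_eq_mul_div, le_div_iff₀ hlm]
  linarith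

end Pool.MP43e44c.MD
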