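import Pool.Agent.H.MP_43e44c_ag.MD.Def

/-!
Reductions modulo the powers of a prime `ℓ`.
-/

set_option autoImplicit false

open Finset Module

namespace Pool.MP43e44c.MD

open Pool.MP43e44c.OD Pool.MP43e44c.GA

universe u v

variable {G : Type u} [Group G] [Fintype G]

/-- PROOF. `toP_eq_iff` and `ℓ ^ i ∣ ℓ ^ m`. -/
theorem toP_of_le {ℓ i m : ℕ} (h : i ≤ m) {a b : MonoidAlgebra ℤ G}
    (hab : toP (ℓ ^ m) a = toP (ℓ ^ m) b) : toP (ℓ ^ i) a = toP (ℓ ^ i) b := by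
  rw [toP_eq_iff] at hab ⊢
  intro g
  exact (Int.natCast_dvd_natCast.2 (pow_dvd_pow ℓ h)).trans (hab g)

/-- PROOF. `toP_eq_iff` and `ℓ ∣ ℓ ^ m`. -/
theorem toP_one_of_le {ℓ m : ℕ} (h : 1 ≤ m) {a b : MonoidAlgebra ℤ G}
    (hab : toP (ℓ ^ m) a = toP (ℓ ^ m) b) : toP ℓ a = toP ℓ b := by
  rw [toP_eq_iff] at hab ⊢
  intro g
  exact (Int.natCast_dvd_natCast.2 (dvd_pow_self ℓ (by omega))).trans (hab g)

/-- The image in `ZMod (ℓ ^ i)` is a unit iff `ℓ` does not divide. -/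
theorem Lvl_isUnit_iff {ℓ : ℕ} [hF : Fact ℓ.Prime] {i : ℕ} (hi : 1 ≤ i) (c : ℤ) :
    IsUnit ((c : ℤ) : ZMod (ℓ ^ i)) ↔ ¬ (ℓ : ℤ) ∣ c := by
  rw [ZMod.coe_int_isUnit_iff_isCoprime]
  have hp : Prime (ℓ : ℤ) := Nat.prime_iff_prime_int.1 hF.out
  rw [Nat.cast_pow, IsCoprime.pow_left_iff (by omega)]
  exact Irreducible.coprime_iff_not_dvd hp.irreducible

/-- The coefficients of an element which is `0` modulo `ℓ`. -/
theorem Lvl_toP_eq_zero_iff {M : ℕ} {a : MonoidAlgebra ℤ G} :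
    toP M a = 0 ↔ ∀ g, (M : ℤ) ∣ a.coeff g := by
  constructor
  · intro h g
    have h1 := congrArg (fun z => z.coeff g) h
    simp only [toP_coeff] at h1
    have h3 : (0 : MonoidAlgebra (ZMod M) G).coeff g = 0 := rfl
    rw [h3, ZMod.intCast_zmod_eq_zero_iff_dvd] at h1
    exact h1
  · intro h
    apply ma_ext
    intro g
    have h3 : (0 : MonoidAlgebra (ZMod M) G).coeff g = 0 := rfl
    rw [toP_coeff, h3, ZMod.intCast_zmod_eq_zero_iff_dvd]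
    exact h g

/-- PROOF. The coefficient `(a.coeff g : ZMod (ℓ ^ i))` is a unit iff `a.coeff g` is prime to `ℓ ^ i`
(`ZMod.coe_int_isUnit_iff_isCoprime`) iff `ℓ` does not divide it iff its image in `ZMod ℓ` is not `0`. -/
theorem prm_toP {ℓ : ℕ} [Fact ℓ.Prime] {i : ℕ} (hi : 1 ≤ i) (a : MonoidAlgebra ℤ G) :
    Prm (toP (ℓ ^ i) a) ↔ toP ℓ a ≠ 0 := by
  rw [Ne, Lvl_toP_eq_zero_iff, not_forall]
  unfold Prm
  refine exists_congr fun g => ?_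
  rw [toP_coeff, Lvl_isUnit_iff hi]

/-- Level one. -/
theorem prm_iff {ℓ : ℕ} [Fact ℓ.Prime] (y : MonoidAlgebra (ZMod ℓ) G) : Prm y ↔ y ≠ 0 := by
  constructor
  · rintro ⟨g, hg⟩ h0
    rw [h0] at hg
    have h3 : (0 : MonoidAlgebra (ZMod ℓ) G).coeff g = 0 := rfl
    rw [h3] at hg
    exact not_isUnit_zero hg
  · intro h
    by_contra hn
    apply h
    apply ma_ext
    intro g
    have h3 : (0 : MonoidAlgebra (ZMod ℓ) G).coeff g = 0 := rfl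
    rw [h3]
    by_contra h4
    exact hn ⟨g, isUnit_iff_ne_zero.2 h4⟩

/-- Coefficients of a multiple. -/
theorem Lvl_smul_coeff (c : ℤ) (a : MonoidAlgebra ℤ G) (g : G) :
    (c • a).coeff g = c * a.coeff g := rfl

/-- PROOF. `toP_eq_iff`: `ℓ ^ (i + k) ∣ ℓ ^ k * d ↔ ℓ ^ i ∣ d`. -/
theorem toP_smul_iff {ℓ : ℕ} [Fact ℓ.Prime] {i k : ℕ} {a b : MonoidAlgebra ℤ G} :
    toP (ℓ ^ (i + k)) ((ℓ : ℤ) ^ k • a) = toP (ℓ ^ (i + k)) ((ℓ : ℤ) ^ k • b) ↔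
      toP (ℓ ^ i) a = toP (ℓ ^ i) b := by
  rw [toP_eq_iff, toP_eq_iff]
  refine forall_congr' fun g => ?_
  rw [Lvl_smul_coeff, Lvl_smul_coeff, ← mul_sub, Nat.cast_pow, Nat.cast_pow, pow_add,
    mul_comm ((ℓ : ℤ) ^ i)]
  have h0 : ((ℓ : ℤ) ^ k) ≠ 0 := by
    apply pow_ne_zero
    exact_mod_cast (Fact.out : ℓ.Prime).ne_zero
  exact mul_dvd_mul_iff_left h0

/-- The same at level one. -/
theorem toP_smul_iff_one {ℓ : ℕ} [Fact ℓ.Prime] {k : ℕ} {a b : MonoidAlgebra ℤ G} :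
    toP (ℓ ^ (k + 1)) ((ℓ : ℤ) ^ k • a) = toP (ℓ ^ (k + 1)) ((ℓ : ℤ) ^ k • b) ↔
      toP ℓ a = toP ℓ b := by
  rw [toP_eq_iff, toP_eq_iff]
  refine forall_congr' fun g => ?_
  rw [Lvl_smul_coeff, Lvl_smul_coeff, ← mul_sub, Nat.cast_pow, pow_succ]
  have h0 : ((ℓ : ℤ) ^ k) ≠ 0 := by
    apply pow_ne_zero
    exact_mod_cast (Fact.out : ℓ.Prime).ne_zero
  exact mul_dvd_mul_iff_left h0

/-- Divisibility of all the coefficients. -/
theorem Lvl_exists_of_dvd {c : ℤ} {a : MonoidAlgebra ℤ G} (h : ∀ g, c ∣ a.coeff g) :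
    ∃ d : MonoidAlgebra ℤ G, a = c • d := by
  choose q hq using h
  refine ⟨ofFun q, ?_⟩
  apply ma_ext
  intro g
  rw [Lvl_smul_coeff, ofFun_coeff, hq g]

/-- PROOF. Both sides have the lifts `a`, `b` with `ℓ ^ k ∣ a - b` coefficientwise; write
`a - b = ℓ ^ k • d` (choose the quotients, `ofFun`). -/
theorem exists_sub {ℓ k M : ℕ} {a b : MonoidAlgebra ℤ G}
    (h : toP (ℓ ^ k) a = toP (ℓ ^ k) b) :
    ∃ d : MonoidAlgebra ℤ G, toP M a = toP M b + toP M ((ℓ : ℤ) ^ k • d) := by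
  rw [toP_eq_iff] at h
  obtain ⟨d, hd⟩ := Lvl_exists_of_dvd (c := (ℓ : ℤ) ^ k) (a := a - b) (fun g => by
    have h1 := h g
    rw [Nat.cast_pow] at h1
    exact h1)
  refine ⟨d, ?_⟩
  rw [← hd, ← map_add]
  congr 1
  abel

/-- PROOF. Take a lift `a` of `x` and let `k` be maximal such that `ℓ ^ k` divides all coefficients of
`a` (some coefficient is not divisible by `ℓ ^ m`, as `x ≠ 0`, so `k < m`). -/
theorem exists_pow {ℓ : ℕ} [Fact ℓ.Prime] {m : ℕ} (x : MonoidAlgebra (ZMod (ℓ ^ m)) G)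
    (hx : x ≠ 0) : ∃ k < m, ∃ a : MonoidAlgebra ℤ G,
      x = toP (ℓ ^ m) ((ℓ : ℤ) ^ k • a) ∧ toP ℓ a ≠ 0 := by
  classical
  obtain ⟨b, hb⟩ := toP_surj (ℓ ^ m) x
  have hex : ∃ k, ¬ ∀ g, ((ℓ : ℤ) ^ (k + 1)) ∣ b.coeff g := by
    rcases Nat.eq_zero_or_pos m with hm | hm
    · exfalso
      subst hm
      apply hx
      rw [← hb, Lvl_toP_eq_zero_iff]
      intro g
      simp
    · refine ⟨m - 1, fun h => hx ?_⟩
      rw [← hb, Lvl_toP_eq_zero_iff]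
      intro g
      rw [Nat.cast_pow]
      have h1 := h g
      rwa [Nat.sub_add_cancel hm] at h1
  have hk := Nat.find_spec hex
  have hmin := fun j => Nat.find_min (H := hex) (m := j)
  set k := Nat.find hex with hkdef
  have hdvd : ∀ g, ((ℓ : ℤ) ^ k) ∣ b.coeff g := by
    rcases Nat.eq_zero_or_pos k with h0 | h0
    · intro g
      rw [h0]
      simp
    · have h1 := hmin (k - 1) (by omega)
      rw [not_not, Nat.sub_add_cancel h0] at h1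
      exact h1
  have hkm : k < m := by
    by_contra hcon
    rw [not_lt] at hcon
    apply hx
    rw [← hb, Lvl_toP_eq_zero_iff]
    intro g
    rw [Nat.cast_pow]
    exact (pow_dvd_pow (ℓ : ℤ) hcon).trans (hdvd g)
  obtain ⟨a, ha⟩ := Lvl_exists_of_dvd hdvd
  refine ⟨k, hkm, a, ?_, ?_⟩
  · rw [← ha, hb]
  · intro h0
    rw [Lvl_toP_eq_zero_iff] at h0
    apply hk
    intro g
    rw [ha, Lvl_smul_coeff, pow_succ]
    exact mul_dvd_mul_left _ (h0 g)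

/-- PROOF. `a = lft x` has all coefficients divisible by `ℓ` (`prm_toP`, `toP_lft`). -/
theorem exists_smul_of_not_prm {ℓ : ℕ} [Fact ℓ.Prime] {i : ℕ} (hi : 1 ≤ i)
    (x : MonoidAlgebra (ZMod (ℓ ^ i)) G) (hx : ¬ Prm x) :
    ∃ a : MonoidAlgebra ℤ G, x = toP (ℓ ^ i) ((ℓ : ℤ) • a) := by
  obtain ⟨b, hb⟩ := toP_surj (ℓ ^ i) x
  rw [← hb, prm_toP hi, not_not, Lvl_toP_eq_zero_iff] at hx
  obtain ⟨a, ha⟩ := Lvl_exists_of_dvd hx
  exact ⟨a, by rw [← ha, hb]⟩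

end Pool.MP43e44c.MD
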