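import Pool.Agent.H.MP_43e44c_ag.MD.LvlC
import Pool.Agent.H.MP_43e44c_ag.MD.Lvl
import Pool.Agent.H.MP_43e44c_ag.GA.Odd

/-!
Lifting of idempotents.
-/

set_option autoImplicit false

open Finset Module

namespace Pool.MP43e44c.MD

open Pool.MP43e44c.OD Pool.MP43e44c.GA

universe u v

variable {G : Type u} [Group G] [Fintype G] {ι : Type v} (H : Half G ι)
  {ℓ m : ℕ} [Fact ℓ.Prime]

theorem Blk1_pow_smul (b : MonoidAlgebra ℤ G) : toP (ℓ ^ m) ((ℓ : ℤ) ^ m • b) = 0 := by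
  apply ma_ext
  intro g
  rw [toP_coeff]
  have h1 : ((ℓ : ℤ) ^ m • b).coeff g = (ℓ : ℤ) ^ m * b.coeff g := rfl
  rw [h1]
  have h2 : ((ℓ : ZMod (ℓ ^ m))) ^ m = 0 := by
    have := ZMod.natCast_self (ℓ ^ m)
    push_cast at this
    exact this
  push_cast
  rw [h2, zero_mul]
  rfl

/-- An element which vanishes modulo `ℓ` is nilpotent. -/
theorem Blk1_nil (hm : 1 ≤ m) (x : MonoidAlgebra (ZMod (ℓ ^ m)) G) (hx : toP ℓ (lft x) = 0) :
    x ^ m = 0 := by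
  have h1 : ¬ Prm x := by
    intro h
    rw [← toP_lft x, prm_toP hm] at h
    exact h hx
  obtain ⟨a, ha⟩ := exists_smul_of_not_prm hm x h1
  rw [ha, ← map_pow, smul_pow]
  exact Blk1_pow_smul _

theorem Blk1_cast (hm : 1 ≤ m) (x : MonoidAlgebra (ZMod (ℓ ^ m)) G) :
    MonoidAlgebra.mapRingHom G (ZMod.castHom (dvd_pow_self ℓ (by omega : m ≠ 0)) (ZMod ℓ)) x =
      toP ℓ (lft x) := by
  apply ma_ext
  intro g
  rw [MonoidAlgebra.coeff_mapRingHom, toP_coeff]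
  have h1 : x.coeff g = (((lft x).coeff g : ℤ) : ZMod (ℓ ^ m)) := by
    rw [← toP_coeff, toP_lft]
  rw [h1, map_intCast]

/-- PROOF. Let `π` be the ring homomorphism `MonoidAlgebra.mapRingHom` of `ZMod.castHom (ℓ ∣ ℓ ^ m)`.  If
`π x = 0`, then `x = toP (ℓ ^ m) (ℓ • a)` and `x ^ m = toP (ℓ ^ m) (ℓ ^ m • a ^ m) = 0`.  `π` is surjective
(`toP_surj`, `π (toP (ℓ ^ m) a) = toP ℓ a`).  So there is an idempotent `η'` with `π η' = η`
(`exists_isIdempotentElem_eq_of_ker_isNilpotent`); let `ε = lft η'`. -/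
theorem exists_idem (hm : 1 ≤ m) {η : MonoidAlgebra (ZMod ℓ) G} (hη : η * η = η) :
    ∃ ε : MonoidAlgebra ℤ G, toP ℓ ε = η ∧
      toP (ℓ ^ m) ε * toP (ℓ ^ m) ε = toP (ℓ ^ m) ε := by
  have hm0 : m ≠ 0 := by omega
  set π : MonoidAlgebra (ZMod (ℓ ^ m)) G →+* MonoidAlgebra (ZMod ℓ) G :=
    MonoidAlgebra.mapRingHom G (ZMod.castHom (dvd_pow_self ℓ (by omega : m ≠ 0)) (ZMod ℓ)) with hπ
  have hπx : ∀ x, π x = toP ℓ (lft x) := fun x => Blk1_cast hm x
  have hker : ∀ x ∈ RingHom.ker π, IsNilpotent x := by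
    intro x hx
    rw [RingHom.mem_ker, hπx] at hx
    exact ⟨m, Blk1_nil hm x hx⟩
  have hrange : η ∈ π.range := by
    obtain ⟨a, ha⟩ := toP_surj ℓ η
    refine ⟨toP (ℓ ^ m) a, ?_⟩
    rw [hπx, ← ha]
    exact toP_one_of_le hm (toP_lft _)
  obtain ⟨η', h1, h2⟩ := exists_isIdempotentElem_eq_of_ker_isNilpotent π hker η hrange hη
  refine ⟨lft η', ?_, ?_⟩
  · rw [← hπx]
    exact h2
  · rw [toP_lft]
    exact h1

theorem Blk1_toP_cc (M : ℕ) : toP M (H.cc ℤ) = H.cc (ZMod M) := by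
  classical
  apply ma_ext
  intro g
  rw [toP_coeff]
  unfold Half.cc
  rw [MonoidAlgebra.coeff_single, MonoidAlgebra.coeff_single]
  by_cases hg : H.c = g <;> simp [hg]

/-- PROOF. `w = η' * (1 + cc)` with `η' = toP (ℓ ^ m) ε` satisfies `w * w = 2 • w` (`cc` is central,
`cc * cc = 1`) and its reduction modulo `ℓ` is `0`, so `w = toP (ℓ ^ m) (ℓ • a)`, and
`2 ^ (m - 1) • w = w ^ m = 0`; `2` is a unit in `ZMod (ℓ ^ m)`, so `w = 0`. -/
theorem odd_lift (hm : 1 ≤ m) (h2 : ℓ ≠ 2) {ε : MonoidAlgebra ℤ G}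
    (hε : toP (ℓ ^ m) ε * toP (ℓ ^ m) ε = toP (ℓ ^ m) ε)
    (hodd : toP ℓ ε * H.cc _ = -toP ℓ ε) : toP (ℓ ^ m) ε * H.cc _ = -toP (ℓ ^ m) ε := by
  set η' : MonoidAlgebra (ZMod (ℓ ^ m)) G := toP (ℓ ^ m) ε with hη'
  set c : MonoidAlgebra (ZMod (ℓ ^ m)) G := H.cc (ZMod (ℓ ^ m)) with hc
  have hcc : c * c = 1 := H.cc_mul_cc _
  have hcen : ∀ z, c * z = z * c := fun z => H.cc_central _ z
  set w : MonoidAlgebra (ZMod (ℓ ^ m)) G := η' * (1 + c) with hw
  have h1 : w * w = 2 * w := by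
    have h3 : (1 + c) * η' = η' * (1 + c) := by
      rw [add_mul, mul_add, hcen, one_mul, mul_one]
    calc w * w = η' * ((1 + c) * η') * (1 + c) := by rw [hw]; simp only [mul_assoc]
      _ = (η' * η') * ((1 + c) * (1 + c)) := by rw [h3]; simp only [mul_assoc]
      _ = η' * ((1 + c) * (1 + c)) := by rw [hε]
      _ = 2 * w := by
        have h4 : (1 + c) * (1 + c) = (1 + c) * 2 := by
          have : (1 + c) * (1 + c) = 1 + c + c + c * c := by noncomm_ring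
          rw [this, hcc]
          noncomm_ring
        rw [h4, hw, ← mul_assoc]
        exact (Nat.cast_commute 2 _).eq.symm
  have h2' : w ^ m = 0 := by
    refine Blk1_nil hm w ?_
    have h5 : w = toP (ℓ ^ m) (ε * (1 + H.cc ℤ)) := by
      rw [hw, hη', map_mul, map_add, map_one, Blk1_toP_cc]
    have h6 : toP ℓ (lft w) = toP ℓ (ε * (1 + H.cc ℤ)) := by
      refine toP_one_of_le hm ?_
      rw [toP_lft]
      exact h5
    rw [h6, map_mul, map_add, map_one, Blk1_toP_cc, mul_add, mul_one, hodd, add_neg_cancel]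
  have h7 : ∀ k, w ^ (k + 1) = 2 ^ k * w := by
    intro k
    induction k with
    | zero => simp
    | succ k ih => rw [pow_succ, ih, mul_assoc, h1, pow_succ, mul_assoc]
  have h8 : (2 : MonoidAlgebra (ZMod (ℓ ^ m)) G) ^ (m - 1) * w = 0 := by
    rw [← h7, Nat.sub_add_cancel hm, h2']
  have hcop : Nat.Coprime 2 (ℓ ^ m) := by
    have hl : Nat.Coprime 2 ℓ := by
      rw [Nat.coprime_primes Nat.prime_two Fact.out]
      exact Ne.symm h2
    exact hl.pow_right m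
  have hunit : IsUnit (2 : ZMod (ℓ ^ m)) := by
    have := (ZMod.unitOfCoprime 2 hcop).isUnit
    rw [ZMod.coe_unitOfCoprime] at this
    exact_mod_cast this
  have hunit2 : IsUnit (2 : MonoidAlgebra (ZMod (ℓ ^ m)) G) := by
    have h9 := hunit.map (algebraMap (ZMod (ℓ ^ m)) (MonoidAlgebra (ZMod (ℓ ^ m)) G))
    rwa [map_ofNat] at h9
  have h10 : w = 0 := (hunit2.pow (m - 1)).mul_right_eq_zero.1 h8
  rw [hw, mul_add, mul_one] at h10
  exact eq_neg_of_add_eq_zero_right h10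

end Pool.MP43e44c.MD
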