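import Pool.Agent.H.MP_43e44c_ag.MD.LvlC
import Pool.Agent.H.MP_43e44c_ag.MD.Lvl
import Pool.Agent.H.MP_43e44c_ag.OD.Fp

/-!
The primitive idempotent of a block.
-/

set_option autoImplicit false

open Finset Module

namespace Pool.MP43e44c.MD

open Pool.MP43e44c.OD Pool.MP43e44c.GA

universe u v

variable {G : Type u} [Group G] [Fintype G] {ℓ : ℕ} [Fact ℓ.Prime] (P : WD (ZMod ℓ) G)
  (j : Fin P.m)

open Classical in
/-- The primitive idempotent: the matrix unit `E_00` of the block `j`. -/
noncomputable def pe : MonoidAlgebra (ZMod ℓ) G :=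
  P.φ.symm (Pi.single j (Matrix.single 0 0 1))

theorem comp_pe_self : P.comp j (pe P j) = Matrix.single 0 0 1 := by
  rw [WD.comp_apply, pe, AlgEquiv.apply_symm_apply, Pi.single_eq_same]

theorem comp_pe_ne {l : Fin P.m} (h : l ≠ j) : P.comp l (pe P j) = 0 := by
  rw [WD.comp_apply, pe, AlgEquiv.apply_symm_apply, Pi.single_eq_of_ne h]

theorem pe_idem : pe P j * pe P j = pe P j := by
  apply P.comp_inj
  intro l
  rw [map_mul]
  by_cases h : l = j
  · subst h
    rw [comp_pe_self, Matrix.single_mul_single_same, one_mul]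
  · rw [comp_pe_ne P j h, zero_mul]

theorem e_mul_pe : P.e j * pe P j = pe P j := by
  apply P.comp_inj
  intro l
  rw [map_mul]
  by_cases h : l = j
  · subst h
    rw [P.comp_e_self, one_mul]
  · rw [comp_pe_ne P j h, mul_zero]

/-- `P.e j * cc = - P.e j` if `P.comp j cc = -1`. -/
theorem e_odd {ι : Type v} {H : Half G ι} (hj : H.Odd P j) : P.e j * H.cc _ = -P.e j := by
  have hj' : P.comp j (H.cc (ZMod ℓ)) = -1 := hj
  apply P.comp_inj
  intro l
  rw [map_mul, map_neg]
  by_cases h : l = j
  · subst h
    rw [hj', P.comp_e_self, one_mul]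
  · rw [P.comp_e_ne h, zero_mul, neg_zero]

theorem pe_odd {ι : Type v} {H : Half G ι} (hj : H.Odd P j) :
    pe P j * H.cc _ = -pe P j := by
  have hj' : P.comp j (H.cc (ZMod ℓ)) = -1 := hj
  apply P.comp_inj
  intro l
  rw [map_mul, map_neg]
  by_cases h : l = j
  · subst h
    rw [hj', comp_pe_self, mul_neg, mul_one]
  · rw [comp_pe_ne P j h, zero_mul, neg_zero]

omit [Group G] [Fintype G] in
private theorem Blk2_card {T : Type u} {S : Finset (MonoidAlgebra (ZMod ℓ) G)}
    (F : MonoidAlgebra (ZMod ℓ) G → T) (hinj : ∀ a ∈ S, ∀ b ∈ S, F a = F b → a = b)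
    (hsurj : ∀ w, ∃ y ∈ S, F y = w) : S.card = Nat.card T := by
  rw [← Fintype.card_coe, ← Nat.card_eq_fintype_card]
  refine Nat.card_eq_of_bijective (fun y : S => F y)
    ⟨fun a b h => Subtype.ext (hinj a a.2 b b.2 h), fun w => ?_⟩
  obtain ⟨y, hy, h⟩ := hsurj w
  exact ⟨⟨y, hy⟩, h⟩

/-- The row `0` is kept, the other rows vanish. -/
private theorem Blk2_row {n : ℕ} [NeZero n] {D : Type u} [DivisionRing D]
    (Y : Matrix (Fin n) (Fin n) D) (a b : Fin n) :
    (Matrix.single (0 : Fin n) (0 : Fin n) (1 : D) * Y) a b = if a = 0 then Y 0 b else 0 := by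
  by_cases h : a = 0
  · subst h
    rw [Matrix.single_mul_apply_same, one_mul, if_pos rfl]
  · rw [Matrix.single_mul_apply_of_ne _ _ _ _ _ h, if_neg h]

/-- The column `0` is kept, the other columns vanish. -/
private theorem Blk2_col {n : ℕ} [NeZero n] {D : Type u} [DivisionRing D]
    (Y : Matrix (Fin n) (Fin n) D) (a b : Fin n) :
    (Y * Matrix.single (0 : Fin n) (0 : Fin n) (1 : D)) a b = if b = 0 then Y a 0 else 0 := by
  by_cases h : b = 0
  · subst h
    rw [Matrix.mul_single_apply_same, mul_one, if_pos rfl]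
  · rw [Matrix.mul_single_apply_of_ne _ _ _ _ _ h, if_neg h]

private theorem Blk2_cardPi : Nat.card (Fin (P.r j) → P.D j) = ℓ ^ (P.f j * P.r j) := by
  rw [Nat.card_fun, cardD, Nat.card_fin, ← pow_mul]

/-- PROOF. `y ↦ row 0 of P.comp j y` is a bijection of `lY (pe P j)` onto `Fin (P.r j) → P.D j`: `pe * y = y` iff
`P.comp l y = 0` for `l ≠ j` and all rows of `P.comp j y` except row `0` vanish (`WD.comp_inj`,
`WD.exists_comp`).  `Nat.card (P.D j) = ℓ ^ P.f j` (`cardD`). -/
theorem card_lY : (lY (pe P j)).card = ℓ ^ (P.f j * P.r j) := by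
  rw [← Blk2_cardPi]
  refine Blk2_card (fun y => P.comp j y 0) ?_ ?_
  · intro y hy y' hy' h
    rw [mem_lY] at hy hy'
    apply P.comp_inj
    intro l
    rw [← hy, ← hy', map_mul, map_mul]
    by_cases hl : l = j
    · subst hl
      rw [comp_pe_self]
      ext a b
      rw [Blk2_row, Blk2_row]
      exact congrArg (fun t => if a = 0 then t else 0) (congrFun h b)
    · rw [comp_pe_ne P j hl, zero_mul, zero_mul]
  · intro w
    obtain ⟨y, hy, hy'⟩ := P.exists_comp j (fun a b => if a = 0 then w b else 0)
    refine ⟨y, ?_, ?_⟩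
    · rw [mem_lY]
      apply P.comp_inj
      intro l
      rw [map_mul]
      by_cases hl : l = j
      · subst hl
        rw [comp_pe_self, hy]
        ext a b
        rw [Blk2_row]
        by_cases ha : a = 0
        · simp [ha]
        · simp [ha]
      · rw [comp_pe_ne P j hl, zero_mul, (P.mul_e_iff j y).1 hy' l hl]
    · funext b
      beta_reduce
      rw [hy]
      exact if_pos rfl

/-- The same with column `0`. -/
theorem card_rX : (rX (pe P j)).card = ℓ ^ (P.f j * P.r j) := by
  rw [← Blk2_cardPi]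
  refine Blk2_card (fun y a => P.comp j y a 0) ?_ ?_
  · intro y hy y' hy' h
    rw [mem_rX] at hy hy'
    apply P.comp_inj
    intro l
    rw [← hy, ← hy', map_mul, map_mul]
    by_cases hl : l = j
    · subst hl
      rw [comp_pe_self]
      ext a b
      rw [Blk2_col, Blk2_col]
      exact congrArg (fun t => if b = 0 then t else 0) (congrFun h a)
    · rw [comp_pe_ne P j hl, mul_zero, mul_zero]
  · intro w
    obtain ⟨y, hy, hy'⟩ := P.exists_comp j (fun a b => if b = 0 then w a else 0)
    refine ⟨y, ?_, ?_⟩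
    · rw [mem_rX]
      apply P.comp_inj
      intro l
      rw [map_mul]
      by_cases hl : l = j
      · subst hl
        rw [comp_pe_self, hy]
        ext a b
        rw [Blk2_col]
        by_cases hb : b = 0
        · simp [hb]
        · simp [hb]
      · rw [comp_pe_ne P j hl, mul_zero, (P.mul_e_iff j y).1 hy' l hl]
    · funext a
      beta_reduce
      rw [hy]
      exact if_pos rfl

/-- The corner consists of the elements with component `j` equal to `x` times `E_00`. -/
theorem card_cR : (cR (pe P j)).card = ℓ ^ P.f j := by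
  rw [← cardD P j]
  refine Blk2_card (fun y => P.comp j y 0 0) ?_ ?_
  · intro y hy y' hy' h
    rw [mem_cR] at hy hy'
    apply P.comp_inj
    intro l
    rw [← hy, ← hy', map_mul, map_mul, map_mul, map_mul]
    by_cases hl : l = j
    · subst hl
      rw [comp_pe_self]
      ext a b
      rw [Blk2_col, Blk2_col, Blk2_row, Blk2_row]
      exact congrArg (fun t => if b = 0 then if a = 0 then t else 0 else 0) h
    · rw [comp_pe_ne P j hl, mul_zero, mul_zero]
  · intro w
    obtain ⟨y, hy, hy'⟩ := P.exists_comp j (Matrix.single 0 0 w)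
    refine ⟨y, ?_, ?_⟩
    · rw [mem_cR]
      apply P.comp_inj
      intro l
      rw [map_mul, map_mul]
      by_cases hl : l = j
      · subst hl
        rw [comp_pe_self, hy, Matrix.single_mul_single_same, Matrix.single_mul_single_same,
          one_mul, mul_one]
      · rw [comp_pe_ne P j hl, mul_zero, (P.mul_e_iff j y).1 hy' l hl]
    · beta_reduce
      rw [hy, Matrix.single_apply_same]

end Pool.MP43e44c.MD
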