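import Pool.Agent.H.MP_43e44c_ag.MD.Blk2

/-!
Products in a block.
-/

set_option autoImplicit false

open Finset Module

namespace Pool.MP43e44c.MD

open Pool.MP43e44c.OD Pool.MP43e44c.GA

universe u v

variable {G : Type u} [Group G] [Fintype G] {ℓ : ℕ} [Fact ℓ.Prime] (P : WD (ZMod ℓ) G)
  (j : Fin P.m)

theorem Blk2b_ne {y : MonoidAlgebra (ZMod ℓ) G} (hy : ∀ l, l ≠ j → P.comp l y = 0)
    (hy0 : y ≠ 0) : ∃ a b, P.comp j y a b ≠ 0 := by
  by_contra h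
  push Not at h
  apply hy0
  apply P.comp_inj
  intro l
  rw [map_zero]
  by_cases hl : l = j
  · subst hl
    ext a b
    rw [h a b, Matrix.zero_apply]
  · exact hy l hl

theorem Blk2b_rowO {y : MonoidAlgebra (ZMod ℓ) G} (hy : pe P j * y = y) (l : Fin P.m)
    (hl : l ≠ j) : P.comp l y = 0 := by
  rw [← hy, map_mul, comp_pe_ne P j hl, zero_mul]

theorem Blk2b_colO {x : MonoidAlgebra (ZMod ℓ) G} (hx : x * pe P j = x) (l : Fin P.m)
    (hl : l ≠ j) : P.comp l x = 0 := by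
  rw [← hx, map_mul, comp_pe_ne P j hl, mul_zero]

theorem Blk2b_row {y : MonoidAlgebra (ZMod ℓ) G} (hy : pe P j * y = y) (a b : Fin (P.r j))
    (ha : a ≠ 0) : P.comp j y a b = 0 := by
  rw [← hy, map_mul, comp_pe_self, Matrix.single_mul_apply_of_ne _ _ _ _ _ ha]

theorem Blk2b_col {x : MonoidAlgebra (ZMod ℓ) G} (hx : x * pe P j = x) (a b : Fin (P.r j))
    (hb : b ≠ 0) : P.comp j x a b = 0 := by
  rw [← hx, map_mul, comp_pe_self, Matrix.mul_single_apply_of_ne _ _ _ _ _ hb]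

theorem Blk2b_rowN {y : MonoidAlgebra (ZMod ℓ) G} (hy : pe P j * y = y) (hy0 : y ≠ 0) :
    ∃ b, P.comp j y 0 b ≠ 0 := by
  obtain ⟨a, b, h⟩ := Blk2b_ne P j (Blk2b_rowO P j hy) hy0
  by_cases ha : a = 0
  · subst ha
    exact ⟨b, h⟩
  · exact absurd (Blk2b_row P j hy a b ha) h

theorem Blk2b_colN {x : MonoidAlgebra (ZMod ℓ) G} (hx : x * pe P j = x) (hx0 : x ≠ 0) :
    ∃ a, P.comp j x a 0 ≠ 0 := by
  obtain ⟨a, b, h⟩ := Blk2b_ne P j (Blk2b_colO P j hx) hx0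
  by_cases hb : b = 0
  · subst hb
    exact ⟨a, h⟩
  · exact absurd (Blk2b_col P j hx a b hb) h

theorem Blk2b_mul {x y : MonoidAlgebra (ZMod ℓ) G} (hx : x * pe P j = x)
    (a b : Fin (P.r j)) : P.comp j (x * y) a b = P.comp j x a 0 * P.comp j y 0 b := by
  rw [map_mul, Matrix.mul_apply, Finset.sum_eq_single 0]
  · intro c _ hc
    rw [Blk2b_col P j hx a c hc, zero_mul]
  · intro h
    exact absurd (mem_univ _) h

/-- PROOF. In the component `j`: a nonzero column times a nonzero row is not `0`. -/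
theorem xy_ne {x y : MonoidAlgebra (ZMod ℓ) G} (hx : x * pe P j = x) (hy : pe P j * y = y)
    (hx0 : x ≠ 0) (hy0 : y ≠ 0) : x * y ≠ 0 := by
  obtain ⟨a, ha⟩ := Blk2b_colN P j hx hx0
  obtain ⟨b, hb⟩ := Blk2b_rowN P j hy hy0
  intro h
  have h1 := Blk2b_mul P j (y := y) hx a b
  rw [h, map_zero, Matrix.zero_apply] at h1
  exact mul_ne_zero ha hb h1.symm

theorem ry_ne {r y : MonoidAlgebra (ZMod ℓ) G} (hr : pe P j * r * pe P j = r)
    (hy : pe P j * y = y) (hr0 : r ≠ 0) (hy0 : y ≠ 0) : r * y ≠ 0 := by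
  refine xy_ne P j ?_ hy hr0 hy0
  rw [← hr, mul_assoc _ _ (pe P j), pe_idem]

/-- PROOF. Let `x̄` be the column `0` of `P.comp j x`, `ȳ` the row `0` of `P.comp j y`, both not zero, and
similarly `η`, `ξ` for `p.1`, `p.2`.  The condition is `x̄_a η_b + ξ_a ȳ_b = 0` for all `a, b`.  Choose `a₀` with
`x̄_{a₀} ≠ 0`: `η = μ ȳ` with `μ = - x̄_{a₀}⁻¹ ξ_{a₀}` and then `(x̄_a μ + ξ_a) ȳ = 0`, `ξ = - x̄ μ`.  So the pair is
determined by `μ ∈ P.D j`, i.e. `p ↦ ξ_{a₀}` is injective on the set. -/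
theorem card_ker {x y : MonoidAlgebra (ZMod ℓ) G} (hx : x * pe P j = x) (hy : pe P j * y = y)
    (hx0 : x ≠ 0) (hy0 : y ≠ 0) :
    {p : MonoidAlgebra (ZMod ℓ) G × MonoidAlgebra (ZMod ℓ) G |
      pe P j * p.1 = p.1 ∧ p.2 * pe P j = p.2 ∧ x * p.1 + p.2 * y = 0}.ncard ≤ ℓ ^ P.f j := by
  obtain ⟨a, ha⟩ := Blk2b_colN P j hx hx0
  obtain ⟨b, hb⟩ := Blk2b_rowN P j hy hy0
  have hfin : Finite (P.D j) := finD P j
  rw [← cardD P j, ← Set.ncard_univ]
  refine Set.ncard_le_ncard_of_injOn (fun p => P.comp j p.2 a 0) (fun _ _ => Set.mem_univ _) ?_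
    Set.finite_univ
  rintro ⟨p1, p2⟩ ⟨h1, h2, h3⟩ ⟨q1, q2⟩ ⟨k1, k2, k3⟩ hpq
  simp only at h1 h2 h3 k1 k2 k3 hpq
  have m1 : pe P j * (p1 - q1) = p1 - q1 := by rw [mul_sub, h1, k1]
  have m2 : (p2 - q2) * pe P j = p2 - q2 := by rw [sub_mul, h2, k2]
  have m3 : x * (p1 - q1) + (p2 - q2) * y = 0 := by
    have : x * (p1 - q1) + (p2 - q2) * y = (x * p1 + p2 * y) - (x * q1 + q2 * y) := by
      rw [mul_sub, sub_mul]
      abel
    rw [this, h3, k3, sub_zero]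
  have m4 : P.comp j (p2 - q2) a 0 = 0 := by
    rw [map_sub, Matrix.sub_apply, hpq, sub_self]
  have key : ∀ c d, P.comp j x c 0 * P.comp j (p1 - q1) 0 d +
      P.comp j (p2 - q2) c 0 * P.comp j y 0 d = 0 := by
    intro c d
    rw [← Blk2b_mul P j hx, ← Blk2b_mul P j m2, ← Matrix.add_apply, ← map_add, m3, map_zero,
      Matrix.zero_apply]
  have n1 : p1 - q1 = 0 := by
    by_contra hne
    obtain ⟨d, hd⟩ := Blk2b_rowN P j m1 hne
    have := key a d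
    rw [m4, zero_mul, add_zero] at this
    exact mul_ne_zero ha hd this
  have n2 : p2 - q2 = 0 := by
    by_contra hne
    obtain ⟨c, hc⟩ := Blk2b_colN P j m2 hne
    have := key c b
    rw [n1, map_zero, Matrix.zero_apply, mul_zero, zero_add] at this
    exact mul_ne_zero hc hb this
  rw [sub_eq_zero.1 n1, sub_eq_zero.1 n2]

/-- PROOF. `X = P.comp j (toP ℓ x) ≠ 0` has an entry `X a b ≠ 0`; let `P.comp j (toP ℓ z) = E_{0a}`
(`exists_comp`, `toP_surj`); the entry `(0, b)` of the component `j` of the product is `X a b`. -/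
theorem exists_mul_ne {x : MonoidAlgebra ℤ G} (hx : P.comp j (toP ℓ x) ≠ 0) :
    ∃ z : MonoidAlgebra ℤ G, pe P j * toP ℓ (z * x) ≠ 0 := by
  have h1 : ∃ a b, P.comp j (toP ℓ x) a b ≠ 0 := by
    by_contra h
    push Not at h
    apply hx
    ext a b
    rw [h a b, Matrix.zero_apply]
  obtain ⟨a, b, hab⟩ := h1
  obtain ⟨z0, hz0, -⟩ := P.exists_comp j (Matrix.single 0 a 1)
  obtain ⟨z, rfl⟩ := toP_surj ℓ z0
  refine ⟨z, fun h => hab ?_⟩
  have h2 := congrArg (fun w => P.comp j w 0 b) h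
  simp only [map_mul, map_zero, comp_pe_self, hz0, Matrix.zero_apply,
    Matrix.single_mul_apply_same, one_mul] at h2
  exact h2

end Pool.MP43e44c.MD
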