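import Pool.Agent.H.MP_43e44c_ag.MD.Blk2

/-!
Elements of the block with a large kernel.
-/

set_option autoImplicit false

open Finset Module

namespace Pool.MP43e44c.MD

open Pool.MP43e44c.OD Pool.MP43e44c.GA

universe u v

/-- A linear map of rank at most `s` factors through `Fin s → D`. -/
theorem Blk3_factor {D : Type*} [DivisionRing D] {r s : ℕ}
    (T : (Fin r → D) →ₗ[D] (Fin r → D)) (h : finrank D (LinearMap.range T) ≤ s) :
    ∃ (A : (Fin r → D) →ₗ[D] (Fin s → D)) (B : (Fin s → D) →ₗ[D] (Fin r → D)),
      T = B ∘ₗ A := by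
  classical
  obtain ⟨i, hi⟩ : ∃ i : LinearMap.range T →ₗ[D] (Fin s → D), LinearMap.ker i = ⊥ := by
    have b := Module.finBasis D (LinearMap.range T)
    let g : (Fin (finrank D (LinearMap.range T)) → D) →ₗ[D] (Fin s → D) :=
      { toFun := fun v k => if hk : (k : ℕ) < finrank D (LinearMap.range T) then v ⟨k, hk⟩ else 0
        map_add' := by
          intro v w
          funext k
          by_cases hk : (k : ℕ) < finrank D (LinearMap.range T)
          · simp [hk]
          · simp [hk]
        map_smul' := by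
          intro c v
          funext k
          by_cases hk : (k : ℕ) < finrank D (LinearMap.range T)
          · simp [hk]
          · simp [hk] }
    have hg : Function.Injective g := by
      intro v w hvw
      funext k
      have h1 := congrFun hvw ⟨k, lt_of_lt_of_le k.2 h⟩
      have h2 : ∀ u : Fin (finrank D (LinearMap.range T)) → D,
          g u ⟨k, lt_of_lt_of_le k.2 h⟩ = u k := by
        intro u
        change (if hk : (k : ℕ) < finrank D (LinearMap.range T) then u ⟨k, hk⟩ else 0) = u k
        rw [dif_pos k.2]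
      rw [h2, h2] at h1
      exact h1
    refine ⟨g ∘ₗ b.equivFun.toLinearMap, ?_⟩
    rw [LinearMap.ker_eq_bot]
    exact hg.comp b.equivFun.injective
  obtain ⟨g, hg⟩ := LinearMap.exists_leftInverse_of_injective i hi
  refine ⟨i ∘ₗ T.rangeRestrict, (LinearMap.range T).subtype ∘ₗ g, ?_⟩
  ext v : 1
  have h1 : g (i (T.rangeRestrict (LinearMap.single D (fun _ => D) v 1))) =
      T.rangeRestrict (LinearMap.single D (fun _ => D) v 1) :=
    congrArg (fun k : LinearMap.range T →ₗ[D] LinearMap.range T =>
      k (T.rangeRestrict (LinearMap.single D (fun _ => D) v 1))) hg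
  ext k
  simp only [LinearMap.coe_comp, Function.comp_apply, Submodule.coe_subtype, h1]
  rfl

/-- PROOF. The map `T : v ↦ v ᵥ* β` is linear over `D` (left scalars).  If its kernel has more than
`(card D) ^ (r - s)` elements, then `finrank (ker T) > r - s` and `finrank (range T) < s` (rank-nullity), so
`T` is the composition of a linear map to `Fin s → D` and a linear map from `Fin s → D` (embed the range
into `Fin s → D` and extend the inverse).  There are at most `(card D) ^ (r * s)` maps of each kind, and `β` is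
determined by `T`. -/
theorem card_low {D : Type*} [DivisionRing D] [Finite D] {r s : ℕ} (hs : s ≤ r) :
    {β : Matrix (Fin r) (Fin r) D |
      Nat.card D ^ (r - s) < {v : Fin r → D | Matrix.vecMul v β = 0}.ncard}.ncard
      ≤ Nat.card D ^ (2 * r * s) := by
  classical
  have : Finite (Matrix (Fin r) (Fin s) D) := inferInstanceAs (Finite (Fin r → Fin s → D))
  have : Finite (Matrix (Fin s) (Fin r) D) := inferInstanceAs (Finite (Fin s → Fin r → D))
  have : Finite (Matrix (Fin r) (Fin r) D) := inferInstanceAs (Finite (Fin r → Fin r → D))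
  let F : Matrix (Fin r) (Fin s) D × Matrix (Fin s) (Fin r) D → Matrix (Fin r) (Fin r) D :=
    fun p => p.1 * p.2
  have hsub : {β : Matrix (Fin r) (Fin r) D |
      Nat.card D ^ (r - s) < {v : Fin r → D | Matrix.vecMul v β = 0}.ncard} ⊆
      F '' Set.univ := by
    intro β hβ
    rw [Set.mem_ofPred_eq] at hβ
    set T : (Fin r → D) →ₗ[D] (Fin r → D) := Matrix.vecMulLinear β with hT
    have hTa : ∀ v, T v = Matrix.vecMul v β := fun v => rfl
    have h1 : {v : Fin r → D | Matrix.vecMul v β = 0}.ncard = Nat.card (LinearMap.ker T) := by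
      rfl
    have h2 : Nat.card (LinearMap.ker T) = Nat.card D ^ finrank D (LinearMap.ker T) :=
      Module.natCard_eq_pow_finrank (K := D)
    rw [h1, h2] at hβ
    have hD : 1 < Nat.card D := Finite.one_lt_card
    have h3 : r - s < finrank D (LinearMap.ker T) := (Nat.pow_lt_pow_iff_right hD).1 hβ
    have h4 := LinearMap.finrank_range_add_finrank_ker T
    rw [Module.finrank_fin_fun] at h4
    obtain ⟨A, B, hAB⟩ := Blk3_factor (s := s) T (by omega)
    refine ⟨(LinearMap.toMatrixRight' A, LinearMap.toMatrixRight' B), Set.mem_univ _, ?_⟩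
    change LinearMap.toMatrixRight' A * LinearMap.toMatrixRight' B = β
    have h5 : Matrix.toLinearMapRight' (LinearMap.toMatrixRight' A * LinearMap.toMatrixRight' B) =
        Matrix.toLinearMapRight' β := by
      rw [Matrix.toLinearMapRight'_mul]
      have hA : Matrix.toLinearMapRight' (LinearMap.toMatrixRight' A) = A :=
        LinearMap.toMatrixRight'.symm_apply_apply A
      have hB : Matrix.toLinearMapRight' (LinearMap.toMatrixRight' B) = B :=
        LinearMap.toMatrixRight'.symm_apply_apply B
      rw [hA, hB, ← hAB]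
      rfl
    exact LinearMap.toMatrixRight'.symm.injective h5
  have h6 : (F '' Set.univ).ncard ≤ Nat.card D ^ (2 * r * s) := by
    refine (Set.ncard_image_le Set.finite_univ).trans ?_
    rw [Set.ncard_univ, Nat.card_prod]
    have h7 : Nat.card (Matrix (Fin r) (Fin s) D) = Nat.card D ^ (r * s) := by
      change Nat.card (Fin r → Fin s → D) = _
      rw [Nat.card_fun, Nat.card_fun, Nat.card_fin, Nat.card_fin, ← pow_mul, mul_comm s r]
    have h8 : Nat.card (Matrix (Fin s) (Fin r) D) = Nat.card D ^ (r * s) := by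
      change Nat.card (Fin s → Fin r → D) = _
      rw [Nat.card_fun, Nat.card_fun, Nat.card_fin, Nat.card_fin, ← pow_mul]
    rw [h7, h8, ← pow_add]
    apply le_of_eq
    congr 1
    ring
  exact (Set.ncard_le_ncard hsub (Set.toFinite _)).trans h6

variable {G : Type u} [Group G] [Fintype G] {ℓ : ℕ} [Fact ℓ.Prime] (P : WD (ZMod ℓ) G)
  (j : Fin P.m)

theorem Blk3_mem {y : MonoidAlgebra (ZMod ℓ) G} (h : P.e j * y = y) {l : Fin P.m} (hl : l ≠ j) :
    P.comp l y = 0 := by
  rw [← h, map_mul, WD.comp_e_ne P hl, zero_mul]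

theorem Blk3_finD : Finite (P.D j) := by
  apply Nat.finite_of_card_ne_zero
  rw [cardD]
  exact pow_ne_zero _ (Fact.out : ℓ.Prime).ne_zero

/-- PROOF. `P.comp j` is a bijection of `lY (P.e j)` onto the matrices. -/
theorem card_block : (lY (P.e j)).card = ℓ ^ (P.f j * P.r j * P.r j) := by
  classical
  have hfin := Blk3_finD P j
  have h1 : (lY (P.e j)).card = Nat.card (Matrix (Fin (P.r j)) (Fin (P.r j)) (P.D j)) := by
    rw [← Nat.card_eq_finsetCard]
    apply Nat.card_congr
    refine Equiv.ofBijective (fun y => P.comp j y.1) ⟨?_, ?_⟩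
    · intro y z hyz
      apply Subtype.ext
      apply WD.comp_inj
      intro l
      by_cases hl : l = j
      · subst hl; exact hyz
      · rw [Blk3_mem P j (mem_lY.1 y.2) hl, Blk3_mem P j (mem_lY.1 z.2) hl]
    · intro X
      obtain ⟨x, hx, hx'⟩ := P.exists_comp j X
      refine ⟨⟨x, mem_lY.2 ?_⟩, hx⟩
      rw [WD.e_comm, hx']
  rw [h1]
  change Nat.card (Fin (P.r j) → Fin (P.r j) → P.D j) = _
  rw [Nat.card_fun, Nat.card_fun, Nat.card_fin, cardD, ← pow_mul, ← pow_mul, mul_assoc]

/-- PROOF. `card_low` for the matrix `P.comp j β`; for `y = pe * y` the condition `y * β = 0` means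
`(row 0 of P.comp j y) ᵥ* P.comp j β = 0` (bijection as in `card_lY`); `cardD`. -/
theorem low (s : ℕ) (hs : s ≤ P.r j) : {β : MonoidAlgebra (ZMod ℓ) G | P.e j * β = β ∧
    ℓ ^ (P.f j * (P.r j - s)) <
      {y : MonoidAlgebra (ZMod ℓ) G | pe P j * y = y ∧ y * β = 0}.ncard}.ncard
      ≤ ℓ ^ (2 * P.f j * P.r j * s) := by
  classical
  have hfin := Blk3_finD P j
  have : Finite (Matrix (Fin (P.r j)) (Fin (P.r j)) (P.D j)) :=
    inferInstanceAs (Finite (Fin (P.r j) → Fin (P.r j) → P.D j))
  have h1 := card_low (D := P.D j) hs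
  rw [cardD, ← pow_mul, ← pow_mul] at h1
  have h2 : P.f j * (2 * P.r j * s) = 2 * P.f j * P.r j * s := by ring
  rw [h2] at h1
  refine le_trans ?_ h1
  apply Set.ncard_le_ncard_of_injOn (fun β => P.comp j β)
  · rintro β ⟨hβ, hβ'⟩
    rw [Set.mem_ofPred_eq]
    refine lt_of_lt_of_le hβ' ?_
    apply Set.ncard_le_ncard_of_injOn (fun y => (P.comp j y) 0)
    · rintro y ⟨hy, hy'⟩
      rw [Set.mem_ofPred_eq]
      have h3 : P.comp j y * P.comp j β = 0 := by rw [← map_mul, hy', map_zero]
      have h4 : Matrix.vecMul ((P.comp j y) 0) (P.comp j β) =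
          (P.comp j y * P.comp j β) 0 := rfl
      rw [h4, h3]
      rfl
    · rintro y ⟨hy, -⟩ z ⟨hz, -⟩ hyz
      apply WD.comp_inj
      intro l
      have hcomp : ∀ w : MonoidAlgebra (ZMod ℓ) G, pe P j * w = w →
          P.comp l w = P.comp l (pe P j) * P.comp l w := by
        intro w hw
        rw [← map_mul, hw]
      rw [hcomp y hy, hcomp z hz]
      by_cases hl : l = j
      · subst hl
        rw [comp_pe_self]
        ext a b
        rw [Matrix.mul_apply, Matrix.mul_apply]
        apply Finset.sum_congr rfl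
        intro c _
        by_cases hc : c = 0
        · subst hc
          have h5 : (P.comp l y) 0 b = (P.comp l z) 0 b := congrFun hyz b
          rw [h5]
        · rw [Matrix.single_apply_of_ne _ _ _ _ _ (by
            rintro ⟨-, h⟩
            exact hc h.symm), zero_mul, zero_mul]
      · rw [comp_pe_ne P j hl, zero_mul, zero_mul]
  · rintro β ⟨hβ, -⟩ γ ⟨hγ, -⟩ hβγ
    apply WD.comp_inj
    intro l
    by_cases hl : l = j
    · subst hl; exact hβγ
    · rw [Blk3_mem P j hβ hl, Blk3_mem P j hγ hl]

end Pool.MP43e44c.MD
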