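import Pool.Agent.H.MP_43e44c_ag.MD.Blk1
import Pool.Agent.H.MP_43e44c_ag.MD.Blk2b
import Pool.Agent.H.MP_43e44c_ag.MD.Blk3
import Pool.Agent.H.MP_43e44c_ag.MD.Link2
import Pool.Agent.H.MP_43e44c_ag.GA.Odd

/-!
The block structure of a component modulo `ℓ`.
-/

set_option autoImplicit false

open Finset Module

namespace Pool.MP43e44c.MD

open Pool.MP43e44c.OD Pool.MP43e44c.GA

universe u v

variable {G : Type u} [Group G] [Fintype G] {ι : Type v} {H : Half G ι} [Fintype ι]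
  {ℓ : ℕ} [Fact ℓ.Prime]

/-- PROOF. `ε` from `exists_idem` for `η = pe P j`; `odd_lift`; the other fields are the theorems of Blk2,
Blk3 (rewrite with `toP ℓ ε = pe P j`). -/
theorem exists_blk (P : WD (ZMod ℓ) G) {j : Fin P.m} (h2 : ℓ ≠ 2) (hj : H.Odd P j) {m : ℕ}
    (hm : 1 ≤ m) : ∃ ε : MonoidAlgebra ℤ G, toP ℓ ε = pe P j ∧
      Blk H ℓ m (P.r j) (P.f j) ε (P.e j) := by
  obtain ⟨ε, hε, hid⟩ := exists_idem (ℓ := ℓ) (m := m) hm (pe_idem P j)
  refine ⟨ε, hε, ?_⟩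
  exact
    { ne2 := h2
      m_pos := hm
      N_pos := Nat.pos_of_ne_zero (NeZero.ne (P.r j))
      f_pos := P.f_pos j
      idem := hid
      odd := odd_lift H hm h2 hid (by rw [hε]; exact pe_odd P j hj)
      cY := by rw [hε]; exact card_lY P j
      cX := by rw [hε]; exact card_rX P j
      cR := by rw [hε]; exact card_cR P j
      xy := by
        rw [hε]
        intro x hx y hy hx0 hy0
        exact xy_ne P j (mem_rX.1 hx) (mem_lY.1 hy) hx0 hy0
      ry := by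
        rw [hε]
        intro r hr y hy hr0 hy0
        exact ry_ne P j (mem_cR.1 hr) (mem_lY.1 hy) hr0 hy0
      ker := by
        rw [hε]
        intro x hx y hy hx0 hy0
        exact card_ker P j (mem_rX.1 hx) (mem_lY.1 hy) hx0 hy0
      e_idem := P.e_mul_self j
      e_cen := P.e_comm j
      e_ε := by rw [hε]; exact e_mul_pe P j
      e_odd := e_odd P j hj
      cB := card_block P j
      low := by
        rw [hε]
        exact fun s hs => low P j s hs }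

/-- PROOF. For `v ∈ badI` there is `x` with `x * el v = 0` and `P.comp j (toP ℓ x) ≠ 0` (`link2` with
`b = H.el ℤ v`, `toQ_el`); take `z * x` from `exists_mul_ne`. -/
theorem badI_subset (hℓ : ¬ ℓ ∣ Fintype.card G) (W : WD ℚ G) (P : WD (ZMod ℓ) G) {i : Fin W.m}
    {j : Fin P.m} (hj : j ∈ J W P i) {ε : MonoidAlgebra ℤ G} (hε : toP ℓ ε = pe P j) :
    H.badI W i ⊆ BZ H ℓ ε := by
  rintro v ⟨X, hX, hXe⟩
  obtain ⟨x, -, hx, hx0⟩ := link2 hℓ W P (H.el ℤ v) i hX (by rw [H.toQ_el]; exact hXe) hj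
  obtain ⟨z, hz⟩ := exists_mul_ne P j hx0
  refine ⟨z * x, by rw [mul_assoc, hx, mul_zero], ?_⟩
  rw [map_mul, hε]
  exact hz

/-- PROOF. Choose `j ∈ J` with maximal `P.r j` (`J_nonempty`).  `∑ P.a = W.a i` (`sum_below_a`), `P.a = r ^ 2 f`
(`a_eq`) and `∑ P.f = W.f i ≤ 2` (`sum_below_f`), so `W.a i ≤ r_j ^ 2 ∑ f ≤ 2 r_j ^ 2`,
`r_j ^ 2 ≤ r_j ^ 2 f_j ≤ W.a i` and `f_j ≤ 2`. -/
theorem exists_j (hℓ : ¬ ℓ ∣ Fintype.card G) (W : WD ℚ G) (P : WD (ZMod ℓ) G) {i : Fin W.m}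
    (hf : W.f i ≤ 2) : ∃ j ∈ J W P i, 1 ≤ P.f j ∧ P.f j ≤ 2 ∧ W.a i ≤ 2 * P.r j ^ 2 ∧
      P.r j ^ 2 ≤ W.a i := by
  obtain ⟨j, hj, hmax⟩ := exists_max_image (J W P i) (fun j => P.r j) (J_nonempty hℓ W P i)
  have ha := sum_below_a hℓ W P i
  have hfs := sum_below_f hℓ W P i
  have hfp := P.f_pos j
  have hfj : P.f j ≤ W.f i := by
    rw [← hfs]
    exact single_le_sum (f := fun k => P.f k) (fun k _ => Nat.zero_le _) hj
  have haj : P.a j ≤ W.a i := by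
    rw [← ha]
    exact single_le_sum (f := fun k => P.a k) (fun k _ => Nat.zero_le _) hj
  refine ⟨j, hj, hfp, hfj.trans hf, ?_, ?_⟩
  · rw [← ha]
    calc ∑ k ∈ J W P i, P.a k ≤ ∑ k ∈ J W P i, P.r j ^ 2 * P.f k := by
          refine sum_le_sum fun k hk => ?_
          rw [a_eq]
          exact Nat.mul_le_mul_right _ (Nat.pow_le_pow_left (hmax k hk) 2)
      _ = P.r j ^ 2 * W.f i := by rw [← mul_sum, hfs]
      _ ≤ P.r j ^ 2 * 2 := Nat.mul_le_mul_left _ hf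
      _ = 2 * P.r j ^ 2 := mul_comm _ _
  · refine le_trans ?_ haj
    rw [a_eq]
    exact Nat.le_mul_of_pos_right _ hfp

end Pool.MP43e44c.MD
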