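import Pool.Agent.H.MP_43e44c_ag.MD.Nz
import Pool.Agent.H.MP_43e44c_ag.OD.CosS

/-!
The bound for the cosines.
-/

set_option autoImplicit false

open Finset Module

namespace Pool.MP43e44c.MD

open Pool.MP43e44c.OD Pool.MP43e44c.GA

universe u v

variable {G : Type u} [Group G] [Fintype G] {M : ℕ} [NeZero M]

/-- PROOF. Let `b = valMinAbs a` and `b'` an integer with `b' = 2 a` in `ZMod M`, `|b'| / M = nz (2 a)`,
`|b'| ≤ M / 2`.  `2 b - b' = j M`, so `cos (2 π b / M) = cos (π b' / M + π j) = ± cos (π b' / M)`, and for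
`0 ≤ u ≤ 1/2`: `0 ≤ cos (π u) ≤ exp (- (π u) ^ 2 / 2) ≤ exp (- 4 u ^ 2)` (`Real.cos_le_exp_neg_sq_div_two` or
similar in Mathlib, or `cos x ≤ 1 - x ^ 2 / 2 + x ^ 4 / 24 ≤ exp (- x ^ 2 / 2)`; compare OD/CosS.lean, where
this inequality is used). -/
theorem cz_le (a : ZMod M) : |cz a| ≤ Real.exp (-4 * nz (2 * a) ^ 2) := by
  obtain ⟨b', hb', hn⟩ := exists_int (2 * a)
  have hM : (0 : ℝ) < M := Nat.cast_pos.2 (NeZero.pos M)
  have hd : ((2 * a.valMinAbs - b' : ℤ) : ZMod M) = 0 := by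
    push_cast
    rw [hb', sub_self]
  rw [ZMod.intCast_zmod_eq_zero_iff_dvd] at hd
  obtain ⟨j, hj⟩ := hd
  have hjr : 2 * (a.valMinAbs : ℝ) = b' + M * j := by
    have h : 2 * a.valMinAbs = b' + M * j := by linarith
    exact_mod_cast h
  have h1 : 2 * Real.pi * a.valMinAbs / M = Real.pi * b' / M + j * Real.pi := by
    field_simp
    linear_combination hjr
  have h2 : |cz a| = |Real.cos (Real.pi * b' / M)| := by
    unfold cz
    rw [h1, Real.cos_add_int_mul_pi, abs_mul, abs_zpow, abs_neg, abs_one, one_zpow, one_mul]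
  have h3 : |Real.cos (Real.pi * b' / M)| = |Real.cos (Real.pi * nz (2 * a))| := by
    rw [hn, ← Real.cos_abs, abs_div, abs_mul, abs_of_pos Real.pi_pos, abs_of_pos hM, mul_div_assoc]
  have h4 : 0 ≤ Real.pi * nz (2 * a) := mul_nonneg Real.pi_pos.le (nz_nonneg _)
  have h5 : Real.pi * nz (2 * a) ≤ Real.pi / 2 := by
    have := nz_le_half (2 * a)
    have := Real.pi_pos
    nlinarith
  have h6 : 0 ≤ Real.cos (Real.pi * nz (2 * a)) :=
    Real.cos_nonneg_of_neg_pi_div_two_le_of_le (by have := Real.pi_pos; linarith) h5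
  rw [h2, h3, abs_of_nonneg h6]
  refine (cosS_cos_le h4 h5).trans (Real.exp_le_exp.2 ?_)
  have h7 : 3 < Real.pi := Real.pi_gt_three
  have h8 : 8 ≤ Real.pi ^ 2 := by nlinarith
  have h9 := mul_nonneg (sub_nonneg.2 h8) (sq_nonneg (nz (2 * a)))
  rw [mul_pow]
  linarith

variable {ι : Type v} (H : Half G ι) [Fintype ι]

theorem cw_le (z : MonoidAlgebra (ZMod M) G) : cw H z ≤ Real.exp (-4 * en H z) := by
  unfold cw en
  rw [Finset.mul_sum, Real.exp_sum]
  exact Finset.prod_le_prod (fun k _ => abs_nonneg _) fun k _ => cz_le _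

theorem cw_nonneg (z : MonoidAlgebra (ZMod M) G) : 0 ≤ cw H z :=
  Finset.prod_nonneg fun _ _ => abs_nonneg _

theorem en_nonneg (z : MonoidAlgebra (ZMod M) G) : 0 ≤ en H z :=
  Finset.sum_nonneg fun _ _ => sq_nonneg _

end Pool.MP43e44c.MD
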