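import Pool.Agent.H.MP_43e44c_ag.GA.Def

/-!
Middle range: definitions (group rings over `ZMod M`, `M` a power of a prime `ℓ`).
-/

set_option autoImplicit false

open Finset Module

namespace Pool.MP43e44c.MD

open Pool.MP43e44c.OD Pool.MP43e44c.GA

universe u v

section Basic

variable {G : Type u} [Group G] [Fintype G]

instance finiteMA (M : ℕ) [NeZero M] : Finite (MonoidAlgebra (ZMod M) G) :=
  Finite.of_injective (fun (x : MonoidAlgebra (ZMod M) G) (g : G) => x.coeff g)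
    fun _ _ h => ma_ext fun g => congrFun h g

noncomputable instance fintypeMA (M : ℕ) [NeZero M] : Fintype (MonoidAlgebra (ZMod M) G) :=
  Fintype.ofFinite _

/-- An integral lift. -/
noncomputable def lft {M : ℕ} (x : MonoidAlgebra (ZMod M) G) : MonoidAlgebra ℤ G :=
  ofFun fun g => ((x.coeff g).val : ℤ)

theorem toP_lft {M : ℕ} [NeZero M] (x : MonoidAlgebra (ZMod M) G) : toP M (lft x) = x := by
  apply ma_ext
  intro g
  rw [toP_coeff]
  unfold lft
  rw [ofFun_coeff]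
  simp

/-- Reduction (for `M ∣ M'`). -/
noncomputable def red (M : ℕ) {M' : ℕ} (x : MonoidAlgebra (ZMod M') G) :
    MonoidAlgebra (ZMod M) G := toP M (lft x)

theorem toP_eq_iff {M : ℕ} {a b : MonoidAlgebra ℤ G} :
    toP M a = toP M b ↔ ∀ g, (M : ℤ) ∣ a.coeff g - b.coeff g := by
  constructor
  · intro h g
    have h1 := congrArg (fun z => z.coeff g) h
    simp only [toP_coeff] at h1
    rw [← ZMod.intCast_zmod_eq_zero_iff_dvd, Int.cast_sub, h1, sub_self]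
  · intro h
    apply ma_ext
    intro g
    rw [toP_coeff, toP_coeff]
    have h1 := (ZMod.intCast_zmod_eq_zero_iff_dvd _ _).2 (h g)
    rw [Int.cast_sub, sub_eq_zero] at h1
    exact h1

theorem red_toP {M M' : ℕ} [NeZero M'] (h : M ∣ M') (a : MonoidAlgebra ℤ G) :
    red M (toP M' a) = toP M a := by
  unfold red
  rw [toP_eq_iff]
  intro g
  have h1 : toP M' (lft (toP M' a)) = toP M' a := toP_lft _
  have h2 := (toP_eq_iff.1 h1) g
  exact (Int.natCast_dvd_natCast.2 h).trans h2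

variable {M : ℕ} [NeZero M]

open Classical in
/-- The elements fixed by `a ↦ α * a * β`. -/
noncomputable def Im (α β : MonoidAlgebra (ZMod M) G) : Finset (MonoidAlgebra (ZMod M) G) :=
  univ.filter fun a => α * a * β = a

/-- The right ideal of `ε`. -/
noncomputable def lY (ε : MonoidAlgebra (ZMod M) G) : Finset (MonoidAlgebra (ZMod M) G) :=
  Im ε 1

/-- The left ideal of `ε`. -/
noncomputable def rX (ε : MonoidAlgebra (ZMod M) G) : Finset (MonoidAlgebra (ZMod M) G) :=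
  Im 1 ε

/-- The corner of `ε`. -/
noncomputable def cR (ε : MonoidAlgebra (ZMod M) G) : Finset (MonoidAlgebra (ZMod M) G) :=
  Im ε ε

theorem mem_Im {α β a : MonoidAlgebra (ZMod M) G} : a ∈ Im α β ↔ α * a * β = a := by
  classical
  unfold Im
  simp

theorem mem_lY {ε y : MonoidAlgebra (ZMod M) G} : y ∈ lY ε ↔ ε * y = y := by
  unfold lY
  rw [mem_Im, mul_one]

theorem mem_rX {ε x : MonoidAlgebra (ZMod M) G} : x ∈ rX ε ↔ x * ε = x := by
  unfold rX
  rw [mem_Im, one_mul]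

theorem mem_cR {ε r : MonoidAlgebra (ZMod M) G} : r ∈ cR ε ↔ ε * r * ε = r := by
  unfold cR
  rw [mem_Im]

/-- Primitive elements: some coefficient is a unit. -/
def Prm {M : ℕ} (y : MonoidAlgebra (ZMod M) G) : Prop := ∃ g, IsUnit (y.coeff g)

/-- Distance to `0` of `a / M` on the circle. -/
noncomputable def nz {M : ℕ} (a : ZMod M) : ℝ := |(a.valMinAbs : ℝ)| / M

/-- The cosine. -/
noncomputable def cz {M : ℕ} (a : ZMod M) : ℝ := Real.cos (2 * Real.pi * a.valMinAbs / M)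

end Basic

section Half

variable {G : Type u} [Group G] {ι : Type v} (H : Half G ι) [Fintype G] [Fintype ι]

/-- The energy of an element. -/
noncomputable def en {M : ℕ} (z : MonoidAlgebra (ZMod M) G) : ℝ :=
  ∑ k, nz (2 * z.coeff (H.t k)⁻¹) ^ 2

/-- The product of the cosines. -/
noncomputable def cw {M : ℕ} (z : MonoidAlgebra (ZMod M) G) : ℝ :=
  ∏ k, |cz (z.coeff (H.t k)⁻¹)|

open Classical in
/-- Pairs of primitive elements. -/
noncomputable def PP (ε : MonoidAlgebra ℤ G) (M : ℕ) [NeZero M] :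
    Finset (MonoidAlgebra (ZMod M) G × MonoidAlgebra (ZMod M) G) :=
  (lY (toP M ε) ×ˢ rX (toP M ε)).filter fun p => Prm p.1 ∧ Prm p.2

open Classical in
/-- The number of the pairs with energy at most `E`. -/
noncomputable def NN (ε : MonoidAlgebra ℤ G) (M : ℕ) [NeZero M] (E : ℝ) : ℕ :=
  ((PP ε M).filter fun p => en H (p.2 * p.1) ≤ E).card

/-- The sign vectors annihilated by some `x` with `ε * x ≠ 0` modulo `ℓ`. -/
def BZ (ℓ : ℕ) (ε : MonoidAlgebra ℤ G) : Set (ι → Bool) :=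
  {v | ∃ x : MonoidAlgebra ℤ G, x * H.el ℤ v = 0 ∧ toP ℓ (ε * x) ≠ 0}

theorem mem_PP {ε : MonoidAlgebra ℤ G} {M : ℕ} [NeZero M]
    {p : MonoidAlgebra (ZMod M) G × MonoidAlgebra (ZMod M) G} :
    p ∈ PP ε M ↔ toP M ε * p.1 = p.1 ∧ p.2 * toP M ε = p.2 ∧ Prm p.1 ∧ Prm p.2 := by
  classical
  unfold PP
  rw [mem_filter, mem_product, mem_lY, mem_rX]
  tauto

/-- The numbers attached to a primitive idempotent modulo `ℓ`, with a lift `ε` modulo `ℓ ^ m`, and to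
its block (with central idempotent `e`): the block is the algebra of the `N × N` matrices over the field
with `q = ℓ ^ f` elements. -/
structure Blk (ℓ m N f : ℕ) [Fact ℓ.Prime] (ε : MonoidAlgebra ℤ G)
    (e : MonoidAlgebra (ZMod ℓ) G) : Prop where
  ne2 : ℓ ≠ 2
  m_pos : 1 ≤ m
  N_pos : 1 ≤ N
  f_pos : 1 ≤ f
  idem : toP (ℓ ^ m) ε * toP (ℓ ^ m) ε = toP (ℓ ^ m) ε
  odd : toP (ℓ ^ m) ε * H.cc _ = -toP (ℓ ^ m) ε
  cY : (lY (toP ℓ ε)).card = ℓ ^ (f * N)
  cX : (rX (toP ℓ ε)).card = ℓ ^ (f * N)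
  cR : (cR (toP ℓ ε)).card = ℓ ^ f
  xy : ∀ x ∈ rX (toP ℓ ε), ∀ y ∈ lY (toP ℓ ε), x ≠ 0 → y ≠ 0 → x * y ≠ 0
  ry : ∀ r ∈ MD.cR (toP ℓ ε), ∀ y ∈ lY (toP ℓ ε), r ≠ 0 → y ≠ 0 → r * y ≠ 0
  ker : ∀ x ∈ rX (toP ℓ ε), ∀ y ∈ lY (toP ℓ ε), x ≠ 0 → y ≠ 0 →
    {p : MonoidAlgebra (ZMod ℓ) G × MonoidAlgebra (ZMod ℓ) G |
      toP ℓ ε * p.1 = p.1 ∧ p.2 * toP ℓ ε = p.2 ∧ x * p.1 + p.2 * y = 0}.ncard ≤ ℓ ^ f
  e_idem : e * e = e
  e_cen : ∀ a, e * a = a * e
  e_ε : e * toP ℓ ε = toP ℓ ε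
  e_odd : e * H.cc _ = -e
  cB : (lY e).card = ℓ ^ (f * N * N)
  low : ∀ s ≤ N, {β : MonoidAlgebra (ZMod ℓ) G | e * β = β ∧
    ℓ ^ (f * (N - s)) < {y : MonoidAlgebra (ZMod ℓ) G | toP ℓ ε * y = y ∧ y * β = 0}.ncard}.ncard
      ≤ ℓ ^ (2 * f * N * s)

end Half

end Pool.MP43e44c.MD
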