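import Pool.Agent.H.MP_43e44c_ag.MD.CosB

/-!
The kernel of length `ℓ`.
-/

set_option autoImplicit false

open Finset Module

namespace Pool.MP43e44c.MD

open Pool.MP43e44c.OD Pool.MP43e44c.GA

universe u v

/-- The integers of absolute value at most `(ℓ - 1) / 2`. -/
noncomputable def Rl (ℓ : ℕ) : Finset ℤ := Icc (-((ℓ - 1) / 2 : ℕ)) ((ℓ - 1) / 2 : ℕ)

/-- The kernel. -/
noncomputable def dk (ℓ : ℕ) {M : ℕ} (a : ZMod M) : ℝ :=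
  (∑ r ∈ Rl ℓ, Real.cos (2 * Real.pi * r * a.valMinAbs / M)) / ℓ

theorem Dk_half {ℓ : ℕ} [Fact ℓ.Prime] (h2 : ℓ ≠ 2) : 2 * ((ℓ - 1) / 2) + 1 = ℓ := by
  have h1 : ℓ.Prime := Fact.out
  obtain ⟨k, hk⟩ := h1.odd_of_ne_two h2
  omega

theorem card_Rl {ℓ : ℕ} [Fact ℓ.Prime] (h2 : ℓ ≠ 2) : (Rl ℓ).card = ℓ := by
  have h := Dk_half h2
  rw [Rl, Int.card_Icc]
  omega

theorem Dk_inj {ℓ : ℕ} [Fact ℓ.Prime] (h2 : ℓ ≠ 2) :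
    Set.InjOn (fun r : ℤ => ((2 * r : ℤ) : ZMod ℓ)) (Rl ℓ) := by
  have h := Dk_half h2
  have hp : ℓ.Prime := Fact.out
  intro r hr r' hr' he
  have h1 : ((2 * r : ℤ) : ZMod ℓ) = ((2 * r' : ℤ) : ZMod ℓ) := he
  rw [ZMod.intCast_eq_intCast_iff_dvd_sub, ← mul_sub] at h1
  have h3 : (ℓ : ℤ) ∣ r' - r := by
    rcases (Nat.prime_iff_prime_int.1 hp).dvd_or_dvd h1 with h4 | h4
    · exfalso
      have h5 : ℓ ∣ 2 := by exact_mod_cast h4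
      have h6 := Nat.le_of_dvd (by norm_num) h5
      have h7 := hp.two_le
      omega
    · exact h4
  rw [Finset.mem_coe, Rl, Finset.mem_Icc] at hr hr'
  have h4 : r' - r = 0 := by
    apply Int.eq_zero_of_abs_lt_dvd h3
    rw [abs_lt]
    omega
  omega

/-- The numbers `2 r`, `r ∈ Rl ℓ`, are a system of representatives modulo `ℓ`. -/
theorem bij_Rl {ℓ : ℕ} [Fact ℓ.Prime] (h2 : ℓ ≠ 2) :
    Set.BijOn (fun r : ℤ => ((2 * r : ℤ) : ZMod ℓ)) (Rl ℓ) Set.univ := by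
  refine ⟨fun _ _ => Set.mem_univ _, Dk_inj h2, ?_⟩
  intro y _
  have h1 : (Rl ℓ).image (fun r : ℤ => ((2 * r : ℤ) : ZMod ℓ)) = Finset.univ := by
    apply Finset.eq_univ_of_card
    rw [Finset.card_image_of_injOn (Dk_inj h2), card_Rl h2, ZMod.card]
  have h3 : y ∈ (Rl ℓ).image (fun r : ℤ => ((2 * r : ℤ) : ZMod ℓ)) := by
    rw [h1]
    exact Finset.mem_univ y
  obtain ⟨r, hr, hy⟩ := Finset.mem_image.1 h3
  exact ⟨r, hr, hy⟩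

/-- PROOF. `cos θ ≥ 1 - θ ^ 2 / 2` (`Real.one_sub_sq_div_two_le_cos`) with `θ = 2 π r u`, `|u| = nz a`,
`|r| ≤ ℓ / 2`: `θ ^ 2 / 2 ≤ (π ^ 2 / 2) ℓ ^ 2 nz a ^ 2 ≤ 5 ℓ ^ 2 nz a ^ 2`; there are `ℓ` terms. -/
theorem dk_ge {ℓ : ℕ} [Fact ℓ.Prime] (h2 : ℓ ≠ 2) {M : ℕ} [NeZero M] (a : ZMod M) :
    1 - 5 * (ℓ : ℝ) ^ 2 * nz a ^ 2 ≤ dk ℓ a := by
  have hl := Dk_half h2
  have hp : ℓ.Prime := Fact.out
  have hl0 : (0 : ℝ) < ℓ := by exact_mod_cast hp.pos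
  rw [dk, le_div_iff₀ hl0]
  have h1 : ∀ r ∈ Rl ℓ, 1 - 5 * (ℓ : ℝ) ^ 2 * nz a ^ 2 ≤
      Real.cos (2 * Real.pi * r * a.valMinAbs / M) := by
    intro r hr
    rw [Rl, Finset.mem_Icc] at hr
    refine le_trans ?_ (Real.one_sub_sq_div_two_le_cos)
    have h3 : (2 * Real.pi * r * a.valMinAbs / M) ^ 2 / 2 =
        2 * Real.pi ^ 2 * (r : ℝ) ^ 2 * ((a.valMinAbs : ℝ) / M) ^ 2 := by ring
    have h4 : nz a ^ 2 = ((a.valMinAbs : ℝ) / M) ^ 2 := by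
      rw [nz, div_pow, div_pow, sq_abs]
    have h5 : 4 * (r : ℝ) ^ 2 ≤ (ℓ : ℝ) ^ 2 := by
      have h6 : 4 * r ^ 2 ≤ (ℓ : ℤ) ^ 2 := by
        have h12 : 2 * r ≤ ℓ := by omega
        have h13 : -(ℓ : ℤ) ≤ 2 * r := by omega
        nlinarith
      exact_mod_cast h6
    have h7 : Real.pi ^ 2 ≤ 10 := by
      have := Real.pi_lt_d2
      have := Real.pi_pos
      nlinarith
    rw [h3, h4]
    have h8 : 2 * Real.pi ^ 2 * (r : ℝ) ^ 2 ≤ 5 * (ℓ : ℝ) ^ 2 := by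
      have h9 : 0 ≤ (r : ℝ) ^ 2 := sq_nonneg _
      nlinarith [mul_le_mul_of_nonneg_right h7 h9]
    have h10 : 0 ≤ ((a.valMinAbs : ℝ) / M) ^ 2 := sq_nonneg _
    have h11 := mul_le_mul_of_nonneg_right h8 h10
    linarith
  calc (1 - 5 * (ℓ : ℝ) ^ 2 * nz a ^ 2) * ℓ
      = ∑ _r ∈ Rl ℓ, (1 - 5 * (ℓ : ℝ) ^ 2 * nz a ^ 2) := by
        rw [Finset.sum_const, card_Rl h2, nsmul_eq_mul]
        ring
    _ ≤ _ := Finset.sum_le_sum h1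

end Pool.MP43e44c.MD
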