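import Pool.Agent.H.MP_43e44c_ag.MD.VV

/-!
Uniqueness of lifts of small energy.
-/

set_option autoImplicit false

open Finset Module

namespace Pool.MP43e44c.MD

open Pool.MP43e44c.OD Pool.MP43e44c.GA

universe u v

variable {G : Type u} [Group G] [Fintype G] {ι : Type v} {H : Half G ι} [Fintype ι]
  {ℓ m N f : ℕ} [Fact ℓ.Prime] {ε : MonoidAlgebra ℤ G} {e : MonoidAlgebra (ZMod ℓ) G}

theorem liftA_coeff_add {M : ℕ} (a b : MonoidAlgebra (ZMod M) G) (g : G) :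
    (a + b).coeff g = a.coeff g + b.coeff g := rfl

theorem liftA_smul_toP {M : ℕ} (c : ℤ) (a : MonoidAlgebra ℤ G) (g : G) :
    (toP M (c • a)).coeff g = ((c * a.coeff g : ℤ) : ZMod M) := by
  rw [toP_coeff]
  rfl

/-- The product of the two perturbed elements. -/
theorem liftA_mul {i : ℕ} (hi : 1 ≤ i) (a b η ξ : MonoidAlgebra ℤ G) :
    (toP (ℓ ^ (i + 1)) a + toP (ℓ ^ (i + 1)) ((ℓ : ℤ) ^ i • ξ)) *
      (toP (ℓ ^ (i + 1)) b + toP (ℓ ^ (i + 1)) ((ℓ : ℤ) ^ i • η))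
      = toP (ℓ ^ (i + 1)) (a * b) + toP (ℓ ^ (i + 1)) ((ℓ : ℤ) ^ i • (a * η + ξ * b)) := by
  rw [← map_add, ← map_add, ← map_mul, ← map_add, toP_eq_iff]
  intro g
  have h1 : (a + (ℓ : ℤ) ^ i • ξ) * (b + (ℓ : ℤ) ^ i • η)
      = a * b + (ℓ : ℤ) ^ i • (a * η + ξ * b) + ((ℓ : ℤ) ^ i * (ℓ : ℤ) ^ i) • (ξ * η) := by
    rw [add_mul, mul_add, mul_add, smul_mul_assoc, mul_smul_comm, smul_mul_smul_comm, smul_add]
    abel
  rw [h1]
  have h2 : (a * b + (ℓ : ℤ) ^ i • (a * η + ξ * b) +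
      ((ℓ : ℤ) ^ i * (ℓ : ℤ) ^ i) • (ξ * η)).coeff g
      = (a * b + (ℓ : ℤ) ^ i • (a * η + ξ * b)).coeff g +
        ((ℓ : ℤ) ^ i * (ℓ : ℤ) ^ i) * (ξ * η).coeff g := rfl
  rw [h2, add_sub_cancel_left]
  apply Dvd.dvd.mul_right
  push_cast
  rw [← pow_add]
  exact pow_dvd_pow _ (by omega)

/-- PROOF. Let `(y, x)`, `(y', x')` be two pairs with the same reduction, given by
`y' = y + toP (ℓ ^ i • η)`, `x' = x + toP (ℓ ^ i • ξ)` (`exists_sub`).  `toP ℓ η ∈ lY`, `toP ℓ ξ ∈ rX`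
(`toP_smul_iff_one`), and
`x' y' - x y = toP (ℓ ^ (i + 1)) (ℓ ^ i • (lft x * η + ξ * lft y))` since `2 i ≥ i + 1`.  Let
`h = toP ℓ (lft x * η + ξ * lft y)`.  By `nz_smul` (for `2 * coefficient`) and `nz_sub_sq_le`
`∑ k, nz (2 h_k) ^ 2 ≤ 4 E`, and `nz (2 h_k) ≥ 1 / ℓ` if `h_k ≠ 0` (`nz_ge`, `ℓ ≠ 2`), so
`#{k | h_k ≠ 0} ≤ 4 E ℓ ^ 2`.  `h ∈ VV (toP ℓ η) (toP ℓ (lft y))` is odd (`odd_of_lY` with `odd_one`), so
if `h ≠ 0` then `n ≤ 2 f N * 4 E ℓ ^ 2` (`supp`, `finrank_VV`), a contradiction. -/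
theorem lift_zero (B : Blk H ℓ m N f ε e) {i : ℕ} (hi : 1 ≤ i) (him : i + 1 ≤ m) {E : ℝ}
    (hE : 8 * (f * N : ℝ) * (ℓ : ℝ) ^ 2 * E < Fintype.card ι)
    {y x : MonoidAlgebra (ZMod (ℓ ^ (i + 1))) G}
    (hy : toP (ℓ ^ (i + 1)) ε * y = y) (hx : x * toP (ℓ ^ (i + 1)) ε = x)
    {η ξ : MonoidAlgebra ℤ G} (hη : toP ℓ ε * toP ℓ η = toP ℓ η)
    (hξ : toP ℓ ξ * toP ℓ ε = toP ℓ ξ)
    (h1 : en H (x * y) ≤ E)
    (h2 : en H ((x + toP (ℓ ^ (i + 1)) ((ℓ : ℤ) ^ i • ξ)) *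
      (y + toP (ℓ ^ (i + 1)) ((ℓ : ℤ) ^ i • η))) ≤ E) :
    toP ℓ (lft x) * toP ℓ η + toP ℓ ξ * toP ℓ (lft y) = 0 := by
  classical
  by_contra h0
  have hl : ℓ.Prime := Fact.out
  have hlR : (0 : ℝ) < ℓ := Nat.cast_pos.2 hl.pos
  obtain ⟨a, ha⟩ : ∃ a, a = lft x := ⟨_, rfl⟩
  obtain ⟨b, hb⟩ : ∃ b, b = lft y := ⟨_, rfl⟩
  have hxa : toP (ℓ ^ (i + 1)) a = x := by rw [ha]; exact toP_lft x
  have hyb : toP (ℓ ^ (i + 1)) b = y := by rw [hb]; exact toP_lft y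
  rw [← ha, ← hb] at h0
  obtain ⟨w, hw⟩ : ∃ w, w = a * η + ξ * b := ⟨_, rfl⟩
  have hh : toP ℓ a * toP ℓ η + toP ℓ ξ * toP ℓ b = toP ℓ w := by
    rw [hw, map_add, map_mul, map_mul]
  rw [hh] at h0
  rw [← hxa, ← hyb, liftA_mul hi, ← hw] at h2
  rw [← hxa, ← hyb, ← map_mul] at h1
  -- the energies
  have h3 : ∀ k : ι, nz (2 * (toP ℓ w).coeff (H.t k)⁻¹) ^ 2 ≤
      2 * nz (2 * (toP (ℓ ^ (i + 1)) (a * b) +
        toP (ℓ ^ (i + 1)) ((ℓ : ℤ) ^ i • w)).coeff (H.t k)⁻¹) ^ 2 +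
      2 * nz (2 * (toP (ℓ ^ (i + 1)) (a * b)).coeff (H.t k)⁻¹) ^ 2 := by
    intro k
    refine le_trans (le_of_eq ?_) (nz_sub_sq_le _ _)
    congr 1
    have e1 : (2 * (toP ℓ w).coeff (H.t k)⁻¹ : ZMod ℓ)
        = ((2 * w.coeff (H.t k)⁻¹ : ℤ) : ZMod ℓ) := by
      rw [toP_coeff]
      push_cast
      ring
    rw [e1, ← nz_smul i]
    congr 1
    rw [liftA_coeff_add, liftA_smul_toP]
    push_cast
    ring
  have h4 : ∑ k : ι, nz (2 * (toP ℓ w).coeff (H.t k)⁻¹) ^ 2 ≤ 4 * E := by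
    refine (sum_le_sum fun k _ => h3 k).trans ?_
    rw [sum_add_distrib, ← mul_sum, ← mul_sum]
    unfold en at h1 h2
    linarith
  obtain ⟨S, hS⟩ : ∃ S : Set ι, S = {k : ι | (toP ℓ w).coeff (H.t k)⁻¹ ≠ 0} := ⟨_, rfl⟩
  have h5 : (S.ncard : ℝ) * (1 / (ℓ : ℝ)) ^ 2 ≤ 4 * E := by
    refine le_trans ?_ h4
    have h6 : S.ncard = (univ.filter fun k : ι => (toP ℓ w).coeff (H.t k)⁻¹ ≠ 0).card := by
      rw [hS, ← Set.ncard_coe_finset]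
      congr 1
      ext k
      simp
    rw [h6, ← nsmul_eq_mul, ← sum_const]
    refine le_trans (sum_le_sum fun k hk => ?_)
      (sum_le_sum_of_subset_of_nonneg (filter_subset _ _) fun k _ _ => sq_nonneg _)
    rw [mem_filter] at hk
    have h7 : (2 * (toP ℓ w).coeff (H.t k)⁻¹ : ZMod ℓ) ≠ 0 := by
      refine mul_ne_zero ?_ hk.2
      intro h8
      have h9 : ((2 : ℕ) : ZMod ℓ) = 0 := by exact_mod_cast h8
      rw [ZMod.natCast_eq_zero_iff] at h9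
      exact B.ne2 ((Nat.prime_dvd_prime_iff_eq hl Nat.prime_two).1 h9)
    have h8 := nz_ge h7
    exact pow_le_pow_left₀ (by positivity) h8 2
  -- the support lemma
  have hη' : toP ℓ η * H.cc _ = -toP ℓ η := odd_of_lY B.odd_one hη
  have hyr : toP ℓ ε * toP ℓ b = toP ℓ b := by
    rw [← map_mul]
    apply toP_one_of_le (m := i + 1) (by omega)
    rw [map_mul, hyb, hy]
  have hxr : toP ℓ a * toP ℓ ε = toP ℓ a := by
    rw [← map_mul]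
    apply toP_one_of_le (m := i + 1) (by omega)
    rw [map_mul, hxa, hx]
  have hb' : toP ℓ b * H.cc _ = -toP ℓ b := odd_of_lY B.odd_one hyr
  have h6 : Fintype.card ι ≤ finrank (ZMod ℓ) (VV (toP ℓ ε) (toP ℓ η) (toP ℓ b)) * S.ncard := by
    rw [hS]
    apply supp H (VV (toP ℓ ε) (toP ℓ η) (toP ℓ b)) (w := toP ℓ w)
    · rintro g z ⟨x', x'', h7, h8, h9⟩
      refine ⟨MonoidAlgebra.single g 1 * x', MonoidAlgebra.single g 1 * x'', ?_, ?_, ?_⟩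
      · rw [mul_assoc, h7]
      · rw [mul_assoc, h8]
      · rw [h9, mul_add, mul_assoc, mul_assoc]
    · exact ⟨toP ℓ a, toP ℓ ξ, hxr, hξ, hh.symm⟩
    · rw [← hh, add_mul, mul_assoc, mul_assoc, hη', hb', mul_neg, mul_neg]
      abel
    · exact h0
  have h7 := finrank_VV B (toP ℓ η) (toP ℓ b)
  have h8 : (Fintype.card ι : ℝ) ≤ 2 * (f * N : ℝ) * S.ncard := by
    have h9 : Fintype.card ι ≤ 2 * (f * N) * S.ncard := h6.trans (Nat.mul_le_mul_right _ h7)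
    exact_mod_cast h9
  have h9 : (S.ncard : ℝ) ≤ 4 * E * (ℓ : ℝ) ^ 2 := by
    have h10 : (S.ncard : ℝ) * (1 / (ℓ : ℝ)) ^ 2 * (ℓ : ℝ) ^ 2 ≤ 4 * E * (ℓ : ℝ) ^ 2 :=
      mul_le_mul_of_nonneg_right h5 (by positivity)
    have h11 : (S.ncard : ℝ) * (1 / (ℓ : ℝ)) ^ 2 * (ℓ : ℝ) ^ 2 = S.ncard := by
      field_simp
    linarith
  have h10 : 2 * (f * N : ℝ) * S.ncard ≤ 2 * (f * N : ℝ) * (4 * E * (ℓ : ℝ) ^ 2) :=
    mul_le_mul_of_nonneg_left h9 (by positivity)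
  have h11 : 2 * (f * N : ℝ) * (4 * E * (ℓ : ℝ) ^ 2) = 8 * (f * N : ℝ) * (ℓ : ℝ) ^ 2 * E := by
    ring
  linarith

/-- PROOF. The map `(y, x) ↦ (red y, red x)` maps the pairs of level `i + 1` and energy `≤ E` to the pairs
of level `i` and energy `≤ ℓ ^ 2 E` (`en_red`, `prm_toP`).  Fix a pair `(y, x)` in a fibre; by `lift_zero`
the other ones `(y', x')` give different elements `(toP ℓ η, toP ℓ ξ)` of the set in `B.ker` (for
`toP ℓ (lft x)`, `toP ℓ (lft y)`, which are not zero as `x`, `y` are primitive), so the fibre has at most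
`ℓ ^ f` elements (`Finset.card_le_mul_card_image`). -/
theorem lift_step (B : Blk H ℓ m N f ε e) {i : ℕ} (hi : 1 ≤ i) (him : i + 1 ≤ m) {E : ℝ}
    (hE : 8 * (f * N : ℝ) * (ℓ : ℝ) ^ 2 * E < Fintype.card ι) :
    NN H ε (ℓ ^ (i + 1)) E ≤ ℓ ^ f * NN H ε (ℓ ^ i) ((ℓ : ℝ) ^ 2 * E) := by
  classical
  unfold NN
  refine card_le_mul_card_image_of_maps_to
    (f := fun p : MonoidAlgebra (ZMod (ℓ ^ (i + 1))) G × MonoidAlgebra (ZMod (ℓ ^ (i + 1))) G =>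
      ((red (ℓ ^ i) p.1, red (ℓ ^ i) p.2) :
        MonoidAlgebra (ZMod (ℓ ^ i)) G × MonoidAlgebra (ZMod (ℓ ^ i)) G)) ?_ _ ?_
  · intro p hp
    simp only [mem_filter, mem_PP] at hp ⊢
    obtain ⟨⟨h1, h2, h3, h4⟩, h5⟩ := hp
    have e1 : toP (ℓ ^ (i + 1)) (lft p.1) = p.1 := toP_lft p.1
    have e2 : toP (ℓ ^ (i + 1)) (lft p.2) = p.2 := toP_lft p.2
    refine ⟨⟨?_, ?_, ?_, ?_⟩, ?_⟩
    · show toP (ℓ ^ i) ε * toP (ℓ ^ i) (lft p.1) = toP (ℓ ^ i) (lft p.1)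
      rw [← map_mul]
      apply toP_of_le (m := i + 1) (by omega)
      rw [map_mul, e1, h1]
    · show toP (ℓ ^ i) (lft p.2) * toP (ℓ ^ i) ε = toP (ℓ ^ i) (lft p.2)
      rw [← map_mul]
      apply toP_of_le (m := i + 1) (by omega)
      rw [map_mul, e2, h2]
    · show Prm (toP (ℓ ^ i) (lft p.1))
      rw [prm_toP hi]
      rwa [← e1, prm_toP (by omega)] at h3
    · show Prm (toP (ℓ ^ i) (lft p.2))
      rw [prm_toP hi]
      rwa [← e2, prm_toP (by omega)] at h4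
    · show en H (toP (ℓ ^ i) (lft p.2) * toP (ℓ ^ i) (lft p.1)) ≤ _
      rw [← map_mul]
      refine (en_red _).trans ?_
      rw [map_mul, e1, e2]
      exact mul_le_mul_of_nonneg_left h5 (by positivity)
  · intro q _
    obtain ⟨A, hA⟩ : ∃ A, A = ((PP ε (ℓ ^ (i + 1))).filter fun p => en H (p.2 * p.1) ≤ E).filter
      (fun p => ((red (ℓ ^ i) p.1, red (ℓ ^ i) p.2) :
        MonoidAlgebra (ZMod (ℓ ^ i)) G × MonoidAlgebra (ZMod (ℓ ^ i)) G) = q) := ⟨_, rfl⟩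
    rw [← hA]
    rcases A.eq_empty_or_nonempty with h0 | ⟨p₀, hp₀⟩
    · rw [h0, card_empty]
      exact Nat.zero_le _
    have hmem : ∀ p ∈ A, (toP (ℓ ^ (i + 1)) ε * p.1 = p.1 ∧ p.2 * toP (ℓ ^ (i + 1)) ε = p.2 ∧
        Prm p.1 ∧ Prm p.2) ∧ en H (p.2 * p.1) ≤ E ∧
        red (ℓ ^ i) p.1 = q.1 ∧ red (ℓ ^ i) p.2 = q.2 := by
      intro p hp
      rw [hA, mem_filter, mem_filter, mem_PP] at hp
      refine ⟨hp.1.1, hp.1.2, ?_, ?_⟩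
      · rw [← hp.2]
      · rw [← hp.2]
    obtain ⟨⟨h1, h2, h3, h4⟩, h5, h6, h7⟩ := hmem p₀ hp₀
    have e1 : toP (ℓ ^ (i + 1)) (lft p₀.1) = p₀.1 := toP_lft p₀.1
    have e2 : toP (ℓ ^ (i + 1)) (lft p₀.2) = p₀.2 := toP_lft p₀.2
    have hd : ∀ p ∈ A, ∃ d : MonoidAlgebra ℤ G × MonoidAlgebra ℤ G,
        p.1 = p₀.1 + toP (ℓ ^ (i + 1)) ((ℓ : ℤ) ^ i • d.1) ∧
        p.2 = p₀.2 + toP (ℓ ^ (i + 1)) ((ℓ : ℤ) ^ i • d.2) := by
      intro p hp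
      obtain ⟨-, -, h8, h9⟩ := hmem p hp
      have e3 : toP (ℓ ^ (i + 1)) (lft p.1) = p.1 := toP_lft p.1
      have e4 : toP (ℓ ^ (i + 1)) (lft p.2) = p.2 := toP_lft p.2
      have h10 : toP (ℓ ^ i) (lft p.1) = toP (ℓ ^ i) (lft p₀.1) := h8.trans h6.symm
      have h11 : toP (ℓ ^ i) (lft p.2) = toP (ℓ ^ i) (lft p₀.2) := h9.trans h7.symm
      obtain ⟨d1, hd1⟩ := exists_sub (M := ℓ ^ (i + 1)) h10
      obtain ⟨d2, hd2⟩ := exists_sub (M := ℓ ^ (i + 1)) h11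
      rw [e3, e1] at hd1
      rw [e4, e2] at hd2
      exact ⟨(d1, d2), hd1, hd2⟩
    choose! D hD using hd
    have hsm : ∀ (a : MonoidAlgebra ℤ G), toP (ℓ ^ (i + 1)) (ε * ((ℓ : ℤ) ^ i • a))
        = toP (ℓ ^ (i + 1)) ((ℓ : ℤ) ^ i • (ε * a)) := fun a => by rw [mul_smul_comm]
    have hsm' : ∀ (a : MonoidAlgebra ℤ G), toP (ℓ ^ (i + 1)) (((ℓ : ℤ) ^ i • a) * ε)
        = toP (ℓ ^ (i + 1)) ((ℓ : ℤ) ^ i • (a * ε)) := fun a => by rw [smul_mul_assoc]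
    have hk1 : ∀ p ∈ A, toP ℓ ε * toP ℓ (D p).1 = toP ℓ (D p).1 := by
      intro p hp
      obtain ⟨⟨g1, -, -, -⟩, -⟩ := hmem p hp
      have g2 := (hD p hp).1
      rw [← map_mul]
      apply toP_smul_iff_one.1
      rw [← hsm, map_mul]
      have g3 : toP (ℓ ^ (i + 1)) ((ℓ : ℤ) ^ i • (D p).1) = p.1 - p₀.1 := by
        rw [g2]; abel
      rw [g3, mul_sub, g1, h1]
    have hk2 : ∀ p ∈ A, toP ℓ (D p).2 * toP ℓ ε = toP ℓ (D p).2 := by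
      intro p hp
      obtain ⟨⟨-, g1, -, -⟩, -⟩ := hmem p hp
      have g2 := (hD p hp).2
      rw [← map_mul]
      apply toP_smul_iff_one.1
      rw [← hsm', map_mul]
      have g3 : toP (ℓ ^ (i + 1)) ((ℓ : ℤ) ^ i • (D p).2) = p.2 - p₀.2 := by
        rw [g2]; abel
      rw [g3, sub_mul, g1, h2]
    have hx1 : toP ℓ (lft p₀.2) * toP ℓ ε = toP ℓ (lft p₀.2) := by
      rw [← map_mul]
      apply toP_one_of_le (m := i + 1) (by omega)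
      rw [map_mul, e2, h2]
    have hy1 : toP ℓ ε * toP ℓ (lft p₀.1) = toP ℓ (lft p₀.1) := by
      rw [← map_mul]
      apply toP_one_of_le (m := i + 1) (by omega)
      rw [map_mul, e1, h1]
    have hx0 : toP ℓ (lft p₀.2) ≠ 0 := by
      rwa [← e2, prm_toP (by omega)] at h4
    have hy0 : toP ℓ (lft p₀.1) ≠ 0 := by
      rwa [← e1, prm_toP (by omega)] at h3
    refine le_trans ?_ (B.ker _ (mem_rX.2 hx1) _ (mem_lY.2 hy1) hx0 hy0)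
    rw [← Set.ncard_coe_finset]
    refine Set.ncard_le_ncard_of_injOn
      (fun p => ((toP ℓ (D p).1, toP ℓ (D p).2) :
        MonoidAlgebra (ZMod ℓ) G × MonoidAlgebra (ZMod ℓ) G)) ?_ ?_ (Set.toFinite _)
    · intro p hp
      have hp' : p ∈ A := hp
      refine ⟨hk1 p hp', hk2 p hp', ?_⟩
      obtain ⟨-, g1, -, -⟩ := hmem p hp'
      obtain ⟨g2, g3⟩ := hD p hp'
      apply lift_zero B hi him hE h1 h2 (hk1 p hp') (hk2 p hp') h5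
      rw [← g2, ← g3]
      exact g1
    · intro p hp p' hp' heq
      have hp1 : p ∈ A := hp
      have hp2 : p' ∈ A := hp'
      have g1 : toP ℓ (D p).1 = toP ℓ (D p').1 := congrArg Prod.fst heq
      have g2 : toP ℓ (D p).2 = toP ℓ (D p').2 := congrArg Prod.snd heq
      rw [← toP_smul_iff_one (k := i)] at g1 g2
      apply Prod.ext
      · rw [(hD p hp1).1, (hD p' hp2).1, g1]
      · rw [(hD p hp1).2, (hD p' hp2).2, g2]

end Pool.MP43e44c.MD
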