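import Pool.Agent.H.MP_43e44c_ag.MD.LvlC
import Pool.Agent.H.MP_43e44c_ag.MD.Card
import Pool.Agent.H.MP_43e44c_ag.MD.Orth
import Pool.Agent.H.MP_43e44c_ag.MD.Orb
import Pool.Agent.H.MP_43e44c_ag.MD.CosB

/-!
The sum over the pairs of one level.
-/

set_option autoImplicit false

open Finset Module

namespace Pool.MP43e44c.MD

open Pool.MP43e44c.OD Pool.MP43e44c.GA

universe u v

variable {G : Type u} [Group G] [Fintype G] {ι : Type v} {H : Half G ι} [Fintype ι]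
  {ℓ m N f : ℕ} [Fact ℓ.Prime] {ε : MonoidAlgebra ℤ G} {e : MonoidAlgebra (ZMod ℓ) G}

open Classical in
/-- The sum of the products of the cosines over all pairs with `y` primitive. -/
noncomputable def Phi (H : Half G ι) (ε : MonoidAlgebra ℤ G) (M : ℕ) [NeZero M] : ℝ :=
  ∑ y ∈ (lY (toP M ε)).filter Prm, ∑ x ∈ rX (toP M ε), cw H (x * y)

/-- The sum over the pairs of primitive elements. -/
noncomputable def Ps (H : Half G ι) (ε : MonoidAlgebra ℤ G) (M : ℕ) [NeZero M] : ℝ :=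
  ∑ p ∈ PP ε M, cw H (p.2 * p.1)

theorem LvlA_cz {M : ℕ} [NeZero M] (b : ℤ) :
    cz ((b : ℤ) : ZMod M) = Real.cos (2 * Real.pi * b / M) := by
  have hM : (M : ℝ) ≠ 0 := Nat.cast_ne_zero.2 (NeZero.ne M)
  have h1 : (((((b : ℤ) : ZMod M)).valMinAbs : ℤ) : ZMod M) = ((b : ℤ) : ZMod M) :=
    ZMod.coe_valMinAbs _
  obtain ⟨j, hj⟩ := (ZMod.intCast_eq_intCast_iff_dvd_sub _ _ _).1 h1
  have h2 : (b : ℝ) = ((((b : ℤ) : ZMod M)).valMinAbs : ℝ) + M * j := by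
    have h3 : b = (((b : ℤ) : ZMod M)).valMinAbs + M * j := by linarith
    exact_mod_cast h3
  unfold cz
  rw [h2, mul_add, add_div]
  have h4 : 2 * Real.pi * ((M : ℝ) * j) / M = j * (2 * Real.pi) := by
    field_simp
  rw [h4, Real.cos_add_int_mul_two_pi]

/-- PROOF. For a pair `(y, x')`, `x'` of level `i`, `x = toP (ℓ ^ (i + 1)) (ℓ • lft x')`:
`x * y = toP (ℓ ^ (i + 1)) (ℓ • (lft x' * lft y))` and `cz` of the class of `ℓ * b` modulo `ℓ ^ (i + 1)`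
is `cz` of the class of `b` modulo `ℓ ^ i` (`cos (2 π b / M)` depends only on the class of the integer `b`
modulo `M`). -/
theorem cw_smul {i : ℕ} (y : MonoidAlgebra (ZMod (ℓ ^ (i + 1))) G)
    (x : MonoidAlgebra (ZMod (ℓ ^ i)) G) :
    cw H (toP (ℓ ^ (i + 1)) ((ℓ : ℤ) • lft x) * y) = cw H (x * red (ℓ ^ i) y) := by
  have hℓ : (ℓ : ℝ) ≠ 0 := Nat.cast_ne_zero.2 (Fact.out : ℓ.Prime).ne_zero
  have h1 : toP (ℓ ^ (i + 1)) ((ℓ : ℤ) • lft x) * y
      = toP (ℓ ^ (i + 1)) ((ℓ : ℤ) • (lft x * lft y)) := by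
    rw [← smul_mul_assoc, map_mul, toP_lft]
  have h2 : x * red (ℓ ^ i) y = toP (ℓ ^ i) (lft x * lft y) := by
    rw [map_mul, toP_lft]
    rfl
  rw [h1, h2]
  unfold cw
  refine prod_congr rfl fun k _ => ?_
  rw [toP_coeff, toP_coeff, LvlA_cz, LvlA_cz]
  have h3 : (((ℓ : ℤ) • (lft x * lft y)).coeff (H.t k)⁻¹ : ℤ)
      = (ℓ : ℤ) * (lft x * lft y).coeff (H.t k)⁻¹ := rfl
  rw [h3]
  generalize (lft x * lft y).coeff (H.t k)⁻¹ = b
  congr 2
  push_cast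
  rw [pow_succ]
  field_simp

open Classical in
theorem LvlA_split (M : ℕ) [NeZero M] :
    Phi H ε M = Ps H ε M + ∑ y ∈ (lY (toP M ε)).filter Prm,
      ∑ x ∈ (rX (toP M ε)).filter (fun x => ¬ Prm x), cw H (x * y) := by
  have h1 : Ps H ε M = ∑ y ∈ (lY (toP M ε)).filter Prm,
      ∑ x ∈ (rX (toP M ε)).filter Prm, cw H (x * y) := by
    unfold Ps PP
    rw [filter_product, sum_product]
  rw [h1, ← sum_add_distrib]
  unfold Phi
  refine sum_congr rfl fun y _ => ?_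
  rw [sum_filter_add_sum_filter_not]

/-- PROOF. Split the sum over `x` into the primitive ones (they give `Ps`) and the others, for which
`sum_nonprm` (with `α = 1`, `β = ε`, `rX = Im 1 ε`, `map_one`) and `cw_smul` give
`∑ x' ∈ rX_i, cw (x' * red y)`; the number of the `y` over a given primitive `y'` of level `i` is
`ℓ ^ (f * N)` (`card_fib` with `α = ε`, `β = 1`, `B.cY`; `red y` is primitive iff `y` is, `prm_toP`). -/
theorem phi_step (B : Blk H ℓ m N f ε e) {i : ℕ} (hi : 1 ≤ i) (him : i + 1 ≤ m) :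
    Phi H ε (ℓ ^ (i + 1)) ≤ Ps H ε (ℓ ^ (i + 1)) + (ℓ : ℝ) ^ (f * N) * Phi H ε (ℓ ^ i) := by
  classical
  rw [LvlA_split]
  refine add_le_add le_rfl ?_
  have h1 : ∀ y : MonoidAlgebra (ZMod (ℓ ^ (i + 1))) G,
      ∑ x ∈ (rX (toP (ℓ ^ (i + 1)) ε)).filter (fun x => ¬ Prm x), cw H (x * y)
        = ∑ x ∈ rX (toP (ℓ ^ i) ε), cw H (x * red (ℓ ^ i) y) := by
    intro y
    have h2 := sum_nonprm (G := G) (ℓ := ℓ) (α := 1) (β := ε) hi (fun x => cw H (x * y))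
    rw [map_one, map_one] at h2
    unfold rX
    rw [h2]
    exact sum_congr rfl fun x _ => cw_smul y x
  have h3 : ∀ y ∈ (lY (toP (ℓ ^ (i + 1)) ε)).filter Prm,
      red (ℓ ^ i) y ∈ (lY (toP (ℓ ^ i) ε)).filter Prm := by
    intro y hy
    rw [mem_filter, mem_lY] at hy
    obtain ⟨a, rfl⟩ := toP_surj _ y
    rw [red_toP (pow_dvd_pow ℓ (Nat.le_succ i)), mem_filter, mem_lY]
    refine ⟨?_, ?_⟩
    · have h4 := hy.1
      rw [← map_mul] at h4 ⊢
      exact toP_of_le (Nat.le_succ i) h4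
    · exact (prm_toP hi a).2 ((prm_toP (Nat.le_add_left 1 i) a).1 hy.2)
  rw [sum_congr rfl fun y _ => h1 y, ← sum_fiberwise_of_maps_to h3]
  unfold Phi
  rw [mul_sum]
  refine sum_le_sum fun y' hy' => ?_
  have h5 : ∑ y ∈ ((lY (toP (ℓ ^ (i + 1)) ε)).filter Prm).filter (fun y => red (ℓ ^ i) y = y'),
      ∑ x ∈ rX (toP (ℓ ^ i) ε), cw H (x * red (ℓ ^ i) y)
      = ∑ y ∈ ((lY (toP (ℓ ^ (i + 1)) ε)).filter Prm).filter (fun y => red (ℓ ^ i) y = y'),
      ∑ x ∈ rX (toP (ℓ ^ i) ε), cw H (x * y') :=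
    sum_congr rfl fun y hy => by rw [(mem_filter.1 hy).2]
  rw [h5, sum_const, nsmul_eq_mul]
  refine mul_le_mul_of_nonneg_right ?_ (sum_nonneg fun x _ => cw_nonneg H _)
  have h6 : y' ∈ Im (toP (ℓ ^ i) ε) (toP (ℓ ^ i) 1) := by
    rw [map_one]
    exact (mem_filter.1 hy').1
  have h7 := card_fib B.idem (β := 1) (by rw [map_one, mul_one]) hi him h6
  have h8 : (((lY (toP (ℓ ^ (i + 1)) ε)).filter Prm).filter
      (fun y => red (ℓ ^ i) y = y')).card ≤ ℓ ^ (f * N) := by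
    rw [← B.cY]
    rw [map_one (toP ℓ)] at h7
    unfold lY at *
    rw [← h7, ← Set.ncard_coe_finset]
    refine Set.ncard_le_ncard ?_ (Set.toFinite _)
    intro y hy
    rw [mem_coe, mem_filter, mem_filter] at hy
    refine ⟨?_, hy.2⟩
    rw [map_one]
    exact hy.1.1
  exact_mod_cast h8

/-- PROOF. `x` is primitive or `x = 0` (`prm_toP`, `prm_iff`, `pow_one`); `cw 0 = 1`. -/
theorem phi_one (B : Blk H ℓ m N f ε e) :
    Phi H ε (ℓ ^ 1) ≤ Ps H ε (ℓ ^ 1) + (ℓ : ℝ) ^ (f * N) := by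
  classical
  rw [LvlA_split]
  refine add_le_add le_rfl ?_
  have h0 : ∀ x : MonoidAlgebra (ZMod (ℓ ^ 1)) G, ¬ Prm x → x = 0 := by
    intro x hx
    obtain ⟨a, rfl⟩ := exists_smul_of_not_prm le_rfl x hx
    apply ma_ext
    intro g
    rw [toP_coeff]
    have h3 : (((ℓ : ℤ) • a).coeff g : ℤ) = (ℓ : ℤ) * a.coeff g := rfl
    rw [h3]
    refine (ZMod.intCast_zmod_eq_zero_iff_dvd _ _).2 ?_
    rw [pow_one]
    exact dvd_mul_right _ _
  have h1 : ∀ y : MonoidAlgebra (ZMod (ℓ ^ 1)) G,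
      ∑ x ∈ (rX (toP (ℓ ^ 1) ε)).filter (fun x => ¬ Prm x), cw H (x * y) ≤ 1 := by
    intro y
    have h2 : (rX (toP (ℓ ^ 1) ε)).filter (fun x => ¬ Prm x) ⊆ {0} := by
      intro x hx
      rw [mem_singleton]
      exact h0 x (mem_filter.1 hx).2
    refine (sum_le_sum_of_subset_of_nonneg h2 fun x _ _ => cw_nonneg H _).trans ?_
    rw [sum_singleton, zero_mul]
    unfold cw cz
    refine le_of_eq (prod_eq_one fun k _ => ?_)
    have h3 : ((0 : MonoidAlgebra (ZMod (ℓ ^ 1)) G)).coeff (H.t k)⁻¹ = 0 := rfl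
    rw [h3, ZMod.valMinAbs_zero]
    simp
  refine (sum_le_sum fun y _ => h1 y).trans ?_
  rw [sum_const, nsmul_eq_mul, mul_one]
  have h4 := card_lvl B.idem (β := 1) (by rw [map_one, mul_one]) le_rfl B.m_pos
  rw [map_one, map_one] at h4
  have h5 : ((lY (toP (ℓ ^ 1) ε)).filter Prm).card ≤ ℓ ^ (f * N) := by
    refine (card_filter_le _ _).trans (le_of_eq ?_)
    have h6 := B.cY
    unfold lY at *
    rw [h4, h6, pow_one]
  exact_mod_cast h5

end Pool.MP43e44c.MD
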