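import Pool.Agent.H.MP_43e44c_ag.MD.Lvl

/-!
The idempotents of a block at all levels, odd elements.
-/

set_option autoImplicit false

open Finset Module

namespace Pool.MP43e44c.MD

open Pool.MP43e44c.OD Pool.MP43e44c.GA

universe u v

variable {G : Type u} [Group G] [Fintype G]
variable {ι : Type v} {H : Half G ι} [Fintype ι]

theorem toP_cc (M : ℕ) : toP M (H.cc ℤ) = H.cc (ZMod M) := by
  unfold Half.cc toP
  rw [MonoidAlgebra.mapRingHom_single, map_one]

theorem toP_el' (M : ℕ) (v : ι → Bool) : toP M (H.el ℤ v) = H.el (ZMod M) v := H.toP_el M v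

variable {ℓ m N f : ℕ} [Fact ℓ.Prime] {ε : MonoidAlgebra ℤ G} {e : MonoidAlgebra (ZMod ℓ) G}

/-- `toP_of_le` for `ε * ε` and `ε`. -/
theorem Blk.idem_i (B : Blk H ℓ m N f ε e) {i : ℕ} (hi : i ≤ m) :
    toP (ℓ ^ i) ε * toP (ℓ ^ i) ε = toP (ℓ ^ i) ε := by
  have h := B.idem
  rw [← map_mul] at h ⊢
  exact toP_of_le hi h

theorem Blk.idem_one (B : Blk H ℓ m N f ε e) : toP ℓ ε * toP ℓ ε = toP ℓ ε := by
  have h := B.idem
  rw [← map_mul] at h ⊢
  exact toP_one_of_le B.m_pos h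

/-- `toP_of_le` for `ε * cc` and `- ε`. -/
theorem Blk.odd_i (B : Blk H ℓ m N f ε e) {i : ℕ} (hi : i ≤ m) :
    toP (ℓ ^ i) ε * H.cc _ = -toP (ℓ ^ i) ε := by
  have h := B.odd
  rw [← toP_cc, ← map_mul, ← map_neg] at h ⊢
  exact toP_of_le hi h

theorem Blk.odd_one (B : Blk H ℓ m N f ε e) : toP ℓ ε * H.cc _ = -toP ℓ ε := by
  have h := B.odd
  rw [← toP_cc, ← map_mul, ← map_neg] at h ⊢
  exact toP_one_of_le B.m_pos h

theorem LvlC_cc_comm {R : Type*} [CommRing R] (w : MonoidAlgebra R G) :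
    w * H.cc R = H.cc R * w := by
  unfold Half.cc
  induction w using MonoidAlgebra.induction_linear with
  | zero => rw [zero_mul, mul_zero]
  | add a b ha hb => rw [add_mul, mul_add, ha, hb]
  | single g r =>
    rw [MonoidAlgebra.single_mul_single, MonoidAlgebra.single_mul_single, H.cen, mul_one, one_mul]

/-- `cc` is central: `w * cc = ε * w * cc = ε * cc * w = - w`. -/
theorem odd_of_lY {M : ℕ} {η w : MonoidAlgebra (ZMod M) G} (hη : η * H.cc _ = -η)
    (hw : η * w = w) : w * H.cc _ = -w := by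
  calc w * H.cc _ = η * w * H.cc _ := by rw [hw]
    _ = η * H.cc _ * w := by rw [mul_assoc, LvlC_cc_comm, mul_assoc]
    _ = -w := by rw [hη, neg_mul, hw]

/-- The coefficients of an odd element: `w.coeff (g * c) = - w.coeff g` and
`w.coeff (c * g) = - w.coeff g`. -/
theorem coeff_odd {M : ℕ} {w : MonoidAlgebra (ZMod M) G} (hw : w * H.cc _ = -w) (g : G) :
    w.coeff (g * H.c) = -w.coeff g := by
  have h1 := congrArg (fun z => z.coeff (g * H.c)) hw
  have h2 : (w * H.cc (ZMod M)).coeff (g * H.c) = w.coeff g := by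
    unfold Half.cc
    rw [MonoidAlgebra.coeff_mul_single_apply, mul_one, mul_inv_cancel_right]
  have h3 : (-w).coeff (g * H.c) = -w.coeff (g * H.c) := rfl
  rw [h2, h3] at h1
  rw [h1, neg_neg]

theorem coeff_mul_single {M : ℕ} (w : MonoidAlgebra (ZMod M) G) (h g : G) :
    (MonoidAlgebra.single h 1 * w).coeff g = w.coeff (h⁻¹ * g) := by
  rw [MonoidAlgebra.coeff_single_mul_apply, one_mul]


end Pool.MP43e44c.MD
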