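import Pool.Agent.H.MP_43e44c_ag.MD.NumD

/-!
Numerical part, power saving.
-/

set_option autoImplicit false

open Finset

namespace Pool.MP43e44c.MD

/-- Large `n`. -/
theorem numA_large : ∃ n₀ : ℕ, ∀ n : ℕ, n₀ ≤ n →
    240 * (Real.log n) ^ 2 ≤ (n : ℝ) ^ (1 / 300 : ℝ) ∧ 1 ≤ Real.log n ∧ (3 : ℝ) ≤ n := by
  have h1 := (isLittleO_log_rpow_rpow_atTop (s := (1 / 300 : ℝ)) 2 (by norm_num)).bound
    (show (0 : ℝ) < 1 / 240 by norm_num)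
  have h2 := (tendsto_natCast_atTop_atTop (R := ℝ)).eventually h1
  have h3 : ∀ᶠ n : ℕ in Filter.atTop, 1 ≤ Real.log n :=
    (Real.tendsto_log_atTop.comp (tendsto_natCast_atTop_atTop (R := ℝ))).eventually
      (Filter.eventually_ge_atTop 1)
  have h4 := (h2.and h3).and (Filter.eventually_ge_atTop 3)
  obtain ⟨n₀, hn₀⟩ := Filter.eventually_atTop.1 h4
  refine ⟨n₀, fun n hn => ?_⟩
  obtain ⟨⟨ha, hb⟩, hc⟩ := hn₀ n hn
  have hc' : (3 : ℝ) ≤ n := by exact_mod_cast hc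
  refine ⟨?_, hb, hc'⟩
  rw [Real.norm_of_nonneg (by positivity), Real.norm_of_nonneg (by positivity)] at ha
  rw [Real.rpow_two] at ha
  linarith

/-- The bound for `Q`. -/
theorem numA_Q {x ℓ N f k L : ℝ} (hx : 3 ≤ x) (hL1 : 1 ≤ L) (hLx : L = Real.log x)
    (hbig : 240 * L ^ 2 ≤ x ^ (1 / 300 : ℝ)) (hℓ : 3 ≤ ℓ) (hf : 1 ≤ f) (hf2 : f ≤ 2)
    (hN : 100 ≤ N) (hNx : N ≤ x ^ (3 / 1000 : ℝ)) (hℓx : ℓ ≤ x ^ (1 / 600 : ℝ))
    (hk : k ≤ f ^ 2 * N ^ 4 * Real.log ℓ + 2) (hk0 : 0 ≤ k) :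
    10 * ℓ ^ 4 * k * (2 * (f * N) * L) ≤ x ^ (1 / 40 : ℝ) := by
  have hx0 : 0 < x := by linarith
  have hlog : Real.log ℓ ≤ L / 600 := by
    have := Real.log_le_log (by linarith) hℓx
    rw [Real.log_rpow hx0, ← hLx] at this
    linarith
  have hlog0 : 0 ≤ Real.log ℓ := Real.log_nonneg (by linarith)
  have h4 : ℓ ^ 4 ≤ x ^ (4 / 600 : ℝ) := by
    calc ℓ ^ 4 ≤ (x ^ (1 / 600 : ℝ)) ^ 4 := pow_le_pow_left₀ (by linarith) hℓx 4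
      _ = x ^ (4 / 600 : ℝ) := by
        rw [← Real.rpow_natCast, ← Real.rpow_mul hx0.le]; norm_num
  have hN4 : N ^ 4 ≤ x ^ (12 / 1000 : ℝ) := by
    calc N ^ 4 ≤ (x ^ (3 / 1000 : ℝ)) ^ 4 := pow_le_pow_left₀ (by linarith) hNx 4
      _ = x ^ (12 / 1000 : ℝ) := by
        rw [← Real.rpow_natCast, ← Real.rpow_mul hx0.le]; norm_num
  have h1 : 1 ≤ x ^ (12 / 1000 : ℝ) := Real.one_le_rpow (by linarith) (by norm_num)
  have hkk : k ≤ 6 * x ^ (12 / 1000 : ℝ) * L := by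
    have hf4 : f ^ 2 ≤ 4 := by nlinarith
    have h5 : f ^ 2 * N ^ 4 * Real.log ℓ ≤ 4 * x ^ (12 / 1000 : ℝ) * L := by
      have : f ^ 2 * N ^ 4 ≤ 4 * x ^ (12 / 1000 : ℝ) :=
        mul_le_mul hf4 hN4 (by positivity) (by norm_num)
      exact mul_le_mul this (by linarith) hlog0 (by positivity)
    have h6 : (2 : ℝ) ≤ 2 * x ^ (12 / 1000 : ℝ) * L := by
      have : 1 ≤ x ^ (12 / 1000 : ℝ) * L := one_le_mul_of_one_le_of_one_le h1 hL1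
      linarith
    linarith
  have hE : 2 * (f * N) * L ≤ 4 * x ^ (3 / 1000 : ℝ) * L := by
    have : f * N ≤ 2 * x ^ (3 / 1000 : ℝ) := mul_le_mul hf2 hNx (by linarith) (by norm_num)
    nlinarith
  have hE0 : 0 ≤ 2 * (f * N) * L := by
    have : 0 ≤ f * N := by nlinarith
    nlinarith
  have h7 : 10 * ℓ ^ 4 * k ≤ 10 * x ^ (4 / 600 : ℝ) * (6 * x ^ (12 / 1000 : ℝ) * L) := by
    apply mul_le_mul _ hkk hk0 (by positivity)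
    linarith
  calc 10 * ℓ ^ 4 * k * (2 * (f * N) * L)
      ≤ 10 * x ^ (4 / 600 : ℝ) * (6 * x ^ (12 / 1000 : ℝ) * L) * (4 * x ^ (3 / 1000 : ℝ) * L) := by
        apply mul_le_mul h7 hE hE0 (by positivity)
    _ = 240 * L ^ 2 * (x ^ (4 / 600 : ℝ) * x ^ (12 / 1000 : ℝ) * x ^ (3 / 1000 : ℝ)) := by ring
    _ ≤ x ^ (1 / 300 : ℝ) * (x ^ (4 / 600 : ℝ) * x ^ (12 / 1000 : ℝ) * x ^ (3 / 1000 : ℝ)) := by
        apply mul_le_mul_of_nonneg_right hbig (by positivity)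
    _ = x ^ (1 / 40 : ℝ) := by
        rw [← Real.rpow_add hx0, ← Real.rpow_add hx0, ← Real.rpow_add hx0]; norm_num

/-- The final inequality; `A = ℓ ^ i`, `T = ℓ ^ t`, `R = ℓ ^ b`. -/
theorem numA_final {x Q A T U V : ℝ} {d : ℕ} (hx : 3 ≤ x) (hd : 100 ≤ d)
    (hQ0 : 0 ≤ Q) (hQ : Q ≤ x ^ (1 / 40 : ℝ)) (hA0 : 0 < A) (hA : A ≤ x ^ (41 / 40 : ℝ))
    (hT1 : 1 ≤ T) (hTQ : x ≤ T ^ 2 * Q) (hTx : T ^ 2 ≤ x)
    (hU1 : 1 ≤ U) (hV1 : 1 ≤ V)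
    (hU : (A / T) ^ ((d : ℝ) / 5) ≤ U) (hV : x ^ ((3 / 40 : ℝ) * d) ≤ V) :
    2 * x * (A / T ^ 2) ^ d * (1 / U + 2 / V) ≤ 6 * x ^ (-(3 / 2) : ℝ) := by
  have hx0 : 0 < x := by linarith
  have hx1 : 1 < x := by linarith
  have hdR : (100 : ℝ) ≤ d := by exact_mod_cast hd
  have hT0 : 0 < T := by linarith
  have hT2 : 0 < T ^ 2 := by positivity
  have hAT : A / T ^ 2 ≤ A * Q / x := by
    rw [div_le_div_iff₀ hT2 hx0]
    calc A * x ≤ A * (T ^ 2 * Q) := mul_le_mul_of_nonneg_left hTQ hA0.le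
      _ = A * Q * T ^ 2 := by ring
  have hU0 : 0 < U := by linarith
  have hV0 : 0 < V := by linarith
  have key1 : x * x ^ (-(5 / 2) : ℝ) = x ^ (-(3 / 2) : ℝ) := by
    nth_rewrite 1 [← Real.rpow_one x]
    rw [← Real.rpow_add hx0]; norm_num
  rcases le_or_gt A (x ^ (19 / 20 : ℝ)) with hc | hc
  · have h1 : A / T ^ 2 ≤ x ^ (-(1 / 40) : ℝ) := by
      refine hAT.trans ?_
      rw [div_le_iff₀ hx0]
      calc A * Q ≤ x ^ (19 / 20 : ℝ) * x ^ (1 / 40 : ℝ) := mul_le_mul hc hQ hQ0 (by positivity)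
        _ = x ^ (-(1 / 40) : ℝ) * x := by
          nth_rewrite 4 [← Real.rpow_one x]
          rw [← Real.rpow_add hx0, ← Real.rpow_add hx0]; norm_num
    have h2 : (A / T ^ 2) ^ d ≤ x ^ (-(5 / 2) : ℝ) := by
      calc (A / T ^ 2) ^ d ≤ (x ^ (-(1 / 40) : ℝ)) ^ d := pow_le_pow_left₀ (by positivity) h1 d
        _ = x ^ (-(1 / 40) * (d : ℝ) : ℝ) := by
          rw [← Real.rpow_natCast, ← Real.rpow_mul hx0.le]
        _ ≤ x ^ (-(5 / 2) : ℝ) := Real.rpow_le_rpow_of_exponent_le hx1.le (by linarith)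
    have h3 : 1 / U + 2 / V ≤ 3 := by
      have : 1 / U ≤ 1 := by rw [div_le_one hU0]; exact hU1
      have : 2 / V ≤ 2 := by rw [div_le_iff₀ hV0]; linarith
      linarith
    calc 2 * x * (A / T ^ 2) ^ d * (1 / U + 2 / V)
        ≤ 2 * x * x ^ (-(5 / 2) : ℝ) * 3 := by
          apply mul_le_mul _ h3 (by positivity) (by positivity)
          exact mul_le_mul_of_nonneg_left h2 (by positivity)
      _ = 6 * (x * x ^ (-(5 / 2) : ℝ)) := by ring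
      _ = 6 * x ^ (-(3 / 2) : ℝ) := by rw [key1]
  · have h1 : A / T ^ 2 ≤ x ^ (1 / 20 : ℝ) := by
      refine hAT.trans ?_
      rw [div_le_iff₀ hx0]
      calc A * Q ≤ x ^ (41 / 40 : ℝ) * x ^ (1 / 40 : ℝ) := mul_le_mul hA hQ hQ0 (by positivity)
        _ = x ^ (1 / 20 : ℝ) * x := by
          nth_rewrite 4 [← Real.rpow_one x]
          rw [← Real.rpow_add hx0, ← Real.rpow_add hx0]; norm_num
    have h2 : (A / T ^ 2) ^ d ≤ x ^ ((1 / 20) * (d : ℝ) : ℝ) := by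
      calc (A / T ^ 2) ^ d ≤ (x ^ (1 / 20 : ℝ)) ^ d := pow_le_pow_left₀ (by positivity) h1 d
        _ = x ^ ((1 / 20) * (d : ℝ) : ℝ) := by
          rw [← Real.rpow_natCast, ← Real.rpow_mul hx0.le]
    have hTs : T ≤ x ^ (1 / 2 : ℝ) := by
      rw [← Real.sqrt_eq_rpow]
      exact Real.le_sqrt_of_sq_le hTx
    have hR : x ^ (9 / 20 : ℝ) ≤ A / T := by
      rw [le_div_iff₀ hT0]
      calc x ^ (9 / 20 : ℝ) * T ≤ x ^ (9 / 20 : ℝ) * x ^ (1 / 2 : ℝ) :=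
            mul_le_mul_of_nonneg_left hTs (by positivity)
        _ = x ^ (19 / 20 : ℝ) := by rw [← Real.rpow_add hx0]; norm_num
        _ ≤ A := hc.le
    have hU' : x ^ ((9 / 100) * (d : ℝ) : ℝ) ≤ U := by
      calc x ^ ((9 / 100) * (d : ℝ) : ℝ) = (x ^ (9 / 20 : ℝ)) ^ ((d : ℝ) / 5) := by
            rw [← Real.rpow_mul hx0.le]; congr 1; ring
        _ ≤ (A / T) ^ ((d : ℝ) / 5) :=
            Real.rpow_le_rpow (by positivity) hR (by positivity)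
        _ ≤ U := hU
    have hUi : 1 / U ≤ x ^ (-((9 / 100) * (d : ℝ)) : ℝ) := by
      rw [Real.rpow_neg hx0.le, ← one_div]
      exact one_div_le_one_div_of_le (by positivity) hU'
    have hVi : 2 / V ≤ 2 * x ^ (-((3 / 40) * (d : ℝ)) : ℝ) := by
      rw [Real.rpow_neg hx0.le, ← div_eq_mul_inv]
      exact div_le_div_of_nonneg_left (by norm_num) (by positivity) hV
    have h3 : (A / T ^ 2) ^ d * (1 / U + 2 / V) ≤ 3 * x ^ (-(5 / 2) : ℝ) := by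
      calc (A / T ^ 2) ^ d * (1 / U + 2 / V)
          ≤ x ^ ((1 / 20) * (d : ℝ) : ℝ) *
            (x ^ (-((9 / 100) * (d : ℝ)) : ℝ) + 2 * x ^ (-((3 / 40) * (d : ℝ)) : ℝ)) := by
            apply mul_le_mul h2 (by linarith) (by positivity) (by positivity)
        _ = x ^ ((1 / 20) * (d : ℝ) + -((9 / 100) * (d : ℝ)) : ℝ) +
            2 * x ^ ((1 / 20) * (d : ℝ) + -((3 / 40) * (d : ℝ)) : ℝ) := by
            rw [Real.rpow_add hx0, Real.rpow_add hx0]; ring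
        _ ≤ x ^ (-(5 / 2) : ℝ) + 2 * x ^ (-(5 / 2) : ℝ) := by
            apply add_le_add
            · exact Real.rpow_le_rpow_of_exponent_le hx1.le (by linarith)
            · exact mul_le_mul_of_nonneg_left
                (Real.rpow_le_rpow_of_exponent_le hx1.le (by linarith)) (by norm_num)
        _ = 3 * x ^ (-(5 / 2) : ℝ) := by ring
    calc 2 * x * (A / T ^ 2) ^ d * (1 / U + 2 / V)
        = 2 * x * ((A / T ^ 2) ^ d * (1 / U + 2 / V)) := by ring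
      _ ≤ 2 * x * (3 * x ^ (-(5 / 2) : ℝ)) := mul_le_mul_of_nonneg_left h3 (by positivity)
      _ = 6 * (x * x ^ (-(5 / 2) : ℝ)) := by ring
      _ = 6 * x ^ (-(3 / 2) : ℝ) := by rw [key1]

theorem numA_sq {l : ℝ} (hl : 3 ≤ l) : 9 ≤ l ^ 2 := by nlinarith

theorem numA_dk {d k l : ℝ} (hl : 3 ≤ l) (hk : 0 < k) (hdk : d ≤ k) :
    8 * d < 10 * l ^ 2 * k := by
  have h1 : 90 * k ≤ 10 * l ^ 2 * k := by
    apply mul_le_mul_of_nonneg_right _ hk.le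
    linarith [numA_sq hl]
  linarith

theorem numA_kappa {κ k l : ℝ} (hl : 3 ≤ l) (hk : 100 ≤ k) (h0 : 0 < κ)
    (h : 10 * l ^ 2 * κ * k = 1) : κ ≤ 1 := by
  have h1 : 1 ≤ 10 * l ^ 2 * k := by
    have h2 : (9 : ℝ) * 100 ≤ l ^ 2 * k :=
      mul_le_mul (numA_sq hl) hk (by norm_num) (by positivity)
    linarith
  calc κ = κ * 1 := (mul_one κ).symm
    _ ≤ κ * (10 * l ^ 2 * k) := mul_le_mul_of_nonneg_left h1 h0.le
    _ = 10 * l ^ 2 * κ * k := by ring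
    _ = 1 := h

theorem numA_fN {f N : ℕ} (hf : 1 ≤ f) (hN : 100 ≤ N) : 100 ≤ f * N :=
  calc 100 ≤ N := hN
    _ = 1 * N := (one_mul N).symm
    _ ≤ f * N := Nat.mul_le_mul_right N hf

theorem numA_r1 {N r : ℕ} (h : 4 * r ≤ N) : 2 * N * r ≤ N * N := by
  calc 2 * N * r = N * (2 * r) := by ring
    _ ≤ N * N := Nat.mul_le_mul_left N (by omega)

theorem numA_r2 {N r : ℝ} (hN : 0 ≤ N) (h : 4 * r ≤ N) : N * N / 2 ≤ N * N - 2 * N * r := by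
  have h1 : N * (4 * r) ≤ N * N := mul_le_mul_of_nonneg_left h hN
  linarith [h1, show N * (4 * r) = 4 * (N * r) by ring, show 2 * N * r = 2 * (N * r) by ring]

theorem numA_r3 {f N r : ℝ} (hf : 0 ≤ f) (h : N ≤ 5 * r) : f * N / 5 ≤ f * r := by
  have h1 : f * N ≤ f * (5 * r) := mul_le_mul_of_nonneg_left h hf
  linarith [h1, show f * (5 * r) = 5 * (f * r) by ring]

/-- PROOF. Let `d = f N`, `E = 2 d log n`, `k₀` an even integer with `f ^ 2 N ^ 4 log ℓ ≤ k₀ ≤ f ^ 2 N ^ 4 log ℓ + 2`,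
`κ = 1 / (10 ℓ ^ 2 k₀)`, `Q = 10 ℓ ^ 4 k₀ E`.  For large `n`, `Q ≤ n ^ (1/40)`: `ℓ ^ 4 ≤ n ^ (4/600)`,
`k₀ ≤ 16 n ^ (12/1000) log n`, `E ≤ 4 n ^ (3/1000) log n`, and `4/600 + 15/1000 < 1/40`.
If `d ℓ ^ (2 i) E < n` then `NN i E = 0` (`vanish`).  Otherwise let `t` be maximal with
`ℓ ^ (2 t) E ≤ κ n` (`E ≤ κ n` for large `n`; `exists_nat_pow_near` for `ℓ ^ 2` and `κ n / E`); `8 d κ < 1` as `d ≤ k₀`,
`ℓ ≥ 3`.  If `i ≤ t` then `n ≤ d ℓ ^ (2 i) E ≤ d κ n < n`; so `t < i`.  With `b = i - t`, `iter`, `mono`,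
`baseA` (`r = N / 4`, natural division, `5 r ≥ N` as `N ≥ 100`):
`NN i E ≤ ℓ ^ (f t) * 2 ℓ ^ (2 d b) (ℓ ^ (- f r b) + 2 ℓ ^ (- f (N N - 2 N r)))`.
Divide by `ℓ ^ (d i)`: the bound is `2 ℓ ^ (f t) ℓ ^ (d i) ℓ ^ (- 2 d t) (…)`, and
`ℓ ^ (2 t) ≥ κ n / (ℓ ^ 2 E) = n / Q`, `ℓ ^ (f t) ≤ ℓ ^ (2 t) ≤ n`; with `A = ℓ ^ i ≤ n ^ (41/40)`:
bound `≤ 2 n (A Q / n) ^ d (…)`.
(1) `A ≤ n ^ (19/20)`: `(A Q / n) ^ d ≤ n ^ (- d / 40) ≤ n ^ (- 5/2)` and `(…) ≤ 3`.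
(2) `A > n ^ (19/20)`: `(A Q / n) ^ d ≤ n ^ (d / 20)`; `ℓ ^ b = A / ℓ ^ t ≥ n ^ (19/20 - 1/2)`, so
`ℓ ^ (- f r b) ≤ n ^ (- (9/20) (d / 5)) = n ^ (- 9 d / 100)`; `ℓ ^ (f (N N - 2 N r)) ≥ (ℓ ^ N) ^ (d / 2) ≥ n ^ (3 d / 40)`.
So the bound is at most `2 n (n ^ (- d / 25) + 2 n ^ (- d / 40)) ≤ 6 n ^ (1 - 5/2)`, as `d ≥ 100`. -/
theorem numA_level : ∃ n₀ : ℕ, ∀ {n ℓ m N f i : ℕ} {NN : ℕ → ℝ → ℝ}, n₀ ≤ n →
    NumH ℓ m N f n NN → 3 ≤ ℓ → 1 ≤ f → f ≤ 2 → 100 ≤ N → (N : ℝ) ≤ (n : ℝ) ^ (3 / 1000 : ℝ) →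
    (n : ℝ) ^ (3 / 20 : ℝ) ≤ (ℓ : ℝ) ^ N → (ℓ : ℝ) ≤ (n : ℝ) ^ (1 / 600 : ℝ) →
    (ℓ : ℝ) ^ i ≤ (n : ℝ) ^ (41 / 40 : ℝ) → 1 ≤ i → i ≤ m →
    NN i (2 * (f * N : ℝ) * Real.log n) / ((ℓ : ℝ) ^ (f * N)) ^ i
      ≤ 6 * (n : ℝ) ^ (-(3 / 2) : ℝ) := by
  obtain ⟨n₀, hn₀⟩ := numA_large
  refine ⟨n₀, ?_⟩
  intro n ℓ m N f i NN hn H hℓ hf1 hf2 hN hNx hℓN hℓx hA hi him
  obtain ⟨hbig, hL1, hx3⟩ := hn₀ n hn
  have hx0 : (0 : ℝ) < n := by linarith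
  have hℓR : (3 : ℝ) ≤ ℓ := by exact_mod_cast hℓ
  have hℓ1 : (1 : ℝ) ≤ ℓ := by linarith
  have hℓ0 : (0 : ℝ) < ℓ := by linarith
  have hfR1 : (1 : ℝ) ≤ f := by exact_mod_cast hf1
  have hfR2 : (f : ℝ) ≤ 2 := by exact_mod_cast hf2
  have hNR : (100 : ℝ) ≤ N := by exact_mod_cast hN
  have hfN : (100 : ℝ) ≤ f * N := by
    have := numA_fN hf1 hN
    exact_mod_cast this
  obtain ⟨E, hE⟩ : ∃ E : ℝ, E = 2 * (f * N : ℝ) * Real.log n := ⟨_, rfl⟩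
  rw [← hE]
  have hE1 : 1 ≤ E := by
    rw [hE]
    exact one_le_mul_of_one_le_of_one_le (by linarith) hL1
  have hE0 : 0 < E := by linarith
  have hlog1 : 1 ≤ Real.log ℓ := by
    rw [Real.le_log_iff_exp_le hℓ0]
    linarith [Real.exp_one_lt_d9]
  obtain ⟨y, hy⟩ : ∃ y : ℝ, y = (f : ℝ) ^ 2 * (N : ℝ) ^ 4 * Real.log ℓ := ⟨_, rfl⟩
  have hfNy : (f : ℝ) * N ≤ y := by
    have h1 : (f : ℝ) * N ≤ (f : ℝ) ^ 2 * (N : ℝ) ^ 4 := by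
      have h2 : (f : ℝ) ≤ (f : ℝ) ^ 2 := le_self_pow₀ hfR1 (by norm_num)
      have h3 : (N : ℝ) ≤ (N : ℝ) ^ 4 := by
        have : (1 : ℝ) ≤ (N : ℝ) := by linarith
        exact le_self_pow₀ this (by norm_num)
      exact mul_le_mul h2 h3 (by linarith) (by positivity)
    rw [hy]
    calc (f : ℝ) * N ≤ (f : ℝ) ^ 2 * (N : ℝ) ^ 4 := h1
      _ ≤ (f : ℝ) ^ 2 * (N : ℝ) ^ 4 * Real.log ℓ := le_mul_of_one_le_right (by positivity) hlog1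
  have hy0 : 0 ≤ y := by linarith
  obtain ⟨k, hk⟩ : ∃ k : ℕ, k = 2 * ⌈y / 2⌉₊ := ⟨_, rfl⟩
  have hk1 : y ≤ k := by
    rw [hk]; push_cast
    have := Nat.le_ceil (y / 2)
    linarith
  have hk2 : (k : ℝ) ≤ y + 2 := by
    rw [hk]; push_cast
    have := Nat.ceil_lt_add_one (show 0 ≤ y / 2 by linarith)
    linarith
  have hkeven : Even k := by rw [hk]; exact even_two_mul _
  have hkR : (100 : ℝ) ≤ k := by linarith
  have hk0 : (0 : ℝ) < k := by linarith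
  have hkN : 1 ≤ k := by
    have : (1 : ℝ) ≤ k := by linarith
    exact_mod_cast this
  obtain ⟨Q, hQ⟩ : ∃ Q : ℝ, Q = 10 * (ℓ : ℝ) ^ 4 * k * E := ⟨_, rfl⟩
  have hQle : Q ≤ (n : ℝ) ^ (1 / 40 : ℝ) := by
    rw [hQ, hE]
    exact numA_Q hx3 hL1 rfl hbig hℓR hfR1 hfR2 hNR hNx hℓx (by rw [← hy]; exact hk2) hk0.le
  have hQ0 : 0 ≤ Q := by rw [hQ]; positivity
  obtain ⟨κ, hκ⟩ : ∃ κ : ℝ, κ = 1 / (10 * (ℓ : ℝ) ^ 2 * k) := ⟨_, rfl⟩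
  have hden : 0 < 10 * (ℓ : ℝ) ^ 2 * k := by positivity
  have hκ0 : 0 < κ := by rw [hκ]; positivity
  have hκe : 10 * (ℓ : ℝ) ^ 2 * κ * k = 1 := by
    rw [hκ]; field_simp
  have hℓ2 : (9 : ℝ) ≤ (ℓ : ℝ) ^ 2 := numA_sq hℓR
  have hdκ : 8 * (f * N : ℝ) * κ < 1 := by
    rw [hκ, mul_one_div, div_lt_one hden]
    exact numA_dk hℓR hk0 (hfNy.trans hk1)
  have hκ1 : κ ≤ 1 := numA_kappa hℓR hkR hκ0 hκe
  by_cases hv : (f * N : ℝ) * (ℓ : ℝ) ^ (2 * i) * E < n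
  · rw [H.vanish i E hi him hE0.le hv, zero_div]
    positivity
  · rw [not_lt] at hv
    have hxx : (n : ℝ) ^ (1 / 40 : ℝ) ≤ n := by
      calc (n : ℝ) ^ (1 / 40 : ℝ) ≤ (n : ℝ) ^ (1 : ℝ) :=
            Real.rpow_le_rpow_of_exponent_le (by linarith) (by norm_num)
        _ = n := Real.rpow_one _
    have hone : 1 ≤ κ * n / E := by
      rw [le_div_iff₀ hE0, one_mul, hκ, one_div_mul_eq_div, le_div_iff₀ hden]
      have h1 : E * (10 * (ℓ : ℝ) ^ 2 * k) ≤ Q := by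
        rw [hQ]
        have h2 : (ℓ : ℝ) ^ 2 ≤ (ℓ : ℝ) ^ 4 := pow_le_pow_right₀ hℓ1 (by norm_num)
        calc E * (10 * (ℓ : ℝ) ^ 2 * k) = 10 * k * E * (ℓ : ℝ) ^ 2 := by ring
          _ ≤ 10 * k * E * (ℓ : ℝ) ^ 4 := mul_le_mul_of_nonneg_left h2 (by positivity)
          _ = 10 * (ℓ : ℝ) ^ 4 * k * E := by ring
      linarith
    obtain ⟨t, ht1, ht2⟩ := exists_nat_pow_near hone (show (1 : ℝ) < (ℓ : ℝ) ^ 2 by linarith)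
    rw [← pow_mul, le_div_iff₀ hE0] at ht1
    rw [div_lt_iff₀ hE0] at ht2
    -- `t < i`
    have hti : t < i := by
      by_contra hcon
      rw [not_lt] at hcon
      have h1 : (ℓ : ℝ) ^ (2 * i) ≤ (ℓ : ℝ) ^ (2 * t) :=
        pow_le_pow_right₀ hℓ1 (by omega)
      have h2 : (f * N : ℝ) * (ℓ : ℝ) ^ (2 * i) * E ≤ (f * N : ℝ) * (κ * n) := by
        calc (f * N : ℝ) * (ℓ : ℝ) ^ (2 * i) * E = (f * N : ℝ) * ((ℓ : ℝ) ^ (2 * i) * E) := by ring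
          _ ≤ (f * N : ℝ) * ((ℓ : ℝ) ^ (2 * t) * E) := by gcongr
          _ ≤ (f * N : ℝ) * (κ * n) := by gcongr
      have h3 : (f * N : ℝ) * (κ * n) < n := by
        have h4 : (f * N : ℝ) * κ < 1 := by
          have : 0 ≤ (f * N : ℝ) * κ := by positivity
          linarith
        calc (f * N : ℝ) * (κ * n) = (f * N : ℝ) * κ * n := by ring
          _ < 1 * n := mul_lt_mul_of_pos_right h4 hx0
          _ = n := one_mul _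
      linarith
    have hcond : 8 * (f * N : ℝ) * (ℓ : ℝ) ^ (2 * t) * E < n := by
      calc 8 * (f * N : ℝ) * (ℓ : ℝ) ^ (2 * t) * E = 8 * (f * N : ℝ) * ((ℓ : ℝ) ^ (2 * t) * E) := by
            ring
        _ ≤ 8 * (f * N : ℝ) * (κ * n) := by gcongr
        _ = 8 * (f * N : ℝ) * κ * n := by ring
        _ < 1 * n := mul_lt_mul_of_pos_right hdκ hx0
        _ = n := one_mul _
    have hiter := H.iter i t E hti him hE0.le hcond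
    have hmono := H.mono (i - t) ((ℓ : ℝ) ^ (2 * t) * E) (κ * n) ht1
    have hbase := H.baseA (i - t) k (N / 4) κ (by omega) (by omega) hkeven hkN
      (by rw [← hy]; exact hk1) hκ0.le hκe.le (by omega)
    obtain ⟨b, hb⟩ : ∃ b : ℕ, b = i - t := ⟨_, rfl⟩
    rw [← hb] at hiter hmono hbase
    have hib : i = b + t := by omega
    obtain ⟨r, hr⟩ : ∃ r : ℕ, r = N / 4 := ⟨_, rfl⟩
    rw [← hr] at hbase
    have hr4 : 4 * r ≤ N := by omega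
    have hr5 : N ≤ 5 * r := by omega
    have hr4R : 4 * (r : ℝ) ≤ N := by exact_mod_cast hr4
    have hr5R : (N : ℝ) ≤ 5 * r := by exact_mod_cast hr5
    obtain ⟨T, hT⟩ : ∃ T : ℝ, T = (ℓ : ℝ) ^ t := ⟨_, rfl⟩
    have hT1 : 1 ≤ T := by rw [hT]; exact one_le_pow₀ hℓ1
    have hT0 : 0 < T := by linarith
    have hT2 : T ^ 2 = (ℓ : ℝ) ^ (2 * t) := by rw [hT, ← pow_mul, mul_comm]
    have hB0 : (0 : ℝ) < (ℓ : ℝ) ^ b := by positivity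
    have hAeq : (ℓ : ℝ) ^ i = (ℓ : ℝ) ^ b * T := by rw [hib, pow_add, hT]
    have hTx : T ^ 2 ≤ n := by
      rw [hT2]
      calc (ℓ : ℝ) ^ (2 * t) = (ℓ : ℝ) ^ (2 * t) * 1 := by ring
        _ ≤ (ℓ : ℝ) ^ (2 * t) * E := by gcongr
        _ ≤ κ * n := ht1
        _ ≤ 1 * n := by gcongr
        _ = n := one_mul _
    have hTQ : (n : ℝ) ≤ T ^ 2 * Q := by
      have h1 : κ * n < T ^ 2 * (ℓ : ℝ) ^ 2 * E := by
        have : ((ℓ : ℝ) ^ 2) ^ (t + 1) = T ^ 2 * (ℓ : ℝ) ^ 2 := by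
          rw [pow_succ, ← pow_mul, hT2]
        rw [← this]; exact ht2
      have h2 : (n : ℝ) = 10 * (ℓ : ℝ) ^ 2 * k * (κ * n) := by
        calc (n : ℝ) = (10 * (ℓ : ℝ) ^ 2 * κ * k) * n := by rw [hκe, one_mul]
          _ = 10 * (ℓ : ℝ) ^ 2 * k * (κ * n) := by ring
      rw [h2, hQ]
      calc 10 * (ℓ : ℝ) ^ 2 * k * (κ * n) ≤ 10 * (ℓ : ℝ) ^ 2 * k * (T ^ 2 * (ℓ : ℝ) ^ 2 * E) :=
            mul_le_mul_of_nonneg_left h1.le hden.le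
        _ = T ^ 2 * (10 * (ℓ : ℝ) ^ 4 * k * E) := by ring
    have hfin := numA_final (x := (n : ℝ)) (Q := Q) (A := (ℓ : ℝ) ^ i) (T := T)
      (U := (ℓ : ℝ) ^ (f * r * b)) (V := (ℓ : ℝ) ^ (f * (N * N - 2 * N * r))) (d := f * N)
      hx3 (numA_fN hf1 hN) hQ0 hQle (by positivity) hA hT1 hTQ hTx
      (one_le_pow₀ hℓ1) (one_le_pow₀ hℓ1) ?_ ?_
    · refine le_trans ?_ hfin
      rw [div_le_iff₀ (by positivity)]
      have h1 : NN i E ≤ ((ℓ : ℝ) ^ f) ^ t * (2 * ((ℓ : ℝ) ^ (f * N * b)) ^ 2 *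
          (1 / (ℓ : ℝ) ^ (f * r * b) + 2 / (ℓ : ℝ) ^ (f * (N * N - 2 * N * r)))) := by
        refine hiter.trans ?_
        apply mul_le_mul_of_nonneg_left (hmono.trans hbase) (by positivity)
      refine h1.trans ?_
      have h2 : ((ℓ : ℝ) ^ f) ^ t ≤ n := by
        calc ((ℓ : ℝ) ^ f) ^ t = T ^ f := by rw [hT, ← pow_mul, ← pow_mul, mul_comm]
          _ ≤ T ^ 2 := pow_le_pow_right₀ hT1 hf2
          _ ≤ n := hTx
      have h3 : ((ℓ : ℝ) ^ (f * N * b)) ^ 2 =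
          ((ℓ : ℝ) ^ i / T ^ 2) ^ (f * N) * ((ℓ : ℝ) ^ (f * N)) ^ i := by
        have e1 : (ℓ : ℝ) ^ i / T ^ 2 * (ℓ : ℝ) ^ i = ((ℓ : ℝ) ^ b) ^ 2 := by
          rw [hAeq]; field_simp
        calc ((ℓ : ℝ) ^ (f * N * b)) ^ 2 = (((ℓ : ℝ) ^ b) ^ 2) ^ (f * N) := by
              rw [← pow_mul, ← pow_mul, ← pow_mul]; congr 1; ring
          _ = ((ℓ : ℝ) ^ i / T ^ 2 * (ℓ : ℝ) ^ i) ^ (f * N) := by rw [e1]
          _ = ((ℓ : ℝ) ^ i / T ^ 2) ^ (f * N) * ((ℓ : ℝ) ^ i) ^ (f * N) := by rw [mul_pow]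
          _ = ((ℓ : ℝ) ^ i / T ^ 2) ^ (f * N) * ((ℓ : ℝ) ^ (f * N)) ^ i := by
              congr 1; rw [← pow_mul, ← pow_mul, mul_comm]
      obtain ⟨S, hS⟩ : ∃ S : ℝ, S = 1 / (ℓ : ℝ) ^ (f * r * b) +
          2 / (ℓ : ℝ) ^ (f * (N * N - 2 * N * r)) := ⟨_, rfl⟩
      have hS0 : 0 ≤ S := by rw [hS]; positivity
      rw [← hS, h3]
      have hP0 : 0 ≤ 2 * (((ℓ : ℝ) ^ i / T ^ 2) ^ (f * N) * ((ℓ : ℝ) ^ (f * N)) ^ i) * S := by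
        positivity
      calc ((ℓ : ℝ) ^ f) ^ t *
            (2 * (((ℓ : ℝ) ^ i / T ^ 2) ^ (f * N) * ((ℓ : ℝ) ^ (f * N)) ^ i) * S)
          ≤ n * (2 * (((ℓ : ℝ) ^ i / T ^ 2) ^ (f * N) * ((ℓ : ℝ) ^ (f * N)) ^ i) * S) :=
            mul_le_mul_of_nonneg_right h2 hP0
        _ = 2 * n * ((ℓ : ℝ) ^ i / T ^ 2) ^ (f * N) * S * ((ℓ : ℝ) ^ (f * N)) ^ i := by ring
    · have e1 : (ℓ : ℝ) ^ i / T = (ℓ : ℝ) ^ b := by rw [hAeq]; field_simp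
      rw [e1]
      have e2 : (ℓ : ℝ) ^ (f * r * b) = ((ℓ : ℝ) ^ b) ^ ((f * r : ℕ) : ℝ) := by
        rw [Real.rpow_natCast, ← pow_mul]; congr 1; ring
      rw [e2]
      apply Real.rpow_le_rpow_of_exponent_le (one_le_pow₀ hℓ1)
      push_cast
      exact numA_r3 (by linarith) hr5R
    · have e1 : (n : ℝ) ^ ((3 / 40 : ℝ) * ((f * N : ℕ) : ℝ)) =
          ((n : ℝ) ^ (3 / 20 : ℝ)) ^ (((f * N : ℕ) : ℝ) / 2) := by
        rw [← Real.rpow_mul hx0.le]; congr 1; ring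
      have e2 : (ℓ : ℝ) ^ (f * (N * N - 2 * N * r)) =
          (ℓ : ℝ) ^ ((f * (N * N - 2 * N * r) : ℕ) : ℝ) := by rw [Real.rpow_natCast]
      have e3 : ((ℓ : ℝ) ^ N) ^ (((f * N : ℕ) : ℝ) / 2) =
          (ℓ : ℝ) ^ ((N : ℝ) * (((f * N : ℕ) : ℝ) / 2)) := by
        rw [← Real.rpow_natCast, ← Real.rpow_mul hℓ0.le]
      rw [e1, e2]
      calc ((n : ℝ) ^ (3 / 20 : ℝ)) ^ (((f * N : ℕ) : ℝ) / 2)
          ≤ ((ℓ : ℝ) ^ N) ^ (((f * N : ℕ) : ℝ) / 2) :=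
            Real.rpow_le_rpow (by positivity) hℓN (by positivity)
        _ = (ℓ : ℝ) ^ ((N : ℝ) * (((f * N : ℕ) : ℝ) / 2)) := e3
        _ ≤ (ℓ : ℝ) ^ ((f * (N * N - 2 * N * r) : ℕ) : ℝ) := by
            apply Real.rpow_le_rpow_of_exponent_le hℓ1
            have h5 : 2 * N * r ≤ N * N := numA_r1 hr4
            have h6 : ((N * N - 2 * N * r : ℕ) : ℝ) = (N : ℝ) * N - 2 * N * r := by
              rw [Nat.cast_sub h5]; push_cast; ring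
            rw [Nat.cast_mul f (N * N - 2 * N * r), h6, Nat.cast_mul f N]
            have h7 : (N : ℝ) * N / 2 ≤ (N : ℝ) * N - 2 * N * r := numA_r2 (by linarith) hr4R
            have h8 : (f : ℝ) * ((N : ℝ) * N / 2) ≤ f * ((N : ℝ) * N - 2 * N * r) :=
              mul_le_mul_of_nonneg_left h7 (by linarith)
            linarith [h8, show (N : ℝ) * ((f : ℝ) * N / 2) = (f : ℝ) * ((N : ℝ) * N / 2) by ring]

end Pool.MP43e44c.MD
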