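import Pool.Agent.H.MP_43e44c_ag.MD.Dk

/-!
The mean of the kernel and its powers.
-/

set_option autoImplicit false

open Finset Module

namespace Pool.MP43e44c.MD

open Pool.MP43e44c.OD Pool.MP43e44c.GA

universe u v

variable {G : Type u} [Group G] [Fintype G] {ι : Type v} (H : Half G ι) [Fintype ι]

/-- The mean of the kernel. -/
noncomputable def phi (ℓ : ℕ) {M : ℕ} (z : MonoidAlgebra (ZMod M) G) : ℝ :=
  (∑ k, dk ℓ (2 * z.coeff (H.t k)⁻¹)) / Fintype.card ι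

/-- PROOF. Sum `dk_ge`: `phi ≥ 1 - 5 ℓ ^ 2 en z / n ≥ 1 - 5 ℓ ^ 2 κ =: 1 - x`, `0 ≤ x`, `2 k₀ x ≤ 1`, and
`(1 - x) ^ k₀ ≥ 1 - k₀ x ≥ 1 / 2` (`one_add_mul_le_pow`). -/
theorem phi_pow_ge {ℓ : ℕ} [Fact ℓ.Prime] (h2 : ℓ ≠ 2) {M : ℕ} [NeZero M]
    (hn : 0 < Fintype.card ι) {κ : ℝ} (hκ : 0 ≤ κ) {k₀ : ℕ} (hk : 1 ≤ k₀)
    (h : 10 * (ℓ : ℝ) ^ 2 * κ * k₀ ≤ 1) {z : MonoidAlgebra (ZMod M) G}
    (hz : en H z ≤ κ * Fintype.card ι) : 1 / 2 ≤ phi H ℓ z ^ k₀ := by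
  have hn' : (0 : ℝ) < Fintype.card ι := by exact_mod_cast hn
  have hk' : (1 : ℝ) ≤ k₀ := by exact_mod_cast hk
  have hx0 : 0 ≤ 5 * (ℓ : ℝ) ^ 2 * κ := by positivity
  have hx1 : 5 * (ℓ : ℝ) ^ 2 * κ * k₀ ≤ 1 / 2 := by linarith
  have hx2 : 5 * (ℓ : ℝ) ^ 2 * κ ≤ 1 / 2 := by nlinarith
  have hsum : (Fintype.card ι : ℝ) * (1 - 5 * (ℓ : ℝ) ^ 2 * κ) ≤
      ∑ k, dk ℓ (2 * z.coeff (H.t k)⁻¹) := by
    have h1 : ∑ k, (1 - 5 * (ℓ : ℝ) ^ 2 * nz (2 * z.coeff (H.t k)⁻¹) ^ 2) ≤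
        ∑ k, dk ℓ (2 * z.coeff (H.t k)⁻¹) := sum_le_sum fun k _ => dk_ge h2 _
    have h3 : ∑ k, (1 - 5 * (ℓ : ℝ) ^ 2 * nz (2 * z.coeff (H.t k)⁻¹) ^ 2) =
        Fintype.card ι - 5 * (ℓ : ℝ) ^ 2 * en H z := by
      rw [sum_sub_distrib, ← mul_sum]
      simp [en]
    rw [h3] at h1
    have h4 : 5 * (ℓ : ℝ) ^ 2 * en H z ≤ 5 * (ℓ : ℝ) ^ 2 * (κ * Fintype.card ι) :=
      mul_le_mul_of_nonneg_left hz (by positivity)
    nlinarith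
  have hphi : 1 - 5 * (ℓ : ℝ) ^ 2 * κ ≤ phi H ℓ z := by
    unfold phi
    rw [le_div_iff₀ hn']
    linarith
  have h5 : (1 - 5 * (ℓ : ℝ) ^ 2 * κ) ^ k₀ ≤ phi H ℓ z ^ k₀ :=
    pow_le_pow_left₀ (by linarith) hphi k₀
  have h6 := one_add_mul_le_pow (a := -(5 * (ℓ : ℝ) ^ 2 * κ)) (by linarith) k₀
  have h7 : 1 + -(5 * (ℓ : ℝ) ^ 2 * κ) = 1 - 5 * (ℓ : ℝ) ^ 2 * κ := by ring
  rw [h7] at h6
  nlinarith

/-- The element of the group ring attached to a tuple of pairs `(k, r)`. -/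
noncomputable def rho {ℓ k₀ : ℕ} (s : Fin k₀ → ι × Rl ℓ) : MonoidAlgebra ℤ G :=
  ∑ j, MonoidAlgebra.single (H.t (s j).1) (2 * ((s j).2 : ℤ))

theorem Phi_sin (ℓ : ℕ) (c : ℝ) : ∑ r ∈ Rl ℓ, Real.sin ((r : ℝ) * c) = 0 := by
  have h1 : ∑ r ∈ Rl ℓ, Real.sin ((r : ℝ) * c) = ∑ r ∈ Rl ℓ, -Real.sin ((r : ℝ) * c) := by
    refine sum_nbij' (fun r => -r) (fun r => -r) ?_ ?_ ?_ ?_ ?_
    · intro r hr
      unfold Rl at hr ⊢
      rw [mem_Icc] at hr ⊢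
      constructor <;> linarith [hr.1, hr.2]
    · intro r hr
      unfold Rl at hr ⊢
      rw [mem_Icc] at hr ⊢
      constructor <;> linarith [hr.1, hr.2]
    · intro r _
      exact neg_neg r
    · intro r _
      exact neg_neg r
    · intro r _
      rw [Int.cast_neg, neg_mul, Real.sin_neg, neg_neg]
  rw [sum_neg_distrib] at h1
  linarith

theorem Phi_cos (ℓ : ℕ) [Fact ℓ.Prime] {M : ℕ} [NeZero M] (a : ZMod M) :
    (((ℓ : ℝ) * dk ℓ a : ℝ) : ℂ) = ∑ r ∈ Rl ℓ, (ZMod.stdAddChar ((r : ZMod M) * a) : ℂ) := by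
  have hℓ : (ℓ : ℝ) ≠ 0 := by
    have := (Fact.out : ℓ.Prime).pos
    positivity
  have h1 : (ℓ : ℝ) * dk ℓ a = ∑ r ∈ Rl ℓ, Real.cos ((r : ℝ) * (2 * Real.pi * a.valMinAbs / M)) := by
    unfold dk
    rw [mul_div_cancel₀ _ hℓ]
    refine sum_congr rfl fun r _ => ?_
    congr 1
    ring
  have h2 : ∀ r : ℤ, (ZMod.stdAddChar ((r : ZMod M) * a) : ℂ) =
      ((Real.cos ((r : ℝ) * (2 * Real.pi * a.valMinAbs / M)) : ℝ) : ℂ) +
        ((Real.sin ((r : ℝ) * (2 * Real.pi * a.valMinAbs / M)) : ℝ) : ℂ) * Complex.I := by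
    intro r
    have h3 : (r : ZMod M) * a = ((r * a.valMinAbs : ℤ) : ZMod M) := by
      rw [Int.cast_mul, ZMod.coe_valMinAbs]
    rw [h3, ZMod.stdAddChar_coe, Complex.ofReal_cos, Complex.ofReal_sin, ← Complex.exp_mul_I]
    congr 1
    push_cast
    ring
  rw [h1]
  simp only [h2]
  rw [sum_add_distrib, ← sum_mul, ← Complex.ofReal_sum, ← Complex.ofReal_sum, Phi_sin]
  simp

theorem Phi_char {M : ℕ} [NeZero M] {α : Type*} (s : Finset α) (f : α → ZMod M) :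
    (ZMod.stdAddChar (∑ j ∈ s, f j) : ℂ) = ∏ j ∈ s, (ZMod.stdAddChar (f j) : ℂ) := by
  classical
  induction s using Finset.induction_on with
  | empty => simp
  | insert a s ha ih => rw [sum_insert ha, prod_insert ha, AddChar.map_add_eq_mul, ih]

omit [Fintype ι] in
theorem Phi_rho {ℓ k₀ : ℕ} {M : ℕ} (z : MonoidAlgebra (ZMod M) G) (s : Fin k₀ → ι × Rl ℓ) :
    (z * toP M (rho H s)).coeff 1 =
      ∑ j, (((s j).2 : ℤ) : ZMod M) * (2 * z.coeff (H.t (s j).1)⁻¹) := by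
  classical
  unfold rho
  rw [map_sum, mul_sum, coeff_sum']
  refine sum_congr rfl fun j _ => ?_
  rw [coeff_mul_left, sum_eq_single (H.t (s j).1)⁻¹]
  · rw [inv_inv, mul_one, toP_coeff, MonoidAlgebra.coeff_single, Finsupp.single_eq_same]
    push_cast
    ring
  · intro g _ hg
    rw [mul_one, toP_coeff, MonoidAlgebra.coeff_single, Finsupp.single_eq_of_ne, Int.cast_zero,
      mul_zero]
    intro h
    exact hg (by rw [← h, inv_inv])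
  · intro h
    exact absurd (mem_univ _) h

/-- PROOF. For `a : ZMod M` with `b = valMinAbs a`, `∑ r ∈ Rl, cos (2 π r b / M) = ∑ r ∈ Rl, stdAddChar (r * a)`
(real and imaginary part; the imaginary part vanishes by `r ↦ - r`).  So
`n ℓ phi z = ∑ (k, r), stdAddChar (2 r z_k)` with `z_k = z.coeff (t k)⁻¹`, and its power is
`∑ s, stdAddChar (∑ j, 2 r_j z_{k_j}) = ∑ s, stdAddChar ((z * rho s).coeff 1)`
(`Finset.sum_pow'`/`Finset.prod_univ_sum`, `AddChar.map_sum_eq_prod`). -/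
theorem phi_pow_eq {ℓ : ℕ} [Fact ℓ.Prime] {M : ℕ} [NeZero M] (k₀ : ℕ)
    (hn : 0 < Fintype.card ι) (z : MonoidAlgebra (ZMod M) G) :
    (((Fintype.card ι * ℓ * phi H ℓ z) ^ k₀ : ℝ) : ℂ)
      = ∑ s : Fin k₀ → ι × Rl ℓ, (ZMod.stdAddChar ((z * toP M (rho H s)).coeff 1) : ℂ) := by
  have hn' : (Fintype.card ι : ℝ) ≠ 0 := by positivity
  have h1 : ((Fintype.card ι * ℓ * phi H ℓ z : ℝ) : ℂ) =
      ∑ x : ι × Rl ℓ, (ZMod.stdAddChar (((x.2 : ℤ) : ZMod M) * (2 * z.coeff (H.t x.1)⁻¹)) : ℂ) := by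
    have h2 : (Fintype.card ι * ℓ * phi H ℓ z : ℝ) =
        ∑ k, (ℓ : ℝ) * dk ℓ (2 * z.coeff (H.t k)⁻¹) := by
      unfold phi
      rw [← mul_sum]
      field_simp
    rw [h2, Complex.ofReal_sum, Fintype.sum_prod_type]
    refine sum_congr rfl fun k _ => ?_
    rw [Phi_cos, ← sum_coe_sort (Rl ℓ)]
  rw [Complex.ofReal_pow, h1, Fintype.sum_pow]
  refine sum_congr rfl fun s _ => ?_
  rw [Phi_rho, Phi_char]

end Pool.MP43e44c.MD
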