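import Pool.Agent.H.MP_43e44c_ag.MD.LvlC
import Pool.Agent.H.MP_43e44c_ag.MD.Lvl

/-!
Separating points and the support of the functions of an invariant space.
-/

set_option autoImplicit false

open Finset Module

namespace Pool.MP43e44c.MD

open Pool.MP43e44c.OD Pool.MP43e44c.GA

universe u v

/-- Separating points, at most as many as the dimension. -/
theorem Sep_le {K : Type*} [Field K] {Ω : Type*} [Fintype Ω] (n : ℕ) :
    ∀ V : Submodule K (Ω → K), finrank K V ≤ n →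
      ∃ S : Finset Ω, S.card ≤ n ∧ ∀ w ∈ V, (∀ s ∈ S, w s = 0) → w = 0 := by
  classical
  induction n with
  | zero =>
    intro V hV
    have h0 : V = ⊥ := Submodule.finrank_eq_zero.1 (Nat.le_zero.1 hV)
    refine ⟨∅, by simp, fun w hw _ => ?_⟩
    rw [h0] at hw
    exact (Submodule.mem_bot K).1 hw
  | succ n ih =>
    intro V hV
    by_cases h0 : V = ⊥
    · refine ⟨∅, by simp, fun w hw _ => ?_⟩
      rw [h0] at hw
      exact (Submodule.mem_bot K).1 hw
    · obtain ⟨w₀, hw₀, hne⟩ := Submodule.exists_mem_ne_zero_of_ne_bot h0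
      obtain ⟨s₀, hs₀⟩ := Function.ne_iff.1 hne
      have hs₀' : w₀ s₀ ≠ 0 := hs₀
      have hlt : V ⊓ LinearMap.ker (LinearMap.proj s₀ : (Ω → K) →ₗ[K] K) < V := by
        refine lt_of_le_of_ne inf_le_left fun h => ?_
        rw [← h] at hw₀
        exact hs₀' (LinearMap.mem_ker.1 hw₀.2)
      have hfin := Submodule.finrank_lt_finrank_of_lt hlt
      obtain ⟨S, hS, h⟩ := ih (V ⊓ LinearMap.ker (LinearMap.proj s₀ : (Ω → K) →ₗ[K] K))
        (by omega)
      refine ⟨insert s₀ S, (card_insert_le _ _).trans (by omega), fun w hw hw0 => ?_⟩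
      refine h w ⟨hw, ?_⟩ fun s hs => hw0 s (mem_insert_of_mem hs)
      rw [SetLike.mem_coe, LinearMap.mem_ker]
      exact hw0 s₀ (mem_insert_self _ _)

/-- Separating points of a space of functions. -/
theorem sep {K : Type*} [Field K] {Ω : Type*} [Fintype Ω] (V : Submodule K (Ω → K)) :
    ∃ S : Finset Ω, S.card = finrank K V ∧ ∀ w ∈ V, (∀ s ∈ S, w s = 0) → w = 0 := by
  obtain ⟨S, hS, h⟩ := Sep_le (finrank K V) V le_rfl
  have h1 : finrank K V ≤ Fintype.card Ω := by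
    have h2 := Submodule.finrank_le V
    rwa [Module.finrank_fintype_fun_eq_card] at h2
  obtain ⟨T, hT, hc⟩ := Finset.exists_superset_card_eq hS h1
  exact ⟨T, hc, fun w hw hw0 => h w hw fun s hs => hw0 s (hT hs)⟩

variable {G : Type u} [Group G] [Fintype G] {ι : Type v} (H : Half G ι) [Fintype ι]
  {ℓ : ℕ} [Fact ℓ.Prime]

/-- `sep` in the group ring (transport by the linear injection `x ↦ x.coeff`). -/
theorem sep_ma (V : Submodule (ZMod ℓ) (MonoidAlgebra (ZMod ℓ) G)) :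
    ∃ S : Finset G, S.card = finrank (ZMod ℓ) V ∧
      ∀ w ∈ V, (∀ s ∈ S, w.coeff s = 0) → w = 0 := by
  let L : MonoidAlgebra (ZMod ℓ) G →ₗ[ZMod ℓ] (G → ZMod ℓ) :=
    { toFun := fun x g => x.coeff g
      map_add' := fun _ _ => rfl
      map_smul' := fun _ _ => rfl }
  have hL : Function.Injective L := fun x y h => ma_ext fun g => congrFun h g
  obtain ⟨S, hS, h⟩ := sep (V.map L)
  refine ⟨S, ?_, fun w hw hw0 => ?_⟩
  · rw [hS]
    exact (LinearEquiv.finrank_eq (Submodule.equivMapOfInjective L hL V)).symm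
  · have h1 : L w = 0 := h (L w) (Submodule.mem_map_of_mem hw) hw0
    exact hL (by rw [h1, map_zero])

/-- Sums of even functions of the coefficients of an odd element. -/
theorem sum_odd {M : ℕ} {w : MonoidAlgebra (ZMod M) G} (hw : w * H.cc _ = -w) (F : ZMod M → ℝ)
    (hF : ∀ a, F (-a) = F a) : ∑ g, F (w.coeff g) = 2 * ∑ k, F (w.coeff (H.t k)⁻¹) := by
  rw [← Equiv.sum_comp (Equiv.inv G) fun g => F (w.coeff g)]
  simp only [Equiv.inv_apply]
  rw [H.sum_eq fun g => F (w.coeff g⁻¹), mul_sum]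
  refine sum_congr rfl fun k _ => ?_
  have h1 : (H.t k * H.c)⁻¹ = (H.t k)⁻¹ * H.c := by
    rw [mul_inv_rev, H.c_inv, H.cen]
  rw [h1, coeff_odd hw, hF]
  ring

/-- The support lemma. -/
theorem supp (V : Submodule (ZMod ℓ) (MonoidAlgebra (ZMod ℓ) G))
    (hV : ∀ g : G, ∀ w ∈ V, MonoidAlgebra.single g 1 * w ∈ V)
    {w : MonoidAlgebra (ZMod ℓ) G} (hw : w ∈ V) (hodd : w * H.cc _ = -w) (h0 : w ≠ 0) :
    Fintype.card ι ≤ finrank (ZMod ℓ) V * {k : ι | w.coeff (H.t k)⁻¹ ≠ 0}.ncard := by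
  classical
  obtain ⟨S, hS, h⟩ := sep_ma V
  obtain ⟨F, hF⟩ : ∃ F : ZMod ℓ → ℝ, F = fun a => if a = 0 then 0 else 1 := ⟨_, rfl⟩
  have hF0 : ∀ a, 0 ≤ F a := by
    intro a
    rw [hF]
    simp only
    split_ifs
    · exact le_rfl
    · exact zero_le_one
  have hF1 : ∀ a, a ≠ 0 → F a = 1 := by
    intro a ha
    rw [hF]
    simp [ha]
  have hFn : ∀ a, F (-a) = F a := by
    intro a
    rw [hF]
    simp
  -- every translate is seen by some point of `S`
  have h1 : ∀ x : G, (1 : ℝ) ≤ ∑ s ∈ S, F (w.coeff (x * s)) := by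
    intro x
    by_contra hcon
    have h2 : ∀ s ∈ S, w.coeff (x * s) = 0 := by
      intro s hs
      by_contra h3
      apply hcon
      rw [← hF1 _ h3]
      exact single_le_sum (f := fun s => F (w.coeff (x * s))) (fun i _ => hF0 _) hs
    have h3 : MonoidAlgebra.single x⁻¹ 1 * w = 0 := by
      refine h _ (hV _ _ hw) fun s hs => ?_
      rw [coeff_mul_single, inv_inv]
      exact h2 s hs
    apply h0
    apply ma_ext
    intro g
    have h4 := coeff_mul_single w x⁻¹ (x⁻¹ * g)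
    rw [h3, inv_inv, mul_inv_cancel_left] at h4
    rw [← h4]
    rfl
  have h2 : (Fintype.card G : ℝ) ≤ ∑ x : G, ∑ s ∈ S, F (w.coeff (x * s)) := by
    calc (Fintype.card G : ℝ) = ∑ _x : G, (1 : ℝ) := by simp
      _ ≤ _ := sum_le_sum fun x _ => h1 x
  have h3 : ∑ x : G, ∑ s ∈ S, F (w.coeff (x * s)) = S.card * ∑ g, F (w.coeff g) := by
    rw [sum_comm]
    have h4 : ∀ s ∈ S, ∑ x : G, F (w.coeff (x * s)) = ∑ g, F (w.coeff g) := fun s _ =>
      Equiv.sum_comp (Equiv.mulRight s) fun g => F (w.coeff g)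
    rw [sum_congr rfl h4, sum_const, nsmul_eq_mul]
  have h4 : ∑ k, F (w.coeff (H.t k)⁻¹) = ({k : ι | w.coeff (H.t k)⁻¹ ≠ 0}.ncard : ℝ) := by
    have h5 : {k : ι | w.coeff (H.t k)⁻¹ ≠ 0}
        = ((univ.filter fun k : ι => w.coeff (H.t k)⁻¹ ≠ 0 : Finset ι) : Set ι) := by
      ext k
      simp
    rw [h5, Set.ncard_coe_finset, card_filter]
    push_cast
    refine sum_congr rfl fun k _ => ?_
    rw [hF]
    simp only
    split_ifs <;> simp_all
  rw [h3, sum_odd H hodd F hFn, h4, H.card_eq, hS] at h2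
  push_cast at h2
  have h5 : ((Fintype.card ι : ℕ) : ℝ)
      ≤ ((finrank (ZMod ℓ) V * {k : ι | w.coeff (H.t k)⁻¹ ≠ 0}.ncard : ℕ) : ℝ) := by
    push_cast
    linarith
  exact_mod_cast h5

end Pool.MP43e44c.MD
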