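import Pool.Agent.H.MP_43e44c_ag.MD.VV

/-!
Separating points at all levels.
-/

set_option autoImplicit false

open Finset Module

namespace Pool.MP43e44c.MD

open Pool.MP43e44c.OD Pool.MP43e44c.GA

universe u v

variable {G : Type u} [Group G] [Fintype G] {ι : Type v} {H : Half G ι} [Fintype ι]
  {ℓ m N f : ℕ} [Fact ℓ.Prime] {ε : MonoidAlgebra ℤ G} {e : MonoidAlgebra (ZMod ℓ) G}

/-- PROOF. Write `y = toP (ℓ ^ i) b`, `toP ℓ b ≠ 0`.  The space `V = VV (toP ℓ ε) (toP ℓ b) 0` has dimension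
at most `f N`; take `S` from `sep_ma`.  Let `x ≠ x'` in `rX`, `x - x' = toP (ℓ ^ i) (ℓ ^ k • ξ)`, `k < i`,
`toP ℓ ξ ≠ 0` (`exists_pow`); `toP ℓ ξ ∈ rX (toP ℓ ε)` (as in `orb`).  Then `toP ℓ (ξ * b) ≠ 0` (`B.xy`) is in
`V`, so some coefficient in `S` is not divisible by `ℓ`, and `2 * ℓ ^ k *` this coefficient is not `0`
modulo `ℓ ^ i`. -/
theorem exists_sep (B : Blk H ℓ m N f ε e) {i : ℕ} (hi : 1 ≤ i) (him : i ≤ m)
    {y : MonoidAlgebra (ZMod (ℓ ^ i)) G} (hy : toP (ℓ ^ i) ε * y = y) (hp : Prm y) :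
    ∃ S : Finset G, S.card ≤ f * N ∧
      ∀ x x' : MonoidAlgebra (ZMod (ℓ ^ i)) G, x * toP (ℓ ^ i) ε = x → x' * toP (ℓ ^ i) ε = x' →
        (∀ s ∈ S, 2 * (x * y).coeff s = 2 * (x' * y).coeff s) → x = x' := by
  set b : MonoidAlgebra ℤ G := lft y with hb
  have hyb : toP (ℓ ^ i) b = y := toP_lft y
  have hb0 : toP ℓ b ≠ 0 := by
    rw [← prm_toP hi, hyb]
    exact hp
  have hbY : toP ℓ ε * toP ℓ b = toP ℓ b := by
    rw [← map_mul]
    refine toP_one_of_le hi ?_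
    rw [map_mul, hyb, hy]
  obtain ⟨S, hS, hsep⟩ := sep_ma (VV (toP ℓ ε) (toP ℓ b) 0)
  refine ⟨S, by rw [hS]; exact finrank_VV_zero B _, ?_⟩
  intro x x' hx hx' h
  by_contra hne
  have hz : x - x' ≠ 0 := sub_ne_zero.2 hne
  obtain ⟨k, hk, a, hza, ha⟩ := exists_pow (x - x') hz
  have hzε : (x - x') * toP (ℓ ^ i) ε = x - x' := by rw [sub_mul, hx, hx']
  obtain ⟨j, hj⟩ : ∃ j, i = j + k := ⟨i - k, by omega⟩
  have hj1 : 1 ≤ j := by omega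
  subst hj
  have haX : toP ℓ a * toP ℓ ε = toP ℓ a := by
    rw [← map_mul]
    refine toP_one_of_le hj1 (toP_smul_iff (k := k).1 ?_)
    rw [← smul_mul_assoc, map_mul, ← hza, hzε]
  have hw0 : toP ℓ a * toP ℓ b ≠ 0 := B.xy _ (mem_rX.2 haX) _ (mem_lY.2 hbY) ha hb0
  apply hw0
  refine hsep _ ⟨toP ℓ a, 0, haX, zero_mul _, by rw [zero_mul, add_zero]⟩ ?_
  intro s hs
  have h1 := h s hs
  have h2 : ((x - x') * y).coeff s = (x * y).coeff s - (x' * y).coeff s := by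
    rw [sub_mul]
    rfl
  have h3 : 2 * ((x - x') * y).coeff s = 0 := by rw [h2, mul_sub, h1, sub_self]
  rw [hza, ← hyb, ← map_mul, toP_coeff] at h3
  have h4 : (((ℓ : ℤ) ^ k • a) * b).coeff s = (ℓ : ℤ) ^ k * (a * b).coeff s := by
    rw [smul_mul_assoc]
    rfl
  rw [h4] at h3
  have h5 : ((ℓ ^ (j + k) : ℕ) : ℤ) ∣ 2 * ((ℓ : ℤ) ^ k * (a * b).coeff s) := by
    rw [← ZMod.intCast_zmod_eq_zero_iff_dvd, Int.cast_mul]
    exact_mod_cast h3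
  have hℓ : Prime (ℓ : ℤ) := Nat.prime_iff_prime_int.1 (Fact.out : ℓ.Prime)
  have h6 : (ℓ : ℤ) ∣ (a * b).coeff s := by
    have h7 : (ℓ : ℤ) ^ k * (ℓ : ℤ) ∣ (ℓ : ℤ) ^ k * (2 * (a * b).coeff s) := by
      have h8 : (ℓ : ℤ) ^ k * (2 * (a * b).coeff s) = 2 * ((ℓ : ℤ) ^ k * (a * b).coeff s) := by
        ring
      rw [h8]
      refine dvd_trans ?_ h5
      rw [← pow_succ, Nat.cast_pow]
      exact pow_dvd_pow _ (by omega)
    have h9 := (mul_dvd_mul_iff_left (pow_ne_zero k hℓ.ne_zero)).1 h7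
    rcases hℓ.dvd_or_dvd h9 with h10 | h10
    · exfalso
      have h11 : ℓ ∣ 2 := by exact_mod_cast h10
      exact B.ne2 ((Nat.prime_dvd_prime_iff_eq (Fact.out : ℓ.Prime) Nat.prime_two).1 h11)
    · exact h10
  rw [← map_mul, toP_coeff, ZMod.intCast_zmod_eq_zero_iff_dvd]
  exact h6

end Pool.MP43e44c.MD
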