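import Pool.Agent.H.MP_43e44c_ag.MD.Phi
import Pool.Agent.H.MP_43e44c_ag.MD.Orth
import Pool.Agent.H.MP_43e44c_ag.MD.Sep

/-!
Near uniformity of the random elements in the block.
-/

set_option autoImplicit false

open Finset Module

namespace Pool.MP43e44c.MD

open Pool.MP43e44c.OD Pool.MP43e44c.GA

universe u v

variable {G : Type u} [Group G] [Fintype G] {ι : Type v} {H : Half G ι} [Fintype ι]
  {ℓ m N f : ℕ} [Fact ℓ.Prime] {ε : MonoidAlgebra ℤ G} {e : MonoidAlgebra (ZMod ℓ) G}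

theorem Unif_rl (h2 : ℓ ≠ 2) (a : ZMod ℓ) :
    ∑ r ∈ Rl ℓ, (ZMod.stdAddChar ((r : ZMod ℓ) * (2 * a)) : ℂ) =
      if a = 0 then (ℓ : ℂ) else 0 := by
  have h := bij_Rl (ℓ := ℓ) h2
  have h1 : ∑ r ∈ Rl ℓ, (ZMod.stdAddChar ((r : ZMod ℓ) * (2 * a)) : ℂ) =
      ∑ x : ZMod ℓ, (ZMod.stdAddChar (x * a) : ℂ) := by
    refine sum_bij (fun r _ => ((2 * r : ℤ) : ZMod ℓ)) ?_ ?_ ?_ ?_
    · intro r _
      exact mem_univ _
    · intro r hr r' hr' he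
      exact h.injOn hr hr' he
    · intro y _
      obtain ⟨r, hr, hy⟩ := h.surjOn (Set.mem_univ y)
      exact ⟨r, hr, hy⟩
    · intro r _
      have h3 : (r : ZMod ℓ) * (2 * a) = ((2 * r : ℤ) : ZMod ℓ) * a := by
        push_cast
        ring
      rw [h3]
  rw [h1, AddChar.sum_mulShift a (ZMod.isPrimitive_stdAddChar ℓ), ZMod.card]
  by_cases ha : a = 0
  · rw [if_pos ha, if_pos ha]
  · rw [if_neg ha, if_neg ha, Nat.cast_zero]

theorem Unif_set (w : MonoidAlgebra (ZMod ℓ) G) [DecidableEq ι] :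
    {k : ι | w.coeff (H.t k)⁻¹ = 0} =
      ((univ.filter fun k : ι => w.coeff (H.t k)⁻¹ = 0 : Finset ι) : Set ι) := by
  ext k
  simp

/-- PROOF. For `w = e * w`, `∑ r ∈ Rl, stdAddChar (2 r w_k)` is `ℓ` if `w_k = 0` and `0` otherwise (`bij_Rl`), so
the sum over all `s` is `(ℓ * #{k | w_k = 0}) ^ k₀` (`w_k = w.coeff (t k)⁻¹`; product structure as in
`phi_pow_eq`). -/
theorem unif_sum (h2 : ℓ ≠ 2) (k₀ : ℕ) (w : MonoidAlgebra (ZMod ℓ) G) :
    ∑ s : Fin k₀ → ι × Rl ℓ, (ZMod.stdAddChar ((w * toP ℓ (rho H s)).coeff 1) : ℂ)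
      = (((ℓ * {k : ι | w.coeff (H.t k)⁻¹ = 0}.ncard : ℕ) : ℂ)) ^ k₀ := by
  classical
  have h1 : (((ℓ * {k : ι | w.coeff (H.t k)⁻¹ = 0}.ncard : ℕ) : ℂ)) =
      ∑ x : ι × Rl ℓ, (ZMod.stdAddChar (((x.2 : ℤ) : ZMod ℓ) * (2 * w.coeff (H.t x.1)⁻¹)) : ℂ) := by
    rw [Fintype.sum_prod_type]
    have h3 : ∀ k : ι, ∑ r : Rl ℓ,
        (ZMod.stdAddChar (((r : ℤ) : ZMod ℓ) * (2 * w.coeff (H.t k)⁻¹)) : ℂ)
        = if w.coeff (H.t k)⁻¹ = 0 then (ℓ : ℂ) else 0 := by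
      intro k
      rw [← Unif_rl h2, ← sum_coe_sort (Rl ℓ)]
    rw [sum_congr rfl fun k _ => h3 k, ← sum_filter, sum_const, nsmul_eq_mul, Unif_set,
      Set.ncard_coe_finset]
    push_cast
    ring
  rw [h1, Fintype.sum_pow]
  refine sum_congr rfl fun s _ => ?_
  rw [Phi_rho, Phi_char]

/-- The ideal of the block. -/
def UnifV (e : MonoidAlgebra (ZMod ℓ) G) : Submodule (ZMod ℓ) (MonoidAlgebra (ZMod ℓ) G) where
  carrier := {w | e * w = w}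
  add_mem' := by
    intro a b ha hb
    rw [Set.mem_setOf_eq] at ha hb ⊢
    rw [mul_add, ha, hb]
  zero_mem' := mul_zero e
  smul_mem' := by
    intro c w hw
    rw [Set.mem_setOf_eq] at hw ⊢
    rw [mul_smul_comm, hw]

theorem Unif_finrank (B : Blk H ℓ m N f ε e) : finrank (ZMod ℓ) (UnifV e) = f * N * N := by
  classical
  have hp : ℓ.Prime := Fact.out
  have h1 : Nat.card (UnifV e) = ℓ ^ (f * N * N) := by
    rw [← B.cB, ← Fintype.card_coe, ← Nat.card_eq_fintype_card]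
    refine Nat.card_congr (Equiv.subtypeEquivRight fun x => ?_)
    rw [mem_lY]
    rfl
  have h2 : Nat.card (UnifV e) = Nat.card (ZMod ℓ) ^ finrank (ZMod ℓ) (UnifV e) :=
    Module.natCard_eq_pow_finrank (K := ZMod ℓ)
  rw [h1, Nat.card_zmod] at h2
  exact (Nat.pow_right_injective hp.two_le h2).symm

/-- PROOF. Let `V` be the submodule of all `w` with `e * w = w`, a left ideal of dimension `f N ^ 2` (`B.cB`);
`w` is odd (`odd_of_lY`, `B.e_odd`).  By `supp`, `n ≤ f N ^ 2 (n - #{k | w_k = 0})`. -/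
theorem unif_zero (B : Blk H ℓ m N f ε e) {w : MonoidAlgebra (ZMod ℓ) G} (hw : e * w = w)
    (h0 : w ≠ 0) : (({k : ι | w.coeff (H.t k)⁻¹ = 0}.ncard : ℕ) : ℝ) ≤
      Fintype.card ι * (1 - 1 / (f * N * N : ℝ)) := by
  classical
  have hodd : w * H.cc _ = -w := odd_of_lY B.e_odd hw
  have h1 := supp H (UnifV e) (fun g w hw => by
    have h3 : e * w = w := hw
    change e * (MonoidAlgebra.single g 1 * w) = MonoidAlgebra.single g 1 * w
    rw [← mul_assoc, B.e_cen, mul_assoc, h3]) (w := w) hw hodd h0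
  rw [Unif_finrank B] at h1
  have h2 := Set.ncard_add_ncard_compl {k : ι | w.coeff (H.t k)⁻¹ = 0}
  have h3 : {k : ι | w.coeff (H.t k)⁻¹ = 0}ᶜ = {k : ι | w.coeff (H.t k)⁻¹ ≠ 0} := rfl
  rw [h3, Nat.card_eq_fintype_card] at h2
  obtain ⟨Z, hZ⟩ : ∃ Z, Z = {k : ι | w.coeff (H.t k)⁻¹ = 0}.ncard := ⟨_, rfl⟩
  obtain ⟨Y, hY⟩ : ∃ Y, Y = {k : ι | w.coeff (H.t k)⁻¹ ≠ 0}.ncard := ⟨_, rfl⟩
  rw [← hZ, ← hY] at h2
  rw [← hY] at h1
  rw [← hZ]
  have hD : (0 : ℝ) < f * N * N := by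
    have := B.f_pos
    have := B.N_pos
    positivity
  have h4 : (Fintype.card ι : ℝ) ≤ f * N * N * Y := by exact_mod_cast h1
  have h5 : (Z : ℝ) + Y = Fintype.card ι := by exact_mod_cast h2
  have h6 : (Fintype.card ι : ℝ) / (f * N * N) ≤ Y := by
    rw [div_le_iff₀ hD]
    linarith
  have h7 : (Fintype.card ι : ℝ) * (1 - 1 / (f * N * N : ℝ)) =
      Fintype.card ι - Fintype.card ι / (f * N * N) := by ring
  rw [h7]
  linarith

theorem Unif_num {ℓ D k₀ : ℕ} (hℓ : 2 ≤ ℓ) (hD : 1 ≤ D) (hk : (D : ℝ) ^ 2 * Real.log ℓ ≤ k₀) :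
    (ℓ : ℝ) ^ D * (1 - 1 / (D : ℝ)) ^ k₀ ≤ 1 := by
  have hD' : (1 : ℝ) ≤ D := by exact_mod_cast hD
  have hD0 : (0 : ℝ) < D := by linarith
  have hℓ' : (0 : ℝ) < ℓ := by positivity
  have h1 : (1 - 1 / (D : ℝ)) ≤ Real.exp (-(1 / (D : ℝ))) := by
    have := Real.add_one_le_exp (-(1 / (D : ℝ)))
    linarith
  have h0 : 0 ≤ 1 - 1 / (D : ℝ) := by
    rw [sub_nonneg, div_le_one hD0]
    exact hD'
  have h2 : (1 - 1 / (D : ℝ)) ^ k₀ ≤ Real.exp (-(k₀ / (D : ℝ))) := by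
    refine (pow_le_pow_left₀ h0 h1 k₀).trans (le_of_eq ?_)
    rw [← Real.exp_nat_mul]
    congr 1
    ring
  have h3 : (ℓ : ℝ) ^ D = Real.exp (D * Real.log ℓ) := by
    rw [Real.exp_nat_mul, Real.exp_log hℓ']
  have h4 : (D : ℝ) * Real.log ℓ ≤ k₀ / D := by
    rw [le_div_iff₀ hD0]
    calc (D : ℝ) * Real.log ℓ * D = (D : ℝ) ^ 2 * Real.log ℓ := by ring
      _ ≤ k₀ := hk
  calc (ℓ : ℝ) ^ D * (1 - 1 / (D : ℝ)) ^ k₀
      ≤ Real.exp (D * Real.log ℓ) * Real.exp (-(k₀ / (D : ℝ))) := by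
        rw [h3]
        exact mul_le_mul_of_nonneg_left h2 (Real.exp_nonneg _)
    _ = Real.exp (D * Real.log ℓ - k₀ / D) := by
        rw [← Real.exp_add]
        congr 1
    _ ≤ 1 := by
        rw [Real.exp_le_one_iff]
        linarith

/-- PROOF. Let `β = e * β`.  By `orth` for the idempotent `e` (`rX e = lY e` as `e` is central) with
`w = e * rho - β`: `card (rX e) * #{s | e * rho s = β} = ∑_{x ∈ rX e} stdAddChar (- (x β).coeff 1) *
∑_s stdAddChar ((x * rho s).coeff 1)`, whose absolute value is at most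
`∑_x (ℓ #{k | x_k = 0}) ^ k₀ ≤ (n ℓ) ^ k₀ (1 + ℓ ^ (f N ^ 2) (1 - 1 / (f N ^ 2)) ^ k₀)` by `unif_sum` and `unif_zero`,
and `(1 - 1 / (f N ^ 2)) ^ k₀ ≤ exp (- k₀ / (f N ^ 2)) ≤ exp (- f N ^ 2 log ℓ)`. -/
theorem unif (B : Blk H ℓ m N f ε e) {k₀ : ℕ}
    (hk : (f : ℝ) ^ 2 * (N : ℝ) ^ 4 * Real.log ℓ ≤ k₀)
    {β : MonoidAlgebra (ZMod ℓ) G} (hβ : e * β = β) :
    ({s : Fin k₀ → ι × Rl ℓ | e * toP ℓ (rho H s) = β}.ncard : ℝ) * (ℓ : ℝ) ^ (f * N * N)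
      ≤ 2 * (Fintype.card ι * ℓ : ℝ) ^ k₀ := by
  classical
  have hp : ℓ.Prime := Fact.out
  have hD : 1 ≤ f * N * N := Nat.mul_pos (Nat.mul_pos B.f_pos B.N_pos) B.N_pos
  have hD' : (1 : ℝ) ≤ ((f * N * N : ℕ) : ℝ) := by exact_mod_cast hD
  have hcard : (rX e).card = ℓ ^ (f * N * N) := by
    rw [← B.cB]
    congr 1
    ext x
    rw [mem_rX, mem_lY, B.e_cen]
  have hset : {s : Fin k₀ → ι × Rl ℓ | e * toP ℓ (rho H s) = β}.ncard =
      (univ.filter fun s : Fin k₀ → ι × Rl ℓ => e * toP ℓ (rho H s) = β).card := by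
    rw [← Set.ncard_coe_finset]
    congr 1
    ext s
    simp
  -- the double sum
  have h1 : ∑ s : Fin k₀ → ι × Rl ℓ, ∑ x ∈ rX e,
      (ZMod.stdAddChar ((x * (e * toP ℓ (rho H s) - β)).coeff 1) : ℂ) =
      ({s : Fin k₀ → ι × Rl ℓ | e * toP ℓ (rho H s) = β}.ncard : ℂ) * (ℓ : ℂ) ^ (f * N * N) := by
    have h2 : ∀ s : Fin k₀ → ι × Rl ℓ, ∑ x ∈ rX e,
        (ZMod.stdAddChar ((x * (e * toP ℓ (rho H s) - β)).coeff 1) : ℂ) =
        if e * toP ℓ (rho H s) = β then ((rX e).card : ℂ) else 0 := by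
      intro s
      rw [orth B.e_idem (by rw [mul_sub, ← mul_assoc, B.e_idem, hβ])]
      simp only [sub_eq_zero]
    rw [sum_congr rfl fun s _ => h2 s, ← sum_filter, sum_const, nsmul_eq_mul, hset, hcard]
    push_cast
    rfl
  have h3 : ∀ x ∈ rX e, ∑ s : Fin k₀ → ι × Rl ℓ,
      (ZMod.stdAddChar ((x * (e * toP ℓ (rho H s) - β)).coeff 1) : ℂ) =
      ZMod.stdAddChar (-(x * β).coeff 1) *
        (((ℓ * {k : ι | x.coeff (H.t k)⁻¹ = 0}.ncard : ℕ) : ℂ)) ^ k₀ := by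
    intro x hx
    rw [mem_rX] at hx
    rw [← unif_sum B.ne2, mul_sum]
    refine sum_congr rfl fun s _ => ?_
    rw [← AddChar.map_add_eq_mul, mul_sub, ← mul_assoc, hx]
    congr 1
    have h4 : (x * toP ℓ (rho H s) - x * β).coeff 1 =
      (x * toP ℓ (rho H s)).coeff 1 - (x * β).coeff 1 := rfl
    rw [h4]
    ring
  have h4 : ∀ x ∈ rX e, ‖∑ s : Fin k₀ → ι × Rl ℓ,
      (ZMod.stdAddChar ((x * (e * toP ℓ (rho H s) - β)).coeff 1) : ℂ)‖ ≤
      (if x = 0 then (Fintype.card ι * ℓ : ℝ) ^ k₀ else 0) +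
        (Fintype.card ι * ℓ : ℝ) ^ k₀ * (1 - 1 / ((f * N * N : ℕ) : ℝ)) ^ k₀ := by
    intro x hx
    have h0 : 0 ≤ 1 - 1 / ((f * N * N : ℕ) : ℝ) := by
      rw [sub_nonneg, div_le_one (by linarith)]
      exact hD'
    rw [h3 x hx, norm_mul, norm_pow, Complex.norm_natCast]
    have h5 : ‖(ZMod.stdAddChar (-(x * β).coeff 1) : ℂ)‖ = 1 := AddChar.norm_apply _ _
    rw [h5, one_mul]
    by_cases hx0 : x = 0
    · rw [if_pos hx0]
      have h6 : {k : ι | x.coeff (H.t k)⁻¹ = 0}.ncard ≤ Fintype.card ι := by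
        rw [← Nat.card_eq_fintype_card]
        exact Set.ncard_le_card _
      have h7 : ((ℓ * {k : ι | x.coeff (H.t k)⁻¹ = 0}.ncard : ℕ) : ℝ) ≤ Fintype.card ι * ℓ := by
        push_cast
        rw [mul_comm]
        refine mul_le_mul_of_nonneg_right ?_ (by positivity)
        exact_mod_cast h6
      refine le_add_of_le_of_nonneg (pow_le_pow_left₀ (by positivity) h7 k₀) ?_
      exact mul_nonneg (by positivity) (pow_nonneg h0 _)
    · rw [if_neg hx0, zero_add, ← mul_pow]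
      refine pow_le_pow_left₀ (by positivity) ?_ k₀
      have h6 : e * x = x := by
        rw [mem_rX] at hx
        rw [B.e_cen, hx]
      have h7 := unif_zero B h6 hx0
      push_cast
      calc (ℓ : ℝ) * ({k : ι | x.coeff (H.t k)⁻¹ = 0}.ncard : ℝ)
          ≤ ℓ * (Fintype.card ι * (1 - 1 / (f * N * N : ℝ))) :=
            mul_le_mul_of_nonneg_left h7 (by positivity)
        _ = _ := by ring
  have h5 : ‖∑ s : Fin k₀ → ι × Rl ℓ, ∑ x ∈ rX e,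
      (ZMod.stdAddChar ((x * (e * toP ℓ (rho H s) - β)).coeff 1) : ℂ)‖ ≤
      (Fintype.card ι * ℓ : ℝ) ^ k₀ + (Fintype.card ι * ℓ : ℝ) ^ k₀ *
        ((ℓ : ℝ) ^ (f * N * N) * (1 - 1 / ((f * N * N : ℕ) : ℝ)) ^ k₀) := by
    rw [sum_comm]
    refine (norm_sum_le _ _).trans ((sum_le_sum h4).trans ?_)
    rw [sum_add_distrib, sum_const, nsmul_eq_mul, hcard, ← sum_filter]
    refine add_le_add ?_ (le_of_eq (by push_cast; ring))
    rw [sum_const, nsmul_eq_mul]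
    have h6 : ((rX e).filter fun x => x = 0).card ≤ 1 := by
      rw [card_le_one]
      intro a ha b hb
      rw [mem_filter] at ha hb
      rw [ha.2, hb.2]
    have h7 : (((rX e).filter fun x => x = 0).card : ℝ) ≤ 1 := by exact_mod_cast h6
    exact mul_le_of_le_one_left (by positivity) h7
  have h6 := Unif_num (ℓ := ℓ) (D := f * N * N) (k₀ := k₀) hp.two_le hD (by
    push_cast
    have h9 : ((f : ℝ) * N * N) ^ 2 * Real.log ℓ = (f : ℝ) ^ 2 * (N : ℝ) ^ 4 * Real.log ℓ := by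
      ring
    rw [h9]
    exact hk)
  have h7 : ‖∑ s : Fin k₀ → ι × Rl ℓ, ∑ x ∈ rX e,
      (ZMod.stdAddChar ((x * (e * toP ℓ (rho H s) - β)).coeff 1) : ℂ)‖ =
      ({s : Fin k₀ → ι × Rl ℓ | e * toP ℓ (rho H s) = β}.ncard : ℝ) *
        (ℓ : ℝ) ^ (f * N * N) := by
    rw [h1, norm_mul, norm_pow, Complex.norm_natCast, Complex.norm_natCast]
  rw [← h7]
  refine h5.trans ?_
  have h8 : (0 : ℝ) ≤ (Fintype.card ι * ℓ : ℝ) ^ k₀ := by positivity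
  nlinarith [mul_le_mul_of_nonneg_left h6 h8]

end Pool.MP43e44c.MD
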