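import Pool.Agent.H.MP_43e44c_ag.MD.Sep
import Pool.Agent.H.MP_43e44c_ag.MD.Card
import Pool.Agent.H.MP_43e44c_ag.MD.Nz

/-!
Left ideals generated by two vectors; energy and reduction.
-/

set_option autoImplicit false

open Finset Module

namespace Pool.MP43e44c.MD

open Pool.MP43e44c.OD Pool.MP43e44c.GA

universe u v

variable {G : Type u} [Group G] [Fintype G] {ι : Type v} {H : Half G ι} [Fintype ι]
  {ℓ m N f : ℕ} [Fact ℓ.Prime] {ε : MonoidAlgebra ℤ G} {e : MonoidAlgebra (ZMod ℓ) G}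

/-- The left ideal of all `x' * y' + x'' * y''`, `x'` and `x''` in the left ideal of `ε` modulo `ℓ`. -/
noncomputable def VV (ε y' y'' : MonoidAlgebra (ZMod ℓ) G) :
    Submodule (ZMod ℓ) (MonoidAlgebra (ZMod ℓ) G) where
  carrier := {z | ∃ x' x'' : MonoidAlgebra (ZMod ℓ) G, x' * ε = x' ∧ x'' * ε = x'' ∧
    z = x' * y' + x'' * y''}
  zero_mem' := ⟨0, 0, by simp, by simp, by simp⟩
  add_mem' := by
    rintro a b ⟨x1, x2, h1, h2, h3⟩ ⟨x3, x4, h4, h5, h6⟩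
    refine ⟨x1 + x3, x2 + x4, by rw [add_mul, h1, h4], by rw [add_mul, h2, h5], ?_⟩
    rw [h3, h6, add_mul, add_mul]
    abel
  smul_mem' := by
    rintro c a ⟨x1, x2, h1, h2, h3⟩
    refine ⟨c • x1, c • x2, by rw [smul_mul_assoc, h1], by rw [smul_mul_assoc, h2], ?_⟩
    rw [h3, smul_mul_assoc, smul_mul_assoc, smul_add]

theorem VV_finrank_le (V : Submodule (ZMod ℓ) (MonoidAlgebra (ZMod ℓ) G))
    (F : Finset (MonoidAlgebra (ZMod ℓ) G)) (hV : ∀ z ∈ V, z ∈ F) {n : ℕ} (hF : F.card ≤ ℓ ^ n) :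
    finrank (ZMod ℓ) V ≤ n := by
  have h1 : Nat.card V = Nat.card (ZMod ℓ) ^ finrank (ZMod ℓ) V :=
    Module.natCard_eq_pow_finrank
  rw [Nat.card_zmod] at h1
  have h2 : Nat.card V ≤ F.card := by
    have h3 : Nat.card V = (V : Set (MonoidAlgebra (ZMod ℓ) G)).ncard :=
      Nat.card_coe_set_eq _
    rw [h3, ← Set.ncard_coe_finset F]
    exact Set.ncard_le_ncard (fun z hz => hV z hz) F.finite_toSet
  rw [h1] at h2
  have h4 : 1 < ℓ := (Fact.out : ℓ.Prime).one_lt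
  exact (Nat.pow_le_pow_iff_right h4).1 (h2.trans hF)

/-- PROOF. `VV` is the image of a space with `(card rX) ^ 2 = ℓ ^ (2 * (f * N))` elements, and
`card VV = ℓ ^ finrank` (`Module.card_eq_pow_finrank` or `Module.natCard_eq_pow_finrank`). -/
theorem finrank_VV (B : Blk H ℓ m N f ε e) (y' y'' : MonoidAlgebra (ZMod ℓ) G) :
    finrank (ZMod ℓ) (VV (toP ℓ ε) y' y'') ≤ 2 * (f * N) := by
  classical
  refine VV_finrank_le _ ((rX (toP ℓ ε) ×ˢ rX (toP ℓ ε)).image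
    fun p => p.1 * y' + p.2 * y'') ?_ ?_
  · rintro z ⟨x1, x2, h1, h2, h3⟩
    rw [mem_image]
    exact ⟨(x1, x2), mem_product.2 ⟨mem_rX.2 h1, mem_rX.2 h2⟩, h3.symm⟩
  · refine card_image_le.trans ?_
    rw [card_product, B.cX, two_mul, pow_add]

/-- With `y'' = 0` the dimension is at most `f * N`. -/
theorem finrank_VV_zero (B : Blk H ℓ m N f ε e) (y' : MonoidAlgebra (ZMod ℓ) G) :
    finrank (ZMod ℓ) (VV (toP ℓ ε) y' 0) ≤ f * N := by
  classical
  refine VV_finrank_le _ ((rX (toP ℓ ε)).image fun x => x * y') ?_ ?_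
  · rintro z ⟨x1, x2, h1, h2, h3⟩
    rw [mem_image]
    refine ⟨x1, mem_rX.2 h1, ?_⟩
    rw [h3, mul_zero, add_zero]
  · refine card_image_le.trans ?_
    rw [B.cX]

/-- PROOF. `ℓ` times the distance at level `i` is at least the distance at level `i - 1` (`nz_red`). -/
theorem en_red {i : ℕ} (z : MonoidAlgebra ℤ G) :
    en H (toP (ℓ ^ i) z) ≤ (ℓ : ℝ) ^ 2 * en H (toP (ℓ ^ (i + 1)) z) := by
  unfold en
  rw [mul_sum]
  refine sum_le_sum fun k _ => ?_
  have h1 : ∀ M : ℕ, 2 * (toP M z).coeff (H.t k)⁻¹ =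
      ((2 * z.coeff (H.t k)⁻¹ : ℤ) : ZMod M) := by
    intro M
    rw [toP_coeff]
    push_cast
    rfl
  rw [h1, h1, ← mul_pow]
  exact pow_le_pow_left₀ (nz_nonneg _) (nz_red i _) 2

end Pool.MP43e44c.MD
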